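import Pool.Agent.Lib.MP_c8a077_gt.Defs

/-!
# JOB A1a: the unit cylinder piece has finite Hausdorff measure

PROOF.  `d+1 = finrank W`, `d ≥ 1`.  Let `V = (ℝ∙v)ᗮ`, `finrank V = d`, choose an orthonormal basis
`b : OrthonormalBasis (Fin d) ℝ V`.  A point of `surf v 1 (Icc 0 1)` is `x₀ v + y`, `x₀ ∈ [0,1]`,
`y ∈ V`, `‖y‖ = 1`.  Let `i` be an index with `|y_i|` maximal; `y_i ≠ 0` and
`y = N(y / |y_i|)` with `N z = ‖z‖⁻¹ • z`, where `z = y/|y_i|` has `z_i = ±1`, `|z_j| ≤ 1`.
So the set is covered by the finitely many images (over `i` and the sign) of the box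
`[-1,1]^d ⊂ (Fin d → ℝ)` (sup metric) under
`c ↦ c_i v + N(± b_i + ∑_{j ≠ i} c_j b_j)`.  This map is Lipschitz on the box: the inner map is affine and
`N` is 2-Lipschitz on `{‖z‖ ≥ 1}`.  `LipschitzOnWith.hausdorffMeasure_image_le`,
`hausdorffMeasure_pi_real` (`μH[d]` on `Fin d → ℝ` is Lebesgue measure) and boundedness of the box
give finiteness.
-/

open MeasureTheory Set Metric Topology Filter

namespace Pool.Agent.MP_c8a077_gt

theorem A1a_image_finite {W : Type*} [NormedAddCommGroup W] [InnerProductSpace ℝ W]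
    [MeasurableSpace W] [BorelSpace W] (d : ℕ) (f : (Fin d → ℝ) → W) (S : Set (Fin d → ℝ))
    (hS : IsCompact S) (hf : ∀ x ∈ S, ContDiffAt ℝ 1 f x) : μH[(d : ℝ)] (f '' S) < ⊤ := by
  refine hS.induction_on (p := fun t => μH[(d : ℝ)] (f '' t) < ⊤) ?_ ?_ ?_ ?_
  · rw [image_empty, measure_empty]
    exact ENNReal.zero_lt_top
  · intro s t hst ht
    exact (measure_mono (image_mono hst)).trans_lt ht
  · intro s t hs ht
    rw [image_union]
    exact (measure_union_le _ _).trans_lt (ENNReal.add_lt_top.2 ⟨hs, ht⟩)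
  · intro x hx
    obtain ⟨K, t, ht, hK⟩ := (hf x hx).exists_lipschitzOnWith
    refine ⟨t ∩ Metric.ball x 1,
      mem_nhdsWithin_of_mem_nhds (Filter.inter_mem ht (Metric.ball_mem_nhds x one_pos)), ?_⟩
    have h1 := (hK.mono (inter_subset_left (t := Metric.ball x 1))).hausdorffMeasure_image_le
      (Nat.cast_nonneg (α := ℝ) d)
    refine h1.trans_lt (ENNReal.mul_lt_top ?_ ?_)
    · exact ENNReal.rpow_lt_top_of_nonneg (Nat.cast_nonneg d) ENNReal.coe_ne_top
    · refine (measure_mono inter_subset_right).trans_lt ?_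
      have h2 : (μH[(d : ℝ)] : Measure (Fin d → ℝ)) = volume := by
        have h3 := hausdorffMeasure_pi_real (ι := Fin d)
        rwa [Fintype.card_fin] at h3
      rw [h2]
      exact measure_ball_lt_top

theorem cyl_finite {W : Type*} [NormedAddCommGroup W] [InnerProductSpace ℝ W]
    [FiniteDimensional ℝ W] [MeasurableSpace W] [BorelSpace W] (v : W) (hv : ‖v‖ = 1) (d : ℕ)
    (hd : 1 ≤ d) (hW : Module.finrank ℝ W = d + 1) :
    μH[(d : ℝ)] (surf v (fun _ => 1) (Icc 0 1)) < ⊤ := by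
  classical
  have hv0 : v ≠ 0 := by
    intro h
    rw [h, norm_zero] at hv
    exact zero_ne_one hv
  haveI : Fact (Module.finrank ℝ W = d + 1) := ⟨hW⟩
  have hfr : Module.finrank ℝ ((ℝ ∙ v)ᗮ : Submodule ℝ W) = d :=
    Submodule.finrank_orthogonal_span_singleton hv0
  let b : OrthonormalBasis (Fin d) ℝ ((ℝ ∙ v)ᗮ : Submodule ℝ W) :=
    (stdOrthonormalBasis ℝ ((ℝ ∙ v)ᗮ : Submodule ℝ W)).reindex (finCongr hfr)
  haveI : Nonempty (Fin d) := ⟨⟨0, by omega⟩⟩
  have hbb : ∀ i j : Fin d, inner ℝ ((b i : W)) ((b j : W)) = if i = j then (1 : ℝ) else 0 := by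
    intro i j
    have h1 := (orthonormal_iff_ite.1 b.orthonormal) i j
    rwa [Submodule.coe_inner] at h1
  let zz : Fin d → ℝ → (Fin d → ℝ) → W := fun i ε c =>
    ε • (b i : W) + ∑ j ∈ Finset.univ.erase i, c j • (b j : W)
  let F : Fin d × Bool → (Fin d → ℝ) → W := fun p c =>
    c p.1 • v + ‖zz p.1 (if p.2 then 1 else -1) c‖⁻¹ • zz p.1 (if p.2 then 1 else -1) c
  have hzz : ∀ i ε c, inner ℝ ((b i : W)) (zz i ε c) = ε := by
    intro i ε c
    show inner ℝ ((b i : W)) (ε • (b i : W) + ∑ j ∈ Finset.univ.erase i, c j • (b j : W)) = ε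
    rw [inner_add_right, inner_sum, inner_smul_right, hbb, if_pos rfl, mul_one, Finset.sum_eq_zero,
      add_zero]
    intro j hj
    rw [inner_smul_right, hbb, if_neg (Finset.ne_of_mem_erase hj).symm, mul_zero]
  have hzz0 : ∀ i (s : Bool) c, zz i (if s then 1 else -1) c ≠ 0 := by
    intro i s c h
    have h1 := hzz i (if s then 1 else -1) c
    rw [h, inner_zero_right] at h1
    cases s
    · norm_num at h1
    · norm_num at h1
  have hzc : ∀ i ε, ContDiff ℝ 1 (zz i ε) := by
    intro i ε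
    refine contDiff_const.add (ContDiff.sum fun j _ => ?_)
    exact (contDiff_apply ℝ ℝ j).smul contDiff_const
  have hF : ∀ p c, ContDiffAt ℝ 1 (F p) c := by
    intro p c
    have h1 : ContDiffAt ℝ 1 (zz p.1 (if p.2 then 1 else -1)) c := (hzc _ _).contDiffAt
    have h2 : ContDiffAt ℝ 1 (fun c => ‖zz p.1 (if p.2 then 1 else -1) c‖) c :=
      h1.norm ℝ (hzz0 p.1 p.2 c)
    have h3 := h2.inv (norm_ne_zero_iff.2 (hzz0 p.1 p.2 c))
    exact ((contDiff_apply ℝ ℝ p.1).smul contDiff_const).contDiffAt.add (h3.smul h1)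
  have hcov : surf v (fun _ => 1) (Icc 0 1) ⊆ ⋃ p : Fin d × Bool,
      F p '' (Icc (fun _ => (-1 : ℝ)) (fun _ => 1)) := by
    intro x hx
    obtain ⟨hx0, hx1⟩ := hx
    have hx1' : ‖x - (inner ℝ x v : ℝ) • v‖ = 1 := hx1
    set x0 : ℝ := inner ℝ x v with hx0def
    set y : W := x - x0 • v with hy
    have hyV : y ∈ ((ℝ ∙ v)ᗮ : Submodule ℝ W) := by
      rw [Submodule.mem_orthogonal_singleton_iff_inner_left, hy, inner_sub_left, inner_smul_left,
        real_inner_self_eq_norm_sq, hv, ← hx0def]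
      simp
    let Y : ((ℝ ∙ v)ᗮ : Submodule ℝ W) := ⟨y, hyV⟩
    have hsum : ∑ j, b.repr Y j • (b j : W) = y := by
      have h1 := congrArg (fun w : ((ℝ ∙ v)ᗮ : Submodule ℝ W) => (w : W)) (b.sum_repr Y)
      simpa using h1
    obtain ⟨i, hi⟩ := Finite.exists_max (fun j => |b.repr Y j|)
    have hi0 : b.repr Y i ≠ 0 := by
      intro h
      have h2 : ∀ j, b.repr Y j = 0 := by
        intro j
        have h3 := hi j
        rw [h, abs_zero] at h3
        exact abs_eq_zero.1 (le_antisymm h3 (abs_nonneg _))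
      have h4 : y = 0 := by
        rw [← hsum]
        refine Finset.sum_eq_zero fun j _ => ?_
        rw [h2 j, zero_smul]
      rw [h4, norm_zero] at hx1'
      exact zero_ne_one hx1'
    have hci : 0 < |b.repr Y i| := abs_pos.2 hi0
    set p : Fin d → ℝ := fun j => if j = i then x0 else b.repr Y j / |b.repr Y i| with hp
    have hpm : p ∈ Icc (fun _ => (-1 : ℝ)) (fun _ : Fin d => (1 : ℝ)) := by
      have h1 : ∀ j, |p j| ≤ 1 := by
        intro j
        rw [hp]
        dsimp only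
        split_ifs with h
        · rw [abs_of_nonneg hx0.1]
          exact hx0.2
        · rw [abs_div, abs_abs, div_le_one hci]
          exact hi j
      exact ⟨fun j => (abs_le.1 (h1 j)).1, fun j => (abs_le.1 (h1 j)).2⟩
    obtain ⟨s, hs⟩ : ∃ s : Bool, (if s then (1 : ℝ) else -1) = b.repr Y i / |b.repr Y i| := by
      rcases lt_or_gt_of_ne hi0 with h | h
      · refine ⟨false, ?_⟩
        rw [abs_of_neg h, div_neg, div_self hi0]
        simp
      · refine ⟨true, ?_⟩
        rw [abs_of_pos h, div_self hi0]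
        simp
    have hz : zz i (if s then 1 else -1) p = |b.repr Y i|⁻¹ • y := by
      show (if s then (1 : ℝ) else -1) • (b i : W) + ∑ j ∈ Finset.univ.erase i, p j • (b j : W) = _
      rw [hs, ← hsum, Finset.smul_sum, ← Finset.add_sum_erase _ _ (Finset.mem_univ i)]
      congr 1
      · rw [smul_smul, div_eq_inv_mul]
      · refine Finset.sum_congr rfl fun j hj => ?_
        rw [hp]
        dsimp only
        rw [if_neg (Finset.ne_of_mem_erase hj), smul_smul, div_eq_inv_mul]
    refine mem_iUnion.2 ⟨(i, s), p, hpm, ?_⟩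
    show p i • v + ‖zz i (if s then 1 else -1) p‖⁻¹ • zz i (if s then 1 else -1) p = x
    rw [hz, norm_smul, hx1', mul_one, norm_inv, Real.norm_eq_abs, abs_abs, inv_inv, smul_smul,
      mul_inv_cancel₀ hci.ne', one_smul]
    have hpi : p i = x0 := by
      rw [hp]
      dsimp only
      rw [if_pos rfl]
    rw [hpi, hy]
    abel
  refine (measure_mono hcov).trans_lt ?_
  refine (measure_iUnion_le _).trans_lt ?_
  rw [tsum_fintype]
  exact ENNReal.sum_lt_top.2 fun p _ =>
    A1a_image_finite d (F p) _ isCompact_Icc fun c _ => hF p c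

end Pool.Agent.MP_c8a077_gt
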