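import Pool.Agent.Lib.MP_c8a077_gt.Defs

/-!
# JOB A1b: the unit cylinder piece has positive Hausdorff measure

PROOF.  `d+1 = finrank W`, `d ≥ 1`.  Choose a unit vector `w₀` orthogonal to `v` (possible since
`finrank W ≥ 2`), `U = (ℝ∙w₀)ᗮ`, `finrank U = d`, and `π` the orthogonal projection onto `U`
(1-Lipschitz; there is `hausdorffMeasure_orthogonalProjectionOnto_le`).  The image
of `surf v 1 (Ioc 0 1)` contains the open subset
`{y ∈ U : 0 < ⟨y,v⟩ < 1, ‖y - ⟨y,v⟩v‖ < 1}` of `U`: such a `y` is the projection of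
`y + √(1 - ‖y - ⟨y,v⟩v‖²) w₀`.  This open set is nonempty (it contains `v/2`), and `μH[d]` on `U` is an
additive Haar measure (`isAddHaarMeasure_hausdorffMeasure`, `finrank U = d`), so it has positive
measure.
-/

open MeasureTheory Set Metric Topology Filter

namespace Pool.Agent.MP_c8a077_gt

private theorem a1b_exists_unit {W : Type*} [NormedAddCommGroup W] [InnerProductSpace ℝ W]
    [FiniteDimensional ℝ W] (v : W) (hv : ‖v‖ = 1) (d : ℕ)
    (hd : 1 ≤ d) (hW : Module.finrank ℝ W = d + 1) :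
    ∃ w : W, ‖w‖ = 1 ∧ inner ℝ w v = 0 := by
  have : Fact (Module.finrank ℝ W = d + 1) := ⟨hW⟩
  have hv0 : v ≠ 0 := by
    intro h
    rw [h, norm_zero] at hv
    exact absurd hv (by norm_num)
  have hf : Module.finrank ℝ ((ℝ ∙ v)ᗮ : Submodule ℝ W) = d := Submodule.finrank_orthogonal_span_singleton hv0
  have : Nontrivial ((ℝ ∙ v)ᗮ : Submodule ℝ W) := by
    apply Module.nontrivial_of_finrank_pos (R := ℝ)
    omega
  obtain ⟨w, hw⟩ := exists_ne (0 : ((ℝ ∙ v)ᗮ : Submodule ℝ W))
  have hw0 : (w : W) ≠ 0 := by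
    intro h
    exact hw (Subtype.ext h)
  have hwv : inner ℝ (w : W) v = 0 := by
    have h1 := (Submodule.mem_orthogonal_singleton_iff_inner_right (𝕜 := ℝ) (u := v)).mp w.2
    rw [real_inner_comm]
    exact h1
  refine ⟨(‖(w : W)‖⁻¹ : ℝ) • (w : W), ?_, ?_⟩
  · rw [norm_smul, norm_inv, norm_norm, inv_mul_cancel₀ (norm_ne_zero_iff.mpr hw0)]
  · rw [inner_smul_left, hwv, mul_zero]

theorem cyl_pos {W : Type*} [NormedAddCommGroup W] [InnerProductSpace ℝ W]
    [FiniteDimensional ℝ W] [MeasurableSpace W] [BorelSpace W] (v : W) (hv : ‖v‖ = 1) (d : ℕ)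
    (hd : 1 ≤ d) (hW : Module.finrank ℝ W = d + 1) :
    0 < μH[(d : ℝ)] (surf v (fun _ => 1) (Ioc 0 1)) := by
  obtain ⟨w, hw1, hwv⟩ := a1b_exists_unit v hv d hd hW
  have : Fact (Module.finrank ℝ W = d + 1) := ⟨hW⟩
  have hw0 : w ≠ 0 := by
    intro h
    rw [h, norm_zero] at hw1
    exact absurd hw1 (by norm_num)
  set U : Submodule ℝ W := (ℝ ∙ w)ᗮ with hU
  have hf : Module.finrank ℝ U = d := Submodule.finrank_orthogonal_span_singleton hw0
  have hUw : ∀ y : U, inner ℝ w (y : W) = 0 := fun y =>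
    (Submodule.mem_orthogonal_singleton_iff_inner_right (𝕜 := ℝ) (u := w)).mp y.2
  refine lt_of_lt_of_le ?_ (hausdorffMeasure_orthogonalProjectionOnto_le U (d : ℝ)
    (surf v (fun _ => 1) (Ioc 0 1)) (Nat.cast_nonneg d))
  set O : Set U := {y : U | 0 < inner ℝ (y : W) v ∧ inner ℝ (y : W) v < 1 ∧
    ‖(y : W) - (inner ℝ (y : W) v : ℝ) • v‖ < 1} with hO
  have hc1 : Continuous fun y : U => inner ℝ (y : W) v := by fun_prop
  have hOo : IsOpen O := by
    rw [hO]
    have hc2 : Continuous fun y : U => ‖(y : W) - (inner ℝ (y : W) v : ℝ) • v‖ :=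
      (continuous_subtype_val.sub (hc1.smul continuous_const)).norm
    exact (isOpen_lt continuous_const hc1).inter ((isOpen_lt hc1 continuous_const).inter
      (isOpen_lt hc2 continuous_const))
  have hvU : v ∈ U := (Submodule.mem_orthogonal_singleton_iff_inner_right (𝕜 := ℝ) (u := w)).mpr hwv
  have hvv : inner ℝ v v = (1 : ℝ) := by
    rw [real_inner_self_eq_norm_sq, hv]
    norm_num
  have hOne : O.Nonempty := by
    refine ⟨⟨(1 / 2 : ℝ) • v, U.smul_mem _ hvU⟩, ?_, ?_, ?_⟩
    · change 0 < inner ℝ ((1 / 2 : ℝ) • v) v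
      rw [real_inner_smul_left, hvv]
      norm_num
    · change inner ℝ ((1 / 2 : ℝ) • v) v < 1
      rw [real_inner_smul_left, hvv]
      norm_num
    · change ‖(1 / 2 : ℝ) • v - (inner ℝ ((1 / 2 : ℝ) • v) v : ℝ) • v‖ < 1
      rw [real_inner_smul_left, hvv, mul_one, sub_self, norm_zero]
      norm_num
  have hsub : O ⊆ U.orthogonalProjectionOnto '' (surf v (fun _ => 1) (Ioc 0 1)) := by
    rintro y ⟨hy0, hy1, hy2⟩
    set z : W := (y : W) - (inner ℝ (y : W) v : ℝ) • v with hz
    set s : ℝ := √(1 - ‖z‖ ^ 2) with hs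
    have hs2 : s ^ 2 = 1 - ‖z‖ ^ 2 := by
      rw [hs, Real.sq_sqrt]
      nlinarith [norm_nonneg z]
    have hin : inner ℝ ((y : W) + s • w) v = (inner ℝ (y : W) v : ℝ) := by
      rw [inner_add_left, real_inner_smul_left, hwv, mul_zero, add_zero]
    refine ⟨(y : W) + s • w, ⟨?_, ?_⟩, ?_⟩
    · rw [hin]
      exact ⟨hy0, hy1.le⟩
    · rw [hin]
      have h1 : (y : W) + s • w - (inner ℝ (y : W) v : ℝ) • v = z + s • w := by
        rw [hz]
        abel
      rw [h1]
      have hzw : inner ℝ z w = (0 : ℝ) := by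
        have e1 : inner ℝ (y : W) w = (0 : ℝ) := by
          rw [real_inner_comm]
          exact hUw y
        have e2 : inner ℝ v w = (0 : ℝ) := by
          rw [real_inner_comm]
          exact hwv
        rw [hz, inner_sub_left, real_inner_smul_left, e1, e2]
        simp
      have h2 : ‖z + s • w‖ ^ 2 = 1 := by
        rw [norm_add_sq_real, real_inner_smul_right, hzw, norm_smul, hw1]
        rw [mul_one, Real.norm_eq_abs, sq_abs, hs2]
        ring
      have h3 : ‖z + s • w‖ = 1 := by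
        have := norm_nonneg (z + s • w)
        nlinarith
      exact h3
    · rw [map_add, map_smul]
      have h4 : U.orthogonalProjectionOnto w = 0 := by
        rw [Submodule.orthogonalProjectionOnto_eq_zero_iff, hU]
        exact Submodule.le_orthogonal_orthogonal _ (Submodule.mem_span_singleton_self w)
      rw [h4, smul_zero, add_zero]
      exact Submodule.orthogonalProjectionOnto_mem_subspace_eq_self y
  refine lt_of_lt_of_le ?_ (measure_mono hsub)
  have h5 : Measure.IsAddHaarMeasure (μH[Module.finrank ℝ U] : Measure U) :=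
    isAddHaarMeasure_hausdorffMeasure
  rw [hf] at h5
  exact hOo.measure_pos (μ := (μH[(d : ℝ)] : Measure U)) hOne

end Pool.Agent.MP_c8a077_gt
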