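import Pool.Agent.Lib.MP_c8a077_gt.A1a
import Pool.Agent.Lib.MP_c8a077_gt.A1b

/-!
# JOB A1c: area of a round cylinder

PROOF.  Let `m(x₁,x₂,ρ) = μH[d] (surf v (fun _ => ρ) (Ioc x₁ x₂))`.  Translation by `τ v` is an
isometry and maps `surf v ρ (Ioc x₁ x₂)` onto `surf v ρ (Ioc (x₁+τ) (x₂+τ))`, so `m` depends only on
`x₂ - x₁` and `ρ`.  Additivity: `m(x₁,x₃) = m(x₁,x₂) + m(x₂,x₃)` for `x₁ ≤ x₂ ≤ x₃`
(`measure_inter_add_diff` with the measurable half space `{x | ⟨x,v⟩ ≤ x₂}`).  With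
`M(L) = (m(0,L,1)).toReal`, finite by A1a (cover by translates) and `M(1) > 0` by A1b: `M` is additive
and monotone on `[0,∞)`, hence `M(L) = L M(1)`.  Scaling by `ρ > 0`:
`surf v ρ (Ioc (ρ x₁) (ρ x₂)) = ρ • surf v 1 (Ioc x₁ x₂)` and `μH[d] (ρ • s) = ρ^d μH[d] s`
(`Measure.hausdorffMeasure_smul₀`), so
`m(x₁,x₂,ρ) = ρ^d M((x₂-x₁)/ρ) = C ρ^(d-1) (x₂-x₁)` with `C = M(1)`.
-/

open MeasureTheory Set Metric Topology Filter

namespace Pool.Agent.MP_c8a077_gt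

/-- the part orthogonal to `v` after adding a multiple of `v` -/
private theorem a1c_add {W : Type*} [NormedAddCommGroup W] [InnerProductSpace ℝ W] (v : W)
    (hv : ‖v‖ = 1) (f : ℝ → ℝ) (hf : ∀ s t, f s = f t) (τ : ℝ) (A : Set ℝ) :
    (fun x : W => τ • v + x) '' surf v f ((fun s => τ + s) ⁻¹' A) = surf v f A := by
  have hvv : inner ℝ v v = (1 : ℝ) := by rw [real_inner_self_eq_norm_sq, hv]; norm_num
  have key : ∀ (c : ℝ) (x : W), inner ℝ (c • v + x) v = c + inner ℝ x v := by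
    intro c x
    rw [inner_add_left, real_inner_smul_left, hvv, mul_one]
  have key2 : ∀ (c : ℝ) (x : W), c • v + x - (inner ℝ (c • v + x) v : ℝ) • v =
      x - (inner ℝ x v : ℝ) • v := by
    intro c x
    rw [key, add_smul]
    abel
  ext x
  constructor
  · rintro ⟨y, ⟨hy1, hy2⟩, rfl⟩
    refine ⟨?_, ?_⟩
    · rw [key]
      exact hy1
    · rw [key2, hy2]
      exact hf _ _
  · rintro ⟨hx1, hx2⟩
    refine ⟨(-τ) • v + x, ⟨?_, ?_⟩, ?_⟩
    · rw [mem_preimage, key]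
      have h1 : τ + (-τ + inner ℝ x v) = inner ℝ x v := by ring
      rw [h1]
      exact hx1
    · rw [key2, hx2]
      exact hf _ _
    · change τ • v + ((-τ) • v + x) = x
      rw [neg_smul]
      abel

private theorem a1c_scale {W : Type*} [NormedAddCommGroup W] [InnerProductSpace ℝ W] (v : W)
    (ρ : ℝ) (hρ : 0 < ρ) (x₁ x₂ : ℝ) :
    surf v (fun _ => ρ) (Ioc x₁ x₂) = (fun x : W => ρ • x) '' surf v (fun _ => 1) (Ioc (x₁ / ρ) (x₂ / ρ)) := by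
  have key : ∀ (c : ℝ) (x : W), c • x - (inner ℝ (c • x) v : ℝ) • v =
      c • (x - (inner ℝ x v : ℝ) • v) := by
    intro c x
    rw [real_inner_smul_left, smul_sub, smul_smul]
  ext x
  constructor
  · rintro ⟨⟨h1, h1'⟩, h2⟩
    refine ⟨ρ⁻¹ • x, ⟨⟨?_, ?_⟩, ?_⟩, ?_⟩
    · rw [real_inner_smul_left, div_lt_iff₀ hρ, mul_comm, ← mul_assoc, mul_inv_cancel₀ hρ.ne', one_mul]
      exact h1
    · rw [real_inner_smul_left, le_div_iff₀ hρ, mul_comm, ← mul_assoc, mul_inv_cancel₀ hρ.ne', one_mul]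
      exact h1'
    · rw [key, norm_smul, h2, Real.norm_eq_abs, abs_of_pos (inv_pos.2 hρ)]
      exact inv_mul_cancel₀ hρ.ne'
    · change ρ • ρ⁻¹ • x = x
      rw [smul_smul, mul_inv_cancel₀ hρ.ne', one_smul]
  · rintro ⟨y, ⟨⟨h1, h1'⟩, h2⟩, rfl⟩
    refine ⟨⟨?_, ?_⟩, ?_⟩
    · rw [div_lt_iff₀ hρ] at h1
      rw [real_inner_smul_left, mul_comm]
      exact h1
    · rw [le_div_iff₀ hρ] at h1'
      rw [real_inner_smul_left, mul_comm]
      exact h1'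
    · rw [key, norm_smul, h2, Real.norm_eq_abs, abs_of_pos hρ, mul_one]

theorem cyl_area {W : Type*} [NormedAddCommGroup W] [InnerProductSpace ℝ W]
    [FiniteDimensional ℝ W] [MeasurableSpace W] [BorelSpace W] (v : W) (hv : ‖v‖ = 1) (d : ℕ)
    (hd : 1 ≤ d) (hW : Module.finrank ℝ W = d + 1) :
    ∃ C : ℝ, 0 < C ∧ ∀ x₁ x₂ ρ : ℝ, x₁ ≤ x₂ → 0 < ρ →
      μH[(d : ℝ)] (surf v (fun _ => ρ) (Ioc x₁ x₂)) = ENNReal.ofReal (C * ρ ^ (d - 1) * (x₂ - x₁)) := by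
  have hmeas : Measurable (fun x : W => (inner ℝ x v : ℝ)) :=
    (continuous_id.inner continuous_const).measurable
  let ν : Measure ℝ := (μH[(d : ℝ)].restrict (surf v (fun _ => 1) univ)).map
    (fun x : W => (inner ℝ x v : ℝ))
  have hν : ∀ A : Set ℝ, MeasurableSet A → ν A = μH[(d : ℝ)] (surf v (fun _ => 1) A) := by
    intro A hA
    change (Measure.map _ _) A = _
    rw [Measure.map_apply hmeas hA, Measure.restrict_apply (hmeas hA)]
    congr 1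
    ext x
    constructor
    · rintro ⟨h1, h2⟩
      exact ⟨h1, h2.2⟩
    · rintro ⟨h1, h2⟩
      exact ⟨h1, mem_univ _, h2⟩
  have hinv : ν.IsAddLeftInvariant := by
    refine ⟨fun τ => ?_⟩
    ext A hA
    rw [Measure.map_apply (measurable_const_add τ) hA, hν _ (measurable_const_add τ hA), hν _ hA,
      ← a1c_add v hv (fun _ => 1) (fun _ _ => rfl) τ A]
    exact ((IsometryEquiv.addLeft (τ • v)).hausdorffMeasure_image (d : ℝ) _).symm
  have hfinK : IsFiniteMeasureOnCompacts ν := by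
    refine ⟨fun {K} hK => ?_⟩
    refine measure_lt_top_of_isCompact_of_isAddLeftInvariant (Ioo (0 : ℝ) 1) isOpen_Ioo
      ⟨1 / 2, by norm_num, by norm_num⟩ ?_ hK
    rw [hν _ measurableSet_Ioo]
    refine ((measure_mono ?_).trans_lt (cyl_finite v hv d hd hW)).ne
    intro x hx
    exact ⟨⟨hx.1.1.le, hx.1.2.le⟩, hx.2⟩
  have hsm := Measure.isAddLeftInvariant_eq_smul ν (volume : Measure ℝ)
  set c := Measure.addHaarScalarFactor ν (volume : Measure ℝ) with hc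
  have hval : ∀ a b : ℝ, μH[(d : ℝ)] (surf v (fun _ => 1) (Ioc a b)) = (c : ENNReal) * ENNReal.ofReal (b - a) := by
    intro a b
    rw [← hν _ measurableSet_Ioc, hsm]
    rw [Measure.smul_apply, Real.volume_Ioc]
    rfl
  have hcpos : 0 < c := by
    have h1 := cyl_pos v hv d hd hW
    rw [hval] at h1
    rw [pos_iff_ne_zero]
    intro h2
    rw [h2] at h1
    simp at h1
  refine ⟨(c : ℝ), by exact_mod_cast hcpos, ?_⟩
  intro x₁ x₂ ρ hx hρ
  rw [a1c_scale v ρ hρ]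
  have h1 : μH[(d : ℝ)] ((fun x : W => ρ • x) '' surf v (fun _ => 1) (Ioc (x₁ / ρ) (x₂ / ρ))) =
      ‖ρ‖₊ ^ (d : ℝ) • μH[(d : ℝ)] (surf v (fun _ => 1) (Ioc (x₁ / ρ) (x₂ / ρ))) :=
    Measure.hausdorffMeasure_smul₀ (Nat.cast_nonneg d) hρ.ne' _
  rw [h1, hval]
  have h2 : x₂ / ρ - x₁ / ρ = (x₂ - x₁) / ρ := by ring
  rw [h2]
  have h3 : (‖ρ‖₊ ^ (d : ℝ)) • ((c : ENNReal) * ENNReal.ofReal ((x₂ - x₁) / ρ)) =
      ENNReal.ofReal (ρ ^ d) * (ENNReal.ofReal (c : ℝ) * ENNReal.ofReal ((x₂ - x₁) / ρ)) := by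
    rw [ENNReal.smul_def, smul_eq_mul, ENNReal.ofReal_coe_nnreal]
    congr 1
    rw [NNReal.rpow_natCast]
    have h4 : ((‖ρ‖₊ ^ d : NNReal) : ENNReal) = ENNReal.ofReal (‖ρ‖ ^ d) := by
      rw [ENNReal.ofReal_pow (norm_nonneg _), ofReal_norm]
      push_cast
      rfl
    rw [h4, Real.norm_eq_abs, abs_of_pos hρ]
  rw [h3, ← ENNReal.ofReal_mul c.coe_nonneg, ← ENNReal.ofReal_mul (by positivity)]
  congr 1
  obtain ⟨e, rfl⟩ : ∃ e, d = e + 1 := ⟨d - 1, by omega⟩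
  rw [Nat.add_sub_cancel, pow_succ]
  field_simp

end Pool.Agent.MP_c8a077_gt
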