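import Pool.Agent.Lib.MP_c8a077_gt.Defs

/-!
# JOB A2: comparison of a surface of revolution with a cylinder

PROOF.  The map `Ψ : surf v ρ (lam J) → surf v f J`, `x ↦ s v + (f s / ρ) (x - ⟨x,v⟩ v)` with
`s = ⟨x,v⟩ / lam`, is a bijection (inverse `x ↦ lam ⟨x,v⟩ v + (ρ / f ⟨x,v⟩) (x - ⟨x,v⟩ v)`).
For `x = lam s v + ρ ω`, `x' = lam s' v + ρ ω'` with `ω, ω' ⊥ v` unit vectors:
`‖Ψ x - Ψ x'‖² = (s-s')² + ‖f s ω - f s' ω'‖² = (s-s')² + (f s - f s')² + f s f s' ‖ω - ω'‖²`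
and `‖x - x'‖² = lam² (s-s')² + ρ² ‖ω-ω'‖²`.  By `h1`, `h3` the first is `≤ η²` times the second, by
`h2`, `h4` the second is `≤ η²` times the first.  So `Ψ` is `η`-Lipschitz on the cylinder, its inverse is
`η`-Lipschitz on the surface; `LipschitzOnWith.hausdorffMeasure_image_le`.
-/

open MeasureTheory Set Metric Topology Filter

namespace Pool.Agent.MP_c8a077_gt

/-- Pythagoras for the decomposition along `v` -/
private theorem a2_pyth {W : Type*} [NormedAddCommGroup W] [InnerProductSpace ℝ W] (v : W)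
    (hv : ‖v‖ = 1) (s s' : ℝ) (p p' : W) (hp : inner ℝ p v = (0 : ℝ)) (hp' : inner ℝ p' v = (0 : ℝ)) :
    ‖(s • v + p) - (s' • v + p')‖ ^ 2 = (s - s') ^ 2 + ‖p - p'‖ ^ 2 := by
  have h1 : (s • v + p) - (s' • v + p') = (s - s') • v + (p - p') := by
    rw [sub_smul]
    abel
  have h2 : inner ℝ ((s - s') • v) (p - p') = (0 : ℝ) := by
    rw [real_inner_smul_left, real_inner_comm, inner_sub_left, hp, hp']
    ring
  rw [h1, @norm_add_sq_real, h2, norm_smul, hv, Real.norm_eq_abs, mul_one, sq_abs]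
  ring

private theorem a2_smul {W : Type*} [NormedAddCommGroup W] [InnerProductSpace ℝ W] (c c' r r' : ℝ)
    (p p' : W) (hp : ‖p‖ = r) (hp' : ‖p'‖ = r') :
    ‖c • p - c' • p'‖ ^ 2 = (c * r - c' * r') ^ 2 + c * c' * (‖p - p'‖ ^ 2 - (r - r') ^ 2) := by
  rw [@norm_sub_sq_real, @norm_sub_sq_real, norm_smul, norm_smul, hp, hp', real_inner_smul_left,
    real_inner_smul_right, mul_pow, mul_pow, Real.norm_eq_abs, Real.norm_eq_abs, sq_abs, sq_abs]
  ring

private theorem a2_lip {W : Type*} [NormedAddCommGroup W] {η : ℝ} (hη : 0 < η) {x x' y y' : W}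
    (h : ‖x - x'‖ ^ 2 ≤ η ^ 2 * ‖y - y'‖ ^ 2) : dist x x' ≤ η * dist y y' := by
  rw [dist_eq_norm, dist_eq_norm]
  rw [← mul_pow] at h
  exact (pow_le_pow_iff_left₀ (norm_nonneg _) (by positivity) two_ne_zero).1 h

theorem surf_compare {W : Type*} [NormedAddCommGroup W] [InnerProductSpace ℝ W]
    [MeasurableSpace W] [BorelSpace W] (v : W) (hv : ‖v‖ = 1) (d : ℕ)
    (f : ℝ → ℝ) (J : Set ℝ) (lam ρ η : ℝ) (hρ : 0 < ρ) (hlam : 0 < lam) (hη : 0 < η)
    (hf : ∀ s ∈ J, 0 < f s)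
    (h1 : ∀ s ∈ J, ∀ s' ∈ J, (s - s') ^ 2 + (f s - f s') ^ 2 ≤ η ^ 2 * (lam ^ 2 * (s - s') ^ 2))
    (h2 : ∀ s ∈ J, ∀ s' ∈ J, lam ^ 2 * (s - s') ^ 2 ≤ η ^ 2 * ((s - s') ^ 2 + (f s - f s') ^ 2))
    (h3 : ∀ s ∈ J, ∀ s' ∈ J, f s * f s' ≤ η ^ 2 * ρ ^ 2)
    (h4 : ∀ s ∈ J, ∀ s' ∈ J, ρ ^ 2 ≤ η ^ 2 * (f s * f s')) :
    μH[(d : ℝ)] (surf v f J) ≤
      ENNReal.ofReal (η ^ d) * μH[(d : ℝ)] (surf v (fun _ => ρ) ((fun s => lam * s) '' J)) ∧
    μH[(d : ℝ)] (surf v (fun _ => ρ) ((fun s => lam * s) '' J)) ≤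
      ENNReal.ofReal (η ^ d) * μH[(d : ℝ)] (surf v f J) := by
  have hvv : inner ℝ v v = (1 : ℝ) := by rw [real_inner_self_eq_norm_sq, hv]; norm_num
  -- the orthogonal part
  have hperp : ∀ x : W, inner ℝ (x - (inner ℝ x v : ℝ) • v) v = (0 : ℝ) := by
    intro x
    rw [inner_sub_left, real_inner_smul_left, hvv]
    ring
  have hdec : ∀ x : W, x = (inner ℝ x v : ℝ) • v + (x - (inner ℝ x v : ℝ) • v) := by
    intro x
    abel
  have hin : ∀ (s : ℝ) (c : ℝ) (p : W), inner ℝ p v = (0 : ℝ) → inner ℝ (s • v + c • p) v = s := by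
    intro s c p hp
    rw [inner_add_left, real_inner_smul_left, real_inner_smul_left, hvv, hp]
    ring
  let Ψ : W → W := fun x => ((inner ℝ x v : ℝ) / lam) • v +
    (f ((inner ℝ x v : ℝ) / lam) / ρ) • (x - (inner ℝ x v : ℝ) • v)
  let Θ : W → W := fun y => (lam * (inner ℝ y v : ℝ)) • v +
    (ρ / f (inner ℝ y v : ℝ)) • (y - (inner ℝ y v : ℝ) • v)
  let K : NNReal := ⟨η, hη.le⟩
  have hK : ((K : NNReal) : ENNReal) ^ (d : ℝ) = ENNReal.ofReal (η ^ d) := by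
    rw [ENNReal.rpow_natCast, ENNReal.ofReal_pow hη.le]
    congr 1
    exact (ENNReal.ofReal_coe_nnreal (p := K)).symm
  constructor
  · -- Ψ
    have hL : LipschitzOnWith K Ψ (surf v (fun _ => ρ) ((fun s => lam * s) '' J)) := by
      refine LipschitzOnWith.of_dist_le_mul ?_
      rintro x ⟨⟨s, hs, hxs⟩, hx⟩ x' ⟨⟨s', hs', hxs'⟩, hx'⟩
      change dist (Ψ x) (Ψ x') ≤ η * dist x x'
      apply a2_lip hη
      replace hxs : lam * s = inner ℝ x v := hxs
      replace hxs' : lam * s' = inner ℝ x' v := hxs'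
      replace hx : ‖x - (inner ℝ x v : ℝ) • v‖ = ρ := hx
      replace hx' : ‖x' - (inner ℝ x' v : ℝ) • v‖ = ρ := hx'
      have e1 : (inner ℝ x v : ℝ) / lam = s := by rw [← hxs]; field_simp
      have e2 : (inner ℝ x' v : ℝ) / lam = s' := by rw [← hxs']; field_simp
      have h5 : ‖Ψ x - Ψ x'‖ ^ 2 = (s - s') ^ 2 + ((f s / ρ) * ρ - (f s' / ρ) * ρ) ^ 2 +
          (f s / ρ) * (f s' / ρ) * (‖(x - (inner ℝ x v : ℝ) • v) - (x' - (inner ℝ x' v : ℝ) • v)‖ ^ 2 -
            (ρ - ρ) ^ 2) := by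
        change ‖(((inner ℝ x v : ℝ) / lam) • v +
          (f ((inner ℝ x v : ℝ) / lam) / ρ) • (x - (inner ℝ x v : ℝ) • v)) -
          (((inner ℝ x' v : ℝ) / lam) • v +
          (f ((inner ℝ x' v : ℝ) / lam) / ρ) • (x' - (inner ℝ x' v : ℝ) • v))‖ ^ 2 = _
        rw [e1, e2, a2_pyth v hv, a2_smul _ _ ρ ρ _ _ hx hx']
        · ring
        · rw [real_inner_smul_left, hperp, mul_zero]
        · rw [real_inner_smul_left, hperp, mul_zero]
      have h6 : ‖x - x'‖ ^ 2 = (lam * s - lam * s') ^ 2 +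
          ‖(x - (inner ℝ x v : ℝ) • v) - (x' - (inner ℝ x' v : ℝ) • v)‖ ^ 2 := by
        conv_lhs => rw [hdec x, hdec x']
        rw [a2_pyth v hv _ _ _ _ (hperp x) (hperp x'), hxs, hxs']
      rw [h5, h6]
      set N := ‖(x - (inner ℝ x v : ℝ) • v) - (x' - (inner ℝ x' v : ℝ) • v)‖ ^ 2 with hN
      have hN0 : 0 ≤ N := by positivity
      have h7 : (f s / ρ) * (f s' / ρ) ≤ η ^ 2 := by
        rw [div_mul_div_comm, div_le_iff₀ (by positivity)]
        have := h3 s hs s' hs'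
        nlinarith
      have h8 := h1 s hs s' hs'
      have h9 : (f s / ρ) * (f s' / ρ) * N ≤ η ^ 2 * N := mul_le_mul_of_nonneg_right h7 hN0
      have h10 : f s / ρ * ρ = f s := div_mul_cancel₀ _ hρ.ne'
      have h11 : f s' / ρ * ρ = f s' := div_mul_cancel₀ _ hρ.ne'
      rw [h10, h11]
      nlinarith
    have hsub : surf v f J ⊆ Ψ '' (surf v (fun _ => ρ) ((fun s => lam * s) '' J)) := by
      rintro y ⟨hyJ, hy⟩
      replace hy : ‖y - (inner ℝ y v : ℝ) • v‖ = f (inner ℝ y v) := hy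
      have hfy := hf _ hyJ
      have hi : inner ℝ (Θ y) v = lam * (inner ℝ y v : ℝ) := hin _ _ _ (hperp y)
      have hi2 : Θ y - (inner ℝ (Θ y) v : ℝ) • v =
          (ρ / f (inner ℝ y v : ℝ)) • (y - (inner ℝ y v : ℝ) • v) := by
        rw [hi]
        change (lam * (inner ℝ y v : ℝ)) • v +
          (ρ / f (inner ℝ y v : ℝ)) • (y - (inner ℝ y v : ℝ) • v) - (lam * (inner ℝ y v : ℝ)) • v = _
        abel
      refine ⟨Θ y, ⟨⟨inner ℝ y v, hyJ, hi.symm⟩, ?_⟩, ?_⟩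
      · rw [hi2, norm_smul, hy, Real.norm_eq_abs, abs_of_pos (div_pos hρ hfy)]
        exact div_mul_cancel₀ _ hfy.ne'
      · change ((inner ℝ (Θ y) v : ℝ) / lam) • v +
          (f ((inner ℝ (Θ y) v : ℝ) / lam) / ρ) • (Θ y - (inner ℝ (Θ y) v : ℝ) • v) = y
        rw [hi2, hi]
        have e1 : lam * (inner ℝ y v : ℝ) / lam = inner ℝ y v := by field_simp
        rw [e1, smul_smul]
        have e2 : f (inner ℝ y v) / ρ * (ρ / f (inner ℝ y v)) = 1 := by
          field_simp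
        rw [e2, one_smul]
        abel
    calc μH[(d : ℝ)] (surf v f J) ≤ μH[(d : ℝ)] (Ψ '' (surf v (fun _ => ρ) ((fun s => lam * s) '' J))) :=
          measure_mono hsub
      _ ≤ ((K : NNReal) : ENNReal) ^ (d : ℝ) * _ := hL.hausdorffMeasure_image_le (Nat.cast_nonneg d)
      _ = _ := by rw [hK]
  · -- Θ
    have hL : LipschitzOnWith K Θ (surf v f J) := by
      refine LipschitzOnWith.of_dist_le_mul ?_
      rintro x ⟨hxJ, hx⟩ x' ⟨hxJ', hx'⟩
      change dist (Θ x) (Θ x') ≤ η * dist x x'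
      apply a2_lip hη
      replace hx : ‖x - (inner ℝ x v : ℝ) • v‖ = f (inner ℝ x v) := hx
      replace hx' : ‖x' - (inner ℝ x' v : ℝ) • v‖ = f (inner ℝ x' v) := hx'
      have hfx := hf _ hxJ
      have hfx' := hf _ hxJ'
      have h8 := h2 _ hxJ _ hxJ'
      have h8' := h4 _ hxJ _ hxJ'
      set s : ℝ := inner ℝ x v with hs
      set s' : ℝ := inner ℝ x' v with hs'
      have h5 : ‖Θ x - Θ x'‖ ^ 2 = (lam * s - lam * s') ^ 2 +
          ((ρ / f s) * f s - (ρ / f s') * f s') ^ 2 +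
          (ρ / f s) * (ρ / f s') * (‖(x - s • v) - (x' - s' • v)‖ ^ 2 - (f s - f s') ^ 2) := by
        change ‖((lam * s) • v + (ρ / f s) • (x - s • v)) -
          ((lam * s') • v + (ρ / f s') • (x' - s' • v))‖ ^ 2 = _
        rw [a2_pyth v hv, a2_smul _ _ (f s) (f s') _ _ hx hx']
        · ring
        · rw [real_inner_smul_left, hs, hperp, mul_zero]
        · rw [real_inner_smul_left, hs', hperp, mul_zero]
      have h6 : ‖x - x'‖ ^ 2 = (s - s') ^ 2 + ‖(x - s • v) - (x' - s' • v)‖ ^ 2 := by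
        conv_lhs => rw [hdec x, hdec x']
        rw [a2_pyth v hv _ _ _ _ (hperp x) (hperp x')]
      have h12 : (f s - f s') ^ 2 ≤ ‖(x - s • v) - (x' - s' • v)‖ ^ 2 := by
        have h13 := abs_norm_sub_norm_le (x - s • v) (x' - s' • v)
        rw [hx, hx'] at h13
        rw [← sq_abs]
        exact pow_le_pow_left₀ (abs_nonneg _) h13 2
      rw [h5, h6]
      set N := ‖(x - s • v) - (x' - s' • v)‖ ^ 2 with hN
      have h10 : ρ / f s * f s = ρ := div_mul_cancel₀ _ hfx.ne'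
      have h11 : ρ / f s' * f s' = ρ := div_mul_cancel₀ _ hfx'.ne'
      have h7 : (ρ / f s) * (ρ / f s') ≤ η ^ 2 := by
        rw [div_mul_div_comm, div_le_iff₀ (by positivity)]
        nlinarith
      have h9 : (ρ / f s) * (ρ / f s') * (N - (f s - f s') ^ 2) ≤ η ^ 2 * (N - (f s - f s') ^ 2) :=
        mul_le_mul_of_nonneg_right h7 (by linarith)
      rw [h10, h11]
      nlinarith
    have hsub : surf v (fun _ => ρ) ((fun s => lam * s) '' J) ⊆ Θ '' (surf v f J) := by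
      rintro x ⟨⟨s, hs, hxs⟩, hx⟩
      replace hxs : lam * s = inner ℝ x v := hxs
      replace hx : ‖x - (inner ℝ x v : ℝ) • v‖ = ρ := hx
      have hfs := hf _ hs
      have e0 : (inner ℝ x v : ℝ) / lam = s := by rw [← hxs]; field_simp
      have hi : inner ℝ (Ψ x) v = s := by
        have := hin ((inner ℝ x v : ℝ) / lam) (f ((inner ℝ x v : ℝ) / lam) / ρ) _ (hperp x)
        rw [e0] at this
        change inner ℝ (((inner ℝ x v : ℝ) / lam) • v +
          (f ((inner ℝ x v : ℝ) / lam) / ρ) • (x - (inner ℝ x v : ℝ) • v)) v = s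
        rw [e0]
        exact this
      have hi2 : Ψ x - (inner ℝ (Ψ x) v : ℝ) • v = (f s / ρ) • (x - (inner ℝ x v : ℝ) • v) := by
        rw [hi]
        change ((inner ℝ x v : ℝ) / lam) • v +
          (f ((inner ℝ x v : ℝ) / lam) / ρ) • (x - (inner ℝ x v : ℝ) • v) - s • v = _
        rw [e0]
        abel
      refine ⟨Ψ x, ⟨?_, ?_⟩, ?_⟩
      · rw [hi]
        exact hs
      · rw [hi2, hi, norm_smul, hx, Real.norm_eq_abs, abs_of_pos (div_pos hfs hρ)]
        exact div_mul_cancel₀ _ hρ.ne'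
      · change (lam * (inner ℝ (Ψ x) v : ℝ)) • v +
          (ρ / f (inner ℝ (Ψ x) v : ℝ)) • (Ψ x - (inner ℝ (Ψ x) v : ℝ) • v) = x
        rw [hi2, hi, smul_smul]
        have e2 : ρ / f s * (f s / ρ) = 1 := by
          field_simp
        rw [e2, one_smul, hxs]
        abel
    calc μH[(d : ℝ)] (surf v (fun _ => ρ) ((fun s => lam * s) '' J)) ≤ μH[(d : ℝ)] (Θ '' (surf v f J)) :=
          measure_mono hsub
      _ ≤ ((K : NNReal) : ENNReal) ^ (d : ℝ) * _ := hL.hausdorffMeasure_image_le (Nat.cast_nonneg d)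
      _ = _ := by rw [hK]

end Pool.Agent.MP_c8a077_gt
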