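import Pool.Agent.Lib.MP_c8a077_gt.A1c
import Pool.Agent.Lib.MP_c8a077_gt.A2

/-!
# JOB A3: area of a surface of revolution over a compact interval

PROOF.  Let `C` be the constant of `cyl_area`.  Local estimate: for `s₀ ∈ [s₁,s₂]` put `ρ = f s₀`,
`lam = √(1 + f'(s₀)²)`.  For every `η > 1` there is `δ > 0` such that for all `s, s' ∈ [s₁,s₂]` with
`|s - s₀|, |s' - s₀| < δ` the hypotheses `h1 - h4` of `surf_compare` hold (mean value theorem: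
`f s - f s' = f'(ξ)(s-s')`, and `f'`, `f` are continuous at `s₀`, `f s₀ > 0`).  Hence for every
`Ioc x₁ x₂ ⊂ (s₀-δ,s₀+δ) ∩ [s₁,s₂]`,
`η^{-d} C ρ^(d-1) lam (x₂-x₁) ≤ μH[d](surf v f (Ioc x₁ x₂)) ≤ η^d C ρ^(d-1) lam (x₂-x₁)`.
(`(fun s => lam*s) '' Ioc x₁ x₂ = Ioc (lam x₁) (lam x₂)`.)
In particular the measure is finite on small intervals, hence (compactness, additivity) on all
`Ioc x₁ x₂ ⊂ [s₁,s₂]`.  Put `N(s) = (μH[d] (surf v f (Ioc s₁ s))).toReal`; `N` is additive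
(`measure_inter_add_diff` with the measurable half space `{x | ⟨x,v⟩ ≤ s}`), so the local estimate says that
`N` has derivative `g(s₀) = C f(s₀)^(d-1) √(1+f'(s₀)²)` at every `s₀` (one-sided at the end points, i.e.
within `[s₁,s₂]`).  `g` is continuous, so the fundamental theorem of calculus
(`intervalIntegral.integral_eq_sub_of_hasDeriv_right` or `..._of_hasDerivAt_of_le`, `N` continuous on
`[s₁,s₂]`) gives the claim, `N(s₁) = 0`.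
-/

open MeasureTheory Set Metric Topology Filter

namespace Pool.Agent.MP_c8a077_gt

private theorem image_mul_Ioc {lam : ℝ} (h : 0 < lam) (a b : ℝ) :
    (fun s => lam * s) '' Ioc a b = Ioc (lam * a) (lam * b) := by
  ext x
  constructor
  · rintro ⟨s, hs, rfl⟩
    exact ⟨mul_lt_mul_of_pos_left hs.1 h, mul_le_mul_of_nonneg_left hs.2 h.le⟩
  · rintro ⟨h1, h2⟩
    refine ⟨x / lam, ⟨?_, ?_⟩, ?_⟩
    · rw [lt_div_iff₀ h]; linarith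
    · rw [div_le_iff₀ h]; linarith
    · field_simp

/-- the local ratios -/
private theorem local_hyp {f f' : ℝ → ℝ} {s₁ s₂ : ℝ} (hf : ∀ s ∈ Icc s₁ s₂, 0 < f s)
    (hd : ∀ s ∈ Icc s₁ s₂, HasDerivAt f (f' s) s) (hc : ContinuousOn f' (Icc s₁ s₂))
    {s₀ : ℝ} (hs₀ : s₀ ∈ Icc s₁ s₂) {η : ℝ} (hη : 1 < η) :
    ∃ δ > 0, ∀ s ∈ Icc s₁ s₂ ∩ ball s₀ δ, ∀ s' ∈ Icc s₁ s₂ ∩ ball s₀ δ,
      (s - s') ^ 2 + (f s - f s') ^ 2 ≤ η ^ 2 * (√(1 + f' s₀ ^ 2) ^ 2 * (s - s') ^ 2) ∧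
      √(1 + f' s₀ ^ 2) ^ 2 * (s - s') ^ 2 ≤ η ^ 2 * ((s - s') ^ 2 + (f s - f s') ^ 2) ∧
      f s * f s' ≤ η ^ 2 * f s₀ ^ 2 ∧ f s₀ ^ 2 ≤ η ^ 2 * (f s * f s') := by
  have hη0 : 0 < η := by linarith
  have hη2 : 1 < η ^ 2 := by nlinarith
  -- continuity of `f` and `f'` at `s₀`
  have hcf : ContinuousWithinAt f (Icc s₁ s₂) s₀ := (hd s₀ hs₀).continuousAt.continuousWithinAt
  have hcf' : ContinuousWithinAt (fun s => 1 + f' s ^ 2) (Icc s₁ s₂) s₀ :=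
    (continuousWithinAt_const.add ((hc s₀ hs₀).pow 2))
  have hρ := hf s₀ hs₀
  have hg : 0 < 1 + f' s₀ ^ 2 := by positivity
  have e1 : ∀ᶠ s in 𝓝[Icc s₁ s₂] s₀, f s < η * f s₀ :=
    hcf.eventually_lt_const (by nlinarith)
  have e2 : ∀ᶠ s in 𝓝[Icc s₁ s₂] s₀, f s₀ / η < f s :=
    hcf.eventually_const_lt (by rw [div_lt_iff₀ hη0]; nlinarith)
  have e3 : ∀ᶠ s in 𝓝[Icc s₁ s₂] s₀, 1 + f' s ^ 2 < η ^ 2 * (1 + f' s₀ ^ 2) :=
    hcf'.eventually_lt_const (by nlinarith)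
  have e4 : ∀ᶠ s in 𝓝[Icc s₁ s₂] s₀, (1 + f' s₀ ^ 2) / η ^ 2 < 1 + f' s ^ 2 :=
    hcf'.eventually_const_lt (by rw [div_lt_iff₀ (by positivity)]; nlinarith)
  have eall := e1.and (e2.and (e3.and e4))
  obtain ⟨δ, hδ, hall'⟩ := Metric.mem_nhdsWithin_iff.1 eall
  have hall : ∀ {x : ℝ}, x ∈ ball s₀ δ → x ∈ Icc s₁ s₂ → (f x < η * f s₀ ∧ f s₀ / η < f x ∧
      1 + f' x ^ 2 < η ^ 2 * (1 + f' s₀ ^ 2) ∧ (1 + f' s₀ ^ 2) / η ^ 2 < 1 + f' x ^ 2) :=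
    fun hx hx' => hall' ⟨hx, hx'⟩
  refine ⟨δ, hδ, ?_⟩
  rintro s ⟨hsI, hsb⟩ s' ⟨hsI', hsb'⟩
  obtain ⟨a1, a2, -, -⟩ := hall hsb hsI
  obtain ⟨b1, b2, -, -⟩ := hall hsb' hsI'
  rw [div_lt_iff₀ hη0] at a2 b2
  -- mean value
  obtain ⟨ξ, hξI, hξb, hξ⟩ : ∃ ξ ∈ Icc s₁ s₂, ξ ∈ ball s₀ δ ∧ f s - f s' = f' ξ * (s - s') := by
    rcases lt_trichotomy s s' with h | h | h
    · obtain ⟨ξ, hξ, he⟩ := exists_hasDerivAt_eq_slope f f' h
        (fun x hx => (hd x ⟨hsI.1.trans hx.1, hx.2.trans hsI'.2⟩).continuousAt.continuousWithinAt)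
        (fun x hx => hd x ⟨hsI.1.trans hx.1.le, hx.2.le.trans hsI'.2⟩)
      refine ⟨ξ, ⟨hsI.1.trans hξ.1.le, hξ.2.le.trans hsI'.2⟩, ?_, ?_⟩
      · exact ((convex_ball s₀ δ).ordConnected.out hsb hsb') ⟨hξ.1.le, hξ.2.le⟩
      · rw [he]
        have : s' - s ≠ 0 := by linarith [sub_pos.2 h]
        field_simp
        ring
    · exact ⟨s, hsI, hsb, by rw [h]; ring⟩
    · obtain ⟨ξ, hξ, he⟩ := exists_hasDerivAt_eq_slope f f' h
        (fun x hx => (hd x ⟨hsI'.1.trans hx.1, hx.2.trans hsI.2⟩).continuousAt.continuousWithinAt)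
        (fun x hx => hd x ⟨hsI'.1.trans hx.1.le, hx.2.le.trans hsI.2⟩)
      refine ⟨ξ, ⟨hsI'.1.trans hξ.1.le, hξ.2.le.trans hsI.2⟩, ?_, ?_⟩
      · exact ((convex_ball s₀ δ).ordConnected.out hsb' hsb) ⟨hξ.1.le, hξ.2.le⟩
      · rw [he]
        have : s - s' ≠ 0 := by linarith [sub_pos.2 h]
        field_simp
  obtain ⟨-, -, c1, c2⟩ := hall hξb hξI
  rw [div_lt_iff₀ (by positivity)] at c2
  have hsq : √(1 + f' s₀ ^ 2) ^ 2 = 1 + f' s₀ ^ 2 := Real.sq_sqrt hg.le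
  have hsum : (s - s') ^ 2 + (f s - f s') ^ 2 = (1 + f' ξ ^ 2) * (s - s') ^ 2 := by
    rw [hξ]; ring
  have hp := hf s hsI
  have hp' := hf s' hsI'
  refine ⟨?_, ?_, ?_, ?_⟩
  · rw [hsum, hsq, ← mul_assoc]
    exact mul_le_mul_of_nonneg_right c1.le (sq_nonneg _)
  · rw [hsum, hsq, ← mul_assoc]
    apply mul_le_mul_of_nonneg_right _ (sq_nonneg _)
    linarith
  · calc f s * f s' ≤ (η * f s₀) * (η * f s₀) := mul_le_mul a1.le b1.le hp'.le (by positivity)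
      _ = η ^ 2 * f s₀ ^ 2 := by ring
  · calc f s₀ ^ 2 = f s₀ * f s₀ := by ring
      _ ≤ (f s * η) * (f s' * η) := mul_le_mul a2.le b2.le hρ.le (by positivity)
      _ = η ^ 2 * (f s * f s') := by ring

section

variable {W : Type*} [NormedAddCommGroup W] [InnerProductSpace ℝ W]
    [FiniteDimensional ℝ W] [MeasurableSpace W] [BorelSpace W]

private theorem surf_mono (v : W) (f : ℝ → ℝ) {J J' : Set ℝ} (h : J ⊆ J') :
    surf v f J ⊆ surf v f J' := fun _ hx => ⟨h hx.1, hx.2⟩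

/-- additivity -/
private theorem surf_add (v : W) (f : ℝ → ℝ) (d : ℕ) {a b c : ℝ} (hab : a ≤ b) (hbc : b ≤ c) :
    μH[(d : ℝ)] (surf v f (Ioc a c)) =
      μH[(d : ℝ)] (surf v f (Ioc a b)) + μH[(d : ℝ)] (surf v f (Ioc b c)) := by
  have hm : MeasurableSet {x : W | (inner ℝ x v : ℝ) ≤ b} := by
    apply IsClosed.measurableSet
    exact isClosed_le (by fun_prop) continuous_const
  rw [← measure_inter_add_sdiff (surf v f (Ioc a c)) hm]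
  congr 2
  · ext x
    constructor
    · rintro ⟨⟨h1, h2⟩, h3⟩
      exact ⟨⟨h1.1, h3⟩, h2⟩
    · rintro ⟨h1, h2⟩
      exact ⟨⟨⟨h1.1, h1.2.trans hbc⟩, h2⟩, h1.2⟩
  · ext x
    constructor
    · rintro ⟨⟨h1, h2⟩, h3⟩
      exact ⟨⟨not_le.1 h3, h1.2⟩, h2⟩
    · rintro ⟨h1, h2⟩
      exact ⟨⟨⟨lt_of_le_of_lt hab h1.1, h1.2⟩, h2⟩, fun h3 => absurd h1.1 (not_lt.2 h3)⟩

/-- the local estimate -/
private theorem local_est (v : W) (hv : ‖v‖ = 1) (d : ℕ) {C : ℝ} (hC0 : 0 < C)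
    (hC : ∀ x₁ x₂ ρ : ℝ, x₁ ≤ x₂ → 0 < ρ →
      μH[(d : ℝ)] (surf v (fun _ => ρ) (Ioc x₁ x₂)) = ENNReal.ofReal (C * ρ ^ (d - 1) * (x₂ - x₁)))
    {f f' : ℝ → ℝ} {s₁ s₂ : ℝ} (hf : ∀ s ∈ Icc s₁ s₂, 0 < f s)
    (hd : ∀ s ∈ Icc s₁ s₂, HasDerivAt f (f' s) s) (hc : ContinuousOn f' (Icc s₁ s₂))
    {s₀ : ℝ} (hs₀ : s₀ ∈ Icc s₁ s₂) {η : ℝ} (hη : 1 < η) :
    ∃ δ > 0, ∀ x₁ ∈ Icc s₁ s₂ ∩ ball s₀ δ, ∀ x₂ ∈ Icc s₁ s₂ ∩ ball s₀ δ, x₁ ≤ x₂ →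
      μH[(d : ℝ)] (surf v f (Ioc x₁ x₂)) ≤
        ENNReal.ofReal (η ^ d * (C * (f s₀ ^ (d - 1) * √(1 + f' s₀ ^ 2)) * (x₂ - x₁))) ∧
      ENNReal.ofReal (C * (f s₀ ^ (d - 1) * √(1 + f' s₀ ^ 2)) * (x₂ - x₁)) ≤
        ENNReal.ofReal (η ^ d) * μH[(d : ℝ)] (surf v f (Ioc x₁ x₂)) := by
  obtain ⟨δ, hδ, hloc⟩ := local_hyp hf hd hc hs₀ hη
  refine ⟨δ, hδ, ?_⟩
  rintro x₁ hx₁ x₂ hx₂ h12
  have hlam : 0 < √(1 + f' s₀ ^ 2) := Real.sqrt_pos.2 (by positivity)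
  have hsub : Ioc x₁ x₂ ⊆ Icc s₁ s₂ ∩ ball s₀ δ := by
    intro x hx
    exact ⟨⟨hx₁.1.1.trans hx.1.le, hx.2.trans hx₂.1.2⟩,
      (convex_ball s₀ δ).ordConnected.out hx₁.2 hx₂.2 ⟨hx.1.le, hx.2⟩⟩
  have hcmp := surf_compare v hv d f (Ioc x₁ x₂) (√(1 + f' s₀ ^ 2)) (f s₀) η (hf s₀ hs₀) hlam
    (by linarith) (fun s hs => hf s (hsub hs).1)
    (fun s hs s' hs' => (hloc s (hsub hs) s' (hsub hs')).1)
    (fun s hs s' hs' => (hloc s (hsub hs) s' (hsub hs')).2.1)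
    (fun s hs s' hs' => (hloc s (hsub hs) s' (hsub hs')).2.2.1)
    (fun s hs s' hs' => (hloc s (hsub hs) s' (hsub hs')).2.2.2)
  rw [image_mul_Ioc hlam, hC _ _ _ (mul_le_mul_of_nonneg_left h12 hlam.le) (hf s₀ hs₀)] at hcmp
  have he : C * f s₀ ^ (d - 1) * (√(1 + f' s₀ ^ 2) * x₂ - √(1 + f' s₀ ^ 2) * x₁) =
      C * (f s₀ ^ (d - 1) * √(1 + f' s₀ ^ 2)) * (x₂ - x₁) := by ring
  rw [he] at hcmp
  refine ⟨?_, hcmp.2⟩
  rw [ENNReal.ofReal_mul (by positivity)]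
  exact hcmp.1

end

private theorem aux_abs {a G E e : ℝ} (hE : 1 ≤ E) (h1 : a ≤ E * G) (h2 : G ≤ E * a)
    (hG : 0 ≤ G) (he : (E - 1) * G ≤ e) : |a - G| ≤ e := by
  rw [abs_le]
  constructor
  · rcases le_total G a with h | h
    · have : 0 ≤ (E - 1) * G := mul_nonneg (by linarith) hG
      linarith
    · have h3 : G - a ≤ E * (G - a) := by nlinarith
      nlinarith
  · nlinarith

theorem surf_area_Ioc {W : Type*} [NormedAddCommGroup W] [InnerProductSpace ℝ W]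
    [FiniteDimensional ℝ W] [MeasurableSpace W] [BorelSpace W] (v : W) (hv : ‖v‖ = 1) (d : ℕ)
    (hd : 1 ≤ d) (hW : Module.finrank ℝ W = d + 1) :
    ∃ C : ℝ, 0 < C ∧ ∀ (f f' : ℝ → ℝ) (s₁ s₂ : ℝ), s₁ ≤ s₂ → (∀ s ∈ Icc s₁ s₂, 0 < f s) →
      (∀ s ∈ Icc s₁ s₂, HasDerivAt f (f' s) s) → ContinuousOn f' (Icc s₁ s₂) →
      μH[(d : ℝ)] (surf v f (Ioc s₁ s₂)) =
        ENNReal.ofReal (C * ∫ s in s₁..s₂, f s ^ (d - 1) * √(1 + f' s ^ 2)) := by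
  obtain ⟨C, hC0, hC⟩ := cyl_area v hv d hd hW
  refine ⟨C, hC0, ?_⟩
  intro f f' s₁ s₂ h12 hf hdf hc
  have hest := fun {s₀ : ℝ} (hs₀ : s₀ ∈ Icc s₁ s₂) {η : ℝ} (hη : 1 < η) =>
    local_est v hv d hC0 hC hf hdf hc hs₀ hη
  set g : ℝ → ℝ := fun s => C * (f s ^ (d - 1) * √(1 + f' s ^ 2)) with hg
  have hgpos : ∀ s ∈ Icc s₁ s₂, 0 < g s := by
    intro s hs
    have h1 : 0 < √(1 + f' s ^ 2) := Real.sqrt_pos.2 (by positivity)
    have h2 := hf s hs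
    simp only [hg]
    positivity
  -- finiteness
  have hfin : ∀ a b : ℝ, s₁ ≤ a → b ≤ s₂ → μH[(d : ℝ)] (surf v f (Ioc a b)) < ⊤ := by
    have hall : μH[(d : ℝ)] (surf v f (Ioc s₁ s₂)) < ⊤ := by
      refine lt_of_le_of_lt (measure_mono (surf_mono v f Ioc_subset_Icc_self)) ?_
      refine isCompact_Icc.induction_on (p := fun S => μH[(d : ℝ)] (surf v f S) < ⊤) ?_ ?_ ?_ ?_
      · have : surf v f ∅ = ∅ := by
          ext x; simp [surf]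
        rw [this]; simp
      · intro S T hST hT
        exact lt_of_le_of_lt (measure_mono (surf_mono v f hST)) hT
      · intro S T hS hT
        refine lt_of_le_of_lt (measure_mono (t := surf v f S ∪ surf v f T) ?_)
          (measure_union_lt_top hS hT)
        rintro x ⟨h1 | h1, h2⟩
        · exact Or.inl ⟨h1, h2⟩
        · exact Or.inr ⟨h1, h2⟩
      · intro s₀ hs₀
        obtain ⟨δ, hδ, hloc⟩ := local_hyp hf hdf hc hs₀ (η := 2) (by norm_num)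
        refine ⟨Icc s₁ s₂ ∩ ball s₀ δ, inter_mem_nhdsWithin _ (ball_mem_nhds s₀ hδ), ?_⟩
        have hlam : 0 < √(1 + f' s₀ ^ 2) := Real.sqrt_pos.2 (by positivity)
        have hcmp := (surf_compare v hv d f (Icc s₁ s₂ ∩ ball s₀ δ) (√(1 + f' s₀ ^ 2)) (f s₀) 2
          (hf s₀ hs₀) hlam (by norm_num) (fun s hs => hf s hs.1)
          (fun s hs s' hs' => (hloc s hs s' hs').1)
          (fun s hs s' hs' => (hloc s hs s' hs').2.1)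
          (fun s hs s' hs' => (hloc s hs s' hs').2.2.1)
          (fun s hs s' hs' => (hloc s hs s' hs').2.2.2)).1
        refine lt_of_le_of_lt hcmp (ENNReal.mul_lt_top ENNReal.ofReal_lt_top ?_)
        have hsub : (fun s => √(1 + f' s₀ ^ 2) * s) '' (Icc s₁ s₂ ∩ ball s₀ δ) ⊆
            Ioc (√(1 + f' s₀ ^ 2) * (s₀ - δ)) (√(1 + f' s₀ ^ 2) * (s₀ + δ)) := by
          rintro _ ⟨s, ⟨-, hs⟩, rfl⟩
          rw [Real.ball_eq_Ioo] at hs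
          exact ⟨mul_lt_mul_of_pos_left hs.1 hlam, (mul_lt_mul_of_pos_left hs.2 hlam).le⟩
        refine lt_of_le_of_lt (measure_mono (surf_mono v _ hsub)) ?_
        rw [hC _ _ _ (mul_le_mul_of_nonneg_left (by linarith) hlam.le) (hf s₀ hs₀)]
        exact ENNReal.ofReal_lt_top
    intro a b ha hb
    exact lt_of_le_of_lt (measure_mono (surf_mono v f (Ioc_subset_Ioc ha hb))) hall
  set N : ℝ → ℝ := fun s => (μH[(d : ℝ)] (surf v f (Ioc s₁ s))).toReal with hN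
  have hdiff : ∀ a b : ℝ, s₁ ≤ a → a ≤ b → b ≤ s₂ →
      N b - N a = (μH[(d : ℝ)] (surf v f (Ioc a b))).toReal := by
    intro a b ha hab hb
    simp only [hN]
    rw [surf_add v f d ha hab, ENNReal.toReal_add (hfin _ _ le_rfl (hab.trans hb)).ne
      (hfin _ _ ha hb).ne]
    ring
  -- the local estimate for `N`
  have hNest : ∀ s₀ ∈ Icc s₁ s₂, ∀ η : ℝ, 1 < η → ∃ δ > 0,
      ∀ x₁ ∈ Icc s₁ s₂ ∩ ball s₀ δ, ∀ x₂ ∈ Icc s₁ s₂ ∩ ball s₀ δ, x₁ ≤ x₂ →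
      N x₂ - N x₁ ≤ η ^ d * (g s₀ * (x₂ - x₁)) ∧ g s₀ * (x₂ - x₁) ≤ η ^ d * (N x₂ - N x₁) := by
    intro s₀ hs₀ η hη
    obtain ⟨δ, hδ, h⟩ := hest hs₀ hη
    refine ⟨δ, hδ, ?_⟩
    intro x₁ hx₁ x₂ hx₂ hx
    obtain ⟨h1, h2⟩ := h x₁ hx₁ x₂ hx₂ hx
    have hfx := hfin x₁ x₂ hx₁.1.1 hx₂.1.2
    have hη0 : 0 < η ^ d := by positivity
    have hgx : 0 ≤ g s₀ * (x₂ - x₁) := mul_nonneg (hgpos s₀ hs₀).le (sub_nonneg.2 hx)
    rw [hdiff x₁ x₂ hx₁.1.1 hx hx₂.1.2]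
    constructor
    · have := ENNReal.toReal_mono ENNReal.ofReal_ne_top h1
      rwa [ENNReal.toReal_ofReal (by positivity)] at this
    · have := ENNReal.toReal_mono (ENNReal.mul_lt_top ENNReal.ofReal_lt_top hfx).ne h2
      rwa [ENNReal.toReal_ofReal hgx, ENNReal.toReal_mul, ENNReal.toReal_ofReal hη0.le] at this
  -- derivative within the interval
  have hder : ∀ s₀ ∈ Icc s₁ s₂, HasDerivWithinAt N (g s₀) (Icc s₁ s₂) s₀ := by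
    intro s₀ hs₀
    rw [hasDerivWithinAt_iff_isLittleO, Asymptotics.isLittleO_iff]
    intro ε hε
    have hg0 := hgpos s₀ hs₀
    -- choose `η`
    obtain ⟨η, hη1, hη2⟩ : ∃ η : ℝ, 1 < η ∧ (η ^ d - 1) * g s₀ < ε := by
      have hcont : Tendsto (fun η : ℝ => (η ^ d - 1) * g s₀) (𝓝[>] 1) (𝓝 ((1 ^ d - 1) * g s₀)) := by
        apply tendsto_nhdsWithin_of_tendsto_nhds
        exact Continuous.tendsto (by fun_prop) 1
      simp only [one_pow, sub_self, zero_mul] at hcont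
      obtain ⟨η, h1, h2⟩ := ((hcont.eventually_lt_const hε).and self_mem_nhdsWithin).exists
      exact ⟨η, h2, h1⟩
    obtain ⟨δ, hδ, h⟩ := hNest s₀ hs₀ η hη1
    have hηd : 1 ≤ η ^ d := one_le_pow₀ hη1.le
    have hev : ∀ᶠ x in 𝓝[Icc s₁ s₂] s₀, x ∈ Icc s₁ s₂ ∩ ball s₀ δ := by
      exact (Filter.eventually_and.2 ⟨self_mem_nhdsWithin,
        mem_nhdsWithin_of_mem_nhds (ball_mem_nhds s₀ hδ)⟩)
    filter_upwards [hev] with x hx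
    have hs0' : s₀ ∈ Icc s₁ s₂ ∩ ball s₀ δ := ⟨hs₀, mem_ball_self hδ⟩
    rw [smul_eq_mul, Real.norm_eq_abs, Real.norm_eq_abs]
    rcases le_total s₀ x with hle | hle
    · obtain ⟨h1, h2⟩ := h s₀ hs0' x hx hle
      have hnn : 0 ≤ x - s₀ := sub_nonneg.2 hle
      rw [abs_of_nonneg hnn, mul_comm (x - s₀) (g s₀)]
      exact aux_abs hηd h1 h2 (mul_nonneg hg0.le hnn) (by nlinarith)
    · obtain ⟨h1, h2⟩ := h x hx s₀ hs0' hle
      have hnn : 0 ≤ s₀ - x := sub_nonneg.2 hle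
      have he : N x - N s₀ - (x - s₀) * g s₀ = -((N s₀ - N x) - g s₀ * (s₀ - x)) := by ring
      rw [he, abs_neg, abs_of_nonpos (by linarith : x - s₀ ≤ 0), neg_sub]
      exact aux_abs hηd h1 h2 (mul_nonneg hg0.le hnn) (by nlinarith)
  have hcontN : ContinuousOn N (Icc s₁ s₂) := fun s hs => (hder s hs).continuousWithinAt
  have hftc : ∫ s in s₁..s₂, g s = N s₂ - N s₁ := by
    apply intervalIntegral.integral_eq_sub_of_hasDeriv_right_of_le h12 hcontN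
    · intro x hx
      exact (hder x (Ioo_subset_Icc_self hx)).mono_of_mem_nhdsWithin
        (mem_nhdsWithin_of_mem_nhds (Icc_mem_nhds hx.1 hx.2))
    · apply ContinuousOn.intervalIntegrable
      rw [uIcc_of_le h12]
      have hcf : ContinuousOn f (Icc s₁ s₂) := fun x hx => (hdf x hx).continuousAt.continuousWithinAt
      fun_prop
  have hN1 : N s₁ = 0 := by
    simp only [hN, Ioc_self]
    have : surf v f ∅ = ∅ := by
      ext x; simp [surf]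
    rw [this]; simp
  rw [hN1, sub_zero] at hftc
  have hfinal : μH[(d : ℝ)] (surf v f (Ioc s₁ s₂)) = ENNReal.ofReal (N s₂) := by
    simp only [hN]
    rw [ENNReal.ofReal_toReal (hfin _ _ le_rfl le_rfl).ne]
  rw [hfinal, ← hftc, intervalIntegral.integral_const_mul]

end Pool.Agent.MP_c8a077_gt
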