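import Pool.Agent.Lib.MP_c8a077_gt.A3

/-!
# JOB A4: area of a surface of revolution with squared profile `q`

PROOF.  `surf v f (Ioo s₁ s₂)` is the increasing union of `surf v f (Ioc a_n b_n)` with `a_n ↓ s₁`,
`b_n ↑ s₂`; `Directed.measure_iUnion`/`Monotone.measure_iUnion` (no measurability needed) and
`lintegral` monotone convergence (`setLIntegral_iUnion_of_directed` or `lintegral_iSup`) reduce to
`surf_area_Ioc`, with `f = √q`, `f' = q'/(2√q)`.  The integrand (`d = 2k+2`):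
`f^(d-1) √(1+f'²) = √q^(2k+1) √(1 + q'²/(4q)) = q^k √(q + q'²/4)`.
`μHE[d] = c • μH[d]` with `c > 0` finite (`euclideanHausdorffMeasure_def`,
`addHaarScalarFactor_volume_hausdorffMeasure_ne_zero`).
`line_null`: for `d ≥ 2` a subset of the line `ℝ v` has `μHE[d]` measure zero: it is contained in the
isometric image of `ℝ`, and `μH[d] = 0` on `ℝ` for `d > 1` (`dimH` of `ℝ` is `1`,
`hausdorffMeasure_of_dimH_lt`).
-/

open MeasureTheory Set Metric Topology Filter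

namespace Pool.Agent.MP_c8a077_gt

private theorem a4_integrand (k : ℕ) (q q' : ℝ) (hq : 0 < q) :
    √q ^ (2 * k + 2 - 1) * √(1 + (q' / (2 * √q)) ^ 2) = q ^ k * √(q + q' ^ 2 / 4) := by
  have h1 : 2 * k + 2 - 1 = 2 * k + 1 := by omega
  have h2 : √q ^ (2 * k) = q ^ k := by
    rw [pow_mul, Real.sq_sqrt hq.le]
  have hs : 0 < √q := Real.sqrt_pos.2 hq
  have h3 : √q * √(1 + (q' / (2 * √q)) ^ 2) = √(q + q' ^ 2 / 4) := by
    rw [← Real.sqrt_mul hq.le]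
    congr 1
    rw [div_pow, mul_pow, Real.sq_sqrt hq.le]
    field_simp
    ring
  rw [h1, pow_succ, h2, mul_assoc, h3]

private theorem a4_union {W : Type*} [NormedAddCommGroup W] [InnerProductSpace ℝ W] (v : W) (f : ℝ → ℝ)
    (J : ℕ → Set ℝ) : surf v f (⋃ n, J n) = ⋃ n, surf v f (J n) := by
  ext x
  simp only [surf, mem_iUnion, mem_ofPred_eq]
  constructor
  · rintro ⟨⟨n, hn⟩, h⟩
    exact ⟨n, hn, h⟩
  · rintro ⟨n, hn, h⟩
    exact ⟨⟨n, hn⟩, h⟩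

private theorem a4_Ioc {W : Type*} [NormedAddCommGroup W] [InnerProductSpace ℝ W]
    [FiniteDimensional ℝ W] [MeasurableSpace W] [BorelSpace W] (v : W) (k : ℕ) (C : ℝ) (hC0 : 0 < C)
    (hC : ∀ (f f' : ℝ → ℝ) (s₁ s₂ : ℝ), s₁ ≤ s₂ → (∀ s ∈ Icc s₁ s₂, 0 < f s) →
      (∀ s ∈ Icc s₁ s₂, HasDerivAt f (f' s) s) → ContinuousOn f' (Icc s₁ s₂) →
      μH[((2 * k + 2 : ℕ) : ℝ)] (surf v f (Ioc s₁ s₂)) =
        ENNReal.ofReal (C * ∫ s in s₁..s₂, f s ^ (2 * k + 2 - 1) * √(1 + f' s ^ 2)))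
    (q q' : ℝ → ℝ) (a b : ℝ) (hab : a ≤ b) (hq : ∀ s ∈ Icc a b, 0 < q s)
    (hd : ∀ s ∈ Icc a b, HasDerivAt q (q' s) s) (hc : ContinuousOn q' (Icc a b)) :
    μH[((2 * k + 2 : ℕ) : ℝ)] (surf v (fun s => √(q s)) (Ioc a b)) =
      ENNReal.ofReal C * ∫⁻ s in Ioc a b, ENNReal.ofReal (q s ^ k * √(q s + q' s ^ 2 / 4)) := by
  have hqc : ContinuousOn q (Icc a b) := fun s hs => (hd s hs).continuousAt.continuousWithinAt
  have hsq : ContinuousOn (fun s => √(q s)) (Icc a b) := hqc.sqrt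
  have hpos : ∀ s ∈ Icc a b, 0 < √(q s) := fun s hs => Real.sqrt_pos.2 (hq s hs)
  have h1 := hC (fun s => √(q s)) (fun s => q' s / (2 * √(q s))) a b hab hpos
    (fun s hs => (hd s hs).sqrt (hq s hs).ne')
    (hc.div (continuousOn_const.mul hsq) fun s hs => (mul_pos two_pos (hpos s hs)).ne')
  rw [h1]
  have h2 : ∫ s in a..b, √(q s) ^ (2 * k + 2 - 1) * √(1 + (q' s / (2 * √(q s))) ^ 2) =
      ∫ s in a..b, q s ^ k * √(q s + q' s ^ 2 / 4) := by
    apply intervalIntegral.integral_congr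
    intro s hs
    rw [uIcc_of_le hab] at hs
    exact a4_integrand k (q s) (q' s) (hq s hs)
  have hgc : ContinuousOn (fun s => q s ^ k * √(q s + q' s ^ 2 / 4)) (Icc a b) :=
    (hqc.pow k).mul ((hqc.add ((hc.pow 2).div_const 4)).sqrt)
  have hgi : IntegrableOn (fun s => q s ^ k * √(q s + q' s ^ 2 / 4)) (Ioc a b) :=
    (hgc.integrableOn_compact isCompact_Icc).mono_set Ioc_subset_Icc_self
  have h3 : ENNReal.ofReal (∫ s in Ioc a b, q s ^ k * √(q s + q' s ^ 2 / 4)) =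
      ∫⁻ s in Ioc a b, ENNReal.ofReal (q s ^ k * √(q s + q' s ^ 2 / 4)) := by
    apply ofReal_integral_eq_lintegral_ofReal hgi
    refine (ae_restrict_iff' measurableSet_Ioc).2 (ae_of_all _ fun s hs => ?_)
    exact mul_nonneg (pow_nonneg (hq s (Ioc_subset_Icc_self hs)).le k) (Real.sqrt_nonneg _)
  rw [h2, intervalIntegral.integral_of_le hab, ENNReal.ofReal_mul hC0.le, h3]

private theorem a4_Ioo {W : Type*} [NormedAddCommGroup W] [InnerProductSpace ℝ W]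
    [FiniteDimensional ℝ W] [MeasurableSpace W] [BorelSpace W] (v : W) (k : ℕ) (C : ℝ) (hC0 : 0 < C)
    (hC : ∀ (f f' : ℝ → ℝ) (s₁ s₂ : ℝ), s₁ ≤ s₂ → (∀ s ∈ Icc s₁ s₂, 0 < f s) →
      (∀ s ∈ Icc s₁ s₂, HasDerivAt f (f' s) s) → ContinuousOn f' (Icc s₁ s₂) →
      μH[((2 * k + 2 : ℕ) : ℝ)] (surf v f (Ioc s₁ s₂)) =
        ENNReal.ofReal (C * ∫ s in s₁..s₂, f s ^ (2 * k + 2 - 1) * √(1 + f' s ^ 2)))
    (q q' : ℝ → ℝ) (s₁ s₂ : ℝ) (hq : ∀ s ∈ Ioo s₁ s₂, 0 < q s)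
    (hd : ∀ s ∈ Ioo s₁ s₂, HasDerivAt q (q' s) s) (hc : ContinuousOn q' (Ioo s₁ s₂)) :
    μH[((2 * k + 2 : ℕ) : ℝ)] (surf v (fun s => √(q s)) (Ioo s₁ s₂)) =
      ENNReal.ofReal C * ∫⁻ s in Ioo s₁ s₂, ENNReal.ofReal (q s ^ k * √(q s + q' s ^ 2 / 4)) := by
  rcases le_or_gt s₂ s₁ with h | h
  · have h1 : surf v (fun s => √(q s)) (Ioo s₁ s₂) = ∅ := by
      rw [Ioo_eq_empty (not_lt.2 h)]
      ext x
      simp [surf]
    rw [h1, Ioo_eq_empty (not_lt.2 h)]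
    simp
  · obtain ⟨m, hm1, hm2⟩ := exists_between h
    obtain ⟨a, ha1, ha2, ha3⟩ := exists_seq_strictAnti_tendsto' hm1
    obtain ⟨b, hb1, hb2, hb3⟩ := exists_seq_strictMono_tendsto' hm2
    have hU : Ioo s₁ s₂ = ⋃ n, Ioc (a n) (b n) := by
      ext x
      rw [mem_iUnion]
      constructor
      · rintro ⟨h1, h2⟩
        have e1 := ha3.eventually (eventually_lt_nhds h1)
        have e2 := hb3.eventually (eventually_gt_nhds h2)
        obtain ⟨n, hn1, hn2⟩ := (e1.and e2).exists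
        exact ⟨n, hn1, hn2.le⟩
      · rintro ⟨n, h1, h2⟩
        exact ⟨(ha2 n).1.trans h1, h2.trans_lt (hb2 n).2⟩
    have hmono : Monotone fun n => Ioc (a n) (b n) := fun i j hij =>
      Ioc_subset_Ioc (ha1.antitone hij) (hb1.monotone hij)
    have hmonoS : Monotone fun n => surf v (fun s => √(q s)) (Ioc (a n) (b n)) := by
      intro i j hij x hx
      exact ⟨hmono hij hx.1, hx.2⟩
    have hsub : ∀ n, Icc (a n) (b n) ⊆ Ioo s₁ s₂ := fun n =>
      Icc_subset_Ioo (ha2 n).1 (hb2 n).2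
    rw [hU, a4_union, hmonoS.measure_iUnion,
      setLIntegral_iUnion_of_directed _ (hmono.directed_le), ENNReal.mul_iSup]
    refine iSup_congr fun n => ?_
    exact a4_Ioc v k C hC0 hC q q' (a n) (b n) ((ha2 n).2.le.trans (hb2 n).1.le)
      (fun s hs => hq s (hsub n hs)) (fun s hs => hd s (hsub n hs)) (hc.mono (hsub n))

theorem surf_area {W : Type*} [NormedAddCommGroup W] [InnerProductSpace ℝ W]
    [FiniteDimensional ℝ W] [MeasurableSpace W] [BorelSpace W] (v : W) (hv : ‖v‖ = 1) (k : ℕ)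
    (hW : Module.finrank ℝ W = 2 * k + 3) :
    ∃ C : ℝ, 0 < C ∧ ∀ (q q' : ℝ → ℝ) (s₁ s₂ : ℝ), (∀ s ∈ Ioo s₁ s₂, 0 < q s) →
      (∀ s ∈ Ioo s₁ s₂, HasDerivAt q (q' s) s) → ContinuousOn q' (Ioo s₁ s₂) →
      μHE[2 * k + 2] (surf v (fun s => √(q s)) (Ioo s₁ s₂)) =
        ENNReal.ofReal C * ∫⁻ s in Ioo s₁ s₂,
          ENNReal.ofReal (q s ^ k * √(q s + q' s ^ 2 / 4)) := by
  obtain ⟨C0, hC0, hC⟩ := surf_area_Ioc v hv (2 * k + 2) (by omega) (by rw [hW])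
  have hc := Measure.addHaarScalarFactor_volume_hausdorffMeasure_ne_zero (2 * k + 2)
  set c := Measure.addHaarScalarFactor (volume : Measure (EuclideanSpace ℝ (Fin (2 * k + 2))))
    μH[((2 * k + 2 : ℕ) : ℝ)] with hcdef
  have hcpos : (0 : ℝ) < c := by
    have h1 : 0 < c := pos_iff_ne_zero.2 hc
    exact_mod_cast h1
  refine ⟨c * C0, mul_pos hcpos hC0, fun q q' s₁ s₂ hq hd hc' => ?_⟩
  have h1 := a4_Ioo v k C0 hC0 hC q q' s₁ s₂ hq hd hc'
  rw [Measure.euclideanHausdorffMeasure_def, Measure.smul_apply, h1, ← hcdef, ENNReal.smul_def,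
    smul_eq_mul, ENNReal.ofReal_mul hcpos.le, ENNReal.ofReal_coe_nnreal, mul_assoc]

theorem line_null {W : Type*} [NormedAddCommGroup W] [InnerProductSpace ℝ W]
    [MeasurableSpace W] [BorelSpace W] (v : W) (hv : ‖v‖ = 1) (d : ℕ) (hd : 2 ≤ d) :
    μHE[d] {x : W | ∃ s : ℝ, x = s • v} = 0 := by
  have hiso : Isometry (fun s : ℝ => s • v) := by
    refine Isometry.of_dist_eq fun s t => ?_
    rw [dist_eq_norm, ← sub_smul, norm_smul, hv, mul_one, Real.dist_eq, Real.norm_eq_abs]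
  have h1 : {x : W | ∃ s : ℝ, x = s • v} = (fun s : ℝ => s • v) '' univ := by
    ext x
    simp [eq_comm]
  rw [h1, hiso.euclideanHausdorffMeasure_image, Measure.euclideanHausdorffMeasure_def,
    Measure.smul_apply]
  have h2 : (μH[(d : ℝ)] : Measure ℝ) = 0 := by
    apply Real.hausdorffMeasure_of_finrank_lt
    rw [Module.finrank_self]
    exact_mod_cast (show 1 < d by omega)
  rw [h2]
  simp

end Pool.Agent.MP_c8a077_gt
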