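import Pool.Agent.Lib.MP_c8a077_gt.Defs

/-!
# Description of a body of revolution by its profile
-/

open MeasureTheory Set Metric Topology Filter

namespace Pool.Agent.MP_c8a077_gt

/-- `K = {c + z e + y : z ∈ [A,B], y ⊥ e, ‖y‖ ≤ r z}`. -/
def RevDesc {n : ℕ} (K : Set (E n)) (c e : E n) (A B : ℝ) (r : ℝ → ℝ) : Prop :=
  ∀ x, x ∈ K ↔ ((inner ℝ (x - c) e : ℝ) ∈ Icc A B ∧
    ‖x - c - (inner ℝ (x - c) e : ℝ) • e‖ ≤ r (inner ℝ (x - c) e))

/-- The standing hypotheses on the profile. -/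
structure ProfHyp (A B : ℝ) (r : ℝ → ℝ) : Prop where
  hAB : A < B
  conc : ConcaveOn ℝ (Icc A B) r
  cont : ContinuousOn r (Icc A B)
  nonneg : ∀ z ∈ Icc A B, 0 ≤ r z
  pos : ∀ z ∈ Ioo A B, 0 < r z

theorem ProfHyp.neg {A B : ℝ} {r : ℝ → ℝ} (h : ProfHyp A B r) :
    ProfHyp (-B) (-A) (fun z => r (-z)) := by
  have hm : MapsTo (fun z : ℝ => -z) (Icc (-B) (-A)) (Icc A B) := by
    intro z hz
    exact ⟨by linarith [hz.2], by linarith [hz.1]⟩
  refine ⟨by linarith [h.hAB], ?_, ?_, ?_, ?_⟩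
  · refine ⟨convex_Icc _ _, fun x hx y hy a b ha hb hab => ?_⟩
    have := h.conc.2 (hm hx) (hm hy) ha hb hab
    simp only [smul_eq_mul] at this ⊢
    have e : -(a * x + b * y) = a * -x + b * -y := by ring
    rw [e]; exact this
  · exact h.cont.comp continuous_neg.continuousOn hm
  · exact fun z hz => h.nonneg _ (hm hz)
  · exact fun z hz => h.pos _ ⟨by linarith [hz.2], by linarith [hz.1]⟩

theorem RevDesc.neg {n : ℕ} {K : Set (E n)} {c e : E n} {A B : ℝ} {r : ℝ → ℝ}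
    (h : RevDesc K c e A B r) : RevDesc K c (-e) (-B) (-A) (fun z => r (-z)) := by
  intro x
  rw [h x]
  simp only [inner_neg_right, neg_smul, smul_neg, neg_neg, mem_Icc]
  constructor
  · rintro ⟨⟨h1, h2⟩, h3⟩
    exact ⟨⟨by linarith, by linarith⟩, h3⟩
  · rintro ⟨⟨h1, h2⟩, h3⟩
    exact ⟨⟨by linarith, by linarith⟩, h3⟩

end Pool.Agent.MP_c8a077_gt
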