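import Pool.Agent.Lib.MP_c8a077_gt.B0

/-!
# JOB B1: a convex body of revolution is described by a concave profile

PROOF.  Translate by `c` in the head.  For `y, y' ⊥ e` with `‖y‖ = ‖y'‖` the reflection in
`(ℝ ∙ (y - y'))ᗮ` (`reflection_sub`, `Submodule.reflection`) is a linear isometry fixing `e` (as
`e ⊥ y - y'`) and mapping `y` to `y'`.  So `c + z e + y ∈ K` implies `c + z e + y' ∈ K`, and by
convexity (`y''` and `-y''` in place of `y`) `c + z e + y' ∈ K` for all `y' ⊥ e` with `‖y'‖ ≤ ‖y‖`.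
Let `[A,B]` be the image of `K` under `x ↦ ⟨x - c, e⟩` (compact, convex, nonempty), and
`r z = sup {‖y‖ : y ⊥ e, c + z e + y ∈ K}` for `z ∈ [A,B]`, attained by compactness.  This gives the
description.  `r ≥ 0` clear.  Concavity: fix a unit vector `f ⊥ e` (exists as `2 ≤ n`); the points
`c + z_i e + r(z_i) f` are in `K`, hence so are convex combinations.  `A < B` and `r > 0` somewhere in
`(A,B)` because `K` has an interior point; so `r > 0` on all of `(A,B)` by concavity and `r ≥ 0`.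
Continuity on `[A,B]`: a concave function on `[A,B]` is continuous inside
(`ConcaveOn.continuousOn_interior`) and lower semicontinuous at the end points
(`r((1-λ)A + λ z) ≥ (1-λ) r A + λ r z`); upper semicontinuity at the end points: if `z_n → B` then
`c + z_n e + r(z_n) f ∈ K`, closedness of `K` gives `limsup r(z_n) ≤ r(B)`.
-/

open MeasureTheory Set Metric Topology Filter

namespace Pool.Agent.MP_c8a077_gt

private theorem B1_rot {n : ℕ} {K : Set (E n)} {c e : E n}
    (hrev : ∀ g : E n ≃ₗᵢ[ℝ] E n, g e = e → ∀ x ∈ K, c + g (x - c) ∈ K) {z : ℝ} {y y' : E n}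
    (hy : inner ℝ y e = (0 : ℝ)) (hy' : inner ℝ y' e = (0 : ℝ)) (hnm : ‖y‖ = ‖y'‖)
    (h : c + z • e + y ∈ K) : c + z • e + y' ∈ K := by
  have h1 : (ℝ ∙ (y - y'))ᗮ.reflection y = y' := Submodule.reflection_sub hnm
  have h2 : (ℝ ∙ (y - y'))ᗮ.reflection e = e := by
    apply Submodule.reflection_mem_subspace_eq_self
    rw [Submodule.mem_orthogonal_singleton_iff_inner_right, inner_sub_left, hy, hy', sub_zero]
  have h3 := hrev _ h2 _ h
  have h4 : c + z • e + y - c = z • e + y := by abel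
  rw [h4, map_add, map_smul, h1, h2, ← add_assoc] at h3
  exact h3

private theorem B1_perp {n : ℕ} (hn : 2 ≤ n) (e : E n) :
    ∃ f : E n, ‖f‖ = 1 ∧ inner ℝ f e = (0 : ℝ) := by
  have h1 : (ℝ ∙ e) ≠ ⊤ := by
    intro h
    have h2 : Module.finrank ℝ (ℝ ∙ e) ≤ 1 := by
      have h3 := finrank_span_le_card (R := ℝ) ({e} : Set (E n))
      simpa using h3
    rw [h, finrank_top, finrank_euclideanSpace_fin] at h2
    omega
  have h2 : (ℝ ∙ e)ᗮ ≠ ⊥ := fun h => h1 (Submodule.orthogonal_eq_bot_iff.1 h)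
  obtain ⟨v, hv, hv0⟩ := Submodule.exists_mem_ne_zero_of_ne_bot h2
  rw [Submodule.mem_orthogonal_singleton_iff_inner_left] at hv
  have h3 : ‖v‖ ≠ 0 := norm_ne_zero_iff.2 hv0
  refine ⟨‖v‖⁻¹ • v, ?_, ?_⟩
  · rw [norm_smul, norm_inv, norm_norm, inv_mul_cancel₀ h3]
  · rw [real_inner_smul_left, hv, mul_zero]

theorem shape {n : ℕ} (hn : 2 ≤ n) (K : Set (E n)) (hconv : Convex ℝ K) (hcomp : IsCompact K)
    (hint : (interior K).Nonempty) (c e : E n) (he : ‖e‖ = 1)
    (hrev : ∀ g : E n ≃ₗᵢ[ℝ] E n, g e = e → ∀ x ∈ K, c + g (x - c) ∈ K) :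
    ∃ (A B : ℝ) (r : ℝ → ℝ), ProfHyp A B r ∧ RevDesc K c e A B r := by
  obtain ⟨f, hf, hfe⟩ := B1_perp hn e
  have hee : inner ℝ e e = (1 : ℝ) := by rw [real_inner_self_eq_norm_sq, he, one_pow]
  have hff : inner ℝ f f = (1 : ℝ) := by rw [real_inner_self_eq_norm_sq, hf, one_pow]
  have hef : inner ℝ e f = (0 : ℝ) := by rw [real_inner_comm, hfe]
  set P : ℝ → ℝ → E n := fun z ρ => c + z • e + ρ • f with hP
  -- bounds
  obtain ⟨R, hR⟩ : ∃ R : ℝ, ∀ x ∈ K, ‖x - c‖ ≤ R := by
    obtain ⟨R, hR⟩ := hcomp.isBounded.subset_closedBall c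
    exact ⟨R, fun x hx => by
      have := hR hx
      rwa [mem_closedBall, dist_eq_norm] at this⟩
  have hPe : ∀ z ρ, inner ℝ (P z ρ - c) e = z := by
    intro z ρ
    have h1 : P z ρ - c = z • e + ρ • f := by simp only [hP]; abel
    rw [h1, inner_add_left, real_inner_smul_left, real_inner_smul_left, hee, hfe]
    ring
  have hPf : ∀ z ρ, inner ℝ (P z ρ - c) f = ρ := by
    intro z ρ
    have h1 : P z ρ - c = z • e + ρ • f := by simp only [hP]; abel
    rw [h1, inner_add_left, real_inner_smul_left, real_inner_smul_left, hef, hff]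
    ring
  have hzb : ∀ z ρ, P z ρ ∈ K → |z| ≤ R := by
    intro z ρ h
    have h1 := abs_real_inner_le_norm (P z ρ - c) e
    rw [hPe, he, mul_one] at h1
    exact h1.trans (hR _ h)
  have hρb : ∀ z ρ, P z ρ ∈ K → |ρ| ≤ R := by
    intro z ρ h
    have h1 := abs_real_inner_le_norm (P z ρ - c) f
    rw [hPf, hf, mul_one] at h1
    exact h1.trans (hR _ h)
  -- convexity
  have hPc : ∀ z₁ ρ₁ z₂ ρ₂ a b : ℝ, 0 ≤ a → 0 ≤ b → a + b = 1 → P z₁ ρ₁ ∈ K → P z₂ ρ₂ ∈ K →
      P (a * z₁ + b * z₂) (a * ρ₁ + b * ρ₂) ∈ K := by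
    intro z₁ ρ₁ z₂ ρ₂ a b ha hb hab h1 h2
    have h3 := hconv h1 h2 ha hb hab
    have h4 : a • P z₁ ρ₁ + b • P z₂ ρ₂ = P (a * z₁ + b * z₂) (a * ρ₁ + b * ρ₂) := by
      simp only [hP]
      have h5 : c = (a + b) • c := by rw [hab, one_smul]
      conv_rhs => rw [h5]
      module
    rwa [h4] at h3
  -- rotation
  have hrot : ∀ z (y : E n), inner ℝ y e = (0 : ℝ) → (c + z • e + y ∈ K ↔ P z ‖y‖ ∈ K) := by
    intro z y hy
    have h1 : inner ℝ (‖y‖ • f) e = (0 : ℝ) := by rw [real_inner_smul_left, hfe, mul_zero]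
    have h2 : ‖y‖ = ‖‖y‖ • f‖ := by rw [norm_smul, norm_norm, hf, mul_one]
    exact ⟨fun h => B1_rot hrev hy h1 h2 h, fun h => B1_rot hrev h1 hy h2.symm h⟩
  have hsym : ∀ z ρ, P z ρ ∈ K → P z (-ρ) ∈ K := by
    intro z ρ h
    refine B1_rot hrev (y := ρ • f) (y' := (-ρ) • f) ?_ ?_ ?_ h
    · rw [real_inner_smul_left, hfe, mul_zero]
    · rw [real_inner_smul_left, hfe, mul_zero]
    · rw [norm_smul, norm_smul, norm_neg]
  have hzero : ∀ z ρ, P z ρ ∈ K → P z 0 ∈ K := by
    intro z ρ h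
    have h1 := hPc z ρ z (-ρ) (1 / 2) (1 / 2) (by norm_num) (by norm_num) (by norm_num) h (hsym z ρ h)
    have e1 : (1 : ℝ) / 2 * z + 1 / 2 * z = z := by ring
    have e2 : (1 : ℝ) / 2 * ρ + 1 / 2 * (-ρ) = 0 := by ring
    rwa [e1, e2] at h1
  have hPcont : Continuous (fun q : ℝ × ℝ => P q.1 q.2) := by
    simp only [hP]
    fun_prop
  -- the axis
  set Z : Set ℝ := {z | P z 0 ∈ K} with hZ
  have hZcl : IsClosed Z := hcomp.isClosed.preimage (hPcont.comp (Continuous.prodMk_left 0))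
  have hZsub : Z ⊆ Icc (-R) R := fun z hz => abs_le.1 (hzb z 0 hz)
  have hZcomp : IsCompact Z := isCompact_Icc.of_isClosed_subset hZcl hZsub
  obtain ⟨x₀, hx₀⟩ := hint
  obtain ⟨ε, hε, hball⟩ := Metric.isOpen_iff.1 isOpen_interior x₀ hx₀
  have hball' : ball x₀ ε ⊆ K := hball.trans interior_subset
  set z₀ : ℝ := inner ℝ (x₀ - c) e with hz₀
  set y₀ : E n := x₀ - c - z₀ • e with hy₀
  have hy₀e : inner ℝ y₀ e = (0 : ℝ) := by
    rw [hy₀, inner_sub_left, real_inner_smul_left, hee, ← hz₀]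
    ring
  have hnear : ∀ (w : E n), ‖w‖ ≤ ε / 2 → x₀ + w ∈ K := by
    intro w hw
    apply hball'
    rw [mem_ball, dist_eq_norm, add_sub_cancel_left]
    linarith
  have hmemz : ∀ s : ℝ, |s| ≤ ε / 2 → z₀ + s ∈ Z := by
    intro s hs
    have h1 := hnear (s • e) (by rw [norm_smul, he, mul_one]; exact hs)
    have h2 : x₀ + s • e = c + (z₀ + s) • e + y₀ := by
      rw [hy₀]
      module
    rw [h2, hrot _ _ hy₀e] at h1
    exact hzero _ _ h1
  have hZne : Z.Nonempty := ⟨z₀ + 0, hmemz 0 (by rw [abs_zero]; positivity)⟩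
  have hZconv : Convex ℝ Z := by
    intro z₁ h1 z₂ h2 a b ha hb hab
    have h3 := hPc z₁ 0 z₂ 0 a b ha hb hab h1 h2
    rw [mul_zero, mul_zero, add_zero] at h3
    exact h3
  have hZeq : Z = Icc (sInf Z) (sSup Z) :=
    eq_Icc_of_connected_compact ⟨hZne, hZconv.isPreconnected⟩ hZcomp
  set A := sInf Z with hA
  set B := sSup Z with hB
  -- the profile
  set r : ℝ → ℝ := fun z => sSup {ρ | P z ρ ∈ K} with hr
  have hbdd : ∀ z, BddAbove {ρ | P z ρ ∈ K} := fun z => ⟨R, fun ρ hρ => (le_abs_self ρ).trans (hρb z ρ hρ)⟩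
  have hle : ∀ z ρ, P z ρ ∈ K → ρ ≤ r z := fun z ρ h => le_csSup (hbdd z) h
  have hRcomp : ∀ z, IsCompact {ρ | P z ρ ∈ K} := by
    intro z
    refine isCompact_Icc.of_isClosed_subset
      (hcomp.isClosed.preimage (hPcont.comp (Continuous.prodMk_right z)))
      (fun ρ hρ => abs_le.1 (hρb z ρ hρ))
  have hrmem : ∀ z ∈ Z, P z (r z) ∈ K := fun z hz => (hRcomp z).sSup_mem ⟨0, hz⟩
  have hr0 : ∀ z ∈ Z, 0 ≤ r z := fun z hz => hle z 0 hz
  have hmem : ∀ z ∈ Z, ∀ ρ, 0 ≤ ρ → ρ ≤ r z → P z ρ ∈ K := by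
    intro z hz ρ h0 h1
    rcases (hr0 z hz).eq_or_lt with h2 | h2
    · have h3 : ρ = 0 := by linarith
      rw [h3]
      exact hz
    · have h3 := hPc z 0 z (r z) (1 - ρ / r z) (ρ / r z)
        (by rw [sub_nonneg, div_le_one h2]; exact h1) (by positivity) (by ring) hz (hrmem z hz)
      have e1 : (1 - ρ / r z) * z + ρ / r z * z = z := by ring
      have e2 : (1 - ρ / r z) * 0 + ρ / r z * r z = ρ := by
        field_simp
        ring
      rwa [e1, e2] at h3
  have hconc : ConcaveOn ℝ (Icc A B) r := by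
    refine ⟨convex_Icc _ _, ?_⟩
    intro z₁ h1 z₂ h2 a b ha hb hab
    rw [← hZeq] at h1 h2
    exact hle _ _ (hPc z₁ (r z₁) z₂ (r z₂) a b ha hb hab (hrmem _ h1) (hrmem _ h2))
  -- concavity inequalities towards the ends
  have hAm : A ∈ Icc A B := by
    have : Z.Nonempty := hZne
    rw [hZeq] at this
    exact ⟨le_rfl, nonempty_Icc.1 this⟩
  have hBm : B ∈ Icc A B := ⟨hAm.2, le_rfl⟩
  have hrA : 0 ≤ r A := hr0 A (hZeq ▸ hAm)
  have hrB : 0 ≤ r B := hr0 B (hZeq ▸ hBm)
  have hleft : ∀ z w, A ≤ z → z ≤ w → w ≤ B → (z - A) * r w ≤ r z * (w - A) := by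
    intro z w h1 h2 h3
    rcases (h1.trans h2).eq_or_lt with h4 | h4
    · have e1 : z = A := by linarith
      rw [e1, ← h4]
      simp
    · have h5 : 0 < w - A := by linarith
      have h6 := hconc.2 hAm (⟨h4.le, h3⟩ : w ∈ Icc A B)
        (show 0 ≤ (w - z) / (w - A) from div_nonneg (by linarith) h5.le)
        (show 0 ≤ (z - A) / (w - A) from div_nonneg (by linarith) h5.le)
        (by rw [← add_div]; field_simp; ring)
      simp only [smul_eq_mul] at h6
      have e1 : (w - z) / (w - A) * A + (z - A) / (w - A) * w = z := by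
        field_simp
        ring
      rw [e1] at h6
      have h7 : 0 ≤ (w - z) / (w - A) * r A := mul_nonneg (div_nonneg (by linarith) h5.le) hrA
      have h8 : (z - A) / (w - A) * r w ≤ r z := by linarith
      have h9 : (z - A) * r w = (z - A) / (w - A) * r w * (w - A) := by
        field_simp
      rw [h9]
      exact mul_le_mul_of_nonneg_right h8 h5.le
  have hright : ∀ z w, A ≤ w → w ≤ z → z ≤ B → (B - z) * r w ≤ r z * (B - w) := by
    intro z w h1 h2 h3
    rcases (h2.trans h3).eq_or_lt with h4 | h4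
    · have e1 : z = B := by linarith
      rw [e1, h4]
      simp
    · have h5 : 0 < B - w := by linarith
      have h6 := hconc.2 (⟨h1, h4.le⟩ : w ∈ Icc A B) hBm
        (show 0 ≤ (B - z) / (B - w) from div_nonneg (by linarith) h5.le)
        (show 0 ≤ (z - w) / (B - w) from div_nonneg (by linarith) h5.le)
        (by rw [← add_div]; field_simp; ring)
      simp only [smul_eq_mul] at h6
      have e1 : (B - z) / (B - w) * w + (z - w) / (B - w) * B = z := by
        field_simp
        ring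
      rw [e1] at h6
      have h7 : 0 ≤ (z - w) / (B - w) * r B := mul_nonneg (div_nonneg (by linarith) h5.le) hrB
      have h8 : (B - z) / (B - w) * r w ≤ r z := by linarith
      have h9 : (B - z) * r w = (B - z) / (B - w) * r w * (B - w) := by
        field_simp
      rw [h9]
      exact mul_le_mul_of_nonneg_right h8 h5.le
  have hcont : ContinuousOn r (Icc A B) := by
    intro w hw
    have hwZ : w ∈ Z := by rw [hZeq]; exact hw
    refine tendsto_order.2 ⟨?_, ?_⟩
    · intro a ha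
      have E1 : ∀ᶠ z in 𝓝[Icc A B] w, A < w → a * (w - A) < (z - A) * r w := by
        by_cases h1 : A < w
        · have h2 : Tendsto (fun z : ℝ => (z - A) * r w) (𝓝[Icc A B] w) (𝓝 ((w - A) * r w)) :=
            tendsto_nhdsWithin_of_tendsto_nhds (Continuous.tendsto (by fun_prop) w)
          have h3 : a * (w - A) < (w - A) * r w := by nlinarith
          filter_upwards [h2.eventually (eventually_gt_nhds h3)] with z hz _ using hz
        · exact Eventually.of_forall fun z h => absurd h h1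
      have E2 : ∀ᶠ z in 𝓝[Icc A B] w, w < B → a * (B - w) < (B - z) * r w := by
        by_cases h1 : w < B
        · have h2 : Tendsto (fun z : ℝ => (B - z) * r w) (𝓝[Icc A B] w) (𝓝 ((B - w) * r w)) :=
            tendsto_nhdsWithin_of_tendsto_nhds (Continuous.tendsto (by fun_prop) w)
          have h3 : a * (B - w) < (B - w) * r w := by nlinarith
          filter_upwards [h2.eventually (eventually_gt_nhds h3)] with z hz _ using hz
        · exact Eventually.of_forall fun z h => absurd h h1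
      filter_upwards [E1, E2, self_mem_nhdsWithin] with z h1 h2 hz
      rcases lt_trichotomy z w with h3 | h3 | h3
      · have h4 : A < w := lt_of_le_of_lt hz.1 h3
        have h5 := h1 h4
        have h6 := hleft z w hz.1 h3.le hw.2
        have h7 : a * (w - A) < r z * (w - A) := lt_of_lt_of_le h5 h6
        exact lt_of_mul_lt_mul_right h7 (by linarith)
      · rw [h3]
        exact ha
      · have h4 : w < B := lt_of_lt_of_le h3 hz.2
        have h5 := h2 h4
        have h6 := hright z w hw.1 h3.le hz.2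
        have h7 : a * (B - w) < r z * (B - w) := lt_of_lt_of_le h5 h6
        exact lt_of_mul_lt_mul_right h7 (by linarith)
    · intro a ha
      have ha0 : 0 ≤ a := (hr0 w hwZ).trans ha.le
      have h1 : IsClosed {z | P z a ∈ K} := hcomp.isClosed.preimage (hPcont.comp (Continuous.prodMk_left a))
      have h2 : w ∈ {z | P z a ∈ K}ᶜ := by
        intro h
        exact absurd (hle w a h) (not_le.2 ha)
      have h3 : ∀ᶠ z in 𝓝[Icc A B] w, z ∈ {z | P z a ∈ K}ᶜ :=
        mem_nhdsWithin_of_mem_nhds (h1.isOpen_compl.mem_nhds h2)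
      filter_upwards [h3, self_mem_nhdsWithin] with z h4 hz
      by_contra h5
      push Not at h5
      rw [← hZeq] at hz
      exact h4 (hmem z hz a ha0 h5)
  have hz₀A : A < z₀ := by
    have h1 := hmemz (-(ε / 2)) (by rw [abs_neg, abs_of_pos (by positivity)])
    rw [hZeq] at h1
    linarith [h1.1]
  have hz₀B : z₀ < B := by
    have h1 := hmemz (ε / 2) (by rw [abs_of_pos (by positivity)])
    rw [hZeq] at h1
    linarith [h1.2]
  have hrz₀ : 0 < r z₀ := by
    have h1 : ∀ s : ℝ, |s| ≤ ε / 2 → ‖y₀ + s • f‖ ≤ r z₀ := by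
      intro s hs
      have h2 := hnear (s • f) (by rw [norm_smul, hf, mul_one]; exact hs)
      have h3 : x₀ + s • f = c + z₀ • e + (y₀ + s • f) := by
        rw [hy₀]
        module
      rw [h3, hrot] at h2
      · exact hle _ _ h2
      · rw [inner_add_left, hy₀e, real_inner_smul_left, hfe, mul_zero, add_zero]
    have h2 := h1 (ε / 2) (by rw [abs_of_pos (by positivity)])
    have h3 := h1 (-(ε / 2)) (by rw [abs_neg, abs_of_pos (by positivity)])
    have h4 : ‖(ε : ℝ) • f‖ ≤ ‖y₀ + (ε / 2) • f‖ + ‖y₀ + (-(ε / 2)) • f‖ := by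
      have h5 : (ε : ℝ) • f = (y₀ + (ε / 2) • f) - (y₀ + (-(ε / 2)) • f) := by module
      rw [h5]
      exact norm_sub_le _ _
    rw [norm_smul, hf, mul_one, Real.norm_of_nonneg hε.le] at h4
    linarith
  refine ⟨A, B, r, ⟨hz₀A.trans hz₀B, hconc, hcont, ?_, ?_⟩, ?_⟩
  · intro z hz
    rw [← hZeq] at hz
    exact hr0 z hz
  · intro z hz
    rcases le_total z z₀ with h1 | h1
    · have h2 := hleft z z₀ hz.1.le h1 hz₀B.le
      have h3 : 0 < (z - A) * r z₀ := mul_pos (by linarith [hz.1]) hrz₀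
      have h4 : 0 < r z * (z₀ - A) := lt_of_lt_of_le h3 h2
      exact (pos_iff_pos_of_mul_pos h4).2 (by linarith)
    · have h2 := hright z z₀ hz₀A.le h1 hz.2.le
      have h3 : 0 < (B - z) * r z₀ := mul_pos (by linarith [hz.2]) hrz₀
      have h4 : 0 < r z * (B - z₀) := lt_of_lt_of_le h3 h2
      exact (pos_iff_pos_of_mul_pos h4).2 (by linarith)
  · intro x
    have hye : inner ℝ (x - c - (inner ℝ (x - c) e : ℝ) • e) e = (0 : ℝ) := by
      rw [inner_sub_left, real_inner_smul_left, hee]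
      ring
    have hx : x = c + (inner ℝ (x - c) e : ℝ) • e + (x - c - (inner ℝ (x - c) e : ℝ) • e) := by
      abel
    have h1 := hrot (inner ℝ (x - c) e) _ hye
    rw [← hx] at h1
    rw [h1, ← hZeq]
    constructor
    · intro h
      exact ⟨hzero _ _ h, hle _ _ h⟩
    · rintro ⟨h2, h3⟩
      exact hmem _ h2 _ (norm_nonneg _) h3

end Pool.Agent.MP_c8a077_gt
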