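import Pool.Agent.Lib.MP_c8a077_gt.B0

/-!
# JOB B2a: the relative boundary of a section, transported to the hyperplane through the origin

PROOF.  `u = α e + β f` and `v = -β e + α f` are orthonormal.  Let `W = (ℝ ∙ u)ᗮ`.
The map `φ : W → hyper u (t + ⟨c,u⟩)`, `w ↦ c + t u + w` is a bijective isometry
(`IsometryEquiv`), so it maps frontiers to frontiers and preserves `μHE[n-2]`
(`IsometryEquiv.measurePreserving_euclideanHausdorffMeasure` or
`Isometry.euclideanHausdorffMeasure_image`).  Hence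
`surfSec K u (t + ⟨c,u⟩) = μHE[n-2] (frontier K')`, `K' = {w ∈ W : c + t u + w ∈ K}`.
For `w ∈ W`, `s = ⟨w,v⟩`, `y = w - s v` (orthogonal to `e`, `f`): `⟨x - c, e⟩ = t α - s β =: z`,
`⟨x - c,f⟩ = t β + s α`, `‖x - c - z e‖² = (t β + s α)² + ‖y‖²`.
So `K' = {w : z ∈ [A,B], (tβ+sα)² + ‖w - s v‖² ≤ r(z)²}`, i.e. `z ∈ [A,B]`, `‖y‖² ≤ qsec r α β t s`.
Claim: `frontier K' = {w : z ∈ [A,B] ∧ ‖w - s v‖² = qsec r α β t s}`.
`K'` is closed.  If `z ∈ [A,B]` and `‖y‖² < qsec` then `r z > 0`, so by `hend` `z ∈ (A,B)` and by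
continuity of `r` at `z` (`hcont`, interior point) a neighbourhood of `w` is in `K'`.  Conversely let
`‖y‖² = qsec`.  If `y ≠ 0` the points `s v + (1+ε) y` are not in `K'`; if `y = 0` then `qsec = 0` and for
a unit vector `y₀ ⊥ e,f` (`n ≥ 3`) the points `s v + ε y₀` are not in `K'`.  So `w ∈ frontier K'`.
Finally `{w : z ∈ [A,B] ∧ ‖w - s v‖² = qsec}` is the union of
`surf v (√qsec) {s | z ∈ (A,B) ∧ 0 < qsec}` and of a subset of the line `ℝ v` (if `qsec > 0` then
`r z ≠ 0` and `z ∈ (A,B)` by `hend`; if `qsec = 0` then `w = s v`).  The line is `μHE[n-2]`-null by the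
hypothesis `hnull` (this is `line_null` of file A4).
-/

open MeasureTheory Set Metric Topology Filter

namespace Pool.Agent.MP_c8a077_gt

/-- a unit vector orthogonal to two given ones -/
private theorem b2a_exists_orth {n : ℕ} (hn : 3 ≤ n) (a b : E n) :
    ∃ g : E n, ‖g‖ = 1 ∧ inner ℝ g a = (0 : ℝ) ∧ inner ℝ g b = (0 : ℝ) := by
  have h1 : (Submodule.span ℝ {a, b} : Submodule ℝ (E n)) ≠ ⊤ := by
    intro h2
    have h3 : Module.finrank ℝ (Submodule.span ℝ {a, b} : Submodule ℝ (E n)) ≤ 2 := by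
      classical
      have h4 := finrank_span_le_card (R := ℝ) ({a, b} : Set (E n))
      refine h4.trans ?_
      rw [show ({a, b} : Set (E n)).toFinset = {a, b} by ext; simp]
      exact Finset.card_le_two
    rw [h2, finrank_top, finrank_euclideanSpace_fin] at h3
    omega
  have h2 : (Submodule.span ℝ {a, b} : Submodule ℝ (E n))ᗮ ≠ ⊥ := by
    intro h3
    exact h1 ((Submodule.orthogonal_eq_bot_iff).1 h3)
  obtain ⟨g, hg, hg0⟩ := Submodule.exists_mem_ne_zero_of_ne_bot h2
  have hn0 : ‖g‖ ≠ 0 := norm_ne_zero_iff.2 hg0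
  have hga : inner ℝ g a = (0 : ℝ) := by
    rw [real_inner_comm]
    exact (Submodule.mem_orthogonal _ _).1 hg a (Submodule.subset_span (by simp))
  have hgb : inner ℝ g b = (0 : ℝ) := by
    rw [real_inner_comm]
    exact (Submodule.mem_orthogonal _ _).1 hg b (Submodule.subset_span (by simp))
  refine ⟨‖g‖⁻¹ • g, ?_, ?_, ?_⟩
  · rw [norm_smul, norm_inv, norm_norm, inv_mul_cancel₀ hn0]
  · rw [real_inner_smul_left, hga, mul_zero]
  · rw [real_inner_smul_left, hgb, mul_zero]

/-- the isometry from the linear hyperplane onto the affine one -/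
private noncomputable def b2aIso {n : ℕ} (c u : E n) (t : ℝ) (huu : inner ℝ u u = (1 : ℝ)) :
    (Submodule.span ℝ {u} : Submodule ℝ (E n))ᗮ ≃ᵢ hyper u (t + inner ℝ c u) :=
  IsometryEquiv.mk'
    (fun w => ⟨c + t • u + (w : E n), by
      change inner ℝ (c + t • u + (w : E n)) u = t + inner ℝ c u
      have h1 : inner ℝ (w : E n) u = (0 : ℝ) := (Submodule.mem_orthogonal_singleton_iff_inner_left).1 w.2
      rw [inner_add_left, inner_add_left, real_inner_smul_left, huu, h1]
      ring⟩)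
    (fun x => ⟨(x : E n) - c - t • u, by
      rw [Submodule.mem_orthogonal_singleton_iff_inner_left]
      have h1 : inner ℝ (x : E n) u = t + inner ℝ c u := x.2
      rw [inner_sub_left, inner_sub_left, real_inner_smul_left, huu, h1]
      ring⟩)
    (by
      intro x
      apply Subtype.ext
      change c + t • u + ((x : E n) - c - t • u) = (x : E n)
      abel)
    (by
      refine Isometry.of_dist_eq (fun w w' => ?_)
      rw [Subtype.dist_eq, Subtype.dist_eq]
      exact dist_add_left _ _ _)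

private theorem b2a_aux {n : ℕ} (hn : 3 ≤ n) (K : Set (E n)) (c e f : E n)
    (he : ‖e‖ = 1) (hf : ‖f‖ = 1) (hef : inner ℝ e f = 0) (A B : ℝ) (r : ℝ → ℝ)
    (hcont : ContinuousOn r (Icc A B)) (hr0 : ∀ z ∈ Icc A B, 0 ≤ r z)
    (hK : RevDesc K c e A B r) (α β : ℝ) (hαβ : α ^ 2 + β ^ 2 = 1) (t : ℝ)
    (hend : ∀ s, t * α - s * β ∈ Icc A B → t * α - s * β ∈ Ioo A B ∨ r (t * α - s * β) = 0)
    (u : E n) (hu : u = α • e + β • f)
    (v : (Submodule.span ℝ {u} : Submodule ℝ (E n))ᗮ)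
    (hv : (v : E n) = (-β) • e + α • f)
    (hnull : μHE[n - 2] {x : (Submodule.span ℝ {u} : Submodule ℝ (E n))ᗮ | ∃ s : ℝ, x = s • v} = 0) :
    surfSec K u (t + inner ℝ c u) =
      μHE[n - 2] (surf v (fun s => √(qsec r α β t s))
        {s : ℝ | t * α - s * β ∈ Ioo A B ∧ 0 < qsec r α β t s}) := by
  have hfe : inner ℝ f e = (0 : ℝ) := by rw [real_inner_comm]; exact hef
  have hee : inner ℝ e e = (1 : ℝ) := by rw [real_inner_self_eq_norm_sq, he]; norm_num
  have hff : inner ℝ f f = (1 : ℝ) := by rw [real_inner_self_eq_norm_sq, hf]; norm_num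
  have huu : inner ℝ u u = (1 : ℝ) := by
    rw [hu]
    simp only [inner_add_left, inner_add_right, real_inner_smul_left, real_inner_smul_right, hee, hff,
      hef, hfe]
    linarith
  have hue : inner ℝ u e = α := by
    rw [hu]
    simp only [inner_add_left, real_inner_smul_left, hee, hfe]
    ring
  have hvv' : inner ℝ (v : E n) (v : E n) = (1 : ℝ) := by
    rw [hv]
    simp only [inner_add_left, inner_add_right, real_inner_smul_left, real_inner_smul_right, hee, hff,
      hef, hfe]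
    linarith
  have hvv : inner ℝ v v = (1 : ℝ) := hvv'
  -- the set in `W`
  set φ := b2aIso c u t huu with hφ
  set K' : Set (Submodule.span ℝ {u} : Submodule ℝ (E n))ᗮ := {w | c + t • u + (w : E n) ∈ K} with hK'
  have hpre : φ ⁻¹' ((↑) ⁻¹' K : Set (hyper u (t + inner ℝ c u))) = K' := rfl
  have hstep1 : surfSec K u (t + inner ℝ c u) = μHE[n - 2] (frontier K') := by
    unfold surfSec
    rw [← hpre]
    have h1 : frontier (φ ⁻¹' ((↑) ⁻¹' K : Set (hyper u (t + inner ℝ c u)))) =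
        φ ⁻¹' frontier ((↑) ⁻¹' K : Set (hyper u (t + inner ℝ c u))) :=
      (φ.toHomeomorph.preimage_frontier _).symm
    rw [h1, φ.isometry.euclideanHausdorffMeasure_preimage, φ.surjective.range_eq, inter_univ]
  -- coordinates
  have hwu : ∀ w : (Submodule.span ℝ {u} : Submodule ℝ (E n))ᗮ, inner ℝ (w : E n) u = (0 : ℝ) := fun w =>
    (Submodule.mem_orthogonal_singleton_iff_inner_left).1 w.2
  have hwe : ∀ w : (Submodule.span ℝ {u} : Submodule ℝ (E n))ᗮ,
      inner ℝ (w : E n) e = -β * inner ℝ w v := by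
    intro w
    have h1 : inner ℝ (w : E n) (α • e + β • f) = (0 : ℝ) := by
      rw [← hu]
      exact hwu w
    have h2 : inner ℝ w v = inner ℝ (w : E n) (v : E n) := rfl
    rw [h2, hv]
    rw [inner_add_right, real_inner_smul_right, real_inner_smul_right] at h1 ⊢
    linear_combination (inner ℝ (w : E n) e) * (-hαβ) + α * h1
  have hmem : ∀ w : (Submodule.span ℝ {u} : Submodule ℝ (E n))ᗮ, w ∈ K' ↔
      (t * α - inner ℝ w v * β ∈ Icc A B ∧
        ‖w - (inner ℝ w v : ℝ) • v‖ ^ 2 ≤ qsec r α β t (inner ℝ w v)) := by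
    intro w
    have h0 : w ∈ K' ↔ c + t • u + (w : E n) ∈ K := Iff.rfl
    rw [h0, hK]
    have h1 : c + t • u + (w : E n) - c = t • u + (w : E n) := by abel
    have h2 : inner ℝ (t • u + (w : E n)) e = t * α - inner ℝ w v * β := by
      rw [inner_add_left, real_inner_smul_left, hue, hwe]
      ring
    rw [h1, h2]
    set s : ℝ := inner ℝ w v with hs
    set z : ℝ := t * α - s * β with hz
    have h3 : ‖t • u + (w : E n) - z • e‖ ^ 2 = t ^ 2 + ‖(w : E n)‖ ^ 2 - z ^ 2 := by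
      rw [@norm_sub_sq_real, @norm_add_sq_real, real_inner_smul_left, real_inner_comm, hwu,
        real_inner_smul_right, h2, norm_smul, norm_smul, he, mul_pow, mul_pow]
      have h4 : ‖u‖ ^ 2 = 1 := by rw [← real_inner_self_eq_norm_sq, huu]
      rw [h4, Real.norm_eq_abs, Real.norm_eq_abs, sq_abs, sq_abs]
      ring
    have h5 : ‖w - s • v‖ ^ 2 = ‖(w : E n)‖ ^ 2 - s ^ 2 := by
      rw [@norm_sub_sq_real, real_inner_smul_right, ← hs, norm_smul, mul_pow]
      have h4 : ‖v‖ ^ 2 = 1 := by rw [← real_inner_self_eq_norm_sq, hvv]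
      rw [h4, Real.norm_eq_abs, sq_abs, Submodule.coe_norm]
      ring
    refine and_congr_right (fun hzm => ?_)
    have h6 : ‖t • u + (w : E n) - z • e‖ ≤ r z ↔ ‖t • u + (w : E n) - z • e‖ ^ 2 ≤ r z ^ 2 :=
      (pow_le_pow_iff_left₀ (norm_nonneg _) (hr0 z hzm) two_ne_zero).symm
    rw [h6, h3, h5]
    unfold qsec
    rw [← hz]
    have h7 : t ^ 2 - z ^ 2 = (t * β + s * α) ^ 2 - s ^ 2 := by
      rw [hz]
      linear_combination (-(t ^ 2) - s ^ 2) * hαβ
    constructor
    · intro h8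
      linarith
    · intro h8
      linarith
  -- the defining function
  let sw : (Submodule.span ℝ {u} : Submodule ℝ (E n))ᗮ → ℝ := fun w => inner ℝ w v
  have hsw : Continuous sw := continuous_id.inner continuous_const
  let zw : (Submodule.span ℝ {u} : Submodule ℝ (E n))ᗮ → ℝ := fun w => t * α - sw w * β
  have hzw : Continuous zw := by fun_prop
  let hh : (Submodule.span ℝ {u} : Submodule ℝ (E n))ᗮ → ℝ := fun w =>
    qsec r α β t (sw w) - ‖w - sw w • v‖ ^ 2
  have hhc : ContinuousOn hh (zw ⁻¹' Icc A B) := by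
    have h1 : ContinuousOn (fun w => r (zw w)) (zw ⁻¹' Icc A B) :=
      hcont.comp hzw.continuousOn (fun w hw => hw)
    have h2 : Continuous (fun w : (Submodule.span ℝ {u} : Submodule ℝ (E n))ᗮ =>
        (t * β + sw w * α) ^ 2) := by fun_prop
    have h3 : Continuous (fun w : (Submodule.span ℝ {u} : Submodule ℝ (E n))ᗮ =>
        ‖w - sw w • v‖ ^ 2) := by fun_prop
    exact ((h1.pow 2).sub h2.continuousOn).sub h3.continuousOn
  have hmem' : ∀ w, w ∈ K' ↔ zw w ∈ Icc A B ∧ 0 ≤ hh w := by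
    intro w
    rw [hmem w]
    change _ ∧ _ ↔ _ ∧ 0 ≤ qsec r α β t (inner ℝ w v) - ‖w - (inner ℝ w v : ℝ) • v‖ ^ 2
    rw [sub_nonneg]
  have hclosed : IsClosed K' := by
    have h1 := hhc.preimage_isClosed_of_isClosed (isClosed_Icc.preimage hzw) (isClosed_Ici (a := (0 : ℝ)))
    have h2 : K' = zw ⁻¹' Icc A B ∩ hh ⁻¹' Ici 0 := by
      ext w
      exact hmem' w
    rw [h2]
    exact h1
  have hfr : frontier K' = {w | zw w ∈ Icc A B ∧ hh w = 0} := by
    rw [hclosed.frontier_eq]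
    ext w
    constructor
    · rintro ⟨h1, h2⟩
      obtain ⟨h3, h4⟩ := (hmem' w).1 h1
      refine ⟨h3, ?_⟩
      by_contra hcon
      have h5 : 0 < hh w := lt_of_le_of_ne h4 (Ne.symm hcon)
      have h6 : zw w ∈ Ioo A B := by
        rcases hend (sw w) h3 with h7 | h7
        · exact h7
        · exfalso
          have h8 : hh w = r (t * α - sw w * β) ^ 2 - (t * β + sw w * α) ^ 2 - ‖w - sw w • v‖ ^ 2 := rfl
          rw [h7] at h8
          nlinarith [sq_nonneg (t * β + sw w * α), sq_nonneg ‖w - sw w • v‖]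
      apply h2
      rw [mem_interior]
      refine ⟨zw ⁻¹' Ioo A B ∩ hh ⁻¹' Ioi 0, ?_, ?_, h6, h5⟩
      · intro y hy
        exact (hmem' y).2 ⟨Ioo_subset_Icc_self hy.1, (mem_Ioi.1 hy.2).le⟩
      · exact (hhc.mono (preimage_mono Ioo_subset_Icc_self)).isOpen_inter_preimage
          (isOpen_Ioo.preimage hzw) isOpen_Ioi
    · rintro ⟨h1, h2⟩
      refine ⟨(hmem' w).2 ⟨h1, h2.ge⟩, fun hint => ?_⟩
      obtain ⟨g, hg1, hgu, hgv⟩ := b2a_exists_orth hn u (v : E n)
      have hgW : g ∈ (Submodule.span ℝ {u} : Submodule ℝ (E n))ᗮ :=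
        (Submodule.mem_orthogonal_singleton_iff_inner_left).2 hgu
      let y₀ : (Submodule.span ℝ {u} : Submodule ℝ (E n))ᗮ := ⟨g, hgW⟩
      have hy₀v : inner ℝ y₀ v = (0 : ℝ) := hgv
      have hy₀n : ‖y₀‖ = 1 := hg1
      obtain ⟨d, hdv, hdn, hd⟩ : ∃ d : (Submodule.span ℝ {u} : Submodule ℝ (E n))ᗮ,
          inner ℝ d v = (0 : ℝ) ∧ ‖d‖ = 1 ∧ 0 ≤ inner ℝ (w - sw w • v) d := by
        rcases le_total 0 (inner ℝ (w - sw w • v) y₀ : ℝ) with h3 | h3
        · exact ⟨y₀, hy₀v, hy₀n, h3⟩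
        · refine ⟨-y₀, ?_, ?_, ?_⟩
          · rw [inner_neg_left, hy₀v, neg_zero]
          · rw [norm_neg, hy₀n]
          · rw [inner_neg_right]
            linarith
      have hcv : Continuous (fun ε : ℝ => w + ε • d) := by fun_prop
      have h3 : ∀ᶠ ε in 𝓝 (0 : ℝ), w + ε • d ∈ K' := by
        have h4 : K' ∈ 𝓝 (w + (0 : ℝ) • d) := by
          rw [zero_smul, add_zero]
          exact mem_interior_iff_mem_nhds.1 hint
        exact hcv.continuousAt.eventually h4
      have h4 : ∀ᶠ ε in 𝓝[>] (0 : ℝ), w + ε • d ∈ K' ∧ 0 < ε :=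
        (h3.filter_mono nhdsWithin_le_nhds).and (eventually_mem_nhdsWithin)
      obtain ⟨ε, hε, hε0⟩ := h4.exists
      have h5 : sw (w + ε • d) = sw w := by
        change inner ℝ (w + ε • d) v = inner ℝ w v
        rw [inner_add_left, real_inner_smul_left, hdv]
        ring
      have h6 := ((hmem' _).1 hε).2
      have h7 : hh (w + ε • d) = hh w - 2 * ε * inner ℝ (w - sw w • v) d - ε ^ 2 := by
        change qsec r α β t (sw (w + ε • d)) - ‖w + ε • d - sw (w + ε • d) • v‖ ^ 2 =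
          qsec r α β t (sw w) - ‖w - sw w • v‖ ^ 2 - 2 * ε * inner ℝ (w - sw w • v) d - ε ^ 2
        rw [h5]
        have h8 : w + ε • d - sw w • v = (w - sw w • v) + ε • d := by abel
        rw [h8, @norm_add_sq_real, real_inner_smul_right, norm_smul, hdn, Real.norm_eq_abs, mul_one,
          sq_abs]
        ring
      rw [h7, h2] at h6
      nlinarith [mul_nonneg hε0.le hd]
  rw [hstep1, hfr]
  apply le_antisymm
  · have h1 : {w | zw w ∈ Icc A B ∧ hh w = 0} ⊆
        surf v (fun s => √(qsec r α β t s)) {s : ℝ | t * α - s * β ∈ Ioo A B ∧ 0 < qsec r α β t s} ∪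
        {x : (Submodule.span ℝ {u} : Submodule ℝ (E n))ᗮ | ∃ s : ℝ, x = s • v} := by
      rintro w ⟨h2, h3⟩
      have h4 : qsec r α β t (sw w) = ‖w - sw w • v‖ ^ 2 := by
        have h5 : hh w = qsec r α β t (sw w) - ‖w - sw w • v‖ ^ 2 := rfl
        linarith
      by_cases h5 : 0 < qsec r α β t (sw w)
      · left
        refine ⟨⟨?_, h5⟩, ?_⟩
        · rcases hend (sw w) h2 with h7 | h7
          · exact h7
          · exfalso
            unfold qsec at h5
            rw [h7] at h5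
            nlinarith [sq_nonneg (t * β + sw w * α)]
        · change ‖w - sw w • v‖ = √(qsec r α β t (sw w))
          rw [h4, Real.sqrt_sq (norm_nonneg _)]
      · right
        refine ⟨sw w, ?_⟩
        have h6 : ‖w - sw w • v‖ ^ 2 ≤ 0 := by linarith
        have h7 : ‖w - sw w • v‖ = 0 := by
          have := sq_nonneg ‖w - sw w • v‖
          exact pow_eq_zero_iff two_ne_zero |>.1 (le_antisymm h6 this)
        exact sub_eq_zero.1 (norm_eq_zero.1 h7)
    refine (measure_mono h1).trans ((measure_union_le _ _).trans ?_)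
    rw [hnull, add_zero]
  · refine measure_mono ?_
    rintro w ⟨⟨h1, h2⟩, h3⟩
    refine ⟨Ioo_subset_Icc_self h1, ?_⟩
    change qsec r α β t (inner ℝ w v) - ‖w - (inner ℝ w v : ℝ) • v‖ ^ 2 = 0
    rw [h3, Real.sq_sqrt h2.le, sub_self]

theorem surfSec_transport {n : ℕ} (hn : 3 ≤ n) (K : Set (E n)) (c e f : E n)
    (he : ‖e‖ = 1) (hf : ‖f‖ = 1) (hef : inner ℝ e f = 0) (A B : ℝ) (r : ℝ → ℝ)
    (hcont : ContinuousOn r (Icc A B)) (hr0 : ∀ z ∈ Icc A B, 0 ≤ r z)
    (hK : RevDesc K c e A B r) (α β : ℝ) (hαβ : α ^ 2 + β ^ 2 = 1) (t : ℝ)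
    (hend : ∀ s, t * α - s * β ∈ Icc A B → t * α - s * β ∈ Ioo A B ∨ r (t * α - s * β) = 0)
    (v : (Submodule.span ℝ {α • e + β • f} : Submodule ℝ (E n))ᗮ)
    (hv : (v : E n) = (-β) • e + α • f)
    (hnull : μHE[n - 2] {x : (Submodule.span ℝ {α • e + β • f} : Submodule ℝ (E n))ᗮ |
      ∃ s : ℝ, x = s • v} = 0) :
    surfSec K (α • e + β • f) (t + inner ℝ c (α • e + β • f)) =
      μHE[n - 2] (surf v (fun s => √(qsec r α β t s))
        {s : ℝ | t * α - s * β ∈ Ioo A B ∧ 0 < qsec r α β t s}) :=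
  b2a_aux hn K c e f he hf hef A B r hcont hr0 hK α β hαβ t hend _ rfl v hv hnull

end Pool.Agent.MP_c8a077_gt
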