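import Pool.Agent.Lib.MP_c8a077_gt.A4
import Pool.Agent.Lib.MP_c8a077_gt.B2a

/-!
# JOB B2b: the surface area of a section is a constant times `Isec`

PROOF.  `W = (ℝ ∙ u)ᗮ` has `finrank = n - 1 = 2k+3` and `v = -β e + α f ∈ W` is a unit vector; `n-2 = 2k+2`.
By `surfSec_transport` (with `line_null`) the left side is `μHE[2k+2] (surf v (√q) J)`, `q = qsec r α β t`,
`J = {s | tα - sβ ∈ (A,B) ∧ 0 < q s}`.  `J` is open (`r` continuous on `(A,B)`), bounded
(`|tβ+sα| < r(z) ≤ max r` and, if `α = 0`, `tα - sβ ∈ (A,B)` with `β = ±1`; in general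
`s = -β(tα - sβ) + α(tβ+sα)`), and convex: `J = {s | z(s) ∈ (A,B), |tβ+sα| < r(z(s))}`, `r` concave, `z(s)`
affine, `|tβ+sα|` convex.  So `J = Ioo s₁ s₂` (an open bounded order-connected set; if empty both sides
are `0`: `surf v _ ∅ = ∅`).  Apply `surf_area` with `q' = deriv q`.  Differentiability of `q` on `J` with
continuous derivative: if `β ≠ 0` from `hC1`; if `β = 0` then `q s = r(tα)² - (sα)²`.
-/

open MeasureTheory Set Metric Topology Filter

namespace Pool.Agent.MP_c8a077_gt

private theorem B2b_interval {J : Set ℝ} (ho : IsOpen J) (hc : IsPreconnected J)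
    (hb : BddBelow J ∧ BddAbove J) : ∃ s₁ s₂, J = Ioo s₁ s₂ := by
  obtain ⟨hb, ha⟩ := hb
  rcases J.eq_empty_or_nonempty with hJ | hJ
  · exact ⟨0, 0, by rw [hJ, Ioo_self]⟩
  refine ⟨sInf J, sSup J, Subset.antisymm ?_
    (IsConnected.Ioo_csInf_csSup_subset ⟨hJ, hc⟩ hb ha)⟩
  intro x hx
  obtain ⟨ε, hε, hball⟩ := Metric.isOpen_iff.1 ho x hx
  have h1 : x - ε / 2 ∈ J := hball (by
    rw [Metric.mem_ball, Real.dist_eq]
    rw [abs_lt]
    constructor <;> linarith)
  have h2 : x + ε / 2 ∈ J := hball (by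
    rw [Metric.mem_ball, Real.dist_eq]
    rw [abs_lt]
    constructor <;> linarith)
  have h3 := csInf_le hb h1
  have h4 := le_csSup ha h2
  exact ⟨by linarith, by linarith⟩

private theorem B2b_mem {A B : ℝ} {r : ℝ → ℝ} (hr : ProfHyp A B r) {α β t s : ℝ}
    (hz : t * α - s * β ∈ Ioo A B) :
    0 < qsec r α β t s ↔ |t * β + s * α| < r (t * α - s * β) := by
  have h1 := hr.pos _ hz
  unfold qsec
  rw [sub_pos, sq_lt_sq, abs_of_pos h1]

private theorem B2b_J {A B : ℝ} {r : ℝ → ℝ} (hr : ProfHyp A B r) {α β : ℝ}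
    (hαβ : α ^ 2 + β ^ 2 = 1) (t : ℝ) :
    IsOpen {s : ℝ | t * α - s * β ∈ Ioo A B ∧ 0 < qsec r α β t s} ∧
      ∃ s₁ s₂, {s : ℝ | t * α - s * β ∈ Ioo A B ∧ 0 < qsec r α β t s} = Ioo s₁ s₂ := by
  have hopen : IsOpen {s : ℝ | t * α - s * β ∈ Ioo A B ∧ 0 < qsec r α β t s} := by
    have hU : IsOpen {s : ℝ | t * α - s * β ∈ Ioo A B} :=
      isOpen_Ioo.preimage (by fun_prop)
    have hq : ContinuousOn (qsec r α β t) {s : ℝ | t * α - s * β ∈ Ioo A B} := by
      unfold qsec
      have h1 : ContinuousOn (fun s : ℝ => r (t * α - s * β)) {s : ℝ | t * α - s * β ∈ Ioo A B} :=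
        (hr.cont.mono Ioo_subset_Icc_self).comp (by fun_prop) (fun s hs => hs)
      exact (h1.pow 2).sub (by fun_prop)
    exact hq.isOpen_inter_preimage hU isOpen_Ioi
  refine ⟨hopen, B2b_interval hopen (Convex.isPreconnected ?_) ?_⟩
  · intro s hs s' hs' a b ha hb hab
    have e1 : t * α - (a • s + b • s') * β = a • (t * α - s * β) + b • (t * α - s' * β) := by
      simp only [smul_eq_mul]
      have : t * α = (a + b) * (t * α) := by rw [hab, one_mul]
      linear_combination this
    have e2 : t * β + (a • s + b • s') * α = a * (t * β + s * α) + b * (t * β + s' * α) := by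
      simp only [smul_eq_mul]
      have : t * β = (a + b) * (t * β) := by rw [hab, one_mul]
      linear_combination this
    have hz : t * α - (a • s + b • s') * β ∈ Ioo A B := by
      rw [e1]
      exact (convex_Ioo A B) hs.1 hs'.1 ha hb hab
    refine ⟨hz, (B2b_mem hr hz).2 ?_⟩
    have h1 := (B2b_mem hr hs.1).1 hs.2
    have h2 := (B2b_mem hr hs'.1).1 hs'.2
    have h3 := hr.conc.2 (Ioo_subset_Icc_self hs.1) (Ioo_subset_Icc_self hs'.1) ha hb hab
    rw [← e1] at h3
    refine lt_of_lt_of_le ?_ h3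
    rw [e2]
    have h4 : |a * (t * β + s * α) + b * (t * β + s' * α)| ≤
        a * |t * β + s * α| + b * |t * β + s' * α| := by
      refine (abs_add_le _ _).trans ?_
      rw [abs_mul, abs_mul, abs_of_nonneg ha, abs_of_nonneg hb]
    refine lt_of_le_of_lt h4 ?_
    simp only [smul_eq_mul]
    rcases ha.eq_or_lt with h5 | h5
    · have h6 : b = 1 := by linarith
      rw [← h5, h6]
      linarith
    · have h6 : a * |t * β + s * α| < a * r (t * α - s * β) := mul_lt_mul_of_pos_left h1 h5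
      have h7 : b * |t * β + s' * α| ≤ b * r (t * α - s' * β) :=
        mul_le_mul_of_nonneg_left h2.le hb
      linarith
  · obtain ⟨M, hM⟩ := (isCompact_Icc (a := A) (b := B)).bddAbove_image hr.cont
    have hbd : ∀ s ∈ {s : ℝ | t * α - s * β ∈ Ioo A B ∧ 0 < qsec r α β t s},
        |s| ≤ (|A| + |B|) + M := by
      intro s hs
      have h1 := (B2b_mem hr hs.1).1 hs.2
      have h2 : r (t * α - s * β) ≤ M := hM ⟨_, Ioo_subset_Icc_self hs.1, rfl⟩
      have h3 : s = -β * (t * α - s * β) + α * (t * β + s * α) := by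
        linear_combination (-s) * hαβ
      have hα : |α| ≤ 1 := abs_le_one_iff_mul_self_le_one.2 (by nlinarith [sq_nonneg β])
      have hβ : |β| ≤ 1 := abs_le_one_iff_mul_self_le_one.2 (by nlinarith [sq_nonneg α])
      have h4 : |t * α - s * β| ≤ |A| + |B| := by
        have h5 := hs.1.1
        have h6 := hs.1.2
        rw [abs_le]
        constructor
        · have := neg_abs_le A
          have := abs_nonneg B
          linarith
        · have := le_abs_self B
          have := abs_nonneg A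
          linarith
      have h5 : |s| ≤ |β| * |t * α - s * β| + |α| * |t * β + s * α| := by
        conv_lhs => rw [h3]
        refine (abs_add_le _ _).trans ?_
        rw [abs_mul, abs_mul, abs_neg]
      have h6 : |β| * |t * α - s * β| ≤ 1 * |t * α - s * β| :=
        mul_le_mul_of_nonneg_right hβ (abs_nonneg _)
      have h7 : |α| * |t * β + s * α| ≤ 1 * |t * β + s * α| :=
        mul_le_mul_of_nonneg_right hα (abs_nonneg _)
      linarith
    exact ⟨⟨-((|A| + |B|) + M), fun s hs => (abs_le.1 (hbd s hs)).1⟩,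
      ⟨(|A| + |B|) + M, fun s hs => (abs_le.1 (hbd s hs)).2⟩⟩

theorem surfSec_eq {n k : ℕ} (hn : n = 2 * k + 4) (K : Set (E n)) (c e f : E n)
    (he : ‖e‖ = 1) (hf : ‖f‖ = 1) (hef : inner ℝ e f = 0) (A B : ℝ) (r : ℝ → ℝ)
    (hr : ProfHyp A B r) (hK : RevDesc K c e A B r) (α β : ℝ) (hαβ : α ^ 2 + β ^ 2 = 1)
    (hC1 : β ≠ 0 → ∀ z ∈ Ioo A B, ContDiffAt ℝ 1 r z) :
    ∃ C : ℝ, 0 < C ∧ ∀ t : ℝ,
      (∀ s, t * α - s * β ∈ Icc A B → t * α - s * β ∈ Ioo A B ∨ r (t * α - s * β) = 0) →
      surfSec K (α • e + β • f) (t + inner ℝ c (α • e + β • f)) =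
        ENNReal.ofReal C * Isec k r A B α β t := by
  subst hn
  have hee : inner ℝ e e = (1 : ℝ) := by rw [real_inner_self_eq_norm_sq, he, one_pow]
  have hff : inner ℝ f f = (1 : ℝ) := by rw [real_inner_self_eq_norm_sq, hf, one_pow]
  have hfe : inner ℝ f e = (0 : ℝ) := by rw [real_inner_comm]; exact hef
  have huu : inner ℝ (α • e + β • f) (α • e + β • f) = (1 : ℝ) := by
    simp only [inner_add_left, inner_add_right, inner_smul_left, inner_smul_right, hee, hff, hef,
      hfe]
    simp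
    linear_combination hαβ
  have huv : inner ℝ (α • e + β • f) ((-β) • e + α • f) = (0 : ℝ) := by
    simp only [inner_add_left, inner_add_right, inner_smul_left, inner_smul_right, hee, hff, hef,
      hfe]
    simp
    ring
  have hvv : inner ℝ ((-β) • e + α • f) ((-β) • e + α • f) = (1 : ℝ) := by
    simp only [inner_add_left, inner_add_right, inner_smul_left, inner_smul_right, hee, hff, hef,
      hfe]
    simp
    linear_combination hαβ
  have hu0 : α • e + β • f ≠ 0 := by
    intro h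
    rw [h, inner_zero_left] at huu
    exact zero_ne_one huu
  let v : (Submodule.span ℝ {α • e + β • f} : Submodule ℝ (E (2 * k + 4)))ᗮ :=
    ⟨(-β) • e + α • f, Submodule.mem_orthogonal_singleton_iff_inner_right.2 huv⟩
  have hv : ‖v‖ = 1 := by
    have h1 : ‖v‖ = ‖(-β) • e + α • f‖ := rfl
    rw [h1]
    have h2 : ‖(-β) • e + α • f‖ ^ 2 = 1 := by rw [← real_inner_self_eq_norm_sq]; exact hvv
    have h3 := norm_nonneg ((-β) • e + α • f)
    nlinarith
  have hW : Module.finrank ℝ
      (Submodule.span ℝ {α • e + β • f} : Submodule ℝ (E (2 * k + 4)))ᗮ = 2 * k + 3 := by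
    have : Fact (Module.finrank ℝ (E (2 * k + 4)) = (2 * k + 3) + 1) := ⟨by
      rw [finrank_euclideanSpace_fin]⟩
    exact Submodule.finrank_orthogonal_span_singleton hu0
  obtain ⟨C, hC, hA⟩ := surf_area v hv k hW
  refine ⟨C, hC, fun t hend => ?_⟩
  rw [surfSec_transport (by omega) K c e f he hf hef A B r hr.cont hr.nonneg hK α β hαβ t hend v rfl
    (line_null v hv _ (by omega))]
  obtain ⟨hopen, s₁, s₂, hJ⟩ := B2b_J hr hαβ t
  have hcd : ∀ s ∈ {s : ℝ | t * α - s * β ∈ Ioo A B ∧ 0 < qsec r α β t s},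
      ContDiffAt ℝ 1 (qsec r α β t) s := by
    intro s hs
    unfold qsec
    by_cases hβ : β = 0
    · subst hβ
      simp only [mul_zero, sub_zero]
      fun_prop
    · have h1 : ContDiffAt ℝ 1 (fun s : ℝ => r (t * α - s * β)) s :=
        ContDiffAt.comp s (hC1 hβ _ hs.1) (by fun_prop)
      exact (h1.pow 2).sub (by fun_prop)
  have hn2 : 2 * k + 4 - 2 = 2 * k + 2 := by omega
  unfold Isec
  rw [hn2]
  rw [hJ] at hcd hopen ⊢
  refine hA (qsec r α β t) (deriv (qsec r α β t)) s₁ s₂ ?_ ?_ ?_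
  · intro s hs
    rw [← hJ] at hs
    exact hs.2
  · intro s hs
    exact ((hcd s hs).differentiableAt (by norm_num)).hasDerivAt
  · exact ContDiffOn.continuousOn_deriv_of_isOpen
      (fun s hs => (hcd s hs).contDiffWithinAt) hopen le_rfl

end Pool.Agent.MP_c8a077_gt
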