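import Pool.Agent.Lib.MP_c8a077_gt.B0

/-!
# JOB B3a: no flat face at the pole, from a `C²` boundary

PROOF.  `unique_normal`: near `x` the frontier is `{g = 0}`; if a continuous linear functional `ℓ`
satisfies `ℓ y ≤ ℓ x` for all `y ∈ K` then `ℓ` has a local maximum at `x` on `{y | g y = g x}` near `x`
(those `y` are in `frontier K ⊂ K`), so by `IsLocalExtrOn.exists_multipliers_of_hasStrictFDerivAt_1d`
there is `(a,b) ≠ 0` with `a g'(x) + b ℓ = 0`; as `g'(x) ≠ 0` we get `b ≠ 0` hence `ℓ = λ g'(x)`.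
`pole_zero`: suppose `ρ = r B > 0`.  Take a unit `f ⊥ e`, `x = c + B e + ρ f ∈ K`; it is in the frontier
because of the supporting functional `ℓ₁ y = ⟨y,e⟩` (`⟨y - c,e⟩ ≤ B` on `K`; points `x + ε e ∉ K`).
Since `P(B) = ρ^(2k+2) > 0`, `r = P^(1/(2k+2))` on `[A,B]` has a left derivative `μ` at `B`, and concavity
gives `r z ≤ ρ + μ (z - B)` for `z ∈ [A,B]` (let `z' → B⁻` in the slope inequality).  So
`ℓ₂ y = ⟨y,f⟩ - μ ⟨y,e⟩` satisfies `ℓ₂ (y - c) ≤ ‖y-c-⟨y-c,e⟩e‖ - μ⟨y-c,e⟩ ≤ r z - μ z ≤ ρ - μ B = ℓ₂(x - c)` on `K`.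
By `unique_normal` both `ℓ₁, ℓ₂` are multiples of `g'(x)`, both nonzero, so parallel; but they are
linearly independent (evaluate at `e` and `f`).  Contradiction.
-/

open MeasureTheory Set Metric Topology Filter

namespace Pool.Agent.MP_c8a077_gt

theorem unique_normal {n : ℕ} {K : Set (E n)} (hcl : IsClosed K) {x : E n}
    {g : E n → ℝ} (hg : ContDiff ℝ 2 g) (hg' : fderiv ℝ g x ≠ 0) (hx : x ∈ frontier K)
    (hgK : ∀ᶠ y in 𝓝 x, (y ∈ frontier K ↔ g y = 0)) (l : E n →L[ℝ] ℝ)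
    (hl : ∀ y ∈ K, l y ≤ l x) : ∃ lam : ℝ, l = lam • fderiv ℝ g x := by
  have hgx : g x = 0 := hgK.self_of_nhds.1 hx
  have hmax : IsLocalMaxOn (fun y => l y) {y | g y = g x} x := by
    unfold IsLocalMaxOn IsMaxFilter
    rw [eventually_nhdsWithin_iff]
    filter_upwards [hgK] with y hy hy2
    refine hl y (hcl.frontier_subset (hy.2 ?_))
    rw [show g y = g x from hy2, hgx]
  have hstr : HasStrictFDerivAt g (fderiv ℝ g x) x :=
    hg.contDiffAt.hasStrictFDerivAt (by norm_num)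
  have hextr : IsLocalExtrOn (fun y => l y) {y | g y = g x} x := Or.inr hmax
  obtain ⟨a, b, hab, h⟩ := hextr.exists_multipliers_of_hasStrictFDerivAt_1d hstr
    l.hasStrictFDerivAt
  have hb : b ≠ 0 := by
    intro hb
    rw [hb, zero_smul, add_zero] at h
    rcases smul_eq_zero.1 h with h1 | h1
    · exact hab (by rw [h1, hb]; rfl)
    · exact hg' h1
  refine ⟨-(a / b), ?_⟩
  have h1 : b • l = -(a • fderiv ℝ g x) := by
    rw [eq_neg_iff_add_eq_zero, add_comm]
    exact h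
  have h2 : l = b⁻¹ • (b • l) := by rw [smul_smul, inv_mul_cancel₀ hb, one_smul]
  rw [h2, h1, smul_neg, smul_smul, neg_smul]
  congr 2
  rw [div_eq_inv_mul]

/-- a unit vector orthogonal to a given one -/
private theorem b3a_exists_orth {n : ℕ} (hn : 2 ≤ n) (e : E n) :
    ∃ f : E n, ‖f‖ = 1 ∧ inner ℝ f e = (0 : ℝ) := by
  have h1 : (Submodule.span ℝ {e} : Submodule ℝ (E n)) ≠ ⊤ := by
    intro h2
    have h3 : Module.finrank ℝ (Submodule.span ℝ {e} : Submodule ℝ (E n)) ≤ 1 := by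
      have h4 := finrank_span_le_card (R := ℝ) ({e} : Set (E n))
      simpa using h4
    rw [h2, finrank_top, finrank_euclideanSpace_fin] at h3
    omega
  have h2 : (Submodule.span ℝ {e} : Submodule ℝ (E n))ᗮ ≠ ⊥ := by
    intro h3
    exact h1 ((Submodule.orthogonal_eq_bot_iff).1 h3)
  obtain ⟨g, hg, hg0⟩ := Submodule.exists_mem_ne_zero_of_ne_bot h2
  have hn0 : ‖g‖ ≠ 0 := norm_ne_zero_iff.2 hg0
  refine ⟨‖g‖⁻¹ • g, ?_, ?_⟩
  · rw [norm_smul, norm_inv, norm_norm, inv_mul_cancel₀ hn0]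
  · rw [real_inner_smul_left]
    have h3 := (Submodule.mem_orthogonal_singleton_iff_inner_left).1 hg
    rw [h3, mul_zero]

theorem pole_zero {n k : ℕ} (hn : 2 ≤ n) (K : Set (E n)) (hcl : IsClosed K) (hC2 : C2Boundary K)
    (c e : E n) (he : ‖e‖ = 1) (A B : ℝ) (r : ℝ → ℝ) (hr : ProfHyp A B r)
    (hK : RevDesc K c e A B r) (P : Polynomial ℝ)
    (hP : ∀ z ∈ Icc A B, P.eval z = r z ^ (2 * k + 2)) : r B = 0 := by
  by_contra hne
  have hAB := hr.hAB
  have hBmem : B ∈ Icc A B := ⟨hAB.le, le_rfl⟩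
  have hρ : 0 < r B := lt_of_le_of_ne (hr.nonneg B hBmem) (Ne.symm hne)
  set ρ := r B with hρdef
  obtain ⟨f, hf, hfe⟩ := b3a_exists_orth hn e
  have hef : inner ℝ e f = (0 : ℝ) := by rw [real_inner_comm]; exact hfe
  have hee : inner ℝ e e = (1 : ℝ) := by rw [real_inner_self_eq_norm_sq, he]; norm_num
  have hff : inner ℝ f f = (1 : ℝ) := by rw [real_inner_self_eq_norm_sq, hf]; norm_num
  set x : E n := c + (B • e + ρ • f) with hxdef
  have hxc : x - c = B • e + ρ • f := by rw [hxdef]; abel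
  have hxe : inner ℝ (x - c) e = B := by
    rw [hxc, inner_add_left, real_inner_smul_left, real_inner_smul_left, hee, hfe]
    ring
  have hxK : x ∈ K := by
    rw [hK]
    refine ⟨by rw [hxe]; exact hBmem, ?_⟩
    rw [hxe, hxc, add_sub_cancel_left, norm_smul, hf, Real.norm_eq_abs, abs_of_pos hρ, mul_one]
  -- the supporting functional `⟨·, e⟩`
  have hKe : ∀ y ∈ K, inner ℝ (y - c) e ≤ B := fun y hy => ((hK y).1 hy).1.2
  have hxfr : x ∈ frontier K := by
    rw [hcl.frontier_eq]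
    refine ⟨hxK, fun hint => ?_⟩
    have hcont : Continuous (fun s : ℝ => x + s • e) := by fun_prop
    have h1 : ∀ᶠ s in 𝓝 (0 : ℝ), x + s • e ∈ K := by
      have h2 : K ∈ 𝓝 (x + (0 : ℝ) • e) := by
        rw [zero_smul, add_zero]
        exact mem_interior_iff_mem_nhds.1 hint
      exact hcont.continuousAt.eventually h2
    have h2 : ∀ᶠ s in 𝓝[>] (0 : ℝ), x + s • e ∈ K ∧ 0 < s :=
      (h1.filter_mono nhdsWithin_le_nhds).and (eventually_mem_nhdsWithin)
    obtain ⟨s, hs, hs0⟩ := h2.exists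
    have h3 := hKe _ hs
    have h4 : x + s • e - c = (x - c) + s • e := by abel
    rw [h4, inner_add_left, hxe, real_inner_smul_left, hee] at h3
    linarith
  -- the left derivative
  have hPB : P.eval B = ρ ^ (2 * k + 2) := hP B hBmem
  have hPB0 : 0 < P.eval B := by rw [hPB]; positivity
  have hψ : HasDerivAt (fun z => (P.eval z) ^ ((1 : ℝ) / ((2 * k + 2 : ℕ) : ℝ)))
      ((Polynomial.derivative P).eval B * ((1 : ℝ) / ((2 * k + 2 : ℕ) : ℝ)) *
        (P.eval B) ^ ((1 : ℝ) / ((2 * k + 2 : ℕ) : ℝ) - 1)) B :=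
    (P.hasDerivAt B).rpow_const (Or.inl hPB0.ne')
  set μ := (Polynomial.derivative P).eval B * ((1 : ℝ) / ((2 * k + 2 : ℕ) : ℝ)) *
        (P.eval B) ^ ((1 : ℝ) / ((2 * k + 2 : ℕ) : ℝ) - 1) with hμ
  have hrψ : ∀ z ∈ Icc A B, r z = (P.eval z) ^ ((1 : ℝ) / ((2 * k + 2 : ℕ) : ℝ)) := by
    intro z hz
    rw [hP z hz, one_div, Real.pow_rpow_inv_natCast (hr.nonneg z hz) (by omega)]
  have hrd : HasDerivWithinAt r μ (Icc A B) B :=
    hψ.hasDerivWithinAt.congr hrψ (hrψ B hBmem)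
  have hline : ∀ z ∈ Icc A B, r z ≤ ρ + μ * (z - B) := by
    intro z hz
    rcases eq_or_lt_of_le hz.2 with h1 | h1
    · rw [h1, ← hρdef]
      linarith
    · have h2 := hr.conc.le_slope_of_hasDerivWithinAt hz hBmem h1 hrd
      rw [slope_def_field, le_div_iff₀ (by linarith)] at h2
      rw [← hρdef] at h2
      linarith
  -- the second functional
  obtain ⟨g, hg, hg', hgK⟩ := hC2 x hxfr
  obtain ⟨lam₁, hlam₁⟩ := unique_normal hcl hg hg' hxfr hgK (innerSL ℝ e) (by
    intro y hy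
    have h1 := hKe y hy
    have h2 : inner ℝ (y - c) e ≤ inner ℝ (x - c) e := by rw [hxe]; exact h1
    rw [inner_sub_left, inner_sub_left] at h2
    change inner ℝ e y ≤ inner ℝ e x
    rw [real_inner_comm, real_inner_comm x e]
    linarith)
  obtain ⟨lam₂, hlam₂⟩ := unique_normal hcl hg hg' hxfr hgK (innerSL ℝ f - μ • innerSL ℝ e) (by
    intro y hy
    obtain ⟨h1, h2⟩ := (hK y).1 hy
    have h3 := hline _ h1
    have h4 : inner ℝ (y - c) f ≤ ‖y - c - (inner ℝ (y - c) e : ℝ) • e‖ := by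
      have h5 : inner ℝ (y - c) f = inner ℝ (y - c - (inner ℝ (y - c) e : ℝ) • e) f := by
        rw [inner_sub_left (y - c), real_inner_smul_left, hef]
        ring
      rw [h5]
      refine (real_inner_le_norm _ _).trans ?_
      rw [hf, mul_one]
    have h6 : inner ℝ (x - c) f = ρ := by
      rw [hxc, inner_add_left, real_inner_smul_left, real_inner_smul_left, hef, hff]
      ring
    have h7 : inner ℝ (y - c) f - μ * inner ℝ (y - c) e ≤ inner ℝ (x - c) f - μ * inner ℝ (x - c) e := by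
      rw [h6, hxe]
      nlinarith
    change inner ℝ f y - μ * inner ℝ e y ≤ inner ℝ f x - μ * inner ℝ e x
    rw [inner_sub_left, inner_sub_left, inner_sub_left, inner_sub_left] at h7
    rw [real_inner_comm y f, real_inner_comm y e, real_inner_comm x f, real_inner_comm x e]
    linarith)
  have e1 := congrArg (fun L : E n →L[ℝ] ℝ => L e) hlam₁
  have e2 := congrArg (fun L : E n →L[ℝ] ℝ => L f) hlam₁
  have e3 := congrArg (fun L : E n →L[ℝ] ℝ => L f) hlam₂
  replace e1 : inner ℝ e e = lam₁ * fderiv ℝ g x e := e1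
  replace e2 : inner ℝ e f = lam₁ * fderiv ℝ g x f := e2
  replace e3 : inner ℝ f f - μ * inner ℝ e f = lam₂ * fderiv ℝ g x f := e3
  rw [hee] at e1
  rw [hef] at e2
  rw [hff, hef] at e3
  have h1 : lam₁ ≠ 0 := by
    intro h2
    rw [h2, zero_mul] at e1
    exact one_ne_zero e1
  have h2 : fderiv ℝ g x f = 0 := (mul_eq_zero.1 e2.symm).resolve_left h1
  rw [h2] at e3
  linarith

end Pool.Agent.MP_c8a077_gt
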