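import Pool.Agent.Lib.MP_c8a077_gt.B3a

/-!
# JOB B3b: the squared profile is at least linear at the poles, from a `C²` boundary

PROOF of `pole_quad`.  `x = c + B e` is in `K` and in the frontier (`x + ε e ∉ K`).  Let `g` be the
defining function at `x`.  `ℓ y = ⟨y,e⟩` has its maximum over `K` at `x`, so by `unique_normal`
`ℓ = lam g'(x)`, `lam ≠ 0`; i.e. `g'(x) = μ ⟨·,e⟩` with `μ = 1/lam ≠ 0`.  Since `g` is `C²`,
`|g y - g x - g'(x)(y-x)| ≤ C ‖y-x‖²` for `y` near `x` (`g x = 0`).  (E.g. `fderiv g` is `C¹`, hence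
locally Lipschitz, then mean value inequality.)  For `z ∈ (A,B)` close to `B` the point
`y = c + z e + r(z) f` (`f ⊥ e` a unit vector) is in `K` and in the frontier (`c + z e + (r z + ε) f ∉ K`),
`y → x` as `z → B` (`r z → r B = 0`), so `g y = 0` and `|μ| (B - z) ≤ C ((B-z)² + r(z)²)`, hence for `B - z`
small `(B - z) ≤ (2C/|μ|) r(z)²`.
PROOF of `quad_both`.  `pole_quad` at `B` and, applied to `-e` (`RevDesc.neg`, `ProfHyp.neg`), at `A`; in
the middle part `[A+δ, B-δ]` `r²` has a positive minimum.  Take `κ` small.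
-/

open MeasureTheory Set Metric Topology Filter

namespace Pool.Agent.MP_c8a077_gt

/-- a unit vector orthogonal to `e` -/
theorem b3b_perp {n : ℕ} (hn : 2 ≤ n) (e : E n) : ∃ f : E n, ‖f‖ = 1 ∧ inner ℝ f e = 0 := by
  have hne : (Submodule.span ℝ {e})ᗮ ≠ ⊥ := by
    rw [Ne, Submodule.orthogonal_eq_bot_iff]
    intro h
    have h1 := finrank_span_le_card (R := ℝ) ({e} : Set (E n))
    rw [h, finrank_top, finrank_euclideanSpace_fin] at h1
    simp at h1
    omega
  obtain ⟨f0, hf0, hf0ne⟩ := Submodule.exists_mem_ne_zero_of_ne_bot hne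
  rw [Submodule.mem_orthogonal_singleton_iff_inner_left] at hf0
  refine ⟨‖f0‖⁻¹ • f0, ?_, ?_⟩
  · rw [norm_smul, norm_inv, norm_norm, inv_mul_cancel₀ (norm_ne_zero_iff.2 hf0ne)]
  · rw [inner_smul_left, hf0, mul_zero]

/-- second order Taylor bound -/
theorem b3b_taylor {n : ℕ} {g : E n → ℝ} (hg : ContDiff ℝ 2 g) (x : E n) :
    ∃ C > 0, ∃ ρ > 0, ∀ y, ‖y - x‖ < ρ → |g y - g x - fderiv ℝ g x (y - x)| ≤ C * ‖y - x‖ ^ 2 := by
  have h1 : ContDiff ℝ 1 (fderiv ℝ g) := hg.fderiv_right (by norm_num)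
  obtain ⟨K, t, ht, hK⟩ := h1.contDiffAt.exists_lipschitzOnWith (x := x)
  obtain ⟨ρ, hρ, hball⟩ := Metric.mem_nhds_iff.1 ht
  refine ⟨K + 1, by positivity, ρ, hρ, fun y hy => ?_⟩
  have hsub : closedBall x ‖y - x‖ ⊆ t := fun w hw =>
    hball (mem_ball.2 (lt_of_le_of_lt (mem_closedBall.1 hw) hy))
  have hxt : x ∈ t := hball (mem_ball_self hρ)
  have hbound : ∀ w ∈ closedBall x ‖y - x‖, ‖fderiv ℝ g w - fderiv ℝ g x‖ ≤ K * ‖y - x‖ := by
    intro w hw
    have h2 := hK.dist_le_mul w (hsub hw) x hxt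
    rw [dist_eq_norm] at h2
    refine h2.trans ?_
    exact mul_le_mul_of_nonneg_left (mem_closedBall.1 hw) K.2
  have h3 := Convex.norm_image_sub_le_of_norm_fderiv_le' (f := g) (φ := fderiv ℝ g x)
    (fun w _ => (hg.differentiable (by norm_num)) w) hbound (convex_closedBall x ‖y - x‖)
    (mem_closedBall_self (norm_nonneg _)) (show y ∈ closedBall x ‖y - x‖ by
      rw [mem_closedBall, dist_eq_norm])
  rw [Real.norm_eq_abs] at h3
  refine h3.trans ?_
  have h4 : 0 ≤ ‖y - x‖ := norm_nonneg _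
  nlinarith [sq_nonneg ‖y - x‖]

/-- a point at distance one outside in some direction is not in the interior -/
theorem b3b_frontier {n : ℕ} {K : Set (E n)} {y v : E n} (hy : y ∈ K)
    (hout : ∀ ε : ℝ, 0 < ε → y + ε • v ∉ K) : y ∈ frontier K := by
  refine ⟨subset_closure hy, fun hint => ?_⟩
  have h1 : Tendsto (fun ε : ℝ => y + ε • v) (𝓝[>] 0) (𝓝 y) := by
    have h2 : Continuous (fun ε : ℝ => y + ε • v) := by fun_prop
    have h3 := h2.tendsto 0
    simp only [zero_smul, add_zero] at h3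
    exact h3.mono_left nhdsWithin_le_nhds
  have h4 : ∀ᶠ ε in 𝓝[>] (0 : ℝ), y + ε • v ∈ K := by
    have h5 := h1.eventually (isOpen_interior.mem_nhds hint)
    filter_upwards [h5] with ε hε using interior_subset hε
  have h6 : ∀ᶠ ε in 𝓝[>] (0 : ℝ), ε ∈ Ioi (0 : ℝ) := self_mem_nhdsWithin
  obtain ⟨ε, h7, h8⟩ := (h4.and h6).exists
  exact hout ε h8 h7

theorem pole_quad {n : ℕ} (hn : 2 ≤ n) (K : Set (E n)) (hcl : IsClosed K) (hC2 : C2Boundary K)
    (c e : E n) (he : ‖e‖ = 1) (A B : ℝ) (r : ℝ → ℝ) (hr : ProfHyp A B r)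
    (hK : RevDesc K c e A B r) (hB : r B = 0) :
    ∃ κ > 0, ∃ δ > 0, ∀ z ∈ Ioo (B - δ) B, κ * (B - z) ≤ r z ^ 2 := by
  obtain ⟨f, hf, hfe⟩ := b3b_perp hn e
  have hee : inner ℝ e e = (1 : ℝ) := by
    rw [real_inner_self_eq_norm_sq, he]
    norm_num
  have hAB := hr.hAB
  -- coordinates of `c + z e + s f`
  have hin : ∀ z s : ℝ, inner ℝ (c + z • e + s • f - c) e = z := by
    intro z s
    have e1 : c + z • e + s • f - c = z • e + s • f := by abel
    rw [e1, inner_add_left, real_inner_smul_left, real_inner_smul_left, hee, hfe]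
    ring
  have hpr : ∀ z s : ℝ, c + z • e + s • f - c - z • e = s • f := by
    intro z s
    abel
  have hmem : ∀ z s : ℝ, c + z • e + s • f ∈ K ↔ z ∈ Icc A B ∧ |s| ≤ r z := by
    intro z s
    rw [hK, hin, hpr, norm_smul, hf, mul_one, Real.norm_eq_abs]
  have hfr : ∀ z ∈ Icc A B, c + z • e + r z • f ∈ frontier K := by
    intro z hz
    have hrz := hr.nonneg z hz
    refine b3b_frontier (v := f) ((hmem z (r z)).2 ⟨hz, (abs_of_nonneg hrz).le⟩) ?_
    intro ε hε hmK
    have e1 : c + z • e + r z • f + ε • f = c + z • e + (r z + ε) • f := by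
      rw [add_smul]
      abel
    rw [e1, hmem, abs_of_nonneg (by linarith)] at hmK
    linarith [hmK.2]
  set x : E n := c + B • e with hx
  have hx0 : c + B • e + r B • f = x := by rw [hB, zero_smul, add_zero]
  have hxfr : x ∈ frontier K := by
    rw [← hx0]
    exact hfr B ⟨hAB.le, le_rfl⟩
  obtain ⟨g, hg, hg', hgK⟩ := hC2 x hxfr
  have hgx : g x = 0 := (hgK.self_of_nhds).1 hxfr
  -- the normal at `x`
  obtain ⟨lam, hlam⟩ := unique_normal hcl hg hg' hxfr hgK (innerSL ℝ e) (by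
    intro y hy
    have h1 := ((hK y).1 hy).1.2
    rw [innerSL_apply_apply, innerSL_apply_apply]
    have h2 : inner ℝ e y = inner ℝ (y - c) e + inner ℝ e c := by
      rw [real_inner_comm e (y - c), inner_sub_right]
      ring
    have h3 : inner ℝ e x = B + inner ℝ e c := by
      rw [hx, inner_add_right, inner_smul_right, hee]
      ring
    rw [h2, h3]
    linarith)
  have hl1 : (1 : ℝ) = lam * fderiv ℝ g x e := by
    have h1 := congrArg (fun L : E n →L[ℝ] ℝ => L e) hlam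
    simp only [_root_.smul_apply, smul_eq_mul, innerSL_apply_apply] at h1
    rw [← h1]
    exact hee.symm
  have hl0 : lam ≠ 0 := by
    rintro rfl
    rw [zero_mul] at hl1
    exact one_ne_zero hl1
  have hlf : fderiv ℝ g x f = 0 := by
    have h1 := congrArg (fun L : E n →L[ℝ] ℝ => L f) hlam
    simp only [_root_.smul_apply, smul_eq_mul, innerSL_apply_apply] at h1
    rw [real_inner_comm, hfe] at h1
    exact (mul_eq_zero.1 h1.symm).resolve_left hl0
  set m : ℝ := |fderiv ℝ g x e| with hm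
  have hmpos : 0 < m := by
    rw [hm]
    refine abs_pos.2 fun h0 => ?_
    rw [h0, mul_zero] at hl1
    exact one_ne_zero hl1
  obtain ⟨C, hC, ρ, hρ, hT⟩ := b3b_taylor hg x
  obtain ⟨ρ', hρ', hgK'⟩ := Metric.eventually_nhds_iff.1 hgK
  set ρ₁ := min ρ ρ' with hρ₁
  have hρ₁pos : 0 < ρ₁ := lt_min hρ hρ'
  -- continuity of `r` at `B`
  have hcont := hr.cont B ⟨hAB.le, le_rfl⟩
  obtain ⟨δ1, hδ1, hδ1'⟩ := Metric.continuousWithinAt_iff.1 hcont (ρ₁ / 2) (by positivity)
  refine ⟨m / (4 * C), by positivity, min (min δ1 (ρ₁ / 2)) (min (B - A) (m / (4 * C))), ?_, ?_⟩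
  · exact lt_min (lt_min hδ1 (by positivity)) (lt_min (by linarith) (by positivity))
  intro z hz
  obtain ⟨hz1, hz2⟩ := hz
  have hd1 : B - z < δ1 := by
    have := (min_le_left (min δ1 (ρ₁ / 2)) (min (B - A) (m / (4 * C)))).trans (min_le_left _ _)
    linarith
  have hd2 : B - z < ρ₁ / 2 := by
    have := (min_le_left (min δ1 (ρ₁ / 2)) (min (B - A) (m / (4 * C)))).trans (min_le_right _ _)
    linarith
  have hd3 : B - z < B - A := by
    have := (min_le_right (min δ1 (ρ₁ / 2)) (min (B - A) (m / (4 * C)))).trans (min_le_left _ _)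
    linarith
  have hd4 : B - z < m / (4 * C) := by
    have := (min_le_right (min δ1 (ρ₁ / 2)) (min (B - A) (m / (4 * C)))).trans (min_le_right _ _)
    linarith
  have hzI : z ∈ Icc A B := ⟨by linarith, hz2.le⟩
  have hrz := hr.nonneg z hzI
  have hrz2 : r z < ρ₁ / 2 := by
    have h1 := hδ1' hzI (by rw [Real.dist_eq, abs_sub_comm, abs_of_pos (by linarith)]; exact hd1)
    rw [hB, Real.dist_eq, sub_zero, abs_of_nonneg hrz] at h1
    exact h1
  set y : E n := c + z • e + r z • f with hy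
  have hyx : y - x = -((B - z) • e) + r z • f := by
    rw [hy, hx, sub_smul]
    abel
  have hnorm : ‖y - x‖ ≤ (B - z) + r z := by
    rw [hyx]
    refine (norm_add_le _ _).trans ?_
    rw [norm_neg, norm_smul, norm_smul, he, hf, mul_one, mul_one, Real.norm_eq_abs, Real.norm_eq_abs,
      abs_of_nonneg hrz, abs_of_pos (by linarith)]
  have hlt : ‖y - x‖ < ρ₁ := by linarith
  have hgy : g y = 0 :=
    (hgK' (y := y) (by rw [dist_eq_norm]; exact lt_of_lt_of_le hlt (min_le_right _ _))).1 (hfr z hzI)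
  have h5 := hT y (lt_of_lt_of_le hlt (min_le_left _ _))
  have h6 : fderiv ℝ g x (y - x) = -((B - z) * fderiv ℝ g x e) := by
    rw [hyx, map_add, map_neg, map_smul, map_smul, hlf, smul_zero, add_zero, smul_eq_mul]
  rw [hgy, hgx, h6, sub_zero, zero_sub, neg_neg, abs_mul, abs_of_pos (show 0 < B - z by linarith),
    ← hm] at h5
  have h7 : ‖y - x‖ ^ 2 ≤ 2 * (B - z) ^ 2 + 2 * r z ^ 2 := by
    have h8 : ‖y - x‖ ^ 2 ≤ ((B - z) + r z) ^ 2 := pow_le_pow_left₀ (norm_nonneg _) hnorm 2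
    nlinarith [sq_nonneg ((B - z) - r z)]
  have h9 : (B - z) * m ≤ C * (2 * (B - z) ^ 2 + 2 * r z ^ 2) :=
    h5.trans (mul_le_mul_of_nonneg_left h7 hC.le)
  have h10 : (B - z) * (4 * C) ≤ m := by
    rw [lt_div_iff₀ (by positivity)] at hd4
    exact hd4.le
  have h11 : 0 < B - z := by linarith
  have h12 : (B - z) * m ≤ 4 * C * r z ^ 2 := by nlinarith
  rw [div_mul_eq_mul_div, div_le_iff₀ (by positivity)]
  linarith

theorem quad_both {n : ℕ} (hn : 2 ≤ n) (K : Set (E n)) (hcl : IsClosed K) (hC2 : C2Boundary K)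
    (c e : E n) (he : ‖e‖ = 1) (A B : ℝ) (r : ℝ → ℝ) (hr : ProfHyp A B r)
    (hK : RevDesc K c e A B r) (hA : r A = 0) (hB : r B = 0) :
    ∃ κ > 0, ∀ z ∈ Icc A B, κ * ((z - A) * (B - z)) ≤ r z ^ 2 := by
  obtain ⟨κ1, hκ1, δ1, hδ1, h1⟩ := pole_quad hn K hcl hC2 c e he A B r hr hK hB
  obtain ⟨κ2, hκ2, δ2, hδ2, h2⟩ := pole_quad hn K hcl hC2 c (-e) (by rw [norm_neg, he]) (-B) (-A)
    (fun z => r (-z)) hr.neg hK.neg (by simpa using hA)
  have hAB := hr.hAB
  have hBA : 0 < B - A := by linarith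
  have hm : ∃ m > 0, ∀ z ∈ Icc (A + δ2) (B - δ1), m ≤ r z ^ 2 := by
    rcases (Icc (A + δ2) (B - δ1)).eq_empty_or_nonempty with he0 | hne
    · exact ⟨1, one_pos, fun z hz => absurd hz (by rw [he0]; exact notMem_empty z)⟩
    · have hcont : ContinuousOn r (Icc (A + δ2) (B - δ1)) :=
        hr.cont.mono fun z hz => ⟨by linarith [hz.1], by linarith [hz.2]⟩
      obtain ⟨z0, hz0, hmin⟩ := isCompact_Icc.exists_isMinOn hne hcont
      have hpos := hr.pos z0 ⟨by linarith [hz0.1], by linarith [hz0.2]⟩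
      exact ⟨r z0 ^ 2, by positivity, fun z hz => pow_le_pow_left₀ hpos.le (hmin hz) 2⟩
  obtain ⟨m, hm0, hm1⟩ := hm
  refine ⟨min (min (κ1 / (B - A)) (κ2 / (B - A))) (m / (B - A) ^ 2), ?_, ?_⟩
  · exact lt_min (lt_min (by positivity) (by positivity)) (by positivity)
  set κ := min (min (κ1 / (B - A)) (κ2 / (B - A))) (m / (B - A) ^ 2) with hκ
  have hκpos : 0 < κ := lt_min (lt_min (by positivity) (by positivity)) (by positivity)
  have k1 : κ * (B - A) ≤ κ1 := by
    rw [← le_div_iff₀ hBA]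
    exact (min_le_left _ _).trans (min_le_left _ _)
  have k2 : κ * (B - A) ≤ κ2 := by
    rw [← le_div_iff₀ hBA]
    exact (min_le_left _ _).trans (min_le_right _ _)
  have k3 : κ * (B - A) ^ 2 ≤ m := by
    rw [← le_div_iff₀ (by positivity)]
    exact min_le_right _ _
  intro z hz
  obtain ⟨hz1, hz2⟩ := hz
  rcases eq_or_lt_of_le hz1 with hzA | hzA
  · rw [← hzA, sub_self, zero_mul, mul_zero]
    positivity
  rcases eq_or_lt_of_le hz2 with hzB | hzB
  · rw [hzB, sub_self, mul_zero, mul_zero]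
    positivity
  have ha : 0 < z - A := by linarith
  have hb : 0 < B - z := by linarith
  by_cases c1 : B - δ1 < z
  · have h3 := h1 z ⟨c1, hzB⟩
    have h4 : κ * ((z - A) * (B - z)) ≤ κ * (B - A) * (B - z) := by
      rw [mul_assoc]
      exact mul_le_mul_of_nonneg_left (mul_le_mul_of_nonneg_right (by linarith) hb.le) hκpos.le
    exact (h4.trans (mul_le_mul_of_nonneg_right k1 hb.le)).trans h3
  by_cases c2 : z < A + δ2
  · have h3 := h2 (-z) ⟨by linarith, by linarith⟩
    simp only [neg_neg] at h3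
    have h4 : κ * ((z - A) * (B - z)) ≤ κ * (B - A) * (z - A) := by
      rw [mul_assoc, mul_comm (z - A)]
      exact mul_le_mul_of_nonneg_left (mul_le_mul_of_nonneg_right (by linarith) ha.le) hκpos.le
    have h5 := mul_le_mul_of_nonneg_right k2 ha.le
    have h6 : κ2 * (-A - -z) = κ2 * (z - A) := by ring
    rw [h6] at h3
    exact (h4.trans h5).trans h3
  · have h3 := hm1 z ⟨not_lt.1 c2, not_lt.1 c1⟩
    have h4 : κ * ((z - A) * (B - z)) ≤ κ * (B - A) ^ 2 := by
      refine mul_le_mul_of_nonneg_left ?_ hκpos.le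
      nlinarith
    exact (h4.trans k3).trans h3

end Pool.Agent.MP_c8a077_gt
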