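import Pool.Agent.Lib.MP_c8a077_gt.B0

/-!
# JOB B4: a quadratic squared profile gives an ellipsoid; the area of the round section

PROOF of `ellipsoid_of_quad`.  `m = (A+B)/2`, `h = (B-A)/2 > 0`, `r² = κ (h² - (z-m)²)`, `κ > 0` since
`r² > 0` inside.  `L x = h ⟨x,e⟩ e + √κ h (x - ⟨x,e⟩ e)` is a linear automorphism (inverse with `1/h`,
`1/(√κ h)`).  `x ∈ K` iff `z = ⟨x-c,e⟩ ∈ [A,B]` and `‖x-c-ze‖² ≤ κ(h²-(z-m)²)` iff
`((z-m)/h)² + ‖x-c-ze‖²/(κh²) ≤ 1` iff `x ∈ (c + m e) + L (closedBall 0 1)`.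
PROOF of `Isec_axis`.  For `α = 1, β = 0`: `qsec r 1 0 t s = r(t)² - s²`, derivative `-2s`, so the
integrand is `(r²-s²)^k √(r² - s² + s²) = (r²-s²)^k r` on `s ∈ (-r,r)`; substitute `s = r x`.
-/

open MeasureTheory Set Metric Topology Filter

namespace Pool.Agent.MP_c8a077_gt

private theorem b4_map {n : ℕ} (e : E n) (he : ‖e‖ = 1) (a b : ℝ) (ha : a ≠ 0) (hb : b ≠ 0) :
    ∃ L : E n ≃ₗ[ℝ] E n, ∀ x, L x = b • x + ((a - b) * inner ℝ x e) • e := by
  have hee : (inner ℝ e e : ℝ) = 1 := by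
    rw [real_inner_self_eq_norm_sq, he, one_pow]
  have key : ∀ (a b : ℝ), a ≠ 0 → b ≠ 0 → ∀ x : E n,
      b⁻¹ • (b • x + ((a - b) * inner ℝ x e) • e) +
        ((a⁻¹ - b⁻¹) * inner ℝ (b • x + ((a - b) * inner ℝ x e) • e) e) • e = x := by
    intro a b ha hb x
    rw [inner_add_left, real_inner_smul_left, real_inner_smul_left, hee, smul_add, smul_smul, smul_smul,
      inv_mul_cancel₀ hb, one_smul, add_assoc, ← add_smul]
    have h1 : b⁻¹ * ((a - b) * inner ℝ x e) +
        (a⁻¹ - b⁻¹) * (b * inner ℝ x e + (a - b) * inner ℝ x e * 1) = 0 := by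
      field_simp
      ring
    rw [h1, zero_smul, add_zero]
  refine ⟨{ toFun := fun x => b • x + ((a - b) * inner ℝ x e) • e
            map_add' := ?_
            map_smul' := ?_
            invFun := fun x => b⁻¹ • x + ((a⁻¹ - b⁻¹) * inner ℝ x e) • e
            left_inv := ?_
            right_inv := ?_ }, fun x => rfl⟩
  · intro x y
    rw [inner_add_left, smul_add, mul_add, add_smul]
    abel
  · intro t x
    simp only [RingHom.id_apply]
    rw [real_inner_smul_left, smul_add, smul_smul, smul_smul, smul_smul]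
    congr 2
    · ring
    · ring
  · intro x
    exact key a b ha hb x
  · intro x
    have h := key a⁻¹ b⁻¹ (inv_ne_zero ha) (inv_ne_zero hb) x
    rw [inv_inv, inv_inv] at h
    exact h

private theorem b4_pyth {n : ℕ} (e : E n) (he : ‖e‖ = 1) (y : E n) :
    ‖y‖ ^ 2 = (inner ℝ y e : ℝ) ^ 2 + ‖y - (inner ℝ y e : ℝ) • e‖ ^ 2 := by
  have hee : (inner ℝ e e : ℝ) = 1 := by
    rw [real_inner_self_eq_norm_sq, he, one_pow]
  rw [norm_sub_sq_real, norm_smul, he, mul_one, real_inner_smul_right, Real.norm_eq_abs, sq_abs]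
  ring

private theorem b4_qsec (r : ℝ → ℝ) (t : ℝ) : qsec r 1 0 t = fun s => r t ^ 2 - s ^ 2 := by
  funext s
  unfold qsec
  rw [mul_one, mul_zero, mul_zero, mul_one, sub_zero, zero_add]

theorem ellipsoid_of_quad {n : ℕ} (K : Set (E n)) (c e : E n) (he : ‖e‖ = 1) (A B : ℝ) (r : ℝ → ℝ)
    (hr : ProfHyp A B r) (hK : RevDesc K c e A B r) (κ : ℝ)
    (hκ : ∀ z ∈ Icc A B, r z ^ 2 = κ * ((z - A) * (B - z))) : IsEllipsoid K := by
  obtain ⟨hAB, _, _, hr0, hrp⟩ := hr
  set m : ℝ := (A + B) / 2 with hm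
  set h : ℝ := (B - A) / 2 with hh
  have hh0 : 0 < h := by rw [hh]; linarith
  have hκ0 : 0 < κ := by
    have h1 : m ∈ Ioo A B := ⟨by rw [hm]; linarith, by rw [hm]; linarith⟩
    have h2 := hκ m (Ioo_subset_Icc_self h1)
    have h3 : 0 < r m ^ 2 := pow_pos (hrp m h1) 2
    rw [h2] at h3
    have h4 : 0 < (m - A) * (B - m) := mul_pos (by linarith [h1.1]) (by linarith [h1.2])
    exact (mul_pos_iff_of_pos_right h4).1 h3
  set b : ℝ := √κ * h with hb
  have hb0 : 0 < b := mul_pos (Real.sqrt_pos.2 hκ0) hh0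
  have hb2 : b ^ 2 = κ * h ^ 2 := by rw [hb, mul_pow, Real.sq_sqrt hκ0.le]
  obtain ⟨L, hL⟩ := b4_map e he h b hh0.ne' hb0.ne'
  have hee : (inner ℝ e e : ℝ) = 1 := by
    rw [real_inner_self_eq_norm_sq, he, one_pow]
  have key : ∀ y : E n, (c + m • e) + L y ∈ K ↔ ‖y‖ ≤ 1 := by
    intro y
    set s : ℝ := inner ℝ y e with hs
    have h1 : (c + m • e) + L y - c = m • e + L y := by abel
    have h2 : (inner ℝ (m • e + L y) e : ℝ) = m + h * s := by
      rw [hL, inner_add_left, inner_add_left, real_inner_smul_left, real_inner_smul_left,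
        real_inner_smul_left, hee, ← hs]
      ring
    have h3 : m • e + L y - (m + h * s) • e = b • (y - s • e) := by
      rw [hL, ← hs, smul_sub, smul_smul, add_smul, sub_mul, sub_smul]
      abel
    rw [hK, h1, h2, h3, norm_smul, Real.norm_eq_abs, abs_of_pos hb0]
    have h4 := b4_pyth e he y
    rw [← hs] at h4
    have hn0 : 0 ≤ ‖y - s • e‖ := norm_nonneg _
    constructor
    · rintro ⟨h5, h6⟩
      have h7 := hκ _ h5
      have h8 : (b * ‖y - s • e‖) ^ 2 ≤ r (m + h * s) ^ 2 :=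
        pow_le_pow_left₀ (by positivity) h6 2
      rw [h7, mul_pow, hb2] at h8
      have h9 : (m + h * s - A) * (B - (m + h * s)) = h ^ 2 * (1 - s ^ 2) := by
        rw [hm, hh]
        ring
      rw [h9] at h8
      have h10 : κ * h ^ 2 * ‖y - s • e‖ ^ 2 ≤ κ * h ^ 2 * (1 - s ^ 2) := by linarith
      have h11 := le_of_mul_le_mul_left h10 (by positivity)
      have h12 : ‖y‖ ^ 2 ≤ 1 := by linarith
      nlinarith [norm_nonneg y]
    · intro h5
      have h6 : ‖y‖ ^ 2 ≤ 1 := by nlinarith [norm_nonneg y]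
      have h7 : s ^ 2 ≤ 1 := by nlinarith
      have h8 : -1 ≤ s ∧ s ≤ 1 := abs_le.1 ((sq_le_one_iff_abs_le_one s).1 h7)
      have h9 : m + h * s ∈ Icc A B := by
        constructor
        · have : h * (-1) ≤ h * s := mul_le_mul_of_nonneg_left h8.1 hh0.le
          rw [hm]
          rw [hh] at this ⊢
          linarith
        · have : h * s ≤ h * 1 := mul_le_mul_of_nonneg_left h8.2 hh0.le
          rw [hm]
          rw [hh] at this ⊢
          linarith
      refine ⟨h9, ?_⟩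
      have h10 := hκ _ h9
      have h11 : (m + h * s - A) * (B - (m + h * s)) = h ^ 2 * (1 - s ^ 2) := by
        rw [hm, hh]
        ring
      rw [h11] at h10
      have h12 : (b * ‖y - s • e‖) ^ 2 ≤ r (m + h * s) ^ 2 := by
        rw [h10, mul_pow, hb2]
        have h13 : ‖y - s • e‖ ^ 2 ≤ 1 - s ^ 2 := by linarith
        have h14 := mul_le_mul_of_nonneg_left h13 (show 0 ≤ κ * h ^ 2 by positivity)
        linarith
      exact (pow_le_pow_iff_left₀ (by positivity) (hr0 _ h9) two_ne_zero).1 h12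
  refine ⟨L, c + m • e, ?_⟩
  ext x
  constructor
  · intro hx
    refine ⟨L.symm (x - (c + m • e)), ?_, ?_⟩
    · rw [mem_closedBall, dist_zero_right, ← key, L.apply_symm_apply, add_sub_cancel]
      exact hx
    · change (c + m • e) + L (L.symm (x - (c + m • e))) = x
      rw [L.apply_symm_apply, add_sub_cancel]
  · rintro ⟨y, hy, rfl⟩
    rw [mem_closedBall, dist_zero_right] at hy
    exact (key y).2 hy

theorem Bk_pos (k : ℕ) : 0 < Bk k := by
  unfold Bk
  apply intervalIntegral.intervalIntegral_pos_of_pos_on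
  · exact (by fun_prop : Continuous fun x : ℝ => (1 - x ^ 2) ^ k).intervalIntegrable _ _
  · intro x hx
    apply pow_pos
    nlinarith [hx.1, hx.2]
  · norm_num

theorem Isec_axis (k : ℕ) (r : ℝ → ℝ) (A B t : ℝ) (ht : t ∈ Ioo A B) (hrt : 0 < r t) :
    Isec k r A B 1 0 t = ENNReal.ofReal (Bk k * r t ^ (2 * k + 2)) := by
  set R : ℝ := r t with hR
  have hset : {s : ℝ | t * 1 - s * 0 ∈ Ioo A B ∧ 0 < qsec r 1 0 t s} = Ioo (-R) R := by
    ext s
    rw [mem_ofPred_eq, b4_qsec, mul_one, mul_zero, sub_zero]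
    constructor
    · rintro ⟨_, h⟩
      have h1 : s ^ 2 < R ^ 2 := by linarith
      exact abs_lt.1 (abs_lt_of_sq_lt_sq h1 hrt.le)
    · intro h
      refine ⟨ht, ?_⟩
      have h1 : s ^ 2 < R ^ 2 := sq_lt_sq' h.1 h.2
      simp only
      linarith
  have hint : ∀ s : ℝ, qsec r 1 0 t s ^ k * √(qsec r 1 0 t s + (deriv (qsec r 1 0 t) s) ^ 2 / 4) =
      (R ^ 2 - s ^ 2) ^ k * R := by
    intro s
    have hd : deriv (qsec r 1 0 t) s = -(2 * s) := by
      rw [b4_qsec]
      have h1 : HasDerivAt (fun s : ℝ => r t ^ 2 - s ^ 2) (0 - (2 * s ^ 1 * 1)) s := by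
        have h2 := (hasDerivAt_id s).pow 2
        exact (hasDerivAt_const s (r t ^ 2)).sub h2
      rw [h1.deriv]
      ring
    rw [hd, b4_qsec]
    simp only
    rw [← hR]
    congr 1
    rw [show R ^ 2 - s ^ 2 + (-(2 * s)) ^ 2 / 4 = R ^ 2 by ring, Real.sqrt_sq hrt.le]
  unfold Isec
  rw [hset]
  simp only [hint]
  have hcont : Continuous fun s : ℝ => (R ^ 2 - s ^ 2) ^ k * R := by fun_prop
  have hi : IntegrableOn (fun s : ℝ => (R ^ 2 - s ^ 2) ^ k * R) (Ioo (-R) R) :=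
    (hcont.integrableOn_Icc).mono_set Ioo_subset_Icc_self
  rw [← ofReal_integral_eq_lintegral_ofReal hi, ← integral_Ioc_eq_integral_Ioo,
    ← intervalIntegral.integral_of_le (by linarith)]
  · congr 1
    have h1 := intervalIntegral.mul_integral_comp_mul_left (a := -1) (b := 1)
      (f := fun s : ℝ => (R ^ 2 - s ^ 2) ^ k * R) R
    rw [mul_neg, mul_one] at h1
    rw [← h1]
    have h2 : ∀ x : ℝ, (R ^ 2 - (R * x) ^ 2) ^ k * R = R ^ (2 * k + 1) * (1 - x ^ 2) ^ k := by
      intro x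
      rw [show R ^ 2 - (R * x) ^ 2 = R ^ 2 * (1 - x ^ 2) by ring, mul_pow, ← pow_mul, pow_succ]
      ring
    simp only [h2]
    rw [intervalIntegral.integral_const_mul]
    unfold Bk
    ring
  · refine (ae_restrict_iff' measurableSet_Ioo).2 (ae_of_all _ fun s hs => ?_)
    have h1 : s ^ 2 < R ^ 2 := sq_lt_sq' hs.1 hs.2
    exact mul_nonneg (pow_nonneg (by linarith) k) hrt.le

end Pool.Agent.MP_c8a077_gt
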