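import Pool.Agent.Lib.MP_c8a077_gt.Defs

/-!
# JOB Ext: extraction of the polynomial `Φ`

PROOF.  The right-hand side is finite, so for every `w ∈ (0,M)` the function `(v-w)^k Φ(v)` is
integrable on `(w,M)`, hence `Φ` is integrable on `(w',M)` for every `0 < w' < M` (take `w = w'/2`).
Let `J_j(w) = ∫_{w}^{M} (v-w)^j/j! Φ(v) dv` (`0 ≤ j ≤ k`).  Then `J_k(w) = T(w) - (M-w)^(k+1)/(k+1)`
is a polynomial on `(0,M)`.  `J_{j+1}' = -J_j` and `J_0' = -Φ` on `(0,M)` (expand `(v-w)^j` by the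
binomial theorem in terms of the functions `A_i(w) = ∫_w^M v^i Φ(v) dv`, `A_i' = -w^i Φ(w)`; or
Fubini `J_{j+1}(w) = ∫_w^M J_j`).  So by (downward) induction all `J_j` and finally `Φ` coincide on
`(0,M)` with polynomials (`±` iterated derivatives of the polynomial `J_k`).
-/

open MeasureTheory Set Metric Topology Filter

namespace Pool.Agent.MP_c8a077_gt

/-- `J_k(w)` -/
private noncomputable def ext_J (M : ℝ) (Φ : ℝ → ℝ) (k : ℕ) (w : ℝ) : ℝ :=
  ∫ v in Ioo w M, (v - w) ^ k / (k.factorial : ℝ) * Φ v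

private theorem ext_base (M : ℝ) (Φ : ℝ → ℝ) (hΦc : ContinuousOn Φ (Ioo 0 M))
    (hint : ∀ w ∈ Ioo 0 M, IntegrableOn Φ (Ioo w M)) {w : ℝ} (hw : w ∈ Ioo 0 M) :
    HasDerivAt (ext_J M Φ 0) (-Φ w) w := by
  have h0 : (fun x => ∫ v in x..M, Φ v) =ᶠ[𝓝 w] ext_J M Φ 0 := by
    filter_upwards [isOpen_Ioo.mem_nhds hw] with x hx
    unfold ext_J
    rw [intervalIntegral.integral_of_le hx.2.le, integral_Ioc_eq_integral_Ioo]
    refine setIntegral_congr_fun measurableSet_Ioo (fun v _ => ?_)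
    simp
  refine HasDerivAt.congr_of_eventuallyEq ?_ h0.symm
  refine intervalIntegral.integral_hasDerivAt_left ?_ ?_ (hΦc.continuousAt (isOpen_Ioo.mem_nhds hw))
  · rw [intervalIntegrable_iff_integrableOn_Ioo_of_le hw.2.le]
    exact hint w hw
  · exact hΦc.stronglyMeasurableAtFilter isOpen_Ioo w hw

private theorem ext_step (M : ℝ) (Φ : ℝ → ℝ)
    (hint : ∀ w ∈ Ioo 0 M, IntegrableOn Φ (Ioo w M)) (k : ℕ) {w : ℝ} (hw : w ∈ Ioo 0 M) :
    HasDerivAt (ext_J M Φ (k + 1)) (-ext_J M Φ k w) w := by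
  set w₁ : ℝ := w / 2 with hw₁
  have hw0 : 0 < w := hw.1
  have hw₁0 : 0 < w₁ := by rw [hw₁]; linarith
  have hw₁w : w₁ < w := by rw [hw₁]; linarith
  have hw₁M : w₁ < M := hw₁w.trans hw.2
  have hM0 : 0 < M := hw0.trans hw.2
  have hi := hint w₁ ⟨hw₁0, hw₁M⟩
  have hfac : (0 : ℝ) < ((k + 1).factorial : ℝ) := by exact_mod_cast Nat.factorial_pos _
  have hfack : (0 : ℝ) < (k.factorial : ℝ) := by exact_mod_cast Nat.factorial_pos _
  let F : ℝ → ℝ → ℝ := fun x v => (max (v - x) 0) ^ (k + 1) / ((k + 1).factorial : ℝ) * Φ v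
  let F' : ℝ → ℝ := fun v => if w < v then -((v - w) ^ k / (k.factorial : ℝ)) * Φ v else 0
  -- the integral representation
  have hrep : ∀ x ∈ Ioo w₁ M, ext_J M Φ (k + 1) x = ∫ v in Ioo w₁ M, F x v := by
    intro x hx
    unfold ext_J
    have h1 : ∫ v in Ioo w₁ M, F x v = ∫ v in Ioo x M, F x v := by
      refine setIntegral_eq_of_subset_of_forall_sdiff_eq_zero measurableSet_Ioo
        (fun v hv => ⟨hx.1.trans hv.1, hv.2⟩) ?_
      intro v hv
      have h2 : v ≤ x := by
        by_contra hcon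
        exact hv.2 ⟨not_le.1 hcon, hv.1.2⟩
      change (max (v - x) 0) ^ (k + 1) / ((k + 1).factorial : ℝ) * Φ v = 0
      rw [max_eq_right (by linarith)]
      simp
    rw [h1]
    refine setIntegral_congr_fun measurableSet_Ioo (fun v hv => ?_)
    change _ = (max (v - x) 0) ^ (k + 1) / ((k + 1).factorial : ℝ) * Φ v
    rw [max_eq_left (by linarith [hv.1])]
  have hrep' : -ext_J M Φ k w = ∫ v in Ioo w₁ M, F' v := by
    unfold ext_J
    have h1 : ∫ v in Ioo w₁ M, F' v = ∫ v in Ioo w M, F' v := by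
      refine setIntegral_eq_of_subset_of_forall_sdiff_eq_zero measurableSet_Ioo
        (fun v hv => ⟨hw₁w.trans hv.1, hv.2⟩) ?_
      intro v hv
      have h2 : ¬ w < v := fun hcon => hv.2 ⟨hcon, hv.1.2⟩
      exact if_neg h2
    rw [h1, ← integral_neg]
    refine setIntegral_congr_fun measurableSet_Ioo (fun v hv => ?_)
    change -((v - w) ^ k / (k.factorial : ℝ) * Φ v) = if w < v then _ else _
    rw [if_pos hv.1]
    ring
  have hmeasF : ∀ x : ℝ, AEStronglyMeasurable (F x) (volume.restrict (Ioo w₁ M)) := by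
    intro x
    refine AEStronglyMeasurable.mul ?_ hi.aestronglyMeasurable
    exact (by fun_prop : Continuous fun v : ℝ =>
      (max (v - x) 0) ^ (k + 1) / ((k + 1).factorial : ℝ)).aestronglyMeasurable
  have hbd : ∀ x ∈ Ioo w₁ M, ∀ v ∈ Ioo w₁ M, |max (v - x) 0| ≤ M := by
    intro x hx v hv
    rw [abs_of_nonneg (le_max_right _ _)]
    exact max_le (by linarith [hx.1, hv.2]) hM0.le
  have hmain := hasDerivAt_integral_of_dominated_loc_of_lip (μ := volume.restrict (Ioo w₁ M))
    (F := F) (F' := F') (x₀ := w) (s := Ioo w₁ M)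
    (bound := fun v => (M ^ k / (k.factorial : ℝ)) * Φ v)
    (isOpen_Ioo.mem_nhds ⟨hw₁w, hw.2⟩) (Filter.Eventually.of_forall hmeasF) ?_ ?_ ?_ ?_ ?_
  · have h2 := hmain.2
    rw [← hrep'] at h2
    refine h2.congr_of_eventuallyEq ?_
    filter_upwards [isOpen_Ioo.mem_nhds (show w ∈ Ioo w₁ M from ⟨hw₁w, hw.2⟩)] with x hx
    exact hrep x hx
  · -- integrability of `F w`
    refine Integrable.mono' (hi.norm.const_mul (M ^ (k + 1) / ((k + 1).factorial : ℝ))) (hmeasF w) ?_
    refine (ae_restrict_iff' measurableSet_Ioo).2 (Filter.Eventually.of_forall fun v hv => ?_)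
    change ‖(max (v - w) 0) ^ (k + 1) / ((k + 1).factorial : ℝ) * Φ v‖ ≤ _
    rw [norm_mul, norm_div, norm_pow, Real.norm_eq_abs, Real.norm_eq_abs, abs_of_pos hfac]
    refine mul_le_mul_of_nonneg_right ?_ (norm_nonneg _)
    exact div_le_div_of_nonneg_right (pow_le_pow_left₀ (abs_nonneg _) (hbd w ⟨hw₁w, hw.2⟩ v hv) _) hfac.le
  · -- measurability of `F'`
    have h1 : F' = (Ioi w).indicator (fun v => -((v - w) ^ k / (k.factorial : ℝ)) * Φ v) := by
      ext v
      change (if w < v then _ else _) = _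
      by_cases hv : w < v
      · rw [if_pos hv, indicator_of_mem (show v ∈ Ioi w from hv)]
      · rw [if_neg hv, indicator_of_notMem (show v ∉ Ioi w from hv)]
    rw [h1]
    refine AEStronglyMeasurable.indicator ?_ measurableSet_Ioi
    refine AEStronglyMeasurable.mul ?_ hi.aestronglyMeasurable
    exact (by fun_prop : Continuous fun v : ℝ => -((v - w) ^ k / (k.factorial : ℝ))).aestronglyMeasurable
  · -- Lipschitz
    refine (ae_restrict_iff' measurableSet_Ioo).2 (Filter.Eventually.of_forall fun v hv => ?_)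
    refine LipschitzOnWith.of_dist_le_mul ?_
    intro x hx y hy
    rw [Real.dist_eq, Real.dist_eq]
    change |(max (v - x) 0) ^ (k + 1) / ((k + 1).factorial : ℝ) * Φ v -
      (max (v - y) 0) ^ (k + 1) / ((k + 1).factorial : ℝ) * Φ v| ≤ |(M ^ k / (k.factorial : ℝ)) * Φ v| * |x - y|
    rw [← sub_mul, ← sub_div, abs_mul, abs_div, abs_of_pos hfac, abs_mul,
      abs_of_nonneg (show (0 : ℝ) ≤ M ^ k / (k.factorial : ℝ) by positivity)]
    have h1 := abs_pow_sub_pow_le (n := k + 1) (a := max (v - x) 0) (b := max (v - y) 0)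
    rw [Nat.add_sub_cancel] at h1
    have h2 : |max (v - x) 0 - max (v - y) 0| ≤ |x - y| := by
      have := abs_max_sub_max_le_abs (v - x) (v - y) 0
      refine this.trans (le_of_eq ?_)
      rw [show v - x - (v - y) = -(x - y) by ring, abs_neg]
    have h3 : max |max (v - x) 0| |max (v - y) 0| ^ k ≤ M ^ k :=
      pow_le_pow_left₀ (le_max_of_le_left (abs_nonneg _)) (max_le (hbd x hx v hv) (hbd y hy v hv)) _
    have h4 : |max (v - x) 0 ^ (k + 1) - max (v - y) 0 ^ (k + 1)| ≤ |x - y| * ((k + 1 : ℕ) : ℝ) * M ^ k := by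
      refine h1.trans ?_
      gcongr
    have h5 : ((k + 1).factorial : ℝ) = ((k + 1 : ℕ) : ℝ) * (k.factorial : ℝ) := by
      rw [Nat.factorial_succ]
      push_cast
      ring
    have h6 : |max (v - x) 0 ^ (k + 1) - max (v - y) 0 ^ (k + 1)| / ((k + 1).factorial : ℝ) ≤
        M ^ k / (k.factorial : ℝ) * |x - y| := by
      rw [div_le_iff₀ hfac, h5]
      refine h4.trans (le_of_eq ?_)
      field_simp
    calc |max (v - x) 0 ^ (k + 1) - max (v - y) 0 ^ (k + 1)| / ((k + 1).factorial : ℝ) * |Φ v|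
        ≤ M ^ k / (k.factorial : ℝ) * |x - y| * |Φ v| := mul_le_mul_of_nonneg_right h6 (abs_nonneg _)
      _ = M ^ k / (k.factorial : ℝ) * |Φ v| * |x - y| := by ring
  · exact hi.const_mul _
  · -- differentiability
    refine (ae_restrict_iff' measurableSet_Ioo).2 ?_
    have hne : ∀ᵐ v : ℝ ∂volume, v ≠ w := by
      have : (volume : Measure ℝ) {w} = 0 := Real.volume_singleton
      rw [ae_iff]
      simp
    filter_upwards [hne] with v hvw _
    rcases lt_or_gt_of_ne hvw with hv | hv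
    · -- v < w
      have h1 : F' v = 0 := if_neg (not_lt.2 hv.le)
      rw [h1]
      refine (hasDerivAt_const w (0 : ℝ)).congr_of_eventuallyEq ?_
      filter_upwards [isOpen_Ioi.mem_nhds (show w ∈ Ioi v from hv)] with x hx
      change (max (v - x) 0) ^ (k + 1) / ((k + 1).factorial : ℝ) * Φ v = 0
      rw [max_eq_right (by linarith [show v < x from hx])]
      simp
    · -- w < v
      have h1 : F' v = -((v - w) ^ k / (k.factorial : ℝ)) * Φ v := if_pos hv
      rw [h1]
      have h2 : HasDerivAt (fun x : ℝ => (v - x) ^ (k + 1) / ((k + 1).factorial : ℝ) * Φ v)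
          ((((k + 1 : ℕ) : ℝ) * (v - w) ^ k * (-1)) / ((k + 1).factorial : ℝ) * Φ v) w := by
        have h3 : HasDerivAt (fun x : ℝ => v - x) (-1) w := by
          exact (hasDerivAt_id w).const_sub v
        exact ((h3.pow (k + 1)).div_const _).mul_const _
      have h3 : ((((k + 1 : ℕ) : ℝ) * (v - w) ^ k * (-1)) / ((k + 1).factorial : ℝ) * Φ v) =
          -((v - w) ^ k / (k.factorial : ℝ)) * Φ v := by
        have h5 : ((k + 1).factorial : ℝ) = ((k + 1 : ℕ) : ℝ) * (k.factorial : ℝ) := by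
          rw [Nat.factorial_succ]
          push_cast
          ring
        have h6 : ((k + 1 : ℕ) : ℝ) ≠ 0 := by exact_mod_cast Nat.succ_ne_zero k
        rw [h5]
        field_simp
      rw [h3] at h2
      refine h2.congr_of_eventuallyEq ?_
      filter_upwards [isOpen_Iio.mem_nhds (show w ∈ Iio v from hv)] with x hx
      change (max (v - x) 0) ^ (k + 1) / ((k + 1).factorial : ℝ) * Φ v = _
      rw [max_eq_left (by linarith [show x < v from hx])]

private theorem ext_poly (M : ℝ) (Φ : ℝ → ℝ) (hΦc : ContinuousOn Φ (Ioo 0 M))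
    (hint : ∀ w ∈ Ioo 0 M, IntegrableOn Φ (Ioo w M)) (k : ℕ) :
    ∀ T : Polynomial ℝ, (∀ w ∈ Ioo 0 M, ext_J M Φ k w = T.eval w) →
      ∃ T' : Polynomial ℝ, ∀ w ∈ Ioo 0 M, Φ w = T'.eval w := by
  induction k with
  | zero =>
    intro T hT
    refine ⟨-Polynomial.derivative T, fun w hw => ?_⟩
    have h1 := ext_base M Φ hΦc hint hw
    have h2 : HasDerivAt (fun x => T.eval x) (-Φ w) w := by
      refine h1.congr_of_eventuallyEq ?_
      filter_upwards [isOpen_Ioo.mem_nhds hw] with x hx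
      exact (hT x hx).symm
    have h3 := h2.unique (T.hasDerivAt w)
    rw [Polynomial.eval_neg, ← h3]
    ring
  | succ k ih =>
    intro T hT
    refine ih (-Polynomial.derivative T) (fun w hw => ?_)
    have h1 := ext_step M Φ hint k hw
    have h2 : HasDerivAt (fun x => T.eval x) (-ext_J M Φ k w) w := by
      refine h1.congr_of_eventuallyEq ?_
      filter_upwards [isOpen_Ioo.mem_nhds hw] with x hx
      exact (hT x hx).symm
    have h3 := h2.unique (T.hasDerivAt w)
    rw [Polynomial.eval_neg, ← h3]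
    ring

theorem poly_extract (k : ℕ) (M : ℝ) (hM : 0 < M) (T : Polynomial ℝ) (Φ : ℝ → ℝ)
    (hΦc : ContinuousOn Φ (Ioo 0 M)) (hΦ0 : ∀ v ∈ Ioo 0 M, 0 ≤ Φ v)
    (h : ∀ w ∈ Ioo 0 M, ENNReal.ofReal (T.eval w) =
      ENNReal.ofReal ((M - w) ^ (k + 1) / (k + 1)) +
        ∫⁻ v in Ioo w M, ENNReal.ofReal ((v - w) ^ k / (k.factorial : ℝ)) * ENNReal.ofReal (Φ v)) :
    ∃ T' : Polynomial ℝ, ∀ w ∈ Ioo 0 M, Φ w = T'.eval w := by
  have hfack : (0 : ℝ) < (k.factorial : ℝ) := by exact_mod_cast Nat.factorial_pos _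
  have hmΦ : ∀ w ∈ Ioo 0 M, AEStronglyMeasurable Φ (volume.restrict (Ioo w M)) := by
    intro w hw
    exact (hΦc.mono (fun v hv => ⟨hw.1.trans hv.1, hv.2⟩)).aestronglyMeasurable measurableSet_Ioo
  have hint : ∀ w ∈ Ioo 0 M, IntegrableOn Φ (Ioo w M) := by
    intro w hw
    refine ⟨hmΦ w hw, ?_⟩
    have hw0 : 0 < w := hw.1
    have hw2 : w / 2 ∈ Ioo 0 M := ⟨by linarith, by linarith [hw.2]⟩
    have h1 := h (w / 2) hw2
    have h2 : ∫⁻ v in Ioo (w / 2) M,
        ENNReal.ofReal ((v - w / 2) ^ k / (k.factorial : ℝ)) * ENNReal.ofReal (Φ v) ≠ ⊤ := by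
      intro h3
      rw [h3, add_top] at h1
      exact ENNReal.ofReal_ne_top h1
    set c : ENNReal := ENNReal.ofReal ((w / 2) ^ k / (k.factorial : ℝ)) with hc
    have hc0 : c ≠ 0 := by
      rw [hc, Ne, ENNReal.ofReal_eq_zero, not_le]
      positivity
    have hct : c ≠ ⊤ := ENNReal.ofReal_ne_top
    have h4 : c * ∫⁻ v in Ioo w M, ENNReal.ofReal (Φ v) ≤ ∫⁻ v in Ioo (w / 2) M,
        ENNReal.ofReal ((v - w / 2) ^ k / (k.factorial : ℝ)) * ENNReal.ofReal (Φ v) := by
      rw [← lintegral_const_mul' c _ hct]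
      refine le_trans ?_ (lintegral_mono_set (show Ioo w M ⊆ Ioo (w / 2) M from
        fun v hv => ⟨by linarith [hv.1], hv.2⟩))
      refine setLIntegral_mono' measurableSet_Ioo (fun v hv => ?_)
      refine mul_le_mul_left ?_ _
      refine ENNReal.ofReal_le_ofReal ?_
      refine div_le_div_of_nonneg_right (pow_le_pow_left₀ (by linarith) (by linarith [hv.1]) k) hfack.le
    have h5 : ∫⁻ v in Ioo w M, ENNReal.ofReal (Φ v) ≠ ⊤ := by
      intro h6
      rw [h6, ENNReal.mul_top hc0, top_le_iff] at h4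
      exact h2 h4
    have h6 : ∫⁻ v in Ioo w M, ‖Φ v‖ₑ = ∫⁻ v in Ioo w M, ENNReal.ofReal (Φ v) := by
      refine setLIntegral_congr_fun measurableSet_Ioo (fun v hv => ?_)
      exact Real.enorm_of_nonneg (hΦ0 v ⟨hw.1.trans hv.1, hv.2⟩)
    rw [HasFiniteIntegral, h6]
    exact lt_top_iff_ne_top.2 h5
  -- the integral is a polynomial
  have hJ : ∀ w ∈ Ioo 0 M, ext_J M Φ k w = T.eval w - (M - w) ^ (k + 1) / (k + 1) := by
    intro w hw
    have hw0 : 0 < w := hw.1
    have hI : IntegrableOn (fun v => (v - w) ^ k / (k.factorial : ℝ) * Φ v) (Ioo w M) := by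
      refine Integrable.mono' ((hint w hw).norm.const_mul (M ^ k / (k.factorial : ℝ))) ?_ ?_
      · refine AEStronglyMeasurable.mul ?_ (hmΦ w hw)
        exact (by fun_prop : Continuous fun v : ℝ => (v - w) ^ k / (k.factorial : ℝ)).aestronglyMeasurable
      · refine (ae_restrict_iff' measurableSet_Ioo).2 (Filter.Eventually.of_forall fun v hv => ?_)
        rw [norm_mul, norm_div, norm_pow, Real.norm_eq_abs, Real.norm_eq_abs, abs_of_pos hfack,
          abs_of_nonneg (by linarith [hv.1] : (0 : ℝ) ≤ v - w)]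
        refine mul_le_mul_of_nonneg_right ?_ (norm_nonneg _)
        exact div_le_div_of_nonneg_right
          (pow_le_pow_left₀ (by linarith [hv.1]) (by linarith [hv.2]) k) hfack.le
    have hpos : ∀ v ∈ Ioo w M, 0 ≤ (v - w) ^ k / (k.factorial : ℝ) * Φ v := by
      intro v hv
      have h1 : 0 ≤ v - w := by linarith [hv.1]
      have h2 := hΦ0 v ⟨hw.1.trans hv.1, hv.2⟩
      positivity
    have h1 : ∫⁻ v in Ioo w M, ENNReal.ofReal ((v - w) ^ k / (k.factorial : ℝ)) * ENNReal.ofReal (Φ v) =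
        ENNReal.ofReal (ext_J M Φ k w) := by
      unfold ext_J
      rw [ofReal_integral_eq_lintegral_ofReal hI
        ((ae_restrict_iff' measurableSet_Ioo).2 (Filter.Eventually.of_forall hpos))]
      refine setLIntegral_congr_fun measurableSet_Ioo (fun v hv => ?_)
      have h2 : (0 : ℝ) ≤ (v - w) ^ k / (k.factorial : ℝ) := by
        have h3 : 0 ≤ v - w := by linarith [hv.1]
        positivity
      exact (ENNReal.ofReal_mul h2).symm
    have hJ0 : 0 ≤ ext_J M Φ k w := setIntegral_nonneg measurableSet_Ioo hpos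
    have hA : 0 < (M - w) ^ (k + 1) / ((k : ℝ) + 1) := by
      have : 0 < M - w := by linarith [hw.2]
      positivity
    have h2 := h w hw
    rw [h1, ← ENNReal.ofReal_add hA.le hJ0] at h2
    have hT : 0 < T.eval w := by
      by_contra hcon
      rw [ENNReal.ofReal_of_nonpos (not_lt.1 hcon)] at h2
      have h3 := ENNReal.ofReal_eq_zero.1 h2.symm
      linarith
    have h3 := (ENNReal.ofReal_eq_ofReal_iff hT.le (by linarith)).1 h2
    linarith
  refine ext_poly M Φ hΦc hint k (T - Polynomial.C (1 / ((k : ℝ) + 1)) *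
    (Polynomial.C M - Polynomial.X) ^ (k + 1)) (fun w hw => ?_)
  rw [hJ w hw]
  simp only [Polynomial.eval_sub, Polynomial.eval_mul, Polynomial.eval_C, Polynomial.eval_pow,
    Polynomial.eval_X]
  ring

end Pool.Agent.MP_c8a077_gt
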