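import Pool.Agent.Lib.MP_c8a077_gt.Defs

/-!
# JOB HkB: the integral identity for `Hk`

PROOF.  Fix `a > 0`.  Write `h_k(y) = Hk k y a = Q_k(y) / ((y+a)^k √(y+a))` with
`Q_k(y) = ∑_{i≤k} hc k i y^i a^(k-i)`.  The recursion of `hc` says
`Q_{k+1} = y (y+a) Q_k' + ((3/2) y + (k+2) a) Q_k`, which gives for `y ≥ 0` (indeed `y > -a`)
`h_{k+1}(y) = y h_k'(y) + (k+2) h_k(y)`.
Let `I_k(x) = ∫_0^x (x-y)^k / k! * h_k(y) dy`.  Integration by parts (boundary terms vanish because
of the factors `y` at `0` and `(x-y)^(k+1)` at `x`):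
`I_{k+1}(x) = ∫ (x-y)^(k+1)/(k+1)! (y h_k' + (k+2) h_k) dy`
`= ∫ [ -((x-y)^(k+1) - (k+1)(x-y)^k y)/(k+1)! + (k+2) (x-y)^(k+1)/(k+1)! ] h_k dy`
`= ∫ (x-y)^k/k! ((x-y) + y) h_k dy = x I_k(x)`.
And `I_0(x) = ∫_0^x (1/2)/√(y+a) dy = √(x+a) - √a`.  Hence `I_k(x) = x^k (√(x+a) - √a)`.
-/

open MeasureTheory Set Metric Topology Filter

namespace Pool.Agent.MP_c8a077_gt

private theorem hkb_zero (k : ℕ) : ∀ i : ℕ, k < i → hc k i = 0 := by
  induction k with
  | zero =>
    intro i hi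
    obtain ⟨j, rfl⟩ : ∃ j, i = j + 1 := ⟨i - 1, by omega⟩
    rfl
  | succ k ih =>
    intro i hi
    obtain ⟨j, rfl⟩ : ∃ j, i = j + 1 := ⟨i - 1, by omega⟩
    show (j + 3 / 2) * hc k j + (k + j + 3) * hc k (j + 1) = 0
    rw [ih j (by omega), ih (j + 1) (by omega)]
    ring

private noncomputable def hkbQ (k : ℕ) (y a : ℝ) : ℝ :=
  ∑ i ∈ Finset.range (k + 1), hc k i * y ^ i * a ^ (k - i)

private noncomputable def hkbQ' (k : ℕ) (y a : ℝ) : ℝ :=
  ∑ i ∈ Finset.range (k + 1), hc k i * (i * y ^ (i - 1)) * a ^ (k - i)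

private theorem hkb_Qderiv (k : ℕ) (y a : ℝ) : HasDerivAt (fun y => hkbQ k y a) (hkbQ' k y a) y := by
  unfold hkbQ hkbQ'
  apply HasDerivAt.fun_sum
  intro i _
  have h := ((hasDerivAt_pow i y).const_mul (hc k i)).mul_const (a ^ (k - i))
  exact h

private theorem hkb_rec (k : ℕ) (y a : ℝ) :
    hkbQ (k + 1) y a = y * (y + a) * hkbQ' k y a + ((3 / 2) * y + (k + 2) * a) * hkbQ k y a := by
  have h1 : hkbQ (k + 1) y a = ∑ i ∈ Finset.range (k + 1),
      ((i + 3 / 2) * y + (k + i + 2) * a) * (hc k i * y ^ i * a ^ (k - i)) := by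
    unfold hkbQ
    rw [Finset.sum_range_succ']
    have h2 : ∀ i ∈ Finset.range (k + 1), hc (k + 1) (i + 1) * y ^ (i + 1) * a ^ (k + 1 - (i + 1)) =
        (i + 3 / 2) * y * (hc k i * y ^ i * a ^ (k - i)) +
          (k + (i + 1 : ℕ) + 2) * (hc k (i + 1) * y ^ (i + 1) * a ^ (k - i)) := by
      intro i _
      have h3 : hc (k + 1) (i + 1) = (i + 3 / 2) * hc k i + (k + i + 3) * hc k (i + 1) := rfl
      rw [h3, Nat.add_sub_add_right]
      push_cast
      ring
    rw [Finset.sum_congr rfl h2, Finset.sum_add_distrib]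
    have h4 : ∑ i ∈ Finset.range (k + 1),
        ((k : ℝ) + (i + 1 : ℕ) + 2) * (hc k (i + 1) * y ^ (i + 1) * a ^ (k - i)) +
        hc (k + 1) 0 * y ^ 0 * a ^ (k + 1 - 0) =
        ∑ i ∈ Finset.range (k + 1), (k + i + 2) * a * (hc k i * y ^ i * a ^ (k - i)) := by
      rw [Finset.sum_range_succ, hkb_zero k (k + 1) (by omega)]
      conv_rhs => rw [Finset.sum_range_succ']
      have h5 : hc (k + 1) 0 = (k + 2) * hc k 0 := by
        cases k <;> rfl
      rw [h5]
      have h6 : ∀ i ∈ Finset.range k,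
          ((k : ℝ) + (i + 1 : ℕ) + 2) * (hc k (i + 1) * y ^ (i + 1) * a ^ (k - i)) =
          (k + (i + 1 : ℕ) + 2) * a * (hc k (i + 1) * y ^ (i + 1) * a ^ (k - (i + 1))) := by
        intro i hi
        have hi' := Finset.mem_range.1 hi
        have h7 : k - i = (k - (i + 1)) + 1 := by omega
        rw [h7, pow_succ]
        ring
      rw [Finset.sum_congr rfl h6]
      simp only [Nat.sub_zero, pow_zero, Nat.cast_zero, pow_succ]
      ring
    rw [add_assoc, h4, ← Finset.sum_add_distrib]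
    refine Finset.sum_congr rfl fun i _ => ?_
    ring
  rw [h1]
  unfold hkbQ hkbQ'
  rw [Finset.mul_sum, Finset.mul_sum, ← Finset.sum_add_distrib]
  refine Finset.sum_congr rfl fun i _ => ?_
  rcases Nat.eq_zero_or_pos i with rfl | hi
  · simp
  · have h8 : y ^ i = y ^ (i - 1) * y := by
      rw [← pow_succ]
      congr 1
      omega
    rw [h8]
    ring

private theorem hkb_Hk (k : ℕ) (y a : ℝ) : Hk k y a = hkbQ k y a / ((y + a) ^ k * √(y + a)) := rfl

/-- the derivative of `Hk` in the form of the recursion -/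
private theorem hkb_deriv (k : ℕ) {a : ℝ} (ha : 0 < a) {y : ℝ} (hy : 0 ≤ y) :
    ∃ d : ℝ, HasDerivAt (fun y => Hk k y a) d y ∧ Hk (k + 1) y a = y * d + (k + 2) * Hk k y a := by
  have hpos : 0 < y + a := by linarith
  set s := √(y + a) with hs
  have hspos : 0 < s := Real.sqrt_pos.2 hpos
  have hs2 : s * s = y + a := Real.mul_self_sqrt hpos.le
  have hD1 : HasDerivAt (fun y : ℝ => (y + a) ^ k) (k * (y + a) ^ (k - 1) * 1) y :=
    ((hasDerivAt_id y).add_const a).pow k
  have hD2 : HasDerivAt (fun y : ℝ => √(y + a)) (1 / (2 * s)) y := by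
    have := ((hasDerivAt_id y).add_const a).sqrt hpos.ne'
    simpa using this
  have hD := hD1.mul hD2
  have hDpos : 0 < (y + a) ^ k * s := by positivity
  have hH := (hkb_Qderiv k y a).div hD hDpos.ne'
  refine ⟨_, hH, ?_⟩
  have hval : (k * (y + a) ^ (k - 1) * 1) * s + (y + a) ^ k * (1 / (2 * s)) =
      (k + 1 / 2) * ((y + a) ^ k * s) / (y + a) := by
    rw [eq_div_iff hpos.ne']
    have e1 : (k : ℝ) * (y + a) ^ (k - 1) * (y + a) = k * (y + a) ^ k := by
      rcases Nat.eq_zero_or_pos k with rfl | hk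
      · simp
      · rw [mul_assoc, ← pow_succ]
        congr 2
        omega
    have e2 : 1 / (2 * s) * (y + a) = s / 2 := by
      rw [← hs2]
      field_simp
    calc ((k * (y + a) ^ (k - 1) * 1) * s + (y + a) ^ k * (1 / (2 * s))) * (y + a)
        = (k * (y + a) ^ (k - 1) * (y + a)) * s + (y + a) ^ k * (1 / (2 * s) * (y + a)) := by ring
      _ = _ := by rw [e1, e2]; ring
  rw [hkb_Hk, hkb_Hk, hkb_rec, ← hs]
  simp only [Pi.mul_apply]
  rw [hval, ← hs, pow_succ]
  have hp : (y + a) ^ k ≠ 0 := (pow_pos hpos k).ne'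
  field_simp
  ring

private theorem hkb_cont (k : ℕ) {a : ℝ} (ha : 0 < a) :
    ContinuousOn (fun y => Hk k y a) (Ici (0 : ℝ)) := by
  intro y hy
  obtain ⟨d, hd, -⟩ := hkb_deriv k ha (y := y) hy
  exact hd.continuousAt.continuousWithinAt

private theorem hkb_intble (k : ℕ) {a : ℝ} (ha : 0 < a) {x : ℝ} (hx : 0 ≤ x) (m : ℕ) (c : ℝ) :
    IntervalIntegrable (fun y => (x - y) ^ m / c * Hk k y a) volume 0 x := by
  apply ContinuousOn.intervalIntegrable
  rw [uIcc_of_le hx]
  refine ContinuousOn.mul (by fun_prop) ((hkb_cont k ha).mono ?_)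
  intro y hy
  exact hy.1

theorem Hk_integral (k : ℕ) {a : ℝ} (ha : 0 < a) {x : ℝ} (hx : 0 ≤ x) :
    ∫ y in (0 : ℝ)..x, (x - y) ^ k / (k.factorial : ℝ) * Hk k y a = x ^ k * (√(x + a) - √a) := by
  induction k with
  | zero =>
    have h1 : ∀ y ∈ uIcc 0 x, HasDerivAt (fun y : ℝ => √(y + a))
        ((x - y) ^ 0 / ((0 : ℕ).factorial : ℝ) * Hk 0 y a) y := by
      intro y hy
      rw [uIcc_of_le hx] at hy
      have hpos : 0 < y + a := by linarith [hy.1]
      have h2 : HasDerivAt (fun y : ℝ => √(y + a)) (1 / (2 * √(y + a))) y := by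
        have := ((hasDerivAt_id y).add_const a).sqrt hpos.ne'
        simpa using this
      have h3 : (x - y) ^ 0 / ((0 : ℕ).factorial : ℝ) * Hk 0 y a = 1 / (2 * √(y + a)) := by
        unfold Hk
        have h4 : hc 0 0 = 1 / 2 := rfl
        simp only [zero_add, Finset.sum_range_one, h4, pow_zero, Nat.factorial_zero, Nat.cast_one,
          Nat.sub_self, mul_one, one_mul, div_one]
        rw [div_div]
      rw [h3]
      exact h2
    rw [intervalIntegral.integral_eq_sub_of_hasDerivAt h1 (hkb_intble 0 ha hx 0 _)]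
    simp
  | succ k ih =>
    have hfac : ((k + 1).factorial : ℝ) = (k + 1) * (k.factorial : ℝ) := by
      rw [Nat.factorial_succ]
      push_cast
      ring
    have hfk : (k.factorial : ℝ) ≠ 0 := by exact_mod_cast (Nat.factorial_pos k).ne'
    have hk1 : (k : ℝ) + 1 ≠ 0 := by positivity
    have h1 : ∀ y ∈ uIcc 0 x, HasDerivAt
        (fun y : ℝ => (x - y) ^ (k + 1) / ((k + 1).factorial : ℝ) * (y * Hk k y a))
        ((x - y) ^ (k + 1) / ((k + 1).factorial : ℝ) * Hk (k + 1) y a -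
          x * ((x - y) ^ k / (k.factorial : ℝ) * Hk k y a)) y := by
      intro y hy
      rw [uIcc_of_le hx] at hy
      obtain ⟨d, hd, hrec⟩ := hkb_deriv k ha (y := y) hy.1
      have h2 : HasDerivAt (fun y : ℝ => (x - y) ^ (k + 1) / ((k + 1).factorial : ℝ))
          ((((k + 1 : ℕ) : ℝ) * (x - y) ^ k * (-1)) / ((k + 1).factorial : ℝ)) y := by
        have h3 : HasDerivAt (fun y : ℝ => x - y) (-1) y := by
          simpa using (hasDerivAt_id y).const_sub x
        have h4 := (h3.pow (k + 1)).div_const ((k + 1).factorial : ℝ)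
        simpa using h4
      have h5 := h2.mul ((hasDerivAt_id y).mul hd)
      refine (h5.congr_deriv ?_)
      simp only [Pi.mul_apply, id_eq]
      rw [hrec, hfac]
      push_cast
      rw [pow_succ]
      field_simp
      ring
    have hint := (hkb_intble (k + 1) ha hx (k + 1) ((k + 1).factorial : ℝ))
    have hint2 := (hkb_intble k ha hx k (k.factorial : ℝ)).const_mul x
    have h6 := intervalIntegral.integral_eq_sub_of_hasDerivAt h1 (hint.sub hint2)
    rw [intervalIntegral.integral_sub hint hint2, intervalIntegral.integral_const_mul, ih] at h6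
    have h7 : (x - x) ^ (k + 1) / ((k + 1).factorial : ℝ) * (x * Hk k x a) -
        (x - 0) ^ (k + 1) / ((k + 1).factorial : ℝ) * (0 * Hk k 0 a) = 0 := by
      simp
    rw [h7] at h6
    rw [pow_succ]
    linarith

end Pool.Agent.MP_c8a077_gt
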