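import Pool.Agent.Lib.MP_c8a077_gt.HkA
import Pool.Agent.Lib.MP_c8a077_gt.HkB

/-!
# JOB Ton: the Tonelli formula for the section area

PROOF.  Put `a(z) = p'(z)²/4`, so `√a = |p'|/2 > 0` for `z ∈ (A,B)`, `z ≠ z₀`; the point `z₀` is
null.  For `z` with `w < p z`, `Hk_integral` (with `x = p z - w`, substitution `v = p z - y`,
i.e. `y = p z - v`, `x - y = v - w`) gives
`(p z - w)^k √(p z - w + a) = |p'|/2 (p z - w)^k + ∫_{v ∈ (w, p z)} (v-w)^k/k! Hk k (p z - v) a dv`,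
all terms nonnegative.  Take `∫⁻` over `{z ∈ (A,B) : w < p z}` (an interval `(z₋,z₊)` around `z₀`,
with `p z₋ = w = p z₊`, by strict monotonicity of `p` on `[A,z₀]`, `[z₀,B]` and the intermediate
value theorem).
First part: `∫_{z₋}^{z₀} p'/2 (p-w)^k = (p z₀ - w)^(k+1)/(2(k+1))` by the fundamental theorem, and the
same for the right half, total `(p z₀ - w)^(k+1)/(k+1)`.
Second part: Tonelli (`lintegral_lintegral_swap`) for the indicator of `{(z,v) : w < v < p z}`.
For measurability: `p`, `deriv p` are continuous on `(A,B)`; use `Hk_measurable` from HkA (restrict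
the measure to `Ioo A B`, `ContinuousOn.aemeasurable`, or replace `p`, `deriv p` by their indicators).
-/

open MeasureTheory Set Metric Topology Filter

namespace Pool.Agent.MP_c8a077_gt

private lemma ton_half (c d : ℝ) (hcd : c ≤ d) (G G' : ℝ → ℝ) (hG : ContinuousOn G (Icc c d))
    (hG' : ∀ x ∈ Ioo c d, HasDerivAt G (G' x) x) (h0 : ∀ x ∈ Ioo c d, 0 ≤ G' x) :
    ∫⁻ x in Ioo c d, ENNReal.ofReal (G' x) = ENNReal.ofReal (G d - G c) := by
  have h1 : IntegrableOn G' (Ioc c d) := intervalIntegral.integrableOn_deriv_of_nonneg hG hG' h0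
  have h2 : IntervalIntegrable G' volume c d := by
    rw [intervalIntegrable_iff_integrableOn_Ioc_of_le hcd]
    exact h1
  have h3 := intervalIntegral.integral_eq_sub_of_hasDerivAt_of_le hcd hG hG' h2
  rw [← h3, intervalIntegral.integral_of_le hcd, integral_Ioc_eq_integral_Ioo]
  rw [ofReal_integral_eq_lintegral_ofReal (h1.mono_set Ioo_subset_Ioc_self)]
  rw [EventuallyLE, ae_restrict_iff' measurableSet_Ioo]
  exact Eventually.of_forall h0

private lemma ton_pt (k : ℕ) {a : ℝ} (ha : 0 < a) {w b : ℝ} (hwb : w < b) :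
    ENNReal.ofReal ((b - w) ^ k * √(b - w + a)) = ENNReal.ofReal (√a * (b - w) ^ k) +
      ∫⁻ v in Ioo w b, ENNReal.ofReal ((v - w) ^ k / (k.factorial : ℝ)) *
        ENNReal.ofReal (Hk k (b - v) a) := by
  have hx : 0 ≤ b - w := by linarith
  have h1 := Hk_integral k ha hx
  have h2 : ∫ v in w..b, (v - w) ^ k / (k.factorial : ℝ) * Hk k (b - v) a =
      (b - w) ^ k * (√(b - w + a) - √a) := by
    rw [← h1]
    have h3 := intervalIntegral.integral_comp_sub_left
      (fun y => (b - w - y) ^ k / (k.factorial : ℝ) * Hk k y a) b (a := w) (b := b)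
    rw [sub_self] at h3
    rw [← h3]
    apply intervalIntegral.integral_congr
    intro v _
    simp only
    congr 3
    ring
  have hcont : ContinuousOn (fun v => (v - w) ^ k / (k.factorial : ℝ) * Hk k (b - v) a)
      (Icc w b) := by
    apply ContinuousOn.mul
    · fun_prop
    · intro v hv
      apply ContinuousAt.continuousWithinAt
      have h3 : 0 < (b - v) + a := by linarith [hv.2]
      have h4 : ContinuousAt (fun q : ℝ × ℝ => Hk k q.1 q.2) (b - v, a) :=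
        (Hk_analytic k h3).continuousAt
      exact ContinuousAt.comp (f := fun v : ℝ => ((b - v, a) : ℝ × ℝ))
        (g := fun q : ℝ × ℝ => Hk k q.1 q.2) h4 (by fun_prop)
  have hnn : ∀ v ∈ Ioo w b, 0 ≤ (v - w) ^ k / (k.factorial : ℝ) := by
    intro v hv
    have : 0 ≤ v - w := by linarith [hv.1]
    positivity
  have hnn' : ∀ v ∈ Ioo w b, 0 ≤ Hk k (b - v) a := fun v hv =>
    Hk_nonneg k (by linarith [hv.2]) ha.le
  have h5 : ∫⁻ v in Ioo w b, ENNReal.ofReal ((v - w) ^ k / (k.factorial : ℝ)) *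
      ENNReal.ofReal (Hk k (b - v) a) = ENNReal.ofReal ((b - w) ^ k * (√(b - w + a) - √a)) := by
    rw [← h2, intervalIntegral.integral_of_le hwb.le, integral_Ioc_eq_integral_Ioo]
    rw [ofReal_integral_eq_lintegral_ofReal]
    · apply setLIntegral_congr_fun measurableSet_Ioo
      intro v hv
      exact (ENNReal.ofReal_mul (hnn v hv)).symm
    · exact (hcont.integrableOn_Icc).mono_set Ioo_subset_Icc_self
    · rw [EventuallyLE, ae_restrict_iff' measurableSet_Ioo]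
      exact Eventually.of_forall fun v hv => mul_nonneg (hnn v hv) (hnn' v hv)
  have h6 : √a ≤ √(b - w + a) := Real.sqrt_le_sqrt (by linarith)
  rw [h5, ← ENNReal.ofReal_add (by positivity)
    (mul_nonneg (by positivity) (sub_nonneg.2 h6))]
  congr 1
  ring

private lemma ton_Zmeas (A B v : ℝ) (P : ℝ → ℝ) (hP : Measurable P) :
    MeasurableSet {z | z ∈ Ioo A B ∧ v < P z} :=
  measurableSet_Ioo.inter (measurableSet_lt measurable_const hP)

private lemma ton_swap (k : ℕ) (P D : ℝ → ℝ) (hP : Measurable P) (hD : Measurable D)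
    (A B w M : ℝ) (hM : ∀ z ∈ Ioo A B, P z ≤ M) :
    ∫⁻ z in {z | z ∈ Ioo A B ∧ w < P z}, ∫⁻ v in Ioo w (P z),
      ENNReal.ofReal ((v - w) ^ k / (k.factorial : ℝ)) *
        ENNReal.ofReal (Hk k (P z - v) ((D z) ^ 2 / 4)) =
    ∫⁻ v in Ioo w M, ENNReal.ofReal ((v - w) ^ k / (k.factorial : ℝ)) *
        ∫⁻ z in {z | z ∈ Ioo A B ∧ v < P z}, ENNReal.ofReal (Hk k (P z - v) ((D z) ^ 2 / 4)) := by
  classical
  obtain ⟨F, hF⟩ : ∃ F : ℝ → ℝ → ENNReal, F = fun z v =>
      ENNReal.ofReal ((v - w) ^ k / (k.factorial : ℝ)) *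
        ENNReal.ofReal (Hk k (P z - v) ((D z) ^ 2 / 4)) := ⟨_, rfl⟩
  obtain ⟨G, hG⟩ : ∃ G : ℝ → ℝ → ENNReal, G = fun z v =>
      {q : ℝ × ℝ | q.1 ∈ Ioo A B ∧ w < q.2 ∧ q.2 < P q.1}.indicator
        (fun q => F q.1 q.2) (z, v) := ⟨_, rfl⟩
  have hFm : Measurable (fun q : ℝ × ℝ => F q.1 q.2) := by
    rw [hF]
    have h1 : Measurable (fun q : ℝ × ℝ => ENNReal.ofReal ((q.2 - w) ^ k / (k.factorial : ℝ))) := by
      fun_prop
    have h2 : Measurable (fun q : ℝ × ℝ => ENNReal.ofReal (Hk k (P q.1 - q.2) ((D q.1) ^ 2 / 4))) := by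
      apply Measurable.ennreal_ofReal
      exact (Hk_measurable k).comp (f := fun q : ℝ × ℝ => ((P q.1 - q.2, (D q.1) ^ 2 / 4) : ℝ × ℝ))
        (by fun_prop)
    exact h1.mul h2
  have hS : MeasurableSet {q : ℝ × ℝ | q.1 ∈ Ioo A B ∧ w < q.2 ∧ q.2 < P q.1} := by
    refine (measurable_fst measurableSet_Ioo).inter (MeasurableSet.inter ?_ ?_)
    · exact measurableSet_lt measurable_const measurable_snd
    · exact measurableSet_lt measurable_snd (hP.comp measurable_fst)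
  have hGm : Measurable (Function.uncurry G) := by
    have h1 : Function.uncurry G = {q : ℝ × ℝ | q.1 ∈ Ioo A B ∧ w < q.2 ∧ q.2 < P q.1}.indicator
        (fun q => F q.1 q.2) := by
      funext q
      rw [hG]
      rfl
    rw [h1]
    exact hFm.indicator hS
  have hGin : ∀ z v, z ∈ Ioo A B → w < v → v < P z → G z v = F z v := by
    intro z v h1 h2 h3
    rw [hG]
    exact Set.indicator_of_mem (s := {q : ℝ × ℝ | q.1 ∈ Ioo A B ∧ w < q.2 ∧ q.2 < P q.1})
      (show ((z, v) : ℝ × ℝ) ∈ _ from ⟨h1, h2, h3⟩) _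
  have hGout : ∀ z v, ¬ (z ∈ Ioo A B ∧ w < v ∧ v < P z) → G z v = 0 := by
    intro z v h1
    rw [hG]
    exact Set.indicator_of_notMem (s := {q : ℝ × ℝ | q.1 ∈ Ioo A B ∧ w < q.2 ∧ q.2 < P q.1})
      (show ((z, v) : ℝ × ℝ) ∉ _ from h1) _
  have hL : ∫⁻ z in {z | z ∈ Ioo A B ∧ w < P z}, ∫⁻ v in Ioo w (P z), F z v =
      ∫⁻ z, ∫⁻ v, G z v := by
    rw [← lintegral_indicator (ton_Zmeas A B w P hP)]
    apply lintegral_congr
    intro z
    by_cases hz : z ∈ {z | z ∈ Ioo A B ∧ w < P z}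
    · rw [Set.indicator_of_mem hz, ← lintegral_indicator measurableSet_Ioo]
      apply lintegral_congr
      intro v
      by_cases hv : v ∈ Ioo w (P z)
      · rw [Set.indicator_of_mem hv, hGin z v hz.1 hv.1 hv.2]
      · rw [Set.indicator_of_notMem hv, hGout z v (fun h => hv ⟨h.2.1, h.2.2⟩)]
    · rw [Set.indicator_of_notMem hz]
      symm
      rw [lintegral_eq_zero_iff (by exact hGm.comp (measurable_const.prodMk measurable_id))]
      apply Eventually.of_forall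
      intro v
      exact hGout z v (fun h => hz ⟨h.1, h.2.1.trans h.2.2⟩)
  have hR : ∫⁻ v in Ioo w M, ENNReal.ofReal ((v - w) ^ k / (k.factorial : ℝ)) *
        ∫⁻ z in {z | z ∈ Ioo A B ∧ v < P z}, ENNReal.ofReal (Hk k (P z - v) ((D z) ^ 2 / 4)) =
      ∫⁻ v, ∫⁻ z, G z v := by
    rw [← lintegral_indicator measurableSet_Ioo]
    apply lintegral_congr
    intro v
    by_cases hv : v ∈ Ioo w M
    · rw [Set.indicator_of_mem hv, ← lintegral_const_mul' _ _ ENNReal.ofReal_ne_top,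
        ← lintegral_indicator (ton_Zmeas A B v P hP)]
      apply lintegral_congr
      intro z
      by_cases hz : z ∈ {z | z ∈ Ioo A B ∧ v < P z}
      · rw [Set.indicator_of_mem hz, hGin z v hz.1 hv.1 hz.2, hF]
      · rw [Set.indicator_of_notMem hz, hGout z v (fun h => hz ⟨h.1, h.2.2⟩)]
    · rw [Set.indicator_of_notMem hv]
      symm
      rw [lintegral_eq_zero_iff (by exact hGm.comp (measurable_id.prodMk measurable_const))]
      apply Eventually.of_forall
      intro z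
      exact hGout z v (fun h => hv ⟨h.2.1, h.2.2.trans_le (hM z h.1)⟩)
  have h1 : ∫⁻ z in {z | z ∈ Ioo A B ∧ w < P z}, ∫⁻ v in Ioo w (P z),
      ENNReal.ofReal ((v - w) ^ k / (k.factorial : ℝ)) *
        ENNReal.ofReal (Hk k (P z - v) ((D z) ^ 2 / 4)) =
      ∫⁻ z in {z | z ∈ Ioo A B ∧ w < P z}, ∫⁻ v in Ioo w (P z), F z v := by
    rw [hF]
  rw [h1, hL, hR]
  exact lintegral_lintegral_swap hGm.aemeasurable

private lemma ton_first (k : ℕ) (p : ℝ → ℝ) (A B z₀ : ℝ) (hz₀ : z₀ ∈ Ioo A B)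
    (hc : ContinuousOn p (Icc A B)) (hd : ∀ z ∈ Ioo A B, DifferentiableAt ℝ p z)
    (hpos : ∀ z ∈ Ioo A z₀, 0 < deriv p z)
    (hneg : ∀ z ∈ Ioo z₀ B, deriv p z < 0) (hA : p A = 0) (hB : p B = 0)
    (hmono : StrictMonoOn p (Icc A z₀)) (hanti : StrictAntiOn p (Icc z₀ B))
    (w : ℝ) (hw : 0 < w) (hwM : w < p z₀) :
    ∫⁻ z in {z | z ∈ Ioo A B ∧ w < p z}, ENNReal.ofReal (|deriv p z| / 2 * (p z - w) ^ k) =
      ENNReal.ofReal ((p z₀ - w) ^ (k + 1) / (k + 1)) := by
  obtain ⟨zm, hzm, hpm⟩ := intermediate_value_Ioo hz₀.1.le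
    (hc.mono (Icc_subset_Icc_right hz₀.2.le)) (show w ∈ Ioo (p A) (p z₀) from ⟨by rw [hA]; exact hw, hwM⟩)
  obtain ⟨zp, hzp, hpp⟩ := intermediate_value_Ioo' hz₀.2.le
    (hc.mono (Icc_subset_Icc_left hz₀.1.le)) (show w ∈ Ioo (p B) (p z₀) from ⟨by rw [hB]; exact hw, hwM⟩)
  have hset : {z | z ∈ Ioo A B ∧ w < p z} = Ioo zm z₀ ∪ Ico z₀ zp := by
    ext z
    simp only [Set.mem_ofPred_eq, Set.mem_union]
    constructor
    · rintro ⟨hz, hwz⟩
      rcases lt_or_ge z z₀ with h | h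
      · left
        refine ⟨?_, h⟩
        by_contra hle
        push Not at hle
        have h1 := hmono.monotoneOn ⟨hz.1.le, h.le⟩ ⟨hzm.1.le, hzm.2.le⟩ hle
        rw [hpm] at h1
        linarith
      · right
        refine ⟨h, ?_⟩
        by_contra hle
        push Not at hle
        have h1 := hanti.antitoneOn ⟨hzp.1.le, hzp.2.le⟩ ⟨h, hz.2.le⟩ hle
        rw [hpp] at h1
        linarith
    · rintro (h | h)
      · refine ⟨⟨hzm.1.trans h.1, h.2.trans hz₀.2⟩, ?_⟩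
        rw [← hpm]
        exact hmono ⟨hzm.1.le, hzm.2.le⟩ ⟨(hzm.1.trans h.1).le, h.2.le⟩ h.1
      · refine ⟨⟨hz₀.1.trans_le h.1, h.2.trans hzp.2⟩, ?_⟩
        rw [← hpp]
        exact hanti ⟨h.1, (h.2.trans hzp.2).le⟩ ⟨hzp.1.le, hzp.2.le⟩ h.2
  have hk : (0 : ℝ) < k + 1 := by positivity
  have hleft : ∫⁻ z in Ioo zm z₀, ENNReal.ofReal (|deriv p z| / 2 * (p z - w) ^ k) =
      ENNReal.ofReal ((p z₀ - w) ^ (k + 1) / (2 * (k + 1))) := by
    have h1 : ∫⁻ z in Ioo zm z₀, ENNReal.ofReal (|deriv p z| / 2 * (p z - w) ^ k) =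
        ∫⁻ z in Ioo zm z₀, ENNReal.ofReal (deriv p z / 2 * (p z - w) ^ k) := by
      apply setLIntegral_congr_fun measurableSet_Ioo
      intro z hz
      simp only
      rw [abs_of_pos (hpos z ⟨hzm.1.trans hz.1, hz.2⟩)]
    rw [h1, ton_half zm z₀ hzm.2.le (fun z => (p z - w) ^ (k + 1) / (2 * (k + 1)))
      (fun z => deriv p z / 2 * (p z - w) ^ k)]
    · rw [hpm, sub_self, zero_pow (Nat.succ_ne_zero k), zero_div, sub_zero]
    · have h2 : ContinuousOn p (Icc zm z₀) := hc.mono (Icc_subset_Icc hzm.1.le hz₀.2.le)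
      fun_prop
    · intro z hz
      have h2 : HasDerivAt p (deriv p z) z :=
        (hd z ⟨hzm.1.trans hz.1, hz.2.trans hz₀.2⟩).hasDerivAt
      have h3 := ((h2.sub_const w).pow (k + 1)).div_const (2 * ((k : ℝ) + 1))
      refine h3.congr_deriv ?_
      push_cast
      field_simp
    · intro z hz
      have h2 := hpos z ⟨hzm.1.trans hz.1, hz.2⟩
      have h3 : 0 ≤ p z - w := by
        have := hmono ⟨hzm.1.le, hzm.2.le⟩ ⟨(hzm.1.trans hz.1).le, hz.2.le⟩ hz.1
        rw [hpm] at this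
        linarith
      positivity
  have hright : ∫⁻ z in Ico z₀ zp, ENNReal.ofReal (|deriv p z| / 2 * (p z - w) ^ k) =
      ENNReal.ofReal ((p z₀ - w) ^ (k + 1) / (2 * (k + 1))) := by
    have h0 : ∫⁻ z in Ico z₀ zp, ENNReal.ofReal (|deriv p z| / 2 * (p z - w) ^ k) =
        ∫⁻ z in Ioo z₀ zp, ENNReal.ofReal (|deriv p z| / 2 * (p z - w) ^ k) :=
      setLIntegral_congr Ioo_ae_eq_Ico.symm
    have h1 : ∫⁻ z in Ioo z₀ zp, ENNReal.ofReal (|deriv p z| / 2 * (p z - w) ^ k) =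
        ∫⁻ z in Ioo z₀ zp, ENNReal.ofReal (-deriv p z / 2 * (p z - w) ^ k) := by
      apply setLIntegral_congr_fun measurableSet_Ioo
      intro z hz
      simp only
      rw [abs_of_neg (hneg z ⟨hz.1, hz.2.trans hzp.2⟩)]
    rw [h0, h1, ton_half z₀ zp hzp.1.le (fun z => -((p z - w) ^ (k + 1) / (2 * (k + 1))))
      (fun z => -deriv p z / 2 * (p z - w) ^ k)]
    · rw [hpp, sub_self, zero_pow (Nat.succ_ne_zero k), zero_div, neg_zero, sub_neg_eq_add, zero_add]
    · have h2 : ContinuousOn p (Icc z₀ zp) := hc.mono (Icc_subset_Icc hz₀.1.le hzp.2.le)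
      fun_prop
    · intro z hz
      have h2 : HasDerivAt p (deriv p z) z :=
        (hd z ⟨hz₀.1.trans hz.1, hz.2.trans hzp.2⟩).hasDerivAt
      have h3 := (((h2.sub_const w).pow (k + 1)).div_const (2 * ((k : ℝ) + 1))).neg
      refine h3.congr_deriv ?_
      push_cast
      field_simp
    · intro z hz
      have h2 := hneg z ⟨hz.1, hz.2.trans hzp.2⟩
      have h3 : 0 ≤ p z - w := by
        have := hanti ⟨hz.1.le, (hz.2.trans hzp.2).le⟩ ⟨hzp.1.le, hzp.2.le⟩ hz.2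
        rw [hpp] at this
        linarith
      have h4 : 0 ≤ -deriv p z := by linarith
      positivity
  rw [hset, lintegral_union measurableSet_Ico, hleft, hright, ← ENNReal.ofReal_add]
  · congr 1
    field_simp
    ring
  · have : 0 ≤ p z₀ - w := by linarith
    positivity
  · have : 0 ≤ p z₀ - w := by linarith
    positivity
  · rw [Set.disjoint_left]
    intro z h1 h2
    exact absurd h1.2 (not_lt.2 h2.1)

theorem tonelli (k : ℕ) (p : ℝ → ℝ) (A B z₀ : ℝ) (hz₀ : z₀ ∈ Ioo A B)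
    (hc : ContinuousOn p (Icc A B)) (hd : ∀ z ∈ Ioo A B, DifferentiableAt ℝ p z)
    (hdc : ContinuousOn (deriv p) (Ioo A B)) (hpos : ∀ z ∈ Ioo A z₀, 0 < deriv p z)
    (hneg : ∀ z ∈ Ioo z₀ B, deriv p z < 0) (hA : p A = 0) (hB : p B = 0)
    (w : ℝ) (hw : 0 < w) (hwM : w < p z₀) :
    ∫⁻ z in {z | z ∈ Ioo A B ∧ w < p z},
      ENNReal.ofReal ((p z - w) ^ k * √(p z - w + (deriv p z) ^ 2 / 4)) =
    ENNReal.ofReal ((p z₀ - w) ^ (k + 1) / (k + 1)) +
      ∫⁻ v in Ioo w (p z₀), ENNReal.ofReal ((v - w) ^ k / (k.factorial : ℝ)) *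
        ∫⁻ z in {z | z ∈ Ioo A B ∧ v < p z},
          ENNReal.ofReal (Hk k (p z - v) ((deriv p z) ^ 2 / 4)) := by
  classical
  have hmono : StrictMonoOn p (Icc A z₀) := by
    apply strictMonoOn_of_deriv_pos (convex_Icc _ _) (hc.mono (Icc_subset_Icc_right hz₀.2.le))
    intro x hx
    rw [interior_Icc] at hx
    exact hpos x hx
  have hanti : StrictAntiOn p (Icc z₀ B) := by
    apply strictAntiOn_of_deriv_neg (convex_Icc _ _) (hc.mono (Icc_subset_Icc_left hz₀.1.le))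
    intro x hx
    rw [interior_Icc] at hx
    exact hneg x hx
  have hM : ∀ z ∈ Ioo A B, p z ≤ p z₀ := by
    intro z hz
    rcases le_total z z₀ with h | h
    · exact hmono.monotoneOn ⟨hz.1.le, h⟩ ⟨hz₀.1.le, le_rfl⟩ h
    · exact hanti.antitoneOn ⟨le_rfl, hz₀.2.le⟩ ⟨h, hz.2.le⟩ h
  obtain ⟨P, hPm, hP⟩ : ∃ P : ℝ → ℝ, Measurable P ∧ ∀ z ∈ Ioo A B, P z = p z :=
    ⟨(Ioo A B).piecewise p (fun _ => 0), ContinuousOn.measurable_piecewise
      (hc.mono Ioo_subset_Icc_self) continuousOn_const measurableSet_Ioo,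
      fun z hz => Set.piecewise_eq_of_mem _ _ _ hz⟩
  obtain ⟨D, hDm, hD⟩ : ∃ D : ℝ → ℝ, Measurable D ∧ ∀ z ∈ Ioo A B, D z = deriv p z :=
    ⟨(Ioo A B).piecewise (deriv p) (fun _ => 0), ContinuousOn.measurable_piecewise
      hdc continuousOn_const measurableSet_Ioo,
      fun z hz => Set.piecewise_eq_of_mem _ _ _ hz⟩
  have hZ : ∀ v : ℝ, {z | z ∈ Ioo A B ∧ v < p z} = {z | z ∈ Ioo A B ∧ v < P z} := by
    intro v
    ext z
    simp only [Set.mem_ofPred_eq]
    constructor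
    · rintro ⟨h1, h2⟩
      exact ⟨h1, by rw [hP z h1]; exact h2⟩
    · rintro ⟨h1, h2⟩
      exact ⟨h1, by rw [hP z h1] at h2; exact h2⟩
  have hZm : ∀ v : ℝ, MeasurableSet {z | z ∈ Ioo A B ∧ v < p z} := by
    intro v
    rw [hZ]
    exact ton_Zmeas A B v P hPm
  have hswap := ton_swap k P D hPm hDm A B w (p z₀) (fun z hz => by rw [hP z hz]; exact hM z hz)
  have hfirst := ton_first k p A B z₀ hz₀ hc hd hpos hneg hA hB hmono hanti w hw hwM
  -- pointwise identity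
  have hpt : ∫⁻ z in {z | z ∈ Ioo A B ∧ w < p z},
      ENNReal.ofReal ((p z - w) ^ k * √(p z - w + (deriv p z) ^ 2 / 4)) =
      ∫⁻ z in {z | z ∈ Ioo A B ∧ w < p z}, (ENNReal.ofReal (|D z| / 2 * (P z - w) ^ k) +
        ∫⁻ v in Ioo w (P z), ENNReal.ofReal ((v - w) ^ k / (k.factorial : ℝ)) *
          ENNReal.ofReal (Hk k (P z - v) ((D z) ^ 2 / 4))) := by
    apply setLIntegral_congr_fun_ae (hZm w)
    have hne : ∀ᵐ z : ℝ, z ≠ z₀ := by
      rw [ae_iff]
      simp
    filter_upwards [hne] with z hzne hz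
    have hd0 : deriv p z ≠ 0 := by
      rcases lt_or_gt_of_ne hzne with h | h
      · exact (hpos z ⟨hz.1.1, h⟩).ne'
      · exact (hneg z ⟨h, hz.1.2⟩).ne
    have ha : 0 < (deriv p z) ^ 2 / 4 := by positivity
    have hsq : √((deriv p z) ^ 2 / 4) = |deriv p z| / 2 := by
      have h1 : (deriv p z) ^ 2 / 4 = (|deriv p z| / 2) ^ 2 := by
        rw [div_pow, sq_abs]
        norm_num
      rw [h1, Real.sqrt_sq (by positivity)]
    have h2 := ton_pt k ha hz.2
    rw [hsq] at h2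
    rw [h2, hP z hz.1, hD z hz.1]
  rw [hpt, lintegral_add_left (by fun_prop)]
  congr 1
  · rw [← hfirst]
    apply setLIntegral_congr_fun (hZm w)
    intro z hz
    simp only
    rw [hP z hz.1, hD z hz.1]
  · rw [hZ w, hswap]
    apply lintegral_congr
    intro v
    congr 1
    rw [← hZ v]
    apply setLIntegral_congr_fun (hZm v)
    intro z hz
    simp only
    rw [hP z hz.1, hD z hz.1]

end Pool.Agent.MP_c8a077_gt
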