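import Pool.Agent.Lib.MP_c8a077_gt.F2
import Pool.Agent.Lib.MP_c8a077_gt.Ton
import Pool.Agent.Lib.MP_c8a077_gt.Ext

/-!
# JOB F3: the regular case: `R` is constant

PROOF.  Suppose `R.natDegree ≠ 0`.  Let `p = pR k A B R`, `M = p z₀ > 0`.  `side_right` gives `Φ₊`.
Apply `side_right` to the reflected data `-B, -A, -z₀, R.comp (-X)` (`pR_reflect`, `dpoly_reflect`) and
change variables `z ↦ -z` to get `Φ₋` with
`∫⁻_{z ∈ (A,z₀], w < p z} ofReal (Hk …) = ofReal (Φ₋ w)` for `0 < w < M` (the derivative of `z ↦ p(-z)` at `-z`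
is `-p'(z)`, the square is the same).  So for `0 < w < M`
`∫⁻_{z ∈ (A,B), w < p z} ofReal(Hk …) = ofReal (Φ₊ w + Φ₋ w)` (the point `z₀` is null).
`tonelli` (hypotheses from `pR_analytic`, `pR_deriv`, `p A = p B = 0`), `hT` and `poly_extract`, with
`Φ = Φ₊ + Φ₋`, give a polynomial `T'` with `Φ₊ w + Φ₋ w = T'(w)` on `(0,M)`.
Cases.  (a) at least one side has a critical value `wc < 0`; let `w*` be the larger of the (one or two)
critical values.  `Φ₊ + Φ₋` is analytic on `(w*, M)`, an interval containing `(0,M)`, so it equals `T'` on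
`(w*,M)` (`AnalyticOnNhd.eqOn_of_preconnected_of_eventuallyEq`).  As `w → w*⁺` one summand tends to `∞`,
the other is positive, but `T'` is continuous at `w*`: contradiction.
(b) both sides are of the second kind: `Φ₊ + Φ₋ = T'` on `(-∞,M)` and `T'(w) → 0` as `w → -∞`, so `T' = 0`
(a polynomial with a finite limit at `-∞` is constant; use `T'.comp (-X)` and
`Polynomial.tendsto_nhds_iff`), contradicting positivity.
-/

open MeasureTheory Set Metric Topology Filter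

namespace Pool.Agent.MP_c8a077_gt

theorem analyticAt_poly_f3 (T : Polynomial ℝ) (w : ℝ) : AnalyticAt ℝ (fun x => T.eval x) w :=
  AnalyticOnNhd.eval_polynomial T w (mem_univ _)

/-- Analytic continuation from `(0,M)` to `(a,M)`. -/
theorem continuation_f3 (M : ℝ) (hM : 0 < M) (S : Set ℝ) (hS : IsPreconnected S)
    (hSM : Ioo 0 M ⊆ S) (Φ : ℝ → ℝ) (hΦ : ∀ w ∈ S, AnalyticAt ℝ Φ w) (T : Polynomial ℝ)
    (h : ∀ w ∈ Ioo 0 M, Φ w = T.eval w) : ∀ w ∈ S, Φ w = T.eval w := by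
  have h1 : AnalyticOnNhd ℝ Φ S := fun w hw => hΦ w hw
  have h2 : AnalyticOnNhd ℝ (fun x => T.eval x) S := fun w _ => analyticAt_poly_f3 T w
  have hmid : M / 2 ∈ Ioo 0 M := ⟨by linarith, by linarith⟩
  have h3 : Φ =ᶠ[𝓝 (M / 2)] (fun x => T.eval x) := by
    filter_upwards [Ioo_mem_nhds hmid.1 hmid.2] with w hw using h w hw
  exact h1.eqOn_of_preconnected_of_eventuallyEq h2 hS (hSM hmid) h3

theorem blow_f3 (M : ℝ) (hM : 0 < M) (Φ₁ Φ₂ : ℝ → ℝ) (wc : ℝ) (hwc : wc < 0)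
    (h1 : ∀ w ∈ Ioo wc M, AnalyticAt ℝ Φ₁ w ∧ 0 < Φ₁ w) (ht : Tendsto Φ₁ (𝓝[>] wc) atTop)
    (h2 : ∀ w ∈ Ioo wc M, AnalyticAt ℝ Φ₂ w ∧ 0 < Φ₂ w) (T : Polynomial ℝ)
    (h : ∀ w ∈ Ioo 0 M, Φ₁ w + Φ₂ w = T.eval w) : False := by
  have hE : ∀ w ∈ Ioo wc M, Φ₁ w + Φ₂ w = T.eval w :=
    continuation_f3 M hM (Ioo wc M) isPreconnected_Ioo (Ioo_subset_Ioo_left hwc.le)
      (fun w => Φ₁ w + Φ₂ w) (fun w hw => (h1 w hw).1.add (h2 w hw).1) T h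
  have hev : ∀ᶠ w in 𝓝[>] wc, w ∈ Ioo wc M := Ioo_mem_nhdsGT (by linarith)
  have hT1 : Tendsto (fun w => T.eval w) (𝓝[>] wc) atTop := by
    refine tendsto_atTop_mono' _ ?_ ht
    filter_upwards [hev] with w hw
    rw [← hE w hw]
    linarith [(h2 w hw).2]
  have hT2 : Tendsto (fun w => T.eval w) (𝓝[>] wc) (𝓝 (T.eval wc)) :=
    (T.continuous.tendsto wc).mono_left nhdsWithin_le_nhds
  exact not_tendsto_nhds_of_tendsto_atTop hT1 _ hT2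

theorem decay_f3 (M : ℝ) (hM : 0 < M) (Φ₁ Φ₂ : ℝ → ℝ)
    (h1 : ∀ w ∈ Iio M, AnalyticAt ℝ Φ₁ w ∧ 0 < Φ₁ w) (ht1 : Tendsto Φ₁ atBot (𝓝 0))
    (h2 : ∀ w ∈ Iio M, AnalyticAt ℝ Φ₂ w ∧ 0 < Φ₂ w) (ht2 : Tendsto Φ₂ atBot (𝓝 0))
    (T : Polynomial ℝ) (h : ∀ w ∈ Ioo 0 M, Φ₁ w + Φ₂ w = T.eval w) : False := by
  have hE : ∀ w ∈ Iio M, Φ₁ w + Φ₂ w = T.eval w :=
    continuation_f3 M hM (Iio M) isPreconnected_Iio (fun w hw => hw.2)
      (fun w => Φ₁ w + Φ₂ w) (fun w hw => (h1 w hw).1.add (h2 w hw).1) T h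
  have ht : Tendsto (fun w => T.eval w) atBot (𝓝 0) := by
    have h3 : Tendsto (fun w => Φ₁ w + Φ₂ w) atBot (𝓝 (0 + 0)) := ht1.add ht2
    rw [add_zero] at h3
    refine h3.congr' ?_
    filter_upwards [Iio_mem_atBot M] with w hw using hE w hw
  have ht' : Tendsto (fun w => (T.comp (-Polynomial.X)).eval w) atTop (𝓝 0) := by
    have h4 : Tendsto (fun w : ℝ => T.eval (-w)) atTop (𝓝 0) := ht.comp tendsto_neg_atTop_atBot
    refine h4.congr (fun w => ?_)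
    simp [Polynomial.eval_comp]
  rw [Polynomial.tendsto_nhds_iff] at ht'
  have h0 : T.comp (-Polynomial.X) = 0 := Polynomial.leadingCoeff_eq_zero.1 ht'.1
  have hmid : M / 2 ∈ Ioo 0 M := ⟨by linarith, by linarith⟩
  have h5 : T.eval (M / 2) = 0 := by
    have h6 : (T.comp (-Polynomial.X)).eval (-(M / 2)) = 0 := by rw [h0]; simp
    rw [Polynomial.eval_comp] at h6
    simpa using h6
  have h7 := h _ hmid
  rw [h5] at h7
  linarith [(h1 _ hmid.2).2, (h2 _ hmid.2).2]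

/-- The two alternatives for one side. -/
def AltF3 (M : ℝ) (Φ : ℝ → ℝ) : Prop :=
  (∃ wc < 0, (∀ w ∈ Ioo wc M, AnalyticAt ℝ Φ w ∧ 0 < Φ w) ∧ Tendsto Φ (𝓝[>] wc) atTop) ∨
    ((∀ w ∈ Iio M, AnalyticAt ℝ Φ w ∧ 0 < Φ w) ∧ Tendsto Φ atBot (𝓝 0))

theorem AltF3.basic {M : ℝ} {Φ : ℝ → ℝ} (h : AltF3 M Φ) :
    ∀ w ∈ Ioo 0 M, AnalyticAt ℝ Φ w ∧ 0 < Φ w := by
  intro w hw
  rcases h with ⟨wc, hwc, h1, -⟩ | ⟨h1, -⟩
  · exact h1 w ⟨hwc.trans hw.1, hw.2⟩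
  · exact h1 w hw.2

theorem final_f3 (M : ℝ) (hM : 0 < M) (Φ₁ Φ₂ : ℝ → ℝ) (h1 : AltF3 M Φ₁) (h2 : AltF3 M Φ₂)
    (T : Polynomial ℝ) (h : ∀ w ∈ Ioo 0 M, Φ₁ w + Φ₂ w = T.eval w) : False := by
  have h' : ∀ w ∈ Ioo 0 M, Φ₂ w + Φ₁ w = T.eval w := fun w hw => by rw [add_comm]; exact h w hw
  rcases h1 with ⟨w1, hw1, a1, t1⟩ | ⟨a1, t1⟩
  · rcases h2 with ⟨w2, hw2, a2, t2⟩ | ⟨a2, t2⟩
    · rcases le_total w2 w1 with hle | hle
      · exact blow_f3 M hM Φ₁ Φ₂ w1 hw1 a1 t1 (fun w hw => a2 w ⟨hle.trans_lt hw.1, hw.2⟩) T h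
      · exact blow_f3 M hM Φ₂ Φ₁ w2 hw2 a2 t2 (fun w hw => a1 w ⟨hle.trans_lt hw.1, hw.2⟩) T h'
    · exact blow_f3 M hM Φ₁ Φ₂ w1 hw1 a1 t1 (fun w hw => a2 w hw.2) T h
  · rcases h2 with ⟨w2, hw2, a2, t2⟩ | ⟨a2, t2⟩
    · exact blow_f3 M hM Φ₂ Φ₁ w2 hw2 a2 t2 (fun w hw => a1 w hw.2) T h'
    · exact decay_f3 M hM Φ₁ Φ₂ a1 t1 a2 t2 T h

/-- The left side, by reflection. -/
theorem side_left_f3 (k : ℕ) (A B z₀ : ℝ) (R : Polynomial ℝ) (hA : A < z₀) (hB : z₀ < B)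
    (hR : ∀ z ∈ Icc A B, 0 < R.eval z)
    (hpos : ∀ z ∈ Ico A z₀, 0 < (dpoly k A B R).eval z) (hdeg : R.natDegree ≠ 0) :
    ∃ Φ : ℝ → ℝ,
      (∀ w ∈ Ioo 0 (pR k A B R z₀),
        ∫⁻ z in {z | z ∈ Ioc A z₀ ∧ w < pR k A B R z},
          ENNReal.ofReal (Hk k (pR k A B R z - w) ((deriv (pR k A B R) z) ^ 2 / 4)) =
        ENNReal.ofReal (Φ w)) ∧ AltF3 (pR k A B R z₀) Φ := by
  have hdeg' : (R.comp (-Polynomial.X)).natDegree ≠ 0 := by
    rw [Polynomial.natDegree_comp]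
    simpa using hdeg
  have hD' : ∀ z ∈ Ioc (-z₀) (-A),
      (dpoly k (-B) (-A) (R.comp (-Polynomial.X))).eval z < 0 := by
    intro z hz
    have h1 := dpoly_reflect k A B R (-z)
    rw [neg_neg] at h1
    rw [h1]
    have h2 := hpos (-z) ⟨by linarith [hz.2], by linarith [hz.1]⟩
    linarith
  have hR' : ∀ z ∈ Icc (-z₀) (-A), 0 < (R.comp (-Polynomial.X)).eval z := by
    intro z hz
    rw [Polynomial.eval_comp]
    have h2 := hR (-z) ⟨by linarith [hz.2], by linarith [hz.1]⟩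
    simpa using h2
  obtain ⟨Φ, h1, h2⟩ := side_right k (-B) (-A) (-z₀) (R.comp (-Polynomial.X)) (by linarith)
    (by linarith) hR' hD' hdeg'
  rw [pR_reflect] at h1 h2
  refine ⟨Φ, fun w hw => ?_, h2⟩
  rw [← h1 w hw]
  have hfun : pR k (-B) (-A) (R.comp (-Polynomial.X)) = fun z => pR k A B R (-z) := by
    funext z
    have := pR_reflect k A B R (-z)
    rw [neg_neg] at this
    exact this
  rw [hfun]
  have hder : ∀ z, deriv (fun z => pR k A B R (-z)) z = -deriv (pR k A B R) (-z) := fun z =>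
    deriv_comp_neg (pR k A B R) z
  have hmp : MeasurePreserving (fun z : ℝ => -z) volume volume :=
    Measure.measurePreserving_neg volume
  have hme : MeasurableEmbedding (fun z : ℝ => -z) := (MeasurableEquiv.neg ℝ).measurableEmbedding
  have key := hmp.setLIntegral_comp_preimage_emb hme
    (fun z => ENNReal.ofReal (Hk k (pR k A B R z - w) ((deriv (pR k A B R) z) ^ 2 / 4)))
    {z | z ∈ Ioc A z₀ ∧ w < pR k A B R z}
  rw [← key]
  have hset : (fun z : ℝ => -z) ⁻¹' {z | z ∈ Ioc A z₀ ∧ w < pR k A B R z} =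
      {z | z ∈ Ico (-z₀) (-A) ∧ w < pR k A B R (-z)} := by
    ext z
    simp only [mem_preimage, mem_ofPred_eq, mem_Ioc, mem_Ico]
    constructor
    · rintro ⟨⟨a, b⟩, c⟩
      exact ⟨⟨by linarith, by linarith⟩, c⟩
    · rintro ⟨⟨a, b⟩, c⟩
      exact ⟨⟨by linarith, by linarith⟩, c⟩
  rw [hset]
  congr 1
  funext z
  rw [hder, neg_sq]

theorem core_regular (k : ℕ) (A B z₀ : ℝ) (R : Polynomial ℝ) (hA : A < z₀) (hB : z₀ < B)
    (hR : ∀ z ∈ Icc A B, 0 < R.eval z)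
    (hpos : ∀ z ∈ Ico A z₀, 0 < (dpoly k A B R).eval z)
    (hneg : ∀ z ∈ Ioc z₀ B, (dpoly k A B R).eval z < 0) (T : Polynomial ℝ)
    (hT : ∀ w ∈ Ioo 0 (pR k A B R z₀),
      ∫⁻ z in {z | z ∈ Ioo A B ∧ w < pR k A B R z},
        ENNReal.ofReal ((pR k A B R z - w) ^ k *
          √(pR k A B R z - w + (deriv (pR k A B R) z) ^ 2 / 4)) =
      ENNReal.ofReal (T.eval w)) :
    R.natDegree = 0 := by
  by_contra hdeg
  obtain ⟨Φ₁, hi1, halt1⟩ := side_right k A B z₀ R hA hB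
    (fun z hz => hR z ⟨hA.le.trans hz.1, hz.2⟩) hneg hdeg
  obtain ⟨Φ₂, hi2, halt2⟩ := side_left_f3 k A B z₀ R hA hB hR hpos hdeg
  set p := pR k A B R with hp
  have halt1' : AltF3 (p z₀) Φ₁ := halt1
  have hRz : ∀ z ∈ Icc A B, 0 < (R.eval z) ^ ((1 : ℝ) / (k + 1)) := fun z hz =>
    Real.rpow_pos_of_pos (hR z hz) _
  have hM : 0 < p z₀ := by
    have h1 := hRz z₀ ⟨hA.le, hB.le⟩
    have h2 : 0 < z₀ - A := by linarith
    have h3 : 0 < B - z₀ := by linarith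
    have : p z₀ = (z₀ - A) * (B - z₀) * (R.eval z₀) ^ ((1 : ℝ) / (k + 1)) := rfl
    rw [this]
    positivity
  have hpA : p A = 0 := by simp [hp, pR]
  have hpB : p B = 0 := by simp [hp, pR]
  -- combination of the two sides
  have hcomb : ∀ w ∈ Ioo 0 (p z₀), ∫⁻ z in {z | z ∈ Ioo A B ∧ w < p z},
      ENNReal.ofReal (Hk k (p z - w) ((deriv p z) ^ 2 / 4)) =
      ENNReal.ofReal (Φ₁ w + Φ₂ w) := by
    intro w hw
    rw [← lintegral_inter_add_sdiff _ _ (measurableSet_Iic (a := z₀))]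
    have hs1 : {z | z ∈ Ioo A B ∧ w < p z} ∩ Iic z₀ = {z | z ∈ Ioc A z₀ ∧ w < p z} := by
      ext z
      simp only [mem_inter_iff, mem_ofPred_eq, mem_Ioo, mem_Iic, mem_Ioc]
      constructor
      · rintro ⟨⟨⟨a, b⟩, c⟩, d⟩
        exact ⟨⟨a, d⟩, c⟩
      · rintro ⟨⟨a, d⟩, c⟩
        exact ⟨⟨⟨a, by linarith⟩, c⟩, d⟩
    have hs2 : {z | z ∈ Ioo A B ∧ w < p z} \ Iic z₀ = Ioo z₀ B ∩ {z | w < p z} := by
      ext z
      simp only [Set.mem_sdiff, mem_inter_iff, mem_ofPred_eq, mem_Ioo, mem_Iic, not_le]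
      constructor
      · rintro ⟨⟨⟨a, b⟩, c⟩, d⟩
        exact ⟨⟨d, b⟩, c⟩
      · rintro ⟨⟨a, d⟩, c⟩
        exact ⟨⟨⟨by linarith, d⟩, c⟩, a⟩
    have hs3 : (Ioo z₀ B ∩ {z | w < p z} : Set ℝ) =ᵐ[volume] {z | z ∈ Ico z₀ B ∧ w < p z} :=
      Ioo_ae_eq_Ico.inter (ae_eq_refl _)
    rw [hs1, hs2, setLIntegral_congr hs3, hi1 w hw, hi2 w hw, add_comm (Φ₁ w),
      ENNReal.ofReal_add (halt2.basic w hw).2.le (halt1'.basic w hw).2.le]
  -- hypotheses of `tonelli`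
  have hana : ∀ z ∈ Icc A B, AnalyticAt ℝ p z := fun z hz => pR_analytic k A B R (hR z hz)
  have hc : ContinuousOn p (Icc A B) := fun z hz => (hana z hz).continuousAt.continuousWithinAt
  have hd : ∀ z ∈ Ioo A B, DifferentiableAt ℝ p z := fun z hz =>
    (hana z (Ioo_subset_Icc_self hz)).differentiableAt
  have hdc : ContinuousOn (deriv p) (Ioo A B) := fun z hz =>
    (hana z (Ioo_subset_Icc_self hz)).deriv.continuousAt.continuousWithinAt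
  have hfac : ∀ z ∈ Icc A B, 0 < (R.eval z) ^ ((1 : ℝ) / (k + 1) - 1) / ((k : ℝ) + 1) :=
    fun z hz => div_pos (Real.rpow_pos_of_pos (hR z hz) _) (by positivity)
  have hdp : ∀ z ∈ Ioo A z₀, 0 < deriv p z := by
    intro z hz
    have hz' : z ∈ Icc A B := ⟨hz.1.le, (hz.2.trans hB).le⟩
    rw [hp, pR_deriv k A B R (hR z hz')]
    exact mul_pos (hfac z hz') (hpos z ⟨hz.1.le, hz.2⟩)
  have hdn : ∀ z ∈ Ioo z₀ B, deriv p z < 0 := by
    intro z hz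
    have hz' : z ∈ Icc A B := ⟨(hA.trans hz.1).le, hz.2.le⟩
    rw [hp, pR_deriv k A B R (hR z hz')]
    exact mul_neg_of_pos_of_neg (hfac z hz') (hneg z ⟨hz.1, hz.2.le⟩)
  obtain ⟨T', hT'⟩ := poly_extract k (p z₀) hM T (fun w => Φ₁ w + Φ₂ w)
    (fun w hw => ((halt1'.basic w hw).1.add
      (halt2.basic w hw).1).continuousAt.continuousWithinAt)
    (fun w hw => (add_pos (halt1'.basic w hw).2 (halt2.basic w hw).2).le)
    (by
      intro w hw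
      rw [← hT w hw, tonelli k p A B z₀ ⟨hA, hB⟩ hc hd hdc hdp hdn hpA hpB w hw.1 hw.2]
      congr 1
      refine setLIntegral_congr_fun measurableSet_Ioo (fun v hv => ?_)
      rw [hcomb v ⟨hw.1.trans hv.1, hv.2⟩])
  exact final_f3 (p z₀) hM Φ₁ Φ₂ halt1' halt2 T' hT'

end Pool.Agent.MP_c8a077_gt
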