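import Pool.Agent.Lib.MP_c8a077_gt.G3a

/-!
# JOB G3b: uniform bound for the degrees (Baire category and the identity theorem)

PROOF.  Let `F_0 = F`, `F_{j+1} = XF r F_j`.  By `chord_step` and induction `F_j` is analytic on `Dch A B` and
`F_j z = (derivative^[j] (g (sl r z))).eval (ic r z)`.  For every `z ∈ Dch` `F_j z = 0` for all
`j > natDegree (g (sl r z))`.  So `Dch = ⋃_N C_N` with `C_N = {z ∈ Dch : ∀ j > N, F_j z = 0}`, relatively closed.
`Dch` is open, nonempty (`A < B`), so by Baire some `C_N` has an interior point (work in the subtype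
`Dch`, a Baire space as an open subset of a complete space: `IsOpen.baireSpace`/`nonempty_interior_of_iUnion_of_closed`).
For `j > N` `F_j` vanishes near that point, `Dch` is convex hence preconnected, so `F_j = 0` on `Dch`
(`AnalyticOnNhd.eqOn_zero_of_preconnected_of_eventuallyEq_zero`).  If some `z ∈ Dch` had
`m = natDegree (g (sl r z)) > N` then `F_m z = m! · leadingCoeff ≠ 0`, contradiction.
-/

open MeasureTheory Set Metric Topology Filter

namespace Pool.Agent.MP_c8a077_gt

private theorem g3b_iter {k : ℕ} {A B : ℝ} {r : ℝ → ℝ} {P : Polynomial ℝ} (h : Prof k A B r P)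
    (F : ℝ × ℝ → ℝ) (hF : AnalyticOnNhd ℝ F (Dch A B)) (g : ℝ → Polynomial ℝ)
    (hg : ∀ z ∈ Dch A B, F z = (g (sl r z)).eval (ic r z)) (j : ℕ) :
    AnalyticOnNhd ℝ ((XF r)^[j] F) (Dch A B) ∧
      ∀ z ∈ Dch A B, ((XF r)^[j] F) z = (Polynomial.derivative^[j] (g (sl r z))).eval (ic r z) := by
  induction j with
  | zero => exact ⟨hF, hg⟩
  | succ j ih =>
    have h1 := chord_step h _ ih.1 (fun σ => Polynomial.derivative^[j] (g σ)) ih.2
    rw [Function.iterate_succ_apply']
    refine ⟨h1.1, fun z hz => ?_⟩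
    rw [h1.2 z hz, Function.iterate_succ_apply']

private theorem g3b_top (p : Polynomial ℝ) (c : ℝ) (hp : p.natDegree ≠ 0) :
    (Polynomial.derivative^[p.natDegree] p).eval c ≠ 0 := by
  have h1 : (Polynomial.derivative^[p.natDegree] p).natDegree = 0 := by
    have := Polynomial.natDegree_iterate_derivative p p.natDegree
    omega
  rw [Polynomial.eq_C_of_natDegree_eq_zero h1, Polynomial.eval_C, Polynomial.coeff_iterate_derivative,
    zero_add, Nat.descFactorial_self]
  have h2 : p ≠ 0 := by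
    rintro rfl
    exact hp Polynomial.natDegree_zero
  have h3 : p.coeff p.natDegree ≠ 0 := Polynomial.leadingCoeff_ne_zero.2 h2
  exact smul_ne_zero (Nat.factorial_ne_zero _) h3

private theorem g3b_open (A B : ℝ) : IsOpen (Dch A B) := by
  have h1 : IsOpen {z : ℝ × ℝ | A < z.1} := isOpen_lt continuous_const continuous_fst
  have h2 : IsOpen {z : ℝ × ℝ | z.1 < z.2} := isOpen_lt continuous_fst continuous_snd
  have h3 : IsOpen {z : ℝ × ℝ | z.2 < B} := isOpen_lt continuous_snd continuous_const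
  exact h1.inter (h2.inter h3)

private theorem g3b_convex (A B : ℝ) : Convex ℝ (Dch A B) := by
  intro x hx y hy a b ha hb hab
  obtain ⟨x1, x2, x3⟩ := hx
  obtain ⟨y1, y2, y3⟩ := hy
  have key : ∀ u v u' v' : ℝ, u < v → u' < v' → a * u + b * u' < a * v + b * v' := by
    intro u v u' v' h1 h2
    rcases ha.eq_or_lt with h3 | h3
    · have hb1 : b = 1 := by linarith
      rw [← h3, hb1]
      linarith
    · have h4 := mul_lt_mul_of_pos_left h1 h3
      have h5 := mul_le_mul_of_nonneg_left h2.le hb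
      linarith
  have e1 : a * A + b * A = A := by rw [← add_mul, hab, one_mul]
  have e2 : a * B + b * B = B := by rw [← add_mul, hab, one_mul]
  refine ⟨?_, ?_, ?_⟩
  · have := key A x.1 A y.1 x1 y1
    rw [e1] at this
    exact this
  · exact key x.1 x.2 y.1 y.2 x2 y2
  · have := key x.2 B y.2 B x3 y3
    rw [e2] at this
    exact this

theorem chord_degree {k : ℕ} {A B : ℝ} {r : ℝ → ℝ} {P : Polynomial ℝ} (h : Prof k A B r P)
    (F : ℝ × ℝ → ℝ) (hF : AnalyticOnNhd ℝ F (Dch A B)) (g : ℝ → Polynomial ℝ)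
    (hg : ∀ z ∈ Dch A B, F z = (g (sl r z)).eval (ic r z)) :
    ∃ N : ℕ, ∀ z ∈ Dch A B, (g (sl r z)).natDegree ≤ N := by
  have hit := g3b_iter h F hF g hg
  have hopen := g3b_open A B
  have hAB := h.hAB
  have hne : (Dch A B).Nonempty :=
    ⟨(A + (B - A) / 3, A + 2 * (B - A) / 3), by
      refine ⟨?_, ?_, ?_⟩ <;> simp only <;> linarith⟩
  set C : ℕ → Set (ℝ × ℝ) := fun N => {z | z ∈ Dch A B → ∀ j, N < j → ((XF r)^[j] F) z = 0} with hC
  have hclosed : ∀ N, IsClosed (C N) := by
    intro N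
    rw [← isOpen_compl_iff]
    have h1 : (C N)ᶜ = ⋃ j ∈ {j | N < j}, (Dch A B ∩ ((XF r)^[j] F) ⁻¹' {0}ᶜ) := by
      ext z
      simp only [hC, mem_compl_iff, mem_ofPred_eq, mem_iUnion, mem_inter_iff, mem_preimage,
        mem_singleton_iff, exists_prop]
      constructor
      · intro h2
        push Not at h2
        obtain ⟨h3, j, h4, h5⟩ := h2
        exact ⟨j, h4, h3, h5⟩
      · rintro ⟨j, h4, h3, h5⟩ h6
        exact h5 (h6 h3 j h4)
    rw [h1]
    refine isOpen_biUnion fun j _ => ?_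
    exact (hit j).1.continuousOn.isOpen_inter_preimage hopen isOpen_compl_singleton
  have hcover : ⋃ N, C N = univ := by
    refine eq_univ_of_forall fun z => ?_
    rw [mem_iUnion]
    refine ⟨(g (sl r z)).natDegree, fun hz j hj => ?_⟩
    rw [(hit j).2 z hz, Polynomial.iterate_derivative_eq_zero hj, Polynomial.eval_zero]
  have hdense := dense_iUnion_interior_of_closed hclosed hcover
  obtain ⟨z₀, hz0, hz0'⟩ := hdense.inter_open_nonempty _ hopen hne
  rw [mem_iUnion] at hz0'
  obtain ⟨N, hN⟩ := hz0'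
  refine ⟨N, fun z hz => ?_⟩
  by_contra hcon
  rw [not_le] at hcon
  set m := (g (sl r z)).natDegree with hm
  have h1 : ((XF r)^[m] F) =ᶠ[𝓝 z₀] 0 := by
    filter_upwards [hopen.mem_nhds hz0, isOpen_interior.mem_nhds hN] with y hy1 hy2
    exact interior_subset hy2 hy1 m hcon
  have h2 := (hit m).1.eqOn_zero_of_preconnected_of_eventuallyEq_zero (g3b_convex A B).isPreconnected
    hz0 h1 hz
  rw [(hit m).2 z hz] at h2
  exact g3b_top (g (sl r z)) (ic r z) (by omega) h2

end Pool.Agent.MP_c8a077_gt
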