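import Pool.Agent.Lib.MP_c8a077_gt.G1

/-!
# JOB G4: the chord area vanishes to order `k+1` at a tangent direction with nonzero curvature

PROOF.  `z = zs`, `σ = deriv r zs`, `G x = r x - σ x`; `G' (zs) = 0`, `G''(zs) = deriv (deriv r) zs < 0`, `G` strictly
increasing on `(A,zs]` and strictly decreasing on `[zs,B)` (`Prof.strictAnti`).  There are `δ, c₁, C₁ > 0`
with `G zs - G x ≥ c₁ (x-zs)²` and `|G' x| ≤ C₁ |x - zs|` for `|x - zs| ≤ δ` (`[zs-δ,zs+δ] ⊂ (A,B)`).  For small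
`ε > 0` the intermediate value theorem gives `z₁ ∈ (zs-δ,zs)`, `z₂ ∈ (zs,zs+δ)` with
`G z₁ = G z₂ = G zs - ε`, so `|z_i - zs| ≤ √(ε/c₁)`, `ℓ := z₂ - z₁ ≤ 2√(ε/c₁)`, and the chord has slope `σ`.
For `x ∈ [0,1]`, `y = z₁ + xℓ`, chord value `λ = r z₁ + x(r z₂ - r z₁) = σ y + G z₁`:
`0 ≤ r y - λ = G y - G z₁ ≤ ε`, so with `M = max r`: `0 ≤ q ≤ 2Mε`.
`deriv q = ℓ (2 r r' - 2 λ σ) = 2ℓ (r (r' - σ) + σ (r - λ))`, `|r' - σ| = |G' y| ≤ C₁ √(ε/c₁)`, so
`|deriv q| ≤ C₂ ℓ (√ε + ε) ≤ C₃ ε` for `ε ≤ 1`.  The radicand is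
`≤ (1+σ²) ℓ² · 2Mε + C₃² ε²/4 ≤ C₄ ε²`, hence `Sch ≤ (2Mε)^k √C₄ ε = C ε^(k+1)`.
-/

open MeasureTheory Set Metric Topology Filter

namespace Pool.Agent.MP_c8a077_gt

private theorem g4_local {k : ℕ} {A B : ℝ} {r : ℝ → ℝ} {P : Polynomial ℝ} (h : Prof k A B r P)
    {zs : ℝ} (hzs : zs ∈ Ioo A B) (hneg : deriv (deriv r) zs < 0) :
    ∃ δ > 0, ∃ c > 0, A < zs - δ ∧ zs + δ < B ∧
      (∀ x ∈ Icc (zs - δ) (zs + δ), |deriv r x - deriv r zs| ≤ 3 * c * |x - zs|) ∧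
      (∀ x ∈ Icc (zs - δ) (zs + δ),
        c / 2 * (x - zs) ^ 2 ≤ (r zs - deriv r zs * zs) - (r x - deriv r zs * x)) := by
  set D := deriv (deriv r) zs with hD
  set σ := deriv r zs with hσ
  set c := -D / 2 with hc
  have hc0 : 0 < c := by rw [hc]; linarith
  have hd2 : HasDerivAt (deriv r) D zs := (h.analytic hzs).deriv.differentiableAt.hasDerivAt
  have h1 := (hasDerivAt_iff_isLittleO.mp hd2).def hc0
  have h2 : ∀ᶠ x in 𝓝 zs, x ∈ Ioo A B := Ioo_mem_nhds hzs.1 hzs.2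
  obtain ⟨δ, hδ, hb⟩ := (Metric.nhds_basis_closedBall.eventually_iff).mp (h1.and h2)
  rw [Real.closedBall_eq_Icc] at hb
  have hend1 : A < zs - δ := (hb (show zs - δ ∈ Icc (zs - δ) (zs + δ) from ⟨le_refl _, by linarith⟩)).2.1
  have hend2 : zs + δ < B := (hb (show zs + δ ∈ Icc (zs - δ) (zs + δ) from ⟨by linarith, le_refl _⟩)).2.2
  have hest : ∀ x ∈ Icc (zs - δ) (zs + δ), |deriv r x - σ - (x - zs) * D| ≤ c * |x - zs| := by
    intro x hx
    have h3 := (hb hx).1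
    simpa only [Real.norm_eq_abs, smul_eq_mul] using h3
  have hDc : D = -2 * c := by rw [hc]; ring
  refine ⟨δ, hδ, c, hc0, hend1, hend2, ?_, ?_⟩
  · intro x hx
    have h3 := hest x hx
    have h4 : deriv r x - σ = (deriv r x - σ - (x - zs) * D) + (x - zs) * D := by ring
    rw [h4]
    refine (abs_add_le _ _).trans ?_
    have h5 : |(x - zs) * D| = 2 * c * |x - zs| := by
      rw [abs_mul, hDc, abs_mul, abs_of_pos hc0]
      norm_num
      ring
    rw [h5]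
    linarith
  · -- monotonicity
    have hder : ∀ x ∈ Icc (zs - δ) (zs + δ),
        HasDerivAt (fun x => r x - σ * x + c / 2 * (x - zs) ^ 2) (deriv r x - σ + c * (x - zs)) x := by
      intro x hx
      have hx' := (hb hx).2
      have h3 : HasDerivAt r (deriv r x) x := (h.analytic hx').differentiableAt.hasDerivAt
      have h4 : HasDerivAt (fun x : ℝ => σ * x) σ x := by
        simpa using (hasDerivAt_id x).const_mul σ
      have h5 : HasDerivAt (fun x : ℝ => c / 2 * (x - zs) ^ 2) (c * (x - zs)) x := by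
        have h6 : HasDerivAt (fun x : ℝ => x - zs) 1 x := (hasDerivAt_id x).sub_const zs
        have h7 := (h6.pow 2).const_mul (c / 2)
        refine h7.congr_deriv ?_
        norm_num
        ring
      exact (h3.sub h4).add h5
    have hcont : ContinuousOn (fun x => r x - σ * x + c / 2 * (x - zs) ^ 2) (Icc (zs - δ) (zs + δ)) :=
      fun x hx => (hder x hx).continuousAt.continuousWithinAt
    have hsubR : Icc zs (zs + δ) ⊆ Icc (zs - δ) (zs + δ) := Icc_subset_Icc (by linarith) le_rfl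
    have hsubL : Icc (zs - δ) zs ⊆ Icc (zs - δ) (zs + δ) := Icc_subset_Icc le_rfl (by linarith)
    have hanti : AntitoneOn (fun x => r x - σ * x + c / 2 * (x - zs) ^ 2) (Icc zs (zs + δ)) := by
      refine antitoneOn_of_deriv_nonpos (convex_Icc _ _) (hcont.mono hsubR) ?_ ?_
      · rw [interior_Icc]
        intro x hx
        exact (hder x (hsubR (Ioo_subset_Icc_self hx))).differentiableAt.differentiableWithinAt
      · rw [interior_Icc]
        intro x hx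
        have hx1 := hsubR (Ioo_subset_Icc_self hx)
        rw [(hder x hx1).deriv]
        have h3 := hest x hx1
        rw [abs_of_pos (show 0 < x - zs by linarith [hx.1])] at h3
        have h4 := (abs_le.mp h3).2
        rw [hDc] at h4
        nlinarith
    have hmono : MonotoneOn (fun x => r x - σ * x + c / 2 * (x - zs) ^ 2) (Icc (zs - δ) zs) := by
      refine monotoneOn_of_deriv_nonneg (convex_Icc _ _) (hcont.mono hsubL) ?_ ?_
      · rw [interior_Icc]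
        intro x hx
        exact (hder x (hsubL (Ioo_subset_Icc_self hx))).differentiableAt.differentiableWithinAt
      · rw [interior_Icc]
        intro x hx
        have hx1 := hsubL (Ioo_subset_Icc_self hx)
        rw [(hder x hx1).deriv]
        have h3 := hest x hx1
        rw [abs_of_neg (show x - zs < 0 by linarith [hx.2])] at h3
        have h4 := (abs_le.mp h3).1
        rw [hDc] at h4
        nlinarith
    intro x hx
    rcases le_total zs x with h3 | h3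
    · have h4 := hanti (show zs ∈ Icc zs (zs + δ) from ⟨le_rfl, by linarith⟩)
        (show x ∈ Icc zs (zs + δ) from ⟨h3, hx.2⟩) h3
      simp only [sub_self] at h4
      nlinarith
    · have h4 := hmono (show x ∈ Icc (zs - δ) zs from ⟨hx.1, h3⟩)
        (show zs ∈ Icc (zs - δ) zs from ⟨by linarith, le_rfl⟩) h3
      simp only [sub_self] at h4
      nlinarith

/-- the elementary estimate of the integrand -/
private theorem g4_bound {M c σ ε η ℓ q dq : ℝ} (k : ℕ) (hM : 0 ≤ M) (hc : 0 < c) (hε : 0 ≤ ε)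
    (hη0 : 0 ≤ η) (hη1 : η ≤ 1) (hηε : c / 2 * η ^ 2 = ε)
    (hℓ0 : 0 ≤ ℓ) (hℓ : ℓ ≤ 2 * η) (hq0 : 0 ≤ q) (hq : q ≤ 2 * M * ε)
    (hdq : |dq| ≤ 2 * ℓ * (M * (3 * c * η) + |σ| * ε)) :
    q ^ k * √((ℓ ^ 2 + (σ * ℓ) ^ 2) * q + dq ^ 2 / 4) ≤
      (2 * M) ^ k * √(16 * (1 + σ ^ 2) * M / c + 16 * (3 * c * M + |σ| * (c / 2)) ^ 2 / c ^ 2) * ε ^ (k + 1) := by
  set K := 3 * c * M + |σ| * (c / 2) with hK
  have hK0 : 0 ≤ K := by positivity
  have hℓ2 : ℓ ^ 2 ≤ 4 * η ^ 2 := by nlinarith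
  have hη2 : η ^ 2 = 2 * ε / c := by
    rw [← hηε]
    field_simp
  have hdq2 : |dq| ≤ 4 * K * η ^ 2 := by
    refine hdq.trans ?_
    have h1 : M * (3 * c * η) + |σ| * ε ≤ K * η := by
      rw [hK, ← hηε]
      have h2 : |σ| * (c / 2 * η ^ 2) ≤ |σ| * (c / 2) * η := by
        have h3 : η ^ 2 ≤ η := by nlinarith
        have h4 : 0 ≤ |σ| * (c / 2) := by positivity
        calc |σ| * (c / 2 * η ^ 2) = |σ| * (c / 2) * η ^ 2 := by ring
          _ ≤ |σ| * (c / 2) * η := mul_le_mul_of_nonneg_left h3 h4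
      nlinarith
    calc 2 * ℓ * (M * (3 * c * η) + |σ| * ε) ≤ 2 * (2 * η) * (K * η) := by
          apply mul_le_mul _ h1 (by positivity) (by positivity)
          linarith
      _ = 4 * K * η ^ 2 := by ring
  have hdq3 : dq ^ 2 / 4 ≤ 16 * K ^ 2 / c ^ 2 * ε ^ 2 := by
    have h1 : dq ^ 2 ≤ (4 * K * η ^ 2) ^ 2 := by
      rw [← sq_abs dq]
      exact pow_le_pow_left₀ (abs_nonneg _) hdq2 2
    have h2 : (4 * K * η ^ 2) ^ 2 = 4 * (16 * K ^ 2 / c ^ 2 * ε ^ 2) := by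
      rw [hη2]
      field_simp
      ring
    linarith
  have h1 : (ℓ ^ 2 + (σ * ℓ) ^ 2) * q ≤ 16 * (1 + σ ^ 2) * M / c * ε ^ 2 := by
    have h2 : ℓ ^ 2 + (σ * ℓ) ^ 2 = (1 + σ ^ 2) * ℓ ^ 2 := by ring
    rw [h2]
    calc (1 + σ ^ 2) * ℓ ^ 2 * q ≤ (1 + σ ^ 2) * (4 * η ^ 2) * (2 * M * ε) := by
          apply mul_le_mul _ hq hq0 (by positivity)
          apply mul_le_mul_of_nonneg_left hℓ2 (by positivity)
      _ = 16 * (1 + σ ^ 2) * M / c * ε ^ 2 := by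
          rw [hη2]
          field_simp
          ring
  have h3 : √((ℓ ^ 2 + (σ * ℓ) ^ 2) * q + dq ^ 2 / 4) ≤
      √(16 * (1 + σ ^ 2) * M / c + 16 * K ^ 2 / c ^ 2) * ε := by
    have h4 : √(16 * (1 + σ ^ 2) * M / c + 16 * K ^ 2 / c ^ 2) * ε =
        √((16 * (1 + σ ^ 2) * M / c + 16 * K ^ 2 / c ^ 2) * ε ^ 2) := by
      rw [Real.sqrt_mul (by positivity), Real.sqrt_sq hε]
    rw [h4]
    apply Real.sqrt_le_sqrt
    refine (add_le_add h1 hdq3).trans (le_of_eq ?_)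
    ring
  have h5 : q ^ k ≤ (2 * M * ε) ^ k := pow_le_pow_left₀ hq0 hq k
  calc q ^ k * √((ℓ ^ 2 + (σ * ℓ) ^ 2) * q + dq ^ 2 / 4)
      ≤ (2 * M * ε) ^ k * (√(16 * (1 + σ ^ 2) * M / c + 16 * K ^ 2 / c ^ 2) * ε) :=
        mul_le_mul h5 h3 (Real.sqrt_nonneg _) (by positivity)
    _ = (2 * M) ^ k * √(16 * (1 + σ ^ 2) * M / c + 16 * K ^ 2 / c ^ 2) * ε ^ (k + 1) := by
        rw [mul_pow, pow_succ]
        ring

theorem vanish_top {k : ℕ} {A B : ℝ} {r : ℝ → ℝ} {P : Polynomial ℝ} (h : Prof k A B r P)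
    {zs : ℝ} (hzs : zs ∈ Ioo A B) (hneg : deriv (deriv r) zs < 0) :
    ∃ C > 0, ∃ ε₀ > 0, ∀ ε ∈ Ioo 0 ε₀, ∃ z₁ z₂ : ℝ, A < z₁ ∧ z₁ < zs ∧ zs < z₂ ∧ z₂ < B ∧
      r z₁ - deriv r zs * z₁ = r zs - deriv r zs * zs - ε ∧
      r z₂ - deriv r zs * z₂ = r zs - deriv r zs * zs - ε ∧
      Sch k r z₁ z₂ ≤ C * ε ^ (k + 1) := by
  obtain ⟨δ, hδ, c, hc, hA, hB, hder, hquad⟩ := g4_local h hzs hneg
  set σ := deriv r zs with hσ
  obtain ⟨M0, hM0⟩ := isCompact_Icc.exists_bound_of_continuousOn h.cont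
  set M := max M0 0 with hM
  have hMnn : 0 ≤ M := le_max_right _ _
  have hMr : ∀ z ∈ Icc A B, r z ≤ M := fun z hz =>
    ((le_abs_self _).trans (hM0 z hz)).trans (le_max_left _ _)
  set C0 := (2 * M) ^ k * √(16 * (1 + σ ^ 2) * M / c + 16 * (3 * c * M + |σ| * (c / 2)) ^ 2 / c ^ 2)
    with hC0
  have hC0nn : 0 ≤ C0 := by positivity
  refine ⟨C0 + 1, by positivity, min (c / 2 * δ ^ 2) (c / 2), by positivity, ?_⟩
  rintro ε ⟨hε0, hεlt⟩
  have hε1 : ε < c / 2 * δ ^ 2 := hεlt.trans_le (min_le_left _ _)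
  have hε2 : ε < c / 2 := hεlt.trans_le (min_le_right _ _)
  set G : ℝ → ℝ := fun x => r x - σ * x with hG
  have hGcont : ContinuousOn G (Icc A B) := h.cont.sub (continuous_const.mul continuous_id).continuousOn
  have hlow1 : G (zs - δ) ≤ G zs - ε := by
    have h1 := hquad (zs - δ) ⟨le_rfl, by linarith⟩
    have h2 : (zs - δ - zs) ^ 2 = δ ^ 2 := by ring
    rw [h2] at h1
    simp only [hG]
    linarith
  have hlow2 : G (zs + δ) ≤ G zs - ε := by
    have h1 := hquad (zs + δ) ⟨by linarith, le_rfl⟩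
    have h2 : (zs + δ - zs) ^ 2 = δ ^ 2 := by ring
    rw [h2] at h1
    simp only [hG]
    linarith
  obtain ⟨z₁, hz₁, hGz₁⟩ : G zs - ε ∈ G '' Icc (zs - δ) zs :=
    intermediate_value_Icc (by linarith) (hGcont.mono (Icc_subset_Icc hA.le hzs.2.le))
      ⟨hlow1, by linarith⟩
  obtain ⟨z₂, hz₂, hGz₂⟩ : G zs - ε ∈ G '' Icc zs (zs + δ) :=
    intermediate_value_Icc' (by linarith) (hGcont.mono (Icc_subset_Icc hzs.1.le hB.le))
      ⟨hlow2, by linarith⟩
  have hz₁s : z₁ < zs := by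
    rcases lt_or_eq_of_le hz₁.2 with h1 | h1
    · exact h1
    · exfalso
      rw [h1] at hGz₁
      linarith
  have hz₂s : zs < z₂ := by
    rcases lt_or_eq_of_le hz₂.1 with h1 | h1
    · exact h1
    · exfalso
      rw [← h1] at hGz₂
      linarith
  have hAz₁ : A < z₁ := lt_of_lt_of_le hA hz₁.1
  have hz₂B : z₂ < B := lt_of_le_of_lt hz₂.2 hB
  simp only [hG] at hGz₁ hGz₂
  refine ⟨z₁, z₂, hAz₁, hz₁s, hz₂s, hz₂B, hGz₁, hGz₂, ?_⟩
  have hsub1 : z₁ ∈ Icc (zs - δ) (zs + δ) := ⟨hz₁.1, by linarith [hz₁.2]⟩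
  have hsub2 : z₂ ∈ Icc (zs - δ) (zs + δ) := ⟨by linarith [hz₂.1], hz₂.2⟩
  set η := √(2 * ε / c) with hη
  have hη0 : 0 ≤ η := Real.sqrt_nonneg _
  have hη2 : η ^ 2 = 2 * ε / c := Real.sq_sqrt (by positivity)
  have hηε : c / 2 * η ^ 2 = ε := by
    rw [hη2]
    field_simp
  have hη1 : η ≤ 1 := by
    rw [hη]
    apply Real.sqrt_le_one.mpr
    rw [div_le_one hc]
    linarith
  have hdist1 : zs - z₁ ≤ η := by
    apply Real.le_sqrt_of_sq_le
    have h1 := hquad z₁ hsub1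
    rw [hGz₁] at h1
    rw [le_div_iff₀ hc]
    nlinarith
  have hdist2 : z₂ - zs ≤ η := by
    apply Real.le_sqrt_of_sq_le
    have h1 := hquad z₂ hsub2
    rw [hGz₂] at h1
    rw [le_div_iff₀ hc]
    nlinarith
  set ℓ := z₂ - z₁ with hℓ
  have hℓ0 : 0 < ℓ := by rw [hℓ]; linarith
  have hℓ2 : ℓ ≤ 2 * η := by rw [hℓ]; linarith
  have hr12 : r z₂ - r z₁ = σ * ℓ := by rw [hℓ]; linarith
  have hpt : ∀ x ∈ Ioc (0 : ℝ) 1,
      0 ≤ qch r z₁ z₂ x ∧ qch r z₁ z₂ x ≤ 2 * M * ε ∧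
      |deriv (qch r z₁ z₂) x| ≤ 2 * ℓ * (M * (3 * c * η) + |σ| * ε) := by
    intro x hx
    set y := z₁ + x * ℓ with hy
    have hxℓ0 : 0 < x * ℓ := mul_pos hx.1 hℓ0
    have hxℓ1 : x * ℓ ≤ ℓ := by nlinarith [hx.2]
    have hyz₁ : z₁ < y := by rw [hy]; linarith
    have hyz₂ : y ≤ z₂ := by rw [hy]; linarith
    have hyI : y ∈ Ioo A B := ⟨by linarith, by linarith⟩
    have hyC : y ∈ Icc A B := ⟨hyI.1.le, hyI.2.le⟩
    have hyδ : y ∈ Icc (zs - δ) (zs + δ) := ⟨by linarith [hsub1.1], by linarith [hsub2.2]⟩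
    have hyη : |y - zs| ≤ η := abs_le.mpr ⟨by linarith, by linarith⟩
    set lam := r z₁ + x * (r z₂ - r z₁) with hlam
    have hlamle : lam ≤ r y := by
      rcases lt_or_eq_of_le hx.2 with h1 | h1
      · exact (h.chord_lt hAz₁ (by linarith) hz₂B ⟨hx.1, h1⟩).le
      · rw [hlam, hy, h1, hℓ]
        simp
    have hr1 : 0 ≤ r z₁ := h.nonneg z₁ ⟨hAz₁.le, by linarith⟩
    have hr2 : 0 ≤ r z₂ := h.nonneg z₂ ⟨by linarith, hz₂B.le⟩
    have hlam0 : 0 ≤ lam := by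
      have h1 : lam = (1 - x) * r z₁ + x * r z₂ := by rw [hlam]; ring
      rw [h1]
      have h2 : 0 ≤ 1 - x := by linarith [hx.2]
      have h3 : 0 ≤ x := hx.1.le
      positivity
    have hry : r y ≤ M := hMr y hyC
    have hry0 : 0 ≤ r y := h.nonneg y hyC
    have hdiff : r y - lam ≤ ε := by
      have h1 := hquad y hyδ
      have h2 : 0 ≤ c / 2 * (y - zs) ^ 2 := by positivity
      have h3 : lam = σ * y + (r z₁ - σ * z₁) := by
        rw [hlam, hr12, hy]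
        ring
      rw [h3, hGz₁]
      linarith
    have hqeq : qch r z₁ z₂ x = r y ^ 2 - lam ^ 2 := rfl
    have hderiv : deriv (qch r z₁ z₂) x = 2 * ℓ * (r y * (deriv r y - σ) + σ * (r y - lam)) := by
      have h1 := (qch_deriv h (z₁ := z₁) (z₂ := z₂) (x := x) hyI).deriv
      rw [h1]
      change 2 * r y * deriv r y * ℓ - 2 * lam * (r z₂ - r z₁) = _
      rw [hr12]
      ring
    refine ⟨?_, ?_, ?_⟩
    · rw [hqeq]
      nlinarith
    · rw [hqeq]
      have h1 : r y ^ 2 - lam ^ 2 = (r y - lam) * (r y + lam) := by ring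
      rw [h1]
      have h2 : r y + lam ≤ 2 * M := by linarith
      calc (r y - lam) * (r y + lam) ≤ ε * (2 * M) :=
            mul_le_mul hdiff h2 (by linarith) hε0.le
        _ = 2 * M * ε := by ring
    · rw [hderiv, abs_mul, abs_of_pos (show 0 < 2 * ℓ by linarith)]
      apply mul_le_mul_of_nonneg_left _ (by linarith)
      refine (abs_add_le _ _).trans ?_
      rw [abs_mul, abs_mul, abs_of_nonneg hry0, abs_of_nonneg (show 0 ≤ r y - lam by linarith)]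
      have h1 : |deriv r y - σ| ≤ 3 * c * η := by
        refine (hder y hyδ).trans ?_
        apply mul_le_mul_of_nonneg_left hyη (by positivity)
      apply add_le_add
      · exact mul_le_mul hry h1 (abs_nonneg _) hMnn
      · exact mul_le_mul_of_nonneg_left hdiff (abs_nonneg _)
  have hbd : ‖Sch k r z₁ z₂‖ ≤ C0 * ε ^ (k + 1) * |1 - 0| := by
    unfold Sch
    apply intervalIntegral.norm_integral_le_of_norm_le_const
    intro x hx
    rw [uIoc_of_le zero_le_one] at hx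
    obtain ⟨h1, h2, h3⟩ := hpt x hx
    have h4 := g4_bound k hMnn hc hε0.le hη0 hη1 hηε hℓ0.le hℓ2 h1 h2 h3
    rw [Real.norm_eq_abs, abs_of_nonneg (mul_nonneg (pow_nonneg h1 k) (Real.sqrt_nonneg _)), hr12]
    exact h4
  rw [sub_zero, abs_one, mul_one] at hbd
  have h6 : 0 ≤ ε ^ (k + 1) := by positivity
  calc Sch k r z₁ z₂ ≤ ‖Sch k r z₁ z₂‖ := le_abs_self _
    _ ≤ C0 * ε ^ (k + 1) := hbd
    _ ≤ (C0 + 1) * ε ^ (k + 1) := by nlinarith

end Pool.Agent.MP_c8a077_gt
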