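import Pool.Agent.Lib.MP_c8a077_gt.G1

/-!
# JOB G5: limit of the section areas when the direction tends to the axis

PROOF.  Substitute `s = -b ζ + τ` (`a = a n`, `b = b n`, `a² + b² = 1`, `t = a ζ`): `t a - s b = ζ - τ b`,
`t b + s a = τ a`, so `Isec k r A B a b (aζ) = ∫⁻ τ in {τ | ζ - τ b ∈ (A,B) ∧ 0 < q_n τ},
ofReal (q_n^k √(q_n + q_n'²/4))`, `q_n τ = r(ζ - τ b)² - (τ a)²`,
`q_n' = -2 b r(ζ-τb) r'(ζ-τb) - 2 τ a²`.
Let `M = max r`.  On the domain `|τ| |a| < M`, and `|a| ≥ 1/2` for `n` large, so `|τ| ≤ 2M` and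
`|ζ - τ b - ζ| ≤ 2M|b| → 0`: for `n` large the points stay in a compact neighbourhood of `ζ` in `(A,B)` on
which `r`, `r'` are bounded, so the integrand (with the indicator) is bounded by a constant on `[-2M,2M]`
and zero outside.  Pointwise, for `τ ≠ ± r ζ` (a null set): `q_n τ → r(ζ)² - τ²`, `q_n' τ → -2τ`; the
indicator converges and the integrand converges to `1_{τ² < r(ζ)²} (r(ζ)²-τ²)^k √(r(ζ)² - τ² + τ²)`.
Dominated convergence, and the limit integral is `Bk k * r ζ^(2k+2)` (substitution `τ = r(ζ) x`).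
-/

open MeasureTheory Set Metric Topology Filter

namespace Pool.Agent.MP_c8a077_gt

private theorem g5_int (k : ℕ) {R : ℝ} (hR : 0 < R) :
    ∫⁻ s in Ioo (-R) R, ENNReal.ofReal ((R ^ 2 - s ^ 2) ^ k * R) =
      ENNReal.ofReal (Bk k * R ^ (2 * k + 2)) := by
  have hcont : Continuous fun s : ℝ => (R ^ 2 - s ^ 2) ^ k * R := by fun_prop
  have hi : IntegrableOn (fun s : ℝ => (R ^ 2 - s ^ 2) ^ k * R) (Ioo (-R) R) :=
    (hcont.integrableOn_Icc).mono_set Ioo_subset_Icc_self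
  rw [← ofReal_integral_eq_lintegral_ofReal hi, ← integral_Ioc_eq_integral_Ioo,
    ← intervalIntegral.integral_of_le (by linarith)]
  · congr 1
    have h1 := intervalIntegral.mul_integral_comp_mul_left (a := -1) (b := 1)
      (f := fun s : ℝ => (R ^ 2 - s ^ 2) ^ k * R) R
    rw [mul_neg, mul_one] at h1
    rw [← h1]
    have h2 : ∀ x : ℝ, (R ^ 2 - (R * x) ^ 2) ^ k * R = R ^ (2 * k + 1) * (1 - x ^ 2) ^ k := by
      intro x
      rw [show R ^ 2 - (R * x) ^ 2 = R ^ 2 * (1 - x ^ 2) by ring, mul_pow, ← pow_mul, pow_succ]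
      ring
    simp only [h2]
    rw [intervalIntegral.integral_const_mul]
    unfold Bk
    ring
  · refine (ae_restrict_iff' measurableSet_Ioo).2 (ae_of_all _ fun s hs => ?_)
    have h1 : s ^ 2 < R ^ 2 := sq_lt_sq' hs.1 hs.2
    exact mul_nonneg (pow_nonneg (by linarith) k) hR.le

/-- the centred squared profile of the section -/
private noncomputable def g5q (r : ℝ → ℝ) (a b ζ τ : ℝ) : ℝ := r (ζ - τ * b) ^ 2 - (τ * a) ^ 2

/-- half of its derivative -/
private noncomputable def g5D (r : ℝ → ℝ) (a b ζ τ : ℝ) : ℝ :=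
  -(b * (r (ζ - τ * b) * deriv r (ζ - τ * b))) - τ * a ^ 2

private noncomputable def g5G (k : ℕ) (r : ℝ → ℝ) (a b ζ τ : ℝ) : ℝ :=
  g5q r a b ζ τ ^ k * √(g5q r a b ζ τ + g5D r a b ζ τ ^ 2)

private def g5S (r : ℝ → ℝ) (A B a b ζ : ℝ) : Set ℝ := {τ | ζ - τ * b ∈ Ioo A B ∧ 0 < g5q r a b ζ τ}

section

variable {k : ℕ} {A B : ℝ} {r : ℝ → ℝ} {P : Polynomial ℝ} (h : Prof k A B r P)
include h

private theorem g5_cont_r : ContinuousOn r (Ioo A B) := fun _ hz =>
  (h.analytic hz).continuousAt.continuousWithinAt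

private theorem g5_cont_r' : ContinuousOn (deriv r) (Ioo A B) := fun _ hz =>
  (h.analytic hz).deriv.continuousAt.continuousWithinAt

private theorem g5_cont_q (a b ζ : ℝ) :
    ContinuousOn (g5q r a b ζ) {τ | ζ - τ * b ∈ Ioo A B} := by
  unfold g5q
  have h1 : ContinuousOn (fun τ : ℝ => r (ζ - τ * b)) {τ | ζ - τ * b ∈ Ioo A B} :=
    (g5_cont_r h).comp (by fun_prop) fun τ hτ => hτ
  exact (h1.pow 2).sub (by fun_prop)

private theorem g5_cont_D (a b ζ : ℝ) :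
    ContinuousOn (g5D r a b ζ) {τ | ζ - τ * b ∈ Ioo A B} := by
  unfold g5D
  have h1 : ContinuousOn (fun τ : ℝ => r (ζ - τ * b)) {τ | ζ - τ * b ∈ Ioo A B} :=
    (g5_cont_r h).comp (by fun_prop) fun τ hτ => hτ
  have h2 : ContinuousOn (fun τ : ℝ => deriv r (ζ - τ * b)) {τ | ζ - τ * b ∈ Ioo A B} :=
    (g5_cont_r' h).comp (by fun_prop) fun τ hτ => hτ
  exact ((continuousOn_const.mul (h1.mul h2)).neg).sub (by fun_prop)

private theorem g5_open (a b ζ : ℝ) : IsOpen (g5S r A B a b ζ) := by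
  have hU : IsOpen {τ : ℝ | ζ - τ * b ∈ Ioo A B} :=
    isOpen_Ioo.preimage (by fun_prop : Continuous fun τ : ℝ => ζ - τ * b)
  exact (g5_cont_q h a b ζ).isOpen_inter_preimage hU isOpen_Ioi

private theorem g5_meas (a b ζ : ℝ) :
    Measurable ((g5S r A B a b ζ).indicator fun τ => ENNReal.ofReal (g5G k r a b ζ τ)) := by
  have hsub : g5S r A B a b ζ ⊆ {τ | ζ - τ * b ∈ Ioo A B} := fun τ hτ => hτ.1
  have hq := (g5_cont_q h a b ζ).mono hsub
  have hD := (g5_cont_D h a b ζ).mono hsub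
  have hc : ContinuousOn (fun τ => ENNReal.ofReal (g5G k r a b ζ τ)) (g5S r A B a b ζ) := by
    refine ENNReal.continuous_ofReal.comp_continuousOn ?_
    exact (hq.pow k).mul (Real.continuous_sqrt.comp_continuousOn (hq.add (hD.pow 2)))
  classical
  rw [← Set.piecewise_eq_indicator]
  exact hc.measurable_piecewise continuousOn_const (g5_open h a b ζ).measurableSet

private theorem g5_hasDeriv {a b ζ τ : ℝ} (hτ : ζ - τ * b ∈ Ioo A B) :
    HasDerivAt (g5q r a b ζ) (2 * g5D r a b ζ τ) τ := by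
  have h1 : HasDerivAt (fun τ : ℝ => ζ - τ * b) (-b) τ := by
    have := ((hasDerivAt_id τ).mul_const b).const_sub ζ
    simpa using this
  have h2 : HasDerivAt r (deriv r (ζ - τ * b)) (ζ - τ * b) :=
    (h.analytic hτ).differentiableAt.hasDerivAt
  have h3 : HasDerivAt (fun τ : ℝ => r (ζ - τ * b)) (deriv r (ζ - τ * b) * -b) τ :=
    HasDerivAt.comp τ h2 h1
  have h4 : HasDerivAt (fun τ : ℝ => τ * a) a τ := by
    have := (hasDerivAt_id τ).mul_const a
    simpa using this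
  have h5 := (h3.pow 2).sub (h4.pow 2)
  refine h5.congr_deriv ?_
  unfold g5D
  push_cast
  ring

private theorem g5_isec {a b ζ : ℝ} (hab : a ^ 2 + b ^ 2 = 1) :
    Isec k r A B a b (a * ζ) =
      ∫⁻ τ, (g5S r A B a b ζ).indicator (fun τ => ENNReal.ofReal (g5G k r a b ζ τ)) τ := by
  have e1 : ∀ τ : ℝ, a * ζ * a - (-(b * ζ) + τ) * b = ζ - τ * b := fun τ => by
    linear_combination ζ * hab
  have e2 : ∀ τ : ℝ, a * ζ * b + (-(b * ζ) + τ) * a = τ * a := fun τ => by ring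
  have e3 : ∀ τ : ℝ, qsec r a b (a * ζ) (-(b * ζ) + τ) = g5q r a b ζ τ := by
    intro τ
    unfold qsec g5q
    rw [e1, e2]
  have e4 : ∀ τ : ℝ, deriv (qsec r a b (a * ζ)) (-(b * ζ) + τ) = deriv (g5q r a b ζ) τ := by
    intro τ
    have h1 : g5q r a b ζ = fun τ => qsec r a b (a * ζ) (-(b * ζ) + τ) := by
      funext τ
      rw [e3]
    rw [h1, deriv_comp_const_add]
  set S' : Set ℝ := {s : ℝ | a * ζ * a - s * b ∈ Ioo A B ∧ 0 < qsec r a b (a * ζ) s} with hS'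
  have hmem : ∀ τ : ℝ, -(b * ζ) + τ ∈ S' ↔ τ ∈ g5S r A B a b ζ := by
    intro τ
    rw [hS', mem_ofPred_eq, e1, e3]
    rfl
  have hpre : S' = (fun s : ℝ => s + b * ζ) ⁻¹' g5S r A B a b ζ := by
    ext s
    rw [mem_preimage, ← hmem]
    have : -(b * ζ) + (s + b * ζ) = s := by ring
    rw [this]
  have hmeas : MeasurableSet S' := by
    rw [hpre]
    exact (g5_open h a b ζ).measurableSet.preimage (measurable_id.add_const _)
  unfold Isec
  rw [← hS', ← lintegral_indicator hmeas, ← lintegral_add_left_eq_self _ (-(b * ζ))]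
  refine lintegral_congr fun τ => ?_
  by_cases hτ : τ ∈ g5S r A B a b ζ
  · rw [indicator_of_mem hτ, indicator_of_mem ((hmem τ).2 hτ), e3, e4, (g5_hasDeriv h hτ.1).deriv]
    unfold g5G
    congr 3
    ring
  · rw [indicator_of_notMem hτ, indicator_of_notMem (fun hc => hτ ((hmem τ).1 hc))]

private theorem g5_bound {ζ : ℝ} (hζ : ζ ∈ Ioo A B) (a b : ℕ → ℝ) (hab : ∀ n, a n ^ 2 + b n ^ 2 = 1)
    (hb : Tendsto b atTop (𝓝 0)) :
    ∃ M C : ℝ, ∀ᶠ n in atTop, ∀ τ,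
      (g5S r A B (a n) (b n) ζ).indicator (fun τ => ENNReal.ofReal (g5G k r (a n) (b n) ζ τ)) τ ≤
        (Icc (-M) M).indicator (fun _ => ENNReal.ofReal C) τ := by
  obtain ⟨M1, hM1⟩ := isCompact_Icc.bddAbove_image h.cont
  set M := max M1 1 with hM
  have hM0 : 0 < M := lt_of_lt_of_le one_pos (le_max_right _ _)
  have hrM : ∀ z ∈ Icc A B, r z ≤ M := fun z hz => (hM1 (mem_image_of_mem r hz)).trans (le_max_left _ _)
  obtain ⟨ε, hε, hball⟩ := Metric.isOpen_iff.1 isOpen_Ioo ζ hζ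
  have hcb : closedBall ζ (ε / 2) ⊆ Ioo A B :=
    (closedBall_subset_ball (by linarith)).trans hball
  obtain ⟨L, hL⟩ := (isCompact_closedBall ζ (ε / 2)).exists_bound_of_continuousOn
    ((g5_cont_r' h).mono hcb)
  have hL0 : 0 ≤ L := (norm_nonneg _).trans (hL ζ (mem_closedBall_self (by linarith)))
  refine ⟨2 * M, (M ^ 2) ^ k * √(M ^ 2 + (M * L + 2 * M) ^ 2), ?_⟩
  have hbabs : Tendsto (fun n => |b n|) atTop (𝓝 0) := by
    have := hb.abs
    rwa [abs_zero] at this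
  have hev : ∀ᶠ n in atTop, |b n| < min (ε / 2 / (2 * M)) (1 / 2) :=
    hbabs.eventually (gt_mem_nhds (lt_min (by positivity) (by norm_num)))
  filter_upwards [hev] with n hn
  intro τ
  by_cases hτ : τ ∈ g5S r A B (a n) (b n) ζ
  swap
  · rw [indicator_of_notMem hτ]
    exact zero_le
  have hb1 : |b n| < ε / 2 / (2 * M) := lt_of_lt_of_le hn (min_le_left _ _)
  have hb2 : |b n| < 1 / 2 := lt_of_lt_of_le hn (min_le_right _ _)
  have hbsq : b n ^ 2 ≤ 1 / 4 := by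
    rw [← sq_abs]
    nlinarith [abs_nonneg (b n)]
  have habn := hab n
  have ha1 : 3 / 4 ≤ a n ^ 2 := by linarith
  have ha2 : a n ^ 2 ≤ 1 := by nlinarith [sq_nonneg (b n)]
  have hτS := hτ
  obtain ⟨hz, hq⟩ := hτ
  have hzI : ζ - τ * b n ∈ Icc A B := Ioo_subset_Icc_self hz
  have hr0 := h.nonneg _ hzI
  have hrz := hrM _ hzI
  have hr2 : r (ζ - τ * b n) ^ 2 ≤ M ^ 2 := pow_le_pow_left₀ hr0 hrz 2
  have hτ2 : τ ^ 2 ≤ (2 * M) ^ 2 := by
    have h1 : (τ * a n) ^ 2 < M ^ 2 := by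
      unfold g5q at hq
      linarith
    rw [mul_pow] at h1
    nlinarith [sq_nonneg τ]
  have hτM : |τ| ≤ 2 * M := abs_le_of_sq_le_sq hτ2 (by positivity)
  have hzc : ζ - τ * b n ∈ closedBall ζ (ε / 2) := by
    rw [mem_closedBall, Real.dist_eq]
    have h1 : ζ - τ * b n - ζ = -(τ * b n) := by ring
    rw [h1, abs_neg, abs_mul]
    calc |τ| * |b n| ≤ (2 * M) * (ε / 2 / (2 * M)) :=
          mul_le_mul hτM hb1.le (abs_nonneg _) (by positivity)
      _ = ε / 2 := by field_simp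
  have hrd := hL _ hzc
  rw [Real.norm_eq_abs] at hrd
  have hD : |g5D r (a n) (b n) ζ τ| ≤ M * L + 2 * M := by
    unfold g5D
    have h1 : |b n * (r (ζ - τ * b n) * deriv r (ζ - τ * b n))| ≤ M * L := by
      rw [abs_mul, abs_mul, abs_of_nonneg hr0]
      have h2 : r (ζ - τ * b n) * |deriv r (ζ - τ * b n)| ≤ M * L :=
        mul_le_mul hrz hrd (abs_nonneg _) hM0.le
      have h3 : 0 ≤ r (ζ - τ * b n) * |deriv r (ζ - τ * b n)| := by positivity
      nlinarith [abs_nonneg (b n)]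
    have h2 : |τ * a n ^ 2| ≤ 2 * M := by
      rw [abs_mul, abs_of_nonneg (sq_nonneg (a n))]
      nlinarith [abs_nonneg τ, sq_nonneg (a n)]
    calc |-(b n * (r (ζ - τ * b n) * deriv r (ζ - τ * b n))) - τ * a n ^ 2|
        ≤ |-(b n * (r (ζ - τ * b n) * deriv r (ζ - τ * b n)))| + |τ * a n ^ 2| := abs_sub _ _
      _ ≤ M * L + 2 * M := by
          rw [abs_neg]
          linarith
  have hD2 : g5D r (a n) (b n) ζ τ ^ 2 ≤ (M * L + 2 * M) ^ 2 := by
    rw [← sq_abs]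
    exact pow_le_pow_left₀ (abs_nonneg _) hD 2
  have hqM : g5q r (a n) (b n) ζ τ ≤ M ^ 2 := by
    unfold g5q
    nlinarith [sq_nonneg (τ * a n)]
  have hmemI : τ ∈ Icc (-(2 * M)) (2 * M) := abs_le.1 hτM
  rw [indicator_of_mem hτS, indicator_of_mem hmemI]
  refine ENNReal.ofReal_le_ofReal ?_
  unfold g5G
  exact mul_le_mul (pow_le_pow_left₀ hq.le hqM k) (Real.sqrt_le_sqrt (by linarith))
    (Real.sqrt_nonneg _) (by positivity)

end

theorem Isec_limit {k : ℕ} {A B : ℝ} {r : ℝ → ℝ} {P : Polynomial ℝ} (h : Prof k A B r P)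
    {ζ : ℝ} (hζ : ζ ∈ Ioo A B) (a b : ℕ → ℝ) (hab : ∀ n, a n ^ 2 + b n ^ 2 = 1)
    (ha : Tendsto a atTop (𝓝 (-1))) (hb : Tendsto b atTop (𝓝 0)) :
    Tendsto (fun n => Isec k r A B (a n) (b n) (a n * ζ)) atTop
      (𝓝 (ENNReal.ofReal (Bk k * r ζ ^ (2 * k + 2)))) := by
  have hR : 0 < r ζ := h.pos ζ hζ
  have e0 : ∀ n, Isec k r A B (a n) (b n) (a n * ζ) = ∫⁻ τ, (g5S r A B (a n) (b n) ζ).indicator
      (fun τ => ENNReal.ofReal (g5G k r (a n) (b n) ζ τ)) τ := fun n => g5_isec h (hab n)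
  simp only [e0]
  rw [← g5_int k hR, ← lintegral_indicator measurableSet_Ioo]
  obtain ⟨M, C, hbd⟩ := g5_bound h hζ a b hab hb
  refine tendsto_lintegral_filter_of_dominated_convergence
    ((Icc (-M) M).indicator fun _ => ENNReal.ofReal C) (Eventually.of_forall fun n => g5_meas h _ _ _)
    (hbd.mono fun n hn => ae_of_all _ hn) ?_ ?_
  · rw [lintegral_indicator measurableSet_Icc, lintegral_const, Measure.restrict_apply_univ,
      Real.volume_Icc]
    exact ENNReal.mul_ne_top ENNReal.ofReal_ne_top ENNReal.ofReal_ne_top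
  -- pointwise limit
  have hnull : volume ({r ζ, -r ζ} : Set ℝ) = 0 := (Set.toFinite _).measure_zero _
  filter_upwards [compl_mem_ae_iff.2 hnull] with τ hτ
  have hτ1 : τ ≠ r ζ := fun hc => hτ (by rw [hc]; exact mem_insert _ _)
  have hτ2 : τ ≠ -r ζ := fun hc => hτ (by rw [hc]; exact mem_insert_of_mem _ rfl)
  have hzt : Tendsto (fun n => ζ - τ * b n) atTop (𝓝 ζ) := by
    have := (tendsto_const_nhds (x := ζ)).sub (hb.const_mul τ)
    rwa [mul_zero, sub_zero] at this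
  have hrt : Tendsto (fun n => r (ζ - τ * b n)) atTop (𝓝 (r ζ)) :=
    (h.analytic hζ).continuousAt.tendsto.comp hzt
  have hdt : Tendsto (fun n => deriv r (ζ - τ * b n)) atTop (𝓝 (deriv r ζ)) :=
    (h.analytic hζ).deriv.continuousAt.tendsto.comp hzt
  have hqt : Tendsto (fun n => g5q r (a n) (b n) ζ τ) atTop (𝓝 (r ζ ^ 2 - τ ^ 2)) := by
    have h1 := (hrt.pow 2).sub ((ha.const_mul τ).pow 2)
    have e : r ζ ^ 2 - (τ * -1) ^ 2 = r ζ ^ 2 - τ ^ 2 := by ring
    rw [e] at h1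
    exact h1
  have hDt : Tendsto (fun n => g5D r (a n) (b n) ζ τ) atTop (𝓝 (-τ)) := by
    have h1 := ((hb.mul (hrt.mul hdt)).neg).sub ((ha.pow 2).const_mul τ)
    have e : -(0 * (r ζ * deriv r ζ)) - τ * (-1) ^ 2 = -τ := by ring
    rw [e] at h1
    exact h1
  rcases lt_or_gt_of_ne (show τ ^ 2 ≠ r ζ ^ 2 from fun hc => by
      rcases sq_eq_sq_iff_eq_or_eq_neg.1 hc with h1 | h1
      · exact hτ1 h1
      · exact hτ2 h1) with hlt | hgt
  · have hmem : τ ∈ Ioo (-r ζ) (r ζ) := abs_lt.1 (abs_lt_of_sq_lt_sq hlt hR.le)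
    rw [indicator_of_mem hmem]
    have hev : ∀ᶠ n in atTop, τ ∈ g5S r A B (a n) (b n) ζ := by
      filter_upwards [hzt.eventually (isOpen_Ioo.mem_nhds hζ),
        hqt.eventually (lt_mem_nhds (show (0 : ℝ) < r ζ ^ 2 - τ ^ 2 by linarith))] with n h1 h2
      exact ⟨h1, h2⟩
    have hG : Tendsto (fun n => ENNReal.ofReal (g5G k r (a n) (b n) ζ τ)) atTop
        (𝓝 (ENNReal.ofReal ((r ζ ^ 2 - τ ^ 2) ^ k * r ζ))) := by
      refine (ENNReal.continuous_ofReal.tendsto _).comp ?_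
      have h1 := (hqt.pow k).mul ((Real.continuous_sqrt.tendsto _).comp (hqt.add (hDt.pow 2)))
      have e : √(r ζ ^ 2 - τ ^ 2 + (-τ) ^ 2) = r ζ := by
        rw [show r ζ ^ 2 - τ ^ 2 + (-τ) ^ 2 = r ζ ^ 2 by ring, Real.sqrt_sq hR.le]
      rw [e] at h1
      exact h1
    refine hG.congr' ?_
    filter_upwards [hev] with n hn
    rw [indicator_of_mem hn]
  · have hnm : τ ∉ Ioo (-r ζ) (r ζ) := by
      intro hc
      have := sq_lt_sq' hc.1 hc.2
      linarith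
    rw [indicator_of_notMem hnm]
    refine tendsto_const_nhds.congr' ?_
    filter_upwards [hqt.eventually (gt_mem_nhds (show r ζ ^ 2 - τ ^ 2 < 0 by linarith))] with n hn
    rw [indicator_of_notMem]
    intro hc
    exact absurd hc.2 (not_lt.2 hn.le)

end Pool.Agent.MP_c8a077_gt
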