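import Pool.Agent.Lib.MP_c8a077_gt.Defs

/-!
# JOB G6a: three lemmas on real polynomials

PROOF of `dvd_of_bound`.  Induction on `m`: if `(X - C t)^m` divides `Q`, `Q = (X-C t)^m Q₁`, and
`|Q(t+sε)| ≤ C ε^(m+1)` for small `ε > 0`, then `|Q₁(t+sε)| ≤ C ε/|s|^m → 0`, so `Q₁(t) = 0`.
PROOF of `poly_limit`.  `natDegree (Qn n) ≤ N`.  Choose `N+1` points in `(A,B)`; by Lagrange
interpolation `Qn n = ∑_i (Qn n).eval x_i • L_i` (`Lagrange.eq_interpolate`), so `Qn n` converges
coefficientwise to `Q = ∑_i P.eval x_i • L_i`, and `Q.eval ζ = lim (Qn n).eval ζ = P.eval ζ` on `(A,B)`,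
`Q = P`.  Then for every `j` `(derivative^[j] (Qn n)).eval (b n) → (derivative^[j] P).eval B`; the left
sides vanish for `j < m` (`(X - C (b n))^m ∣ Qn n`), so the right sides vanish and `(X - C B)^m ∣ P`
(`Polynomial.lt_rootMultiplicity_iff_isRoot_iterate_derivative` or similar, char 0).
PROOF of `even_poly`.  Write `Q = E(X²) + X O(X²)` (induction on polynomials).  `Q(t) = Q(-t)` gives
`t O(t²) = 0` for `0 < t < δ`, so `O = 0`.
-/

open MeasureTheory Set Metric Topology Filter

namespace Pool.Agent.MP_c8a077_gt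

theorem dvd_of_bound (Q : Polynomial ℝ) (t s C : ℝ) (hs : s ≠ 0) (m : ℕ)
    (h : ∃ᶠ ε in 𝓝[>] (0 : ℝ), |Q.eval (t + s * ε)| ≤ C * ε ^ m) :
    (Polynomial.X - Polynomial.C t) ^ m ∣ Q := by
  have key : ∀ k : ℕ, k ≤ m → (Polynomial.X - Polynomial.C t) ^ k ∣ Q := by
    intro k
    induction k with
    | zero => intro _; simp
    | succ k ih =>
      intro hk
      obtain ⟨Q₁, hQ₁⟩ := ih (by omega)
      have hfr : ∃ᶠ ε in 𝓝[>] (0 : ℝ), |Q₁.eval (t + s * ε)| ≤ C / |s| ^ k * ε ^ (m - k) := by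
        refine (h.and_eventually self_mem_nhdsWithin).mono ?_
        rintro ε ⟨h1, h2⟩
        have hε : 0 < ε := h2
        have h3 : Q.eval (t + s * ε) = (s * ε) ^ k * Q₁.eval (t + s * ε) := by
          rw [hQ₁]; simp
        rw [h3, abs_mul, abs_pow, abs_mul, abs_of_pos hε] at h1
        have h4 : (ε : ℝ) ^ m = ε ^ (m - k) * ε ^ k := by
          rw [← pow_add]; congr 1; omega
        rw [h4, mul_pow] at h1
        have hsk : 0 < |s| ^ k := pow_pos (abs_pos.mpr hs) k
        have hek : 0 < ε ^ k := pow_pos hε k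
        rw [div_mul_eq_mul_div, le_div_iff₀ hsk]
        have h5 : (|Q₁.eval (t + s * ε)| * |s| ^ k) * ε ^ k ≤ (C * ε ^ (m - k)) * ε ^ k := by
          calc (|Q₁.eval (t + s * ε)| * |s| ^ k) * ε ^ k
              = |s| ^ k * ε ^ k * |Q₁.eval (t + s * ε)| := by ring
            _ ≤ C * (ε ^ (m - k) * ε ^ k) := h1
            _ = (C * ε ^ (m - k)) * ε ^ k := by ring
        exact le_of_mul_le_mul_right h5 hek
      have hlim1 : Tendsto (fun ε : ℝ => |Q₁.eval (t + s * ε)| - C / |s| ^ k * ε ^ (m - k))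
          (𝓝[>] (0 : ℝ)) (𝓝 (|Q₁.eval (t + s * 0)| - C / |s| ^ k * (0 : ℝ) ^ (m - k))) := by
        have hc : Continuous (fun ε : ℝ => |Q₁.eval (t + s * ε)| - C / |s| ^ k * ε ^ (m - k)) := by
          have := Q₁.continuous
          fun_prop
        exact (hc.tendsto 0).mono_left nhdsWithin_le_nhds
      have h6 : |Q₁.eval (t + s * 0)| - C / |s| ^ k * (0 : ℝ) ^ (m - k) ≤ 0 :=
        le_of_tendsto_of_frequently hlim1 (hfr.mono fun ε hε => by linarith)
      have h7 : (0 : ℝ) ^ (m - k) = 0 := zero_pow (by omega)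
      simp only [h7, mul_zero, sub_zero, add_zero] at h6
      have h8 : Q₁.eval t = 0 := abs_nonpos_iff.mp h6
      obtain ⟨Q₂, hQ₂⟩ := Polynomial.dvd_iff_isRoot.mpr h8
      exact ⟨Q₂, by rw [hQ₁, hQ₂]; ring⟩
  exact key m le_rfl

theorem poly_limit (N m : ℕ) (Qn : ℕ → Polynomial ℝ) (hdeg : ∀ n, (Qn n).natDegree ≤ N)
    (P : Polynomial ℝ) (A B : ℝ) (hAB : A < B)
    (hlim : ∀ ζ ∈ Ioo A B, Tendsto (fun n => (Qn n).eval ζ) atTop (𝓝 (P.eval ζ)))
    (b : ℕ → ℝ) (hb : Tendsto b atTop (𝓝 B))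
    (hdiv : ∀ n, (Polynomial.X - Polynomial.C (b n)) ^ m ∣ Qn n) :
    (Polynomial.X - Polynomial.C B) ^ m ∣ P := by
  classical
  -- nodes
  obtain ⟨S, hS1, hS2⟩ := (Set.Ioo_infinite hAB).exists_subset_card_eq (N + 1)
  set v : ℝ → ℝ := fun x => x with hv
  have hinj : Set.InjOn v (S : Set ℝ) := fun x _ y _ h => h
  have hQn : ∀ n, Qn n = ∑ x ∈ S, Polynomial.C ((Qn n).eval x) * Lagrange.basis S v x := by
    intro n
    have h1 := Lagrange.eq_interpolate_of_eval_eq (s := S) (v := v) (f := Qn n)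
      (r := fun x => (Qn n).eval x) hinj (by
        rw [hS2]
        refine lt_of_le_of_lt Polynomial.degree_le_natDegree ?_
        have := hdeg n
        exact_mod_cast Nat.lt_succ_of_le this) (fun x _ => rfl)
    rw [Lagrange.interpolate_apply] at h1
    exact h1
  have hP : P = ∑ x ∈ S, Polynomial.C (P.eval x) * Lagrange.basis S v x := by
    refine Polynomial.eq_of_infinite_eval_eq _ _ ?_
    refine (Set.Ioo_infinite hAB).mono ?_
    intro ζ hζ
    have h1 := hlim ζ hζ
    have h2 : Tendsto (fun n => (Qn n).eval ζ) atTop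
        (𝓝 ((∑ x ∈ S, Polynomial.C (P.eval x) * Lagrange.basis S v x).eval ζ)) := by
      have h3 : (fun n => (Qn n).eval ζ) =
          fun n => ∑ x ∈ S, (Qn n).eval x * (Lagrange.basis S v x).eval ζ := by
        funext n
        conv_lhs => rw [hQn n]
        rw [Polynomial.eval_finsetSum]
        simp
      rw [h3, Polynomial.eval_finsetSum]
      refine tendsto_finsetSum _ fun x hx => ?_
      rw [Polynomial.eval_mul, Polynomial.eval_C]
      exact (hlim x (hS1 hx)).mul_const _
    exact tendsto_nhds_unique h1 h2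
  have hder : ∀ j : ℕ, Tendsto (fun n => (Polynomial.derivative^[j] (Qn n)).eval (b n)) atTop
      (𝓝 ((Polynomial.derivative^[j] P).eval B)) := by
    intro j
    have hlin : ∀ (c : ℝ → ℝ), Polynomial.derivative^[j]
        (∑ x ∈ S, Polynomial.C (c x) * Lagrange.basis S v x)
        = ∑ x ∈ S, Polynomial.C (c x) * Polynomial.derivative^[j] (Lagrange.basis S v x) := by
      intro c
      rw [Polynomial.iterate_derivative_sum]
      refine Finset.sum_congr rfl fun x _ => ?_
      rw [Polynomial.iterate_derivative_C_mul]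
    have h3 : (fun n => (Polynomial.derivative^[j] (Qn n)).eval (b n)) =
        fun n => ∑ x ∈ S, (Qn n).eval x *
          (Polynomial.derivative^[j] (Lagrange.basis S v x)).eval (b n) := by
      funext n
      conv_lhs => rw [hQn n, hlin]
      rw [Polynomial.eval_finsetSum]
      simp
    rw [h3]
    conv_rhs => rw [hP, hlin, Polynomial.eval_finsetSum]
    refine tendsto_finsetSum _ fun x hx => ?_
    rw [Polynomial.eval_mul, Polynomial.eval_C]
    exact (hlim x (hS1 hx)).mul
      (((Polynomial.derivative^[j] (Lagrange.basis S v x)).continuous.tendsto B).comp hb)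
  have hzero : ∀ j < m, (Polynomial.derivative^[j] P).eval B = 0 := by
    intro j hj
    have h1 : (fun n => (Polynomial.derivative^[j] (Qn n)).eval (b n)) = fun _ => (0 : ℝ) := by
      funext n
      have h2 : (Polynomial.X - Polynomial.C (b n)) ^ (m - j) ∣
          Polynomial.derivative^[j] (Qn n) := Polynomial.pow_sub_dvd_iterate_derivative_of_pow_dvd j (hdiv n)
      have h3 : (Polynomial.X - Polynomial.C (b n)) ∣ Polynomial.derivative^[j] (Qn n) :=
        (dvd_pow_self _ (by omega)).trans h2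
      exact Polynomial.dvd_iff_isRoot.mp h3
    have h4 := hder j
    rw [h1] at h4
    exact (tendsto_nhds_unique h4 tendsto_const_nhds)
  by_cases hP0 : P = 0
  · rw [hP0]; exact dvd_zero _
  · rcases Nat.eq_zero_or_pos m with hm | hm
    · rw [hm]; simp
    · have h5 : m - 1 < P.rootMultiplicity B :=
        Polynomial.lt_rootMultiplicity_of_isRoot_iterate_derivative hP0
          (fun j hj => hzero j (by omega))
      exact (Polynomial.le_rootMultiplicity_iff hP0).mp (by omega)

theorem g6a_split (Q : Polynomial ℝ) :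
    ∃ E O : Polynomial ℝ, ∀ t : ℝ, Q.eval t = E.eval (t ^ 2) + t * O.eval (t ^ 2) := by
  induction Q using Polynomial.induction_on' with
  | add p q hp hq =>
    obtain ⟨E1, O1, h1⟩ := hp
    obtain ⟨E2, O2, h2⟩ := hq
    refine ⟨E1 + E2, O1 + O2, fun t => ?_⟩
    rw [Polynomial.eval_add, h1, h2, Polynomial.eval_add, Polynomial.eval_add]
    ring
  | monomial n a =>
    rcases Nat.even_or_odd' n with ⟨k, hk | hk⟩
    · refine ⟨Polynomial.monomial k a, 0, fun t => ?_⟩
      simp [hk, Polynomial.eval_monomial, pow_mul]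
    · refine ⟨0, Polynomial.monomial k a, fun t => ?_⟩
      simp only [hk, Polynomial.eval_monomial, Polynomial.eval_zero]
      ring

theorem even_poly (Q : Polynomial ℝ) (δ : ℝ) (hδ : 0 < δ)
    (h : ∀ t ∈ Ioo (-δ) δ, Q.eval t = Q.eval (-t)) :
    ∃ T : Polynomial ℝ, ∀ t : ℝ, Q.eval t = T.eval (t ^ 2) := by
  obtain ⟨E, O, hEO⟩ := g6a_split Q
  have hO : O = 0 := by
    refine Polynomial.eq_zero_of_infinite_isRoot O ?_
    have hinf : (Set.Ioo (0 : ℝ) (δ ^ 2)).Infinite := Set.Ioo_infinite (by positivity)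
    refine hinf.mono ?_
    intro u hu
    set t := Real.sqrt u with ht
    have ht0 : 0 < t := Real.sqrt_pos.mpr hu.1
    have ht2 : t ^ 2 = u := Real.sq_sqrt hu.1.le
    have htδ : t < δ := by
      rw [ht, Real.sqrt_lt' hδ]
      exact hu.2
    have h1 := h t ⟨by linarith, htδ⟩
    rw [hEO t, hEO (-t)] at h1
    have h2 : (-t) ^ 2 = u := by rw [neg_sq, ht2]
    rw [h2, ht2] at h1
    have h3 : t * O.eval u = 0 := by linarith
    rcases mul_eq_zero.mp h3 with h4 | h4
    · exact absurd h4 ht0.ne'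
    · exact h4
  refine ⟨E, fun t => ?_⟩
  rw [hEO t, hO]
  simp

end Pool.Agent.MP_c8a077_gt
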