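import Pool.Agent.Lib.MP_c8a077_gt.G2
import Pool.Agent.Lib.MP_c8a077_gt.G3b
import Pool.Agent.Lib.MP_c8a077_gt.G4
import Pool.Agent.Lib.MP_c8a077_gt.G5
import Pool.Agent.Lib.MP_c8a077_gt.G6a
import Pool.Agent.Lib.MP_c8a077_gt.B4

/-!
# JOB G6: `P` vanishes to order at least `k+1` at `B`

PROOF.  For a slope `σ` put `β(σ) = -1/√(1+σ²)`, `α(σ) = σ/√(1+σ²)`; `α + βσ = 0`, `α² + β² = 1`, `β < 0`.
Choose `Q σ` = the polynomial of `hpoly (α σ) (β σ)`.  For `z ∈ Dch A B` of slope `σ = sl r z`: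
`t = α z.1 + β r z.1 = β(σ) * ic r z`, `Isec_chord` gives `Isec … t = ofReal (Sch k r z.1 z.2)`; the condition
of `hpoly` holds (midpoint of the chord), `Sch > 0` (`Sch_pos`), so `(Q σ).eval t = Sch k r z.1 z.2`.
(1) `chord_degree` with `F z = Sch k r z.1 z.2` (`Sch_analytic`), `g σ = (Q σ).comp (C (β σ) * X)`: a bound `N` for
`natDegree (Q (sl r z))`, `z ∈ Dch` (`natDegree_comp`, `β ≠ 0`).
(2) By `Prof.second` choose `z_n ∈ (A,B)`, `z_n > B - 1/(n+1)`, `deriv (deriv r) z_n < 0`; `σ_n = deriv r z_n`,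
`a_n = α(σ_n)`, `b_n = β(σ_n)`, `Q_n = Q σ_n`, `t_n = a_n z_n + b_n r z_n`.  `vanish_top` gives for small `ε > 0` chords of slope
`σ_n` with `t = t_n - b_n ε` and `|Q_n (t_n - b_n ε)| ≤ C ε^(k+1)`, so `natDegree Q_n ≤ N` and, by `dvd_of_bound`,
`(X - C t_n)^(k+1) ∣ Q_n`.
(3) Case 1: `σ_n` does not tend to `-∞`.  Then, `deriv r` being antitone on `(A,B)` and `z_n → B`, `deriv r ≥ -L` on
`(A,B)` for some `L > 0`, so `r z ≤ L (B - z)` and `0 ≤ P(B - ε) ≤ L^(2k+2) ε^(2k+2)`: done by `dvd_of_bound`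
with `t = B`, `s = -1`, (`ε^(2k+2) ≤ ε^(k+1)` for `ε ≤ 1`).
Case 2: `σ_n → -∞` (the sequence may be assumed such; `deriv r` antitone): `a_n → -1`, `b_n → 0`.  For
`ζ ∈ (A,B)`: `Isec_limit` gives `Isec k r A B a_n b_n (a_n ζ) → ofReal (Bk k * r ζ^(2k+2)) = ofReal (Bk k * P.eval ζ)`, and the left
side is `ofReal (Q_n.eval (a_n ζ))` (condition: `s = -b_n ζ` gives the point `(ζ,0)`).  The limit is positive, so
`Q_n.eval (a_n ζ) → Bk k * P.eval ζ`.  Apply `poly_limit` to `Q_n.comp (C a_n * X)` (degree `≤ N`, divisible by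
`(X - C (t_n/a_n))^(k+1)`, `t_n/a_n = z_n + (b_n/a_n) r z_n → B`), for `n` large so that `a_n ≠ 0`, and the polynomial
`C (Bk k) * P`; `Bk k ≠ 0` (`Bk_pos`).
-/

open MeasureTheory Set Metric Topology Filter

namespace Pool.Agent.MP_c8a077_gt

noncomputable section

/-- Second component of the normal of a line of slope `σ`. -/
def bet (σ : ℝ) : ℝ := -1 / √(1 + σ ^ 2)

/-- First component of the normal of a line of slope `σ`. -/
def alp (σ : ℝ) : ℝ := σ / √(1 + σ ^ 2)

end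

theorem bet_neg (σ : ℝ) : bet σ < 0 := by
  unfold bet
  have : 0 < √(1 + σ ^ 2) := Real.sqrt_pos.2 (by positivity)
  rw [neg_div]
  have := div_pos one_pos this
  linarith

theorem alp_eq (σ : ℝ) : alp σ = -(bet σ * σ) := by
  unfold alp bet; ring

theorem alp_bet (σ : ℝ) : alp σ ^ 2 + bet σ ^ 2 = 1 := by
  unfold alp bet
  have h : 0 < 1 + σ ^ 2 := by positivity
  rw [div_pow, div_pow, Real.sq_sqrt h.le]
  field_simp
  ring

private theorem key_eval {k : ℕ} {A B : ℝ} {r : ℝ → ℝ} {P : Polynomial ℝ} (h : Prof k A B r P)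
    (Q : ℝ → Polynomial ℝ)
    (hQ : ∀ σ t : ℝ, (∃ s, t * alp σ - s * bet σ ∈ Ioo A B ∧ 0 < qsec r (alp σ) (bet σ) t s) →
      Isec k r A B (alp σ) (bet σ) t = ENNReal.ofReal ((Q σ).eval t))
    (z : ℝ × ℝ) (hz : z ∈ Dch A B) :
    (Q (sl r z)).eval (bet (sl r z) * ic r z) = Sch k r z.1 z.2 := by
  obtain ⟨h1, h12, h2⟩ := hz
  have hne : z.2 - z.1 ≠ 0 := by linarith [sub_pos.2 h12]
  have hsl : r z.2 - r z.1 = sl r z * (z.2 - z.1) := by
    unfold sl; field_simp
  have hdir : alp (sl r z) * (z.2 - z.1) + bet (sl r z) * (r z.2 - r z.1) = 0 := by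
    rw [hsl, alp_eq]; ring
  have hI := Isec_chord h h1 h12 h2 (bet_neg (sl r z)) (alp_bet (sl r z)) hdir
  have ht : alp (sl r z) * z.1 + bet (sl r z) * r z.1 = bet (sl r z) * ic r z := by
    rw [alp_eq]; unfold ic; ring
  rw [ht] at hI
  have hpos := Sch_pos h h1 h12 h2
  have hex : ∃ s, (bet (sl r z) * ic r z) * alp (sl r z) - s * bet (sl r z) ∈ Ioo A B ∧
      0 < qsec r (alp (sl r z)) (bet (sl r z)) (bet (sl r z) * ic r z) s := by
    by_contra hcon
    have hempty : {s : ℝ | (bet (sl r z) * ic r z) * alp (sl r z) - s * bet (sl r z) ∈ Ioo A B ∧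
      0 < qsec r (alp (sl r z)) (bet (sl r z)) (bet (sl r z) * ic r z) s} = ∅ := by
      ext s
      simp only [mem_empty_iff_false, iff_false]
      exact fun hs => hcon ⟨s, hs⟩
    have h0 : Isec k r A B (alp (sl r z)) (bet (sl r z)) (bet (sl r z) * ic r z) = 0 := by
      unfold Isec
      rw [hempty]; simp
    rw [h0] at hI
    have := ENNReal.ofReal_pos.2 hpos
    rw [← hI] at this
    exact lt_irrefl _ this
  have hI2 := hQ (sl r z) (bet (sl r z) * ic r z) hex
  rw [hI2] at hI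
  have hQpos : 0 < (Q (sl r z)).eval (bet (sl r z) * ic r z) := by
    have := ENNReal.ofReal_pos.2 hpos
    rw [← hI] at this
    exact ENNReal.ofReal_pos.1 this
  exact (ENNReal.ofReal_eq_ofReal_iff hQpos.le hpos.le).1 hI

private theorem div_and_deg {k : ℕ} {A B : ℝ} {r : ℝ → ℝ} {P : Polynomial ℝ} (h : Prof k A B r P)
    (Q : ℝ → Polynomial ℝ)
    (hkey : ∀ z ∈ Dch A B, (Q (sl r z)).eval (bet (sl r z) * ic r z) = Sch k r z.1 z.2)
    (N : ℕ) (hN : ∀ z ∈ Dch A B, (Q (sl r z)).natDegree ≤ N)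
    {zs : ℝ} (hzs : zs ∈ Ioo A B) (hneg : deriv (deriv r) zs < 0) :
    (Q (deriv r zs)).natDegree ≤ N ∧
    (Polynomial.X - Polynomial.C (alp (deriv r zs) * zs + bet (deriv r zs) * r zs)) ^ (k + 1) ∣
      Q (deriv r zs) := by
  obtain ⟨C, hC, ε₀, hε₀, hch⟩ := vanish_top h hzs hneg
  set σ := deriv r zs with hσ
  have hslope : ∀ ε ∈ Ioo 0 ε₀, ∃ z ∈ Dch A B, sl r z = σ ∧ ic r z = r zs - σ * zs - ε ∧
      Sch k r z.1 z.2 ≤ C * ε ^ (k + 1) := by
    intro ε hε
    obtain ⟨z₁, z₂, hA, h1, h2, hB, he1, he2, hS⟩ := hch ε hε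
    have h12 : z₁ < z₂ := h1.trans h2
    have hs : sl r (z₁, z₂) = σ := by
      unfold sl
      simp only
      rw [div_eq_iff (by linarith [sub_pos.2 h12] : z₂ - z₁ ≠ 0)]
      linarith
    refine ⟨(z₁, z₂), ⟨hA, h12, hB⟩, hs, ?_, hS⟩
    unfold ic
    rw [hs]
    exact he1
  constructor
  · obtain ⟨z, hz, hs, _, _⟩ := hslope (ε₀ / 2) ⟨by linarith, by linarith⟩
    have := hN z hz
    rwa [hs] at this
  · apply dvd_of_bound (Q σ) _ (-bet σ) C (by linarith [bet_neg σ]) (k + 1)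
    apply Filter.Eventually.frequently
    have hmem : Ioo (0 : ℝ) ε₀ ∈ 𝓝[>] (0 : ℝ) := Ioo_mem_nhdsGT hε₀
    filter_upwards [hmem] with ε hε
    obtain ⟨z, hz, hs, hi, hS⟩ := hslope ε hε
    have h1 := hkey z hz
    rw [hs, hi] at h1
    have h2 : alp σ * zs + bet σ * r zs + -bet σ * ε = bet σ * (r zs - σ * zs - ε) := by
      rw [alp_eq]; ring
    rw [h2, h1, abs_of_pos (Sch_pos h hz.1 hz.2.1 hz.2.2)]
    exact hS

private theorem bet_tendsto {σ : ℕ → ℝ} (hσ : Tendsto σ atTop atBot) :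
    Tendsto (fun n => bet (σ n)) atTop (𝓝 0) := by
  have h1 : Tendsto (fun n => √(1 + σ n ^ 2)) atTop atTop := by
    apply tendsto_atTop_mono (f := fun n => -σ n)
    · intro n
      apply Real.le_sqrt_of_sq_le
      nlinarith
    · exact tendsto_neg_atBot_atTop.comp hσ
  have h2 := h1.inv_tendsto_atTop
  have h3 := h2.neg
  rw [neg_zero] at h3
  refine h3.congr (fun n => ?_)
  unfold bet
  simp only [Pi.inv_apply]
  ring

private theorem alp_tendsto {σ : ℕ → ℝ} (hσ : Tendsto σ atTop atBot) :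
    Tendsto (fun n => alp (σ n)) atTop (𝓝 (-1)) := by
  have hb := bet_tendsto hσ
  have h1 : Tendsto (fun n => -√(1 - bet (σ n) ^ 2)) atTop (𝓝 (-√(1 - (0 : ℝ) ^ 2))) :=
    ((tendsto_const_nhds.sub (hb.pow 2)).sqrt).neg
  have h2 : (-√(1 - (0 : ℝ) ^ 2)) = -1 := by norm_num
  rw [h2] at h1
  refine h1.congr' ?_
  filter_upwards [hσ.eventually_le_atBot 0] with n hn
  have h3 : 1 - bet (σ n) ^ 2 = alp (σ n) ^ 2 := by linarith [alp_bet (σ n)]
  rw [h3, Real.sqrt_sq_eq_abs]
  have h4 : alp (σ n) ≤ 0 := by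
    rw [alp_eq]
    have := bet_neg (σ n)
    nlinarith
  rw [abs_of_nonpos h4, neg_neg]

theorem oblique {k : ℕ} {A B : ℝ} {r : ℝ → ℝ} {P : Polynomial ℝ} (h : Prof k A B r P)
    (hpoly : ∀ α β : ℝ, α ^ 2 + β ^ 2 = 1 → β ≠ 0 → ∃ Q : Polynomial ℝ, ∀ t : ℝ,
      (∃ s, t * α - s * β ∈ Ioo A B ∧ 0 < qsec r α β t s) →
      Isec k r A B α β t = ENNReal.ofReal (Q.eval t)) :
    (Polynomial.X - Polynomial.C B) ^ (k + 1) ∣ P := by
  choose Q hQ using fun σ : ℝ => hpoly (alp σ) (bet σ) (alp_bet σ) (bet_neg σ).ne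
  have hkey := fun z hz => key_eval h Q hQ z hz
  -- the degree bound
  obtain ⟨N, hN⟩ : ∃ N : ℕ, ∀ z ∈ Dch A B, (Q (sl r z)).natDegree ≤ N := by
    obtain ⟨N, hN⟩ := chord_degree h (fun z => Sch k r z.1 z.2) (Sch_analytic h)
      (fun σ => (Q σ).comp (Polynomial.C (bet σ) * Polynomial.X))
      (by
        intro z hz
        simp only [Polynomial.eval_comp, Polynomial.eval_mul, Polynomial.eval_C,
          Polynomial.eval_X]
        exact (hkey z hz).symm)
    refine ⟨N, fun z hz => ?_⟩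
    have h1 := hN z hz
    rw [Polynomial.natDegree_comp, Polynomial.natDegree_C_mul_X _ (bet_neg _).ne, mul_one] at h1
    exact h1
  have hdd := fun (zs : ℝ) (hzs : zs ∈ Ioo A B) (hneg : deriv (deriv r) zs < 0) =>
    div_and_deg h Q hkey N hN hzs hneg
  by_cases hL : ∃ L : ℝ, ∀ z ∈ Ioo A B, -L ≤ deriv r z
  · -- case 1
    obtain ⟨L₀, hL₀⟩ := hL
    set L := max L₀ 0 with hLdef
    have hL0 : 0 ≤ L := le_max_right _ _
    have hLz : ∀ z ∈ Ioo A B, r z ≤ L * (B - z) := by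
      intro z hz
      obtain ⟨ξ, hξ, hs⟩ := exists_deriv_eq_slope r hz.2
        (h.cont.mono (Icc_subset_Icc hz.1.le le_rfl))
        (fun x hx => (h.analytic ⟨hz.1.trans hx.1, hx.2⟩).differentiableAt.differentiableWithinAt)
      have h1 := hL₀ ξ ⟨hz.1.trans hξ.1, hξ.2⟩
      rw [h.rB, zero_sub] at hs
      have h2 : 0 < B - z := sub_pos.2 hz.2
      rw [hs, le_div_iff₀ h2] at h1
      have h3 : L₀ * (B - z) ≤ L * (B - z) :=
        mul_le_mul_of_nonneg_right (le_max_left _ _) h2.le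
      linarith
    apply dvd_of_bound P B (-1) (L ^ (2 * k + 2)) (by norm_num) (k + 1)
    apply Filter.Eventually.frequently
    have hmem : Ioo (0 : ℝ) (min 1 (B - A)) ∈ 𝓝[>] (0 : ℝ) :=
      Ioo_mem_nhdsGT (lt_min one_pos (sub_pos.2 h.hAB))
    filter_upwards [hmem] with ε hε
    have hε1 : ε < 1 := lt_of_lt_of_le hε.2 (min_le_left _ _)
    have hε2 : ε < B - A := lt_of_lt_of_le hε.2 (min_le_right _ _)
    have hz : B + -1 * ε ∈ Ioo A B := ⟨by linarith, by linarith [hε.1]⟩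
    rw [h.hP _ (Ioo_subset_Icc_self hz), abs_of_nonneg (pow_nonneg (h.pos _ hz).le _)]
    have h1 := hLz _ hz
    have h2 : L * (B - (B + -1 * ε)) = L * ε := by ring
    rw [h2] at h1
    calc r (B + -1 * ε) ^ (2 * k + 2) ≤ (L * ε) ^ (2 * k + 2) :=
          pow_le_pow_left₀ (h.pos _ hz).le h1 _
      _ = L ^ (2 * k + 2) * ε ^ (2 * k + 2) := by rw [mul_pow]
      _ ≤ L ^ (2 * k + 2) * ε ^ (k + 1) := by
          apply mul_le_mul_of_nonneg_left _ (by positivity)
          exact pow_le_pow_of_le_one hε.1.le hε1.le (by omega)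
  · -- case 2
    push Not at hL
    choose zn hznI hznB hzn2 using fun n : ℕ => h.second (1 / ((n : ℝ) + 1)) (by positivity)
    have hznlim : Tendsto zn atTop (𝓝 B) := by
      have h1 : Tendsto (fun n : ℕ => B - 1 / ((n : ℝ) + 1)) atTop (𝓝 (B - 0)) :=
        tendsto_const_nhds.sub tendsto_one_div_add_atTop_nhds_zero_nat
      rw [sub_zero] at h1
      exact tendsto_of_tendsto_of_tendsto_of_le_of_le h1 tendsto_const_nhds
        (fun n => (hznB n).le) (fun n => (hznI n).2.le)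
    set σ : ℕ → ℝ := fun n => deriv r (zn n) with hσ
    have hσlim : Tendsto σ atTop atBot := by
      rw [tendsto_atBot]
      intro M
      obtain ⟨z', hz', hz'2⟩ := hL (-M)
      rw [neg_neg] at hz'2
      filter_upwards [hznlim.eventually_const_lt hz'.2] with n hn
      exact (h.strictAnti hz' (hznI n) hn).le.trans hz'2.le
    have hb := bet_tendsto hσlim
    have ha := alp_tendsto hσlim
    have hval : ∀ ζ ∈ Ioo A B, Tendsto (fun n => (Q (σ n)).eval (alp (σ n) * ζ)) atTop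
        (𝓝 (Bk k * r ζ ^ (2 * k + 2))) := by
      intro ζ hζ
      have h1 := Isec_limit h hζ (fun n => alp (σ n)) (fun n => bet (σ n))
        (fun n => alp_bet (σ n)) ha hb
      have hLpos : 0 < Bk k * r ζ ^ (2 * k + 2) :=
        mul_pos (Bk_pos k) (pow_pos (h.pos ζ hζ) _)
      have h2 : ∀ n, Isec k r A B (alp (σ n)) (bet (σ n)) (alp (σ n) * ζ) =
          ENNReal.ofReal ((Q (σ n)).eval (alp (σ n) * ζ)) := by
        intro n
        apply hQ
        refine ⟨-bet (σ n) * ζ, ?_, ?_⟩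
        · have : alp (σ n) * ζ * alp (σ n) - -bet (σ n) * ζ * bet (σ n) = ζ := by
            linear_combination ζ * alp_bet (σ n)
          rw [this]; exact hζ
        · unfold qsec
          have e1 : alp (σ n) * ζ * alp (σ n) - -bet (σ n) * ζ * bet (σ n) = ζ := by
            linear_combination ζ * alp_bet (σ n)
          have e2 : alp (σ n) * ζ * bet (σ n) + -bet (σ n) * ζ * alp (σ n) = 0 := by ring
          rw [e1, e2]
          have := pow_pos (h.pos ζ hζ) 2
          linarith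
      simp only [h2] at h1
      have h3 := (ENNReal.tendsto_toReal ENNReal.ofReal_ne_top).comp h1
      rw [ENNReal.toReal_ofReal hLpos.le] at h3
      have h4 : Tendsto (fun n => max ((Q (σ n)).eval (alp (σ n) * ζ)) 0) atTop
          (𝓝 (Bk k * r ζ ^ (2 * k + 2))) := by
        refine h3.congr (fun n => ?_)
        simp only [Function.comp]
        rw [ENNReal.toReal_ofReal']
      refine h4.congr' ?_
      filter_upwards [h4.eventually_const_lt hLpos] with n hn
      rcases le_total ((Q (σ n)).eval (alp (σ n) * ζ)) 0 with h5 | h5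
      · rw [max_eq_right h5] at hn
        exact absurd hn (lt_irrefl _)
      · rw [max_eq_left h5]
    obtain ⟨n₀, hn₀⟩ : ∃ n₀ : ℕ, ∀ n, n₀ ≤ n → alp (σ n) < 0 :=
      eventually_atTop.1 (ha.eventually_lt_const (by norm_num : (-1 : ℝ) < 0))
    have hshift : Tendsto (fun n : ℕ => n + n₀) atTop atTop := tendsto_add_atTop_nat n₀
    have hfin := poly_limit N (k + 1)
      (fun n => (Q (σ (n + n₀))).comp (Polynomial.C (alp (σ (n + n₀))) * Polynomial.X))
      (by
        intro n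
        rw [Polynomial.natDegree_comp,
          Polynomial.natDegree_C_mul_X _ (hn₀ _ (Nat.le_add_left _ _)).ne, mul_one]
        exact (hdd _ (hznI _) (hzn2 _)).1)
      (Polynomial.C (Bk k) * P) A B h.hAB
      (by
        intro ζ hζ
        simp only [Polynomial.eval_comp, Polynomial.eval_mul, Polynomial.eval_C,
          Polynomial.eval_X]
        rw [h.hP ζ (Ioo_subset_Icc_self hζ)]
        exact (hval ζ hζ).comp hshift)
      (fun n => zn (n + n₀) + bet (σ (n + n₀)) / alp (σ (n + n₀)) * r (zn (n + n₀)))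
      (by
        have h1 : Tendsto (fun n => r (zn n)) atTop (𝓝 (r B)) := by
          have hcw : ContinuousWithinAt r (Icc A B) B := h.cont B ⟨h.hAB.le, le_rfl⟩
          exact hcw.tendsto.comp (tendsto_nhdsWithin_iff.2
            ⟨hznlim, Eventually.of_forall (fun n => Ioo_subset_Icc_self (hznI n))⟩)
        have h2 : Tendsto (fun n => zn n + bet (σ n) / alp (σ n) * r (zn n)) atTop
            (𝓝 (B + 0 / (-1) * r B)) :=
          hznlim.add ((hb.div ha (by norm_num)).mul h1)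
        rw [h.rB, mul_zero, add_zero] at h2
        exact h2.comp hshift)
      (by
        intro n
        have hn := hn₀ (n + n₀) (Nat.le_add_left _ _)
        have hdiv := (hdd _ (hznI (n + n₀)) (hzn2 (n + n₀))).2
        obtain ⟨S, hS⟩ := hdiv
        have h1 : Q (σ (n + n₀)) = (Polynomial.X - Polynomial.C
          (alp (σ (n + n₀)) * zn (n + n₀) + bet (σ (n + n₀)) * r (zn (n + n₀)))) ^ (k + 1) * S := hS
        rw [h1, Polynomial.mul_comp, Polynomial.pow_comp]
        apply Dvd.dvd.mul_right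
        apply pow_dvd_pow_of_dvd
        refine ⟨Polynomial.C (alp (σ (n + n₀))), ?_⟩
        rw [Polynomial.sub_comp, Polynomial.X_comp, Polynomial.C_comp, sub_mul,
          mul_comm Polynomial.X, ← Polynomial.C_mul]
        congr 2
        have := hn.ne
        field_simp)
    have hu : IsUnit (Polynomial.C (Bk k) : Polynomial ℝ) :=
      Polynomial.isUnit_C.2 (IsUnit.mk0 _ (Bk_pos k).ne')
    exact (hu.dvd_mul_left).1 hfin

end Pool.Agent.MP_c8a077_gt
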