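import Pool.Agent.Lib.MP_c8a077_gt.Core0
import Pool.Agent.Lib.MP_c8a077_gt.G6
import Pool.Agent.Lib.MP_c8a077_gt.F3

/-!
# JOB Core: the analytic core: the squared profile is a quadratic polynomial

PROOF.  (1) `oblique` gives `(X - C B)^(k+1) ∣ P`; `oblique` for the reflected profile (`Prof.neg`,
`Isec_reflect`, and `qsec (fun z => r (-z)) α β t s = qsec r (-α) β t (-s)` for the condition) gives
`(X - C (-A))^(k+1) ∣ P.comp (-X)`, hence `(X - C A)^(k+1) ∣ P`.  Coprime (`A ≠ B`), so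
`P = ((X-A)(B-X))^(k+1) R` for a polynomial `R` (sign absorbed).
(2) For `z ∈ (A,B)`: `P z = r z^(2k+2) ≥ (κ (z-A)(B-z))^(k+1)`, so `R z ≥ κ^(k+1)`; by continuity `R ≥ κ^(k+1) > 0`
on `[A,B]`.  `pR_eq`: `pR = r²` on `[A,B]`.
(3) `z₀` from `Prof.max`.  On `(A,B)` `deriv (pR) = 2 r r'` (eventually equal functions), so with `pR_deriv`
`dpoly > 0` on `(A,z₀)` and `< 0` on `(z₀,B)`; `dpoly(A) = (k+1)(B-A)R(A) > 0`, `dpoly(B) < 0`.
(4) `hpoly 0 1` gives `Q` with `Isec k r A B 0 1 t = ofReal (Q.eval t)` for `t² < M = r(z₀)²` (take `s = -z₀`).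
`Isec k r A B 0 1 t` is symmetric in `t` and positive for `t² < M` (`Isec_vertical`: positive integrand on a
set of positive measure), so `Q.eval t = Q.eval (-t)` for `|t| < r z₀`; `even_poly`: `Q.eval t = T.eval (t²)`.
With `w = t²`, `t = √w`: the hypothesis `hT` of `core_regular` (on `(A,B)` `r² = pR` and the derivatives agree).
(5) `core_regular`: `R = C ρ` with `ρ > 0`, so `r² = pR = (z-A)(B-z) ρ^(1/(k+1))` on `[A,B]`.
-/

open MeasureTheory Set Metric Topology Filter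

namespace Pool.Agent.MP_c8a077_gt

open Polynomial in
private theorem core_dvd_neg (P : Polynomial ℝ) (A : ℝ) (m : ℕ)
    (h : (X - C (-A)) ^ m ∣ P.comp (-X)) : (X - C A) ^ m ∣ P := by
  obtain ⟨S, hS⟩ := h
  have h1 : P = (P.comp (-X)).comp (-X) := by
    rw [comp_assoc]; simp
  have h2 : ((X - C (-A)) ^ m : Polynomial ℝ).comp (-X) = (-1) ^ m * (X - C A) ^ m := by
    rw [← mul_pow]
    simp only [pow_comp, sub_comp, X_comp, C_comp]
    congr 1
    rw [map_neg]; ring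
  rw [h1, hS, mul_comp, h2]
  exact Dvd.intro_left ((-1) ^ m * S.comp (-X)) (by ring)

open Polynomial in
private theorem core_factor (P : Polynomial ℝ) (A B : ℝ) (m : ℕ) (hAB : A < B)
    (hA : (X - C A) ^ m ∣ P) (hB : (X - C B) ^ m ∣ P) :
    ∃ R : Polynomial ℝ, ∀ z, P.eval z = ((z - A) * (B - z)) ^ m * R.eval z := by
  have hco : IsCoprime ((X - C A) ^ m : Polynomial ℝ) ((X - C B) ^ m) := by
    apply IsCoprime.pow
    apply isCoprime_X_sub_C_of_isUnit_sub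
    exact (sub_ne_zero.mpr hAB.ne).isUnit
  obtain ⟨S, hS⟩ := hco.mul_dvd hA hB
  refine ⟨C ((-1) ^ m) * S, fun z => ?_⟩
  rw [hS]
  simp only [eval_mul, eval_pow, eval_sub, eval_X, eval_C]
  have : (B - z) = (-1) * (z - B) := by ring
  rw [this, mul_pow, mul_pow, ← mul_pow (-1 : ℝ)]
  have h1 : ((-1 : ℝ) ^ m) * (-1) ^ m = 1 := by
    rw [← mul_pow]; norm_num
  calc (z - A) ^ m * (z - B) ^ m * eval z S
      = ((-1 : ℝ) ^ m * (-1) ^ m) * ((z - A) ^ m * (z - B) ^ m * eval z S) := by rw [h1, one_mul]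
    _ = _ := by rw [mul_pow]; ring

private theorem core_Rpos {k : ℕ} {A B : ℝ} {r : ℝ → ℝ} {P R : Polynomial ℝ}
    (h : Prof k A B r P) (κ : ℝ) (hκ : 0 < κ)
    (hquad : ∀ z ∈ Icc A B, κ * ((z - A) * (B - z)) ≤ r z ^ 2)
    (hPR : ∀ z, P.eval z = ((z - A) * (B - z)) ^ (k + 1) * R.eval z) :
    ∀ z ∈ Icc A B, 0 < R.eval z := by
  have h1 : ∀ z ∈ Ioo A B, κ ^ (k + 1) ≤ R.eval z := by
    intro z hz
    have hz' : z ∈ Icc A B := Ioo_subset_Icc_self hz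
    have hw : 0 < (z - A) * (B - z) := mul_pos (sub_pos.mpr hz.1) (sub_pos.mpr hz.2)
    have h2 : (κ * ((z - A) * (B - z))) ^ (k + 1) ≤ (r z ^ 2) ^ (k + 1) :=
      pow_le_pow_left₀ (mul_pos hκ hw).le (hquad z hz') _
    have h3 : (r z ^ 2) ^ (k + 1) = ((z - A) * (B - z)) ^ (k + 1) * R.eval z := by
      rw [← hPR z, h.hP z hz', ← pow_mul]
      congr 1
    rw [h3, mul_pow, mul_comm] at h2
    exact le_of_mul_le_mul_left h2 (pow_pos hw _)
  have hcl : IsClosed {z : ℝ | κ ^ (k + 1) ≤ R.eval z} :=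
    isClosed_le continuous_const R.continuous
  have h2 : Icc A B ⊆ {z : ℝ | κ ^ (k + 1) ≤ R.eval z} := by
    rw [← closure_Ioo h.hAB.ne]
    exact hcl.closure_subset_iff.mpr h1
  intro z hz
  exact lt_of_lt_of_le (pow_pos hκ _) (h2 hz)

private theorem core_deriv {k : ℕ} {A B : ℝ} {r : ℝ → ℝ} {P R : Polynomial ℝ}
    (h : Prof k A B r P)
    (hPR : ∀ z, P.eval z = ((z - A) * (B - z)) ^ (k + 1) * R.eval z)
    (hR : ∀ z ∈ Icc A B, 0 < R.eval z) {z : ℝ} (hz : z ∈ Ioo A B) :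
    deriv (pR k A B R) z = deriv (fun z => r z ^ 2) z := by
  apply Filter.EventuallyEq.deriv_eq
  filter_upwards [isOpen_Ioo.mem_nhds hz] with y hy
  exact pR_eq h hPR hR (Ioo_subset_Icc_self hy)

private theorem core_sign {k : ℕ} {A B : ℝ} {r : ℝ → ℝ} {P R : Polynomial ℝ}
    (h : Prof k A B r P)
    (hPR : ∀ z, P.eval z = ((z - A) * (B - z)) ^ (k + 1) * R.eval z)
    (hR : ∀ z ∈ Icc A B, 0 < R.eval z) {z : ℝ} (hz : z ∈ Ioo A B) :
    ∃ c : ℝ, 0 < c ∧ c * (dpoly k A B R).eval z = 2 * r z * deriv r z := by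
  have h1 := pR_deriv k A B R (hR z (Ioo_subset_Icc_self hz))
  have hd : DifferentiableAt ℝ r z := (h.analytic hz).differentiableAt
  have h2 : deriv (fun z => r z ^ 2) z = 2 * r z * deriv r z := by
    have h3 := (hd.hasDerivAt.fun_pow 2).deriv
    rw [h3]
    simp
  rw [core_deriv h hPR hR hz, h2] at h1
  refine ⟨_, ?_, h1.symm⟩
  have := Real.rpow_pos_of_pos (hR z (Ioo_subset_Icc_self hz)) ((1 : ℝ) / (k + 1) - 1)
  positivity

private theorem core_open {k : ℕ} {A B : ℝ} {r : ℝ → ℝ} {P : Polynomial ℝ}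
    (h : Prof k A B r P) (w : ℝ) : IsOpen {z | z ∈ Ioo A B ∧ w < r z ^ 2} := by
  have hc : ContinuousOn (fun z => r z ^ 2) (Ioo A B) :=
    (h.cont.mono Ioo_subset_Icc_self).pow 2
  exact hc.isOpen_inter_preimage isOpen_Ioo isOpen_Ioi

private theorem core_pos {k : ℕ} {A B : ℝ} {r : ℝ → ℝ} {P : Polynomial ℝ}
    (h : Prof k A B r P) {z₀ t : ℝ} (hz : z₀ ∈ Ioo A B) (ht : t ^ 2 < r z₀ ^ 2) :
    Isec k r A B 0 1 t ≠ 0 := by
  rw [Isec_vertical]
  obtain ⟨w, hw1, hw2⟩ := exists_between ht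
  have ho := core_open h w
  have hmem : z₀ ∈ {z | z ∈ Ioo A B ∧ w < r z ^ 2} := ⟨hz, hw2⟩
  have hpos : 0 < volume {z | z ∈ Ioo A B ∧ w < r z ^ 2} :=
    ho.measure_pos volume ⟨z₀, hmem⟩
  have hsub : {z | z ∈ Ioo A B ∧ w < r z ^ 2} ⊆ {z | z ∈ Ioo A B ∧ t ^ 2 < r z ^ 2} :=
    fun z hz => ⟨hz.1, hw1.trans hz.2⟩
  have hη : 0 < w - t ^ 2 := sub_pos.mpr hw1
  have hc : 0 < ENNReal.ofReal ((w - t ^ 2) ^ k * √(w - t ^ 2)) := by
    rw [ENNReal.ofReal_pos]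
    exact mul_pos (pow_pos hη k) (Real.sqrt_pos.mpr hη)
  have h1 : ENNReal.ofReal ((w - t ^ 2) ^ k * √(w - t ^ 2)) *
      volume {z | z ∈ Ioo A B ∧ w < r z ^ 2} ≤
      ∫⁻ z in {z | z ∈ Ioo A B ∧ t ^ 2 < r z ^ 2},
        ENNReal.ofReal ((r z ^ 2 - t ^ 2) ^ k *
          √(r z ^ 2 - t ^ 2 + (deriv (fun z => r z ^ 2) z) ^ 2 / 4)) := by
    rw [← setLIntegral_const]
    refine le_trans ?_ (lintegral_mono_set hsub)
    refine setLIntegral_mono' ho.measurableSet ?_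
    intro z hz
    apply ENNReal.ofReal_le_ofReal
    have h2 : w - t ^ 2 ≤ r z ^ 2 - t ^ 2 := by linarith [hz.2]
    apply mul_le_mul (pow_le_pow_left₀ hη.le h2 k) _ (Real.sqrt_nonneg _)
      (pow_nonneg (hη.le.trans h2) k)
    apply Real.sqrt_le_sqrt
    nlinarith [sq_nonneg (deriv (fun z => r z ^ 2) z)]
  intro h0
  rw [h0] at h1
  have h2 := le_antisymm h1 zero_le
  rcases mul_eq_zero.mp h2 with h3 | h3
  · exact hc.ne' h3
  · exact hpos.ne' h3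

private theorem core_T {k : ℕ} {A B : ℝ} {r : ℝ → ℝ} {P R : Polynomial ℝ}
    (h : Prof k A B r P)
    (hPR : ∀ z, P.eval z = ((z - A) * (B - z)) ^ (k + 1) * R.eval z)
    (hR : ∀ z ∈ Icc A B, 0 < R.eval z) {z₀ : ℝ} (hz₀ : z₀ ∈ Ioo A B) (Q : Polynomial ℝ)
    (hQ : ∀ t : ℝ, (∃ s, t * 0 - s * 1 ∈ Ioo A B ∧ 0 < qsec r 0 1 t s) →
      Isec k r A B 0 1 t = ENNReal.ofReal (Q.eval t)) :
    ∃ T : Polynomial ℝ, ∀ w ∈ Ioo 0 (pR k A B R z₀),
      ∫⁻ z in {z | z ∈ Ioo A B ∧ w < pR k A B R z},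
        ENNReal.ofReal ((pR k A B R z - w) ^ k *
          √(pR k A B R z - w + (deriv (pR k A B R) z) ^ 2 / 4)) =
      ENNReal.ofReal (T.eval w) := by
  have hr0 : 0 < r z₀ := h.pos z₀ hz₀
  have hcond : ∀ t : ℝ, t ^ 2 < r z₀ ^ 2 → Isec k r A B 0 1 t = ENNReal.ofReal (Q.eval t) := by
    intro t ht
    apply hQ
    refine ⟨-z₀, by simpa using hz₀, ?_⟩
    have e1 : t * 0 - -z₀ * 1 = z₀ := by ring
    have e2 : t * 1 + -z₀ * 0 = t := by ring
    rw [qsec, e1, e2]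
    linarith
  have hsq : ∀ t ∈ Ioo (-(r z₀)) (r z₀), t ^ 2 < r z₀ ^ 2 := by
    intro t ht
    exact sq_lt_sq' ht.1 ht.2
  have heven : ∀ t ∈ Ioo (-(r z₀)) (r z₀), Q.eval t = Q.eval (-t) := by
    intro t ht
    have ht2 := hsq t ht
    have ht2' : (-t) ^ 2 < r z₀ ^ 2 := by rwa [neg_sq]
    have h1 := hcond t ht2
    have h2 := hcond (-t) ht2'
    have h3 : Isec k r A B 0 1 t = Isec k r A B 0 1 (-t) := by
      rw [Isec_vertical, Isec_vertical, neg_sq]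
    have h4 : 0 < Q.eval t := by
      rw [← ENNReal.ofReal_pos, ← h1]
      exact pos_iff_ne_zero.mpr (core_pos h hz₀ ht2)
    have h5 : 0 < Q.eval (-t) := by
      rw [← ENNReal.ofReal_pos, ← h2]
      exact pos_iff_ne_zero.mpr (core_pos h hz₀ ht2')
    rw [h1, h2] at h3
    exact (ENNReal.ofReal_eq_ofReal_iff h4.le h5.le).mp h3
  obtain ⟨T, hT⟩ := even_poly Q (r z₀) hr0 heven
  refine ⟨T, fun w hw => ?_⟩
  rw [pR_eq h hPR hR (Ioo_subset_Icc_self hz₀)] at hw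
  have hs : √w ^ 2 = w := Real.sq_sqrt hw.1.le
  have h1 := hcond (√w) (by rw [hs]; exact hw.2)
  rw [hT, hs, Isec_vertical, hs] at h1
  rw [← h1]
  have hset : {z | z ∈ Ioo A B ∧ w < pR k A B R z} = {z | z ∈ Ioo A B ∧ w < r z ^ 2} := by
    ext z
    constructor
    · rintro ⟨hz, hz2⟩
      exact ⟨hz, by rwa [pR_eq h hPR hR (Ioo_subset_Icc_self hz)] at hz2⟩
    · rintro ⟨hz, hz2⟩
      exact ⟨hz, by rwa [pR_eq h hPR hR (Ioo_subset_Icc_self hz)]⟩
  rw [hset]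
  refine setLIntegral_congr_fun (core_open h w).measurableSet ?_
  intro z hz
  simp only
  rw [pR_eq h hPR hR (Ioo_subset_Icc_self hz.1), core_deriv h hPR hR hz.1]

theorem core {k : ℕ} {A B : ℝ} {r : ℝ → ℝ} {P : Polynomial ℝ} (h : Prof k A B r P)
    (κ : ℝ) (hκ : 0 < κ) (hquad : ∀ z ∈ Icc A B, κ * ((z - A) * (B - z)) ≤ r z ^ 2)
    (hpoly : ∀ α β : ℝ, α ^ 2 + β ^ 2 = 1 → β ≠ 0 → ∃ Q : Polynomial ℝ, ∀ t : ℝ,
      (∃ s, t * α - s * β ∈ Ioo A B ∧ 0 < qsec r α β t s) →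
      Isec k r A B α β t = ENNReal.ofReal (Q.eval t)) :
    ∃ κ' : ℝ, ∀ z ∈ Icc A B, r z ^ 2 = κ' * ((z - A) * (B - z)) := by
  -- divisibility
  have hdB : (Polynomial.X - Polynomial.C B) ^ (k + 1) ∣ P := oblique h hpoly
  have hdA' : (Polynomial.X - Polynomial.C (-A)) ^ (k + 1) ∣ P.comp (-Polynomial.X) := by
    refine oblique h.neg ?_
    intro α β hαβ hβ
    obtain ⟨Q, hQ⟩ := hpoly (-α) β (by rw [neg_sq]; exact hαβ) hβ
    refine ⟨Q, fun t ht => ?_⟩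
    obtain ⟨s, hs1, hs2⟩ := ht
    rw [Isec_reflect]
    apply hQ
    have e1 : t * -α - -s * β = -(t * α - s * β) := by ring
    refine ⟨-s, ?_, ?_⟩
    · rw [e1]
      exact ⟨by linarith [hs1.2], by linarith [hs1.1]⟩
    · have e2 : t * β + -s * -α = t * β + s * α := by ring
      rw [qsec, e1, e2]
      exact hs2
  have hdA := core_dvd_neg P A (k + 1) hdA'
  obtain ⟨R, hPR⟩ := core_factor P A B (k + 1) h.hAB hdA hdB
  have hR := core_Rpos h κ hκ hquad hPR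
  obtain ⟨z₀, hz₀, -, hup, hdown⟩ := h.max
  have hAR := hR A ⟨le_refl _, h.hAB.le⟩
  have hBR := hR B ⟨h.hAB.le, le_refl _⟩
  have hk : (0 : ℝ) < (k : ℝ) + 1 := by positivity
  have hpos : ∀ z ∈ Ico A z₀, 0 < (dpoly k A B R).eval z := by
    intro z hz
    rcases hz.1.eq_or_lt with h1 | h1
    · subst h1
      have : (dpoly k A B R).eval A = ((k : ℝ) + 1) * (B - A) * R.eval A := by
        simp only [dpoly, Polynomial.eval_add, Polynomial.eval_mul, Polynomial.eval_sub,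
          Polynomial.eval_C, Polynomial.eval_X, Polynomial.eval_ofNat]
        ring
      rw [this]
      exact mul_pos (mul_pos hk (sub_pos.mpr h.hAB)) hAR
    · have hz' : z ∈ Ioo A B := ⟨h1, hz.2.trans hz₀.2⟩
      obtain ⟨c, hc, hce⟩ := core_sign h hPR hR hz'
      have h2 : 0 < 2 * r z * deriv r z :=
        mul_pos (mul_pos two_pos (h.pos z hz')) (hup z ⟨h1, hz.2⟩)
      rw [← hce] at h2
      exact (mul_pos_iff_of_pos_left hc).mp h2
  have hneg : ∀ z ∈ Ioc z₀ B, (dpoly k A B R).eval z < 0 := by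
    intro z hz
    rcases hz.2.eq_or_lt with h1 | h1
    · subst h1
      have : (dpoly k A z R).eval z = -(((k : ℝ) + 1) * (z - A) * R.eval z) := by
        simp only [dpoly, Polynomial.eval_add, Polynomial.eval_mul, Polynomial.eval_sub,
          Polynomial.eval_C, Polynomial.eval_X, Polynomial.eval_ofNat]
        ring
      rw [this]
      exact neg_neg_of_pos (mul_pos (mul_pos hk (sub_pos.mpr h.hAB)) hBR)
    · have hz' : z ∈ Ioo A B := ⟨hz₀.1.trans hz.1, h1⟩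
      obtain ⟨c, hc, hce⟩ := core_sign h hPR hR hz'
      have h2 : 2 * r z * deriv r z < 0 :=
        mul_neg_of_pos_of_neg (mul_pos two_pos (h.pos z hz')) (hdown z ⟨hz.1, h1⟩)
      rw [← hce] at h2
      exact neg_of_mul_neg_right h2 hc.le
  obtain ⟨Q, hQ⟩ := hpoly 0 1 (by norm_num) one_ne_zero
  obtain ⟨T, hT⟩ := core_T h hPR hR hz₀ Q hQ
  have hdeg := core_regular k A B z₀ R hz₀.1 hz₀.2 hR hpos hneg T hT
  have hRC := Polynomial.eq_C_of_natDegree_eq_zero hdeg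
  refine ⟨(R.coeff 0) ^ ((1 : ℝ) / (k + 1)), fun z hz => ?_⟩
  rw [← pR_eq h hPR hR hz, pR]
  have : R.eval z = R.coeff 0 := by
    rw [hRC]; simp
  rw [this]; ring

end Pool.Agent.MP_c8a077_gt
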