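import Pool.Agent.Lib.MP_c8a077_gt.G0

/-!
# JOB Core0: reflection of `Isec`, the section orthogonal to the axis

PROOF of `Isec_reflect`.  `qsec (fun z => r (-z)) α β t s = r(-(tα - sβ))² - (tβ+sα)²
 = qsec r (-α) β t (-s)`; substitute `s ↦ -s` in the `lintegral` (measure preserving), `deriv` changes sign.
PROOF of `Isec_vertical`.  `α = 0, β = 1`: `qsec r 0 1 t s = r(-s)² - t²`; substitute `z = -s`;
`deriv` of `s ↦ r(-s)² - t²` at `-z` is `-(deriv (fun z => r z ^ 2) z)`.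
PROOF of `pR_eq`.  `P = ((X-A)(B-X))^(k+1) R` on `[A,B]`, `P = r^(2k+2)`, so
`(r²)^(k+1) = ((z-A)(B-z))^(k+1) R z = (pR z)^(k+1)`, both `r²` and `pR` nonnegative: equal.
-/

open MeasureTheory Set Metric Topology Filter

namespace Pool.Agent.MP_c8a077_gt

/-- The substitution `s ↦ -s` in a `lintegral` over a set. -/
theorem lint_neg_core0 (F : ℝ → ENNReal) (S S' : Set ℝ) (hS : ∀ s, s ∈ S' ↔ -s ∈ S) :
    ∫⁻ s in S', F (-s) = ∫⁻ s in S, F s := by
  have hmp : MeasurePreserving (fun z : ℝ => -z) volume volume :=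
    Measure.measurePreserving_neg volume
  have hme : MeasurableEmbedding (fun z : ℝ => -z) := (MeasurableEquiv.neg ℝ).measurableEmbedding
  have key := hmp.setLIntegral_comp_preimage_emb hme F S
  have hset : (fun z : ℝ => -z) ⁻¹' S = S' := by
    ext z
    exact (hS z).symm
  rw [hset] at key
  exact key

theorem Isec_reflect (k : ℕ) (r : ℝ → ℝ) (A B α β t : ℝ) :
    Isec k (fun z => r (-z)) (-B) (-A) α β t = Isec k r A B (-α) β t := by
  have hq : qsec (fun z => r (-z)) α β t = fun s => qsec r (-α) β t (-s) := by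
    funext s
    unfold qsec
    have h1 : t * -α - -s * β = -(t * α - s * β) := by ring
    have h2 : t * β + -s * -α = t * β + s * α := by ring
    rw [h1, h2]
  have hd : ∀ s, deriv (fun s => qsec r (-α) β t (-s)) s = -deriv (qsec r (-α) β t) (-s) :=
    fun s => deriv_comp_neg (qsec r (-α) β t) s
  unfold Isec
  rw [hq]
  rw [← lint_neg_core0 (fun s => ENNReal.ofReal (qsec r (-α) β t s ^ k *
      √(qsec r (-α) β t s + (deriv (qsec r (-α) β t) s) ^ 2 / 4)))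
    {s : ℝ | t * -α - s * β ∈ Ioo A B ∧ 0 < qsec r (-α) β t s}
    {s : ℝ | t * α - s * β ∈ Ioo (-B) (-A) ∧ 0 < qsec r (-α) β t (-s)}]
  · congr 1
    funext s
    rw [hd, neg_sq]
  · intro s
    simp only [mem_ofPred_eq, mem_Ioo]
    constructor
    · rintro ⟨⟨a, b⟩, c⟩
      exact ⟨⟨by linarith, by linarith⟩, c⟩
    · rintro ⟨⟨a, b⟩, c⟩
      exact ⟨⟨by linarith, by linarith⟩, c⟩

theorem Isec_vertical (k : ℕ) (r : ℝ → ℝ) (A B t : ℝ) :
    Isec k r A B 0 1 t =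
      ∫⁻ z in {z | z ∈ Ioo A B ∧ t ^ 2 < r z ^ 2},
        ENNReal.ofReal ((r z ^ 2 - t ^ 2) ^ k *
          √(r z ^ 2 - t ^ 2 + (deriv (fun z => r z ^ 2) z) ^ 2 / 4)) := by
  have hq : qsec r 0 1 t = fun s => (fun z => r z ^ 2 - t ^ 2) (-s) := by
    funext s
    unfold qsec
    have h1 : t * 0 - s * 1 = -s := by ring
    have h2 : t * 1 + s * 0 = t := by ring
    rw [h1, h2]
  have hd : ∀ s, deriv (fun s => (fun z => r z ^ 2 - t ^ 2) (-s)) s =
      -deriv (fun z => r z ^ 2) (-s) := fun s => by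
    have h1 := deriv_comp_neg (fun z => r z ^ 2 - t ^ 2) s
    rw [h1, deriv_sub_const]
  unfold Isec
  rw [hq]
  rw [← lint_neg_core0 (fun z => ENNReal.ofReal ((r z ^ 2 - t ^ 2) ^ k *
          √(r z ^ 2 - t ^ 2 + (deriv (fun z => r z ^ 2) z) ^ 2 / 4)))
    {z | z ∈ Ioo A B ∧ t ^ 2 < r z ^ 2}
    {s : ℝ | t * 0 - s * 1 ∈ Ioo A B ∧ 0 < (fun z => r z ^ 2 - t ^ 2) (-s)}]
  · congr 1
    funext s
    rw [hd, neg_sq]
  · intro s
    simp only [mem_ofPred_eq, mem_Ioo]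
    constructor
    · rintro ⟨⟨a, b⟩, c⟩
      exact ⟨⟨by linarith, by linarith⟩, by linarith⟩
    · rintro ⟨⟨a, b⟩, c⟩
      exact ⟨⟨by linarith, by linarith⟩, by linarith⟩

theorem pR_eq {k : ℕ} {A B : ℝ} {r : ℝ → ℝ} {P R : Polynomial ℝ} (h : Prof k A B r P)
    (hPR : ∀ z, P.eval z = ((z - A) * (B - z)) ^ (k + 1) * R.eval z)
    (hR : ∀ z ∈ Icc A B, 0 < R.eval z) {z : ℝ} (hz : z ∈ Icc A B) :
    pR k A B R z = r z ^ 2 := by
  have hR0 := hR z hz
  have h1 : ((R.eval z) ^ ((1 : ℝ) / (k + 1))) ^ (k + 1) = R.eval z := by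
    have h2 := Real.rpow_inv_natCast_pow (n := k + 1) hR0.le (Nat.succ_ne_zero k)
    have h3 : (((k + 1 : ℕ) : ℝ))⁻¹ = (1 : ℝ) / (k + 1) := by push_cast; rw [one_div]
    rw [h3] at h2
    exact h2
  have hnn : 0 ≤ pR k A B R z := by
    unfold pR
    have h3 : 0 ≤ z - A := by linarith [hz.1]
    have h4 : 0 ≤ B - z := by linarith [hz.2]
    have h5 : 0 < (R.eval z) ^ ((1 : ℝ) / (k + 1)) := Real.rpow_pos_of_pos hR0 _
    positivity
  have hpow : pR k A B R z ^ (k + 1) = (r z ^ 2) ^ (k + 1) := by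
    unfold pR
    rw [mul_pow, h1, ← hPR, h.hP z hz, ← pow_mul]
    congr 1
  exact (pow_left_inj₀ hnn (sq_nonneg _) (Nat.succ_ne_zero k)).1 hpow

end Pool.Agent.MP_c8a077_gt
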