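import Mathlib

/-!
# MP_c8a077_gt: basic definitions

Sections of convex bodies by parallel hyperplanes, their surface areas, bodies of revolution,
and the one-dimensional integrals used in the proof.
-/

open MeasureTheory Set Metric Topology Filter

namespace Pool.Agent.MP_c8a077_gt

noncomputable section

/-- `ℝⁿ` with its Euclidean structure. -/
abbrev E (n : ℕ) := EuclideanSpace ℝ (Fin n)

/-- The hyperplane `H_{u,t} = {x : ⟨x,u⟩ = t}`. -/
def hyper {n : ℕ} (u : E n) (t : ℝ) : Set (E n) := {x | inner ℝ x u = t}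

/-- `S_{K,u}(t)`: the `(n-2)`-dimensional Euclidean Hausdorff measure (surface area) of the
boundary of the section `K ∩ H_{u,t}`, the boundary being taken inside the hyperplane. -/
def surfSec {n : ℕ} (K : Set (E n)) (u : E n) (t : ℝ) : ENNReal :=
  μHE[n - 2] (frontier ((↑) ⁻¹' K : Set (hyper u t)))

/-- `K` is surface-area polynomially integrable: for every unit vector `u` the function
`t ↦ S_{K,u}(t)` coincides with a polynomial on the set of those `t` for which `H_{u,t}`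
meets `K`. -/
def SurfPolyInt {n : ℕ} (K : Set (E n)) : Prop :=
  ∀ u : E n, ‖u‖ = 1 → ∃ P : Polynomial ℝ, ∀ t : ℝ, (K ∩ hyper u t).Nonempty →
    surfSec K u t = ENNReal.ofReal (P.eval t)

/-- The boundary of `K` is a `C²` hypersurface: near each of its points it is the zero set of a
`C²` function whose differential does not vanish at that point. -/
def C2Boundary {n : ℕ} (K : Set (E n)) : Prop :=
  ∀ x ∈ frontier K, ∃ g : E n → ℝ, ContDiff ℝ 2 g ∧ fderiv ℝ g x ≠ 0 ∧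
    ∀ᶠ y in 𝓝 x, (y ∈ frontier K ↔ g y = 0)

/-- `K` is a body of revolution: there are a point `c` and a unit vector `e` such that `K` is
invariant under every linear isometry about `c` fixing `e`. -/
def IsRevolution {n : ℕ} (K : Set (E n)) : Prop :=
  ∃ c e : E n, ‖e‖ = 1 ∧ ∀ g : E n ≃ₗᵢ[ℝ] E n, g e = e → ∀ x ∈ K, c + g (x - c) ∈ K

/-- `K` is an ellipsoid: an affine image of the closed unit ball. -/
def IsEllipsoid {n : ℕ} (K : Set (E n)) : Prop :=
  ∃ (L : E n ≃ₗ[ℝ] E n) (c : E n), K = (fun x => c + L x) '' closedBall 0 1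

/-- Surface of revolution with profile `f` over the set `J`, around the line spanned by the
unit vector `v`. -/
def surf {W : Type*} [NormedAddCommGroup W] [InnerProductSpace ℝ W] (v : W) (f : ℝ → ℝ)
    (J : Set ℝ) : Set W :=
  {x | inner ℝ x v ∈ J ∧ ‖x - (inner ℝ x v : ℝ) • v‖ = f (inner ℝ x v)}

/-- The profile of the section of `{(z,y) : |y| ≤ r z}` by the line direction `(-β, α)` at
distance `t`. -/
def qsec (r : ℝ → ℝ) (α β t s : ℝ) : ℝ :=
  r (t * α - s * β) ^ 2 - (t * β + s * α) ^ 2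

/-- The one-dimensional integral which gives (up to a constant) the surface area of the section
of the body of revolution with profile `r` on `[A,B]` in `ℝ^(2k+4)`. -/
def Isec (k : ℕ) (r : ℝ → ℝ) (A B α β t : ℝ) : ENNReal :=
  ∫⁻ s in {s : ℝ | t * α - s * β ∈ Ioo A B ∧ 0 < qsec r α β t s},
    ENNReal.ofReal (qsec r α β t s ^ k * √(qsec r α β t s + (deriv (qsec r α β t) s) ^ 2 / 4))

/-- The coefficients of the polynomial `Q_k` with
`∂ₓ^(k+1) (x^k √(x+a)) = Q_k(x,a) / ((x+a)^k √(x+a))`. -/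
def hc : ℕ → ℕ → ℝ
  | 0, 0 => 1 / 2
  | 0, (_ + 1) => 0
  | (k + 1), 0 => (k + 2) * hc k 0
  | (k + 1), (i + 1) => (i + 3 / 2) * hc k i + (k + i + 3) * hc k (i + 1)

/-- `Hk k x a = ∂ₓ^(k+1) (x^k √(x+a))`. -/
def Hk (k : ℕ) (x a : ℝ) : ℝ :=
  (∑ i ∈ Finset.range (k + 1), hc k i * x ^ i * a ^ (k - i)) / ((x + a) ^ k * √(x + a))

/-- The function `Φ_D(w) = ∫_{z ∈ D, p z > w} Hk (p z - w) (p'(z)²/4) dz`. -/
def PhiD (k : ℕ) (p : ℝ → ℝ) (D : Set ℝ) (w : ℝ) : ℝ :=
  ∫ z in {z | z ∈ D ∧ w < p z}, Hk k (p z - w) ((deriv p z) ^ 2 / 4)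

/-- The (real-analytic) extension of the squared profile: `(z-A)(B-z) R(z)^(1/(k+1))`. -/
def pR (k : ℕ) (A B : ℝ) (R : Polynomial ℝ) (z : ℝ) : ℝ :=
  (z - A) * (B - z) * (R.eval z) ^ ((1 : ℝ) / (k + 1))

/-- The polynomial which has the sign of the derivative of `pR`. -/
def dpoly (k : ℕ) (A B : ℝ) (R : Polynomial ℝ) : Polynomial ℝ :=
  Polynomial.C ((k : ℝ) + 1) * (Polynomial.C (A + B) - 2 * Polynomial.X) * R +
    (Polynomial.X - Polynomial.C A) * (Polynomial.C B - Polynomial.X) * Polynomial.derivative R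

/-- Area of the section through the chord from `(z₁, r z₁)` to `(z₂, r z₂)`. -/
def qch (r : ℝ → ℝ) (z₁ z₂ x : ℝ) : ℝ :=
  r (z₁ + x * (z₂ - z₁)) ^ 2 - (r z₁ + x * (r z₂ - r z₁)) ^ 2

/-- Area of the section through the chord from `(z₁, r z₁)` to `(z₂, r z₂)`. -/
def Sch (k : ℕ) (r : ℝ → ℝ) (z₁ z₂ : ℝ) : ℝ :=
  ∫ x in (0 : ℝ)..1, qch r z₁ z₂ x ^ k *
    √(((z₂ - z₁) ^ 2 + (r z₂ - r z₁) ^ 2) * qch r z₁ z₂ x + (deriv (qch r z₁ z₂) x) ^ 2 / 4)

/-- `∫_{-1}^{1} (1-x²)^k dx`. -/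
def Bk (k : ℕ) : ℝ := ∫ x in (-1 : ℝ)..1, (1 - x ^ 2) ^ k

end

end Pool.Agent.MP_c8a077_gt
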