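import Pool.Agent.Lib.MP_c8a077_gt.Defs

/-!
# JOB HkA: the kernel `Hk`: positivity of the coefficients, two-sided bound, analyticity

PROOF.  `hc_pos`, `hc_zero`: induction on `k` from the recursion.
`Hk_bounds`: for `x, a ≥ 0` compare `∑ hc k i x^i a^(k-i)` with the binomial expansion
`(x+a)^k = ∑ choose k i x^i a^(k-i)`: with `c = min_i hc k i / choose k i` (or `min hc / 2^k`) and
`C = max_i hc k i` we get `c (x+a)^k ≤ ∑ ≤ C (x+a)^k`.
`Hk_analytic`: polynomial divided by a nonvanishing analytic function; `√` is analytic at positive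
reals (`Real.contDiffAt_sqrt` with exponent `ω`, or `Real.analyticAt_sqrt` if it exists).
-/

open MeasureTheory Set Metric Topology Filter

namespace Pool.Agent.MP_c8a077_gt

private theorem hkA_zero : ∀ (k i : ℕ), k < i → hc k i = 0
  | 0, 0, h => absurd h (lt_irrefl _)
  | 0, (_ + 1), _ => by rw [hc]
  | (k + 1), 0, h => absurd h (Nat.not_lt_zero _)
  | (k + 1), (i + 1), h => by
    rw [hc, hkA_zero k i (by omega), hkA_zero k (i + 1) (by omega), mul_zero, mul_zero, add_zero]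

private theorem hkA_pos : ∀ (k i : ℕ), i ≤ k → 0 < hc k i
  | 0, 0, _ => by
    rw [hc]
    norm_num
  | 0, (i + 1), h => absurd h (Nat.not_succ_le_zero i)
  | (k + 1), 0, _ => by
    rw [hc]
    have h1 := hkA_pos k 0 (Nat.zero_le _)
    positivity
  | (k + 1), (i + 1), h => by
    rw [hc]
    have h1 := hkA_pos k i (by omega)
    have h2 : 0 ≤ hc k (i + 1) := by
      rcases Nat.lt_or_ge k (i + 1) with h3 | h3
      · rw [hkA_zero k (i + 1) h3]
      · exact (hkA_pos k (i + 1) h3).le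
    positivity

private theorem hkA_num (k : ℕ) : ∃ c > 0, ∃ C > 0, ∀ x a : ℝ, 0 ≤ x → 0 ≤ a →
    c * (x + a) ^ k ≤ ∑ i ∈ Finset.range (k + 1), hc k i * x ^ i * a ^ (k - i) ∧
      ∑ i ∈ Finset.range (k + 1), hc k i * x ^ i * a ^ (k - i) ≤ C * (x + a) ^ k := by
  have hne : (Finset.range (k + 1)).Nonempty := ⟨0, Finset.mem_range.2 (Nat.succ_pos k)⟩
  obtain ⟨i0, hi0, hmin⟩ := Finset.exists_min_image (Finset.range (k + 1)) (fun i => hc k i) hne
  have h0 : 0 < hc k i0 := hkA_pos k i0 (by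
    have := Finset.mem_range.1 hi0
    omega)
  have hC : 0 < ∑ i ∈ Finset.range (k + 1), hc k i :=
    Finset.sum_pos (fun i hi => hkA_pos k i (by
      have := Finset.mem_range.1 hi
      omega)) hne
  refine ⟨hc k i0 / 2 ^ k, by positivity, ∑ i ∈ Finset.range (k + 1), hc k i, hC, ?_⟩
  intro x a hx ha
  rw [add_pow, Finset.mul_sum, Finset.mul_sum]
  constructor
  · refine Finset.sum_le_sum fun i hi => ?_
    have h1 : ((k.choose i : ℕ) : ℝ) ≤ 2 ^ k := by
      exact_mod_cast Nat.choose_le_two_pow k i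
    have h2 : hc k i0 / 2 ^ k * ((k.choose i : ℕ) : ℝ) ≤ hc k i := by
      calc hc k i0 / 2 ^ k * ((k.choose i : ℕ) : ℝ) ≤ hc k i0 / 2 ^ k * 2 ^ k :=
            mul_le_mul_of_nonneg_left h1 (by positivity)
        _ = hc k i0 := div_mul_cancel₀ _ (by positivity)
        _ ≤ hc k i := hmin i hi
    have h3 : 0 ≤ x ^ i * a ^ (k - i) := by positivity
    calc hc k i0 / 2 ^ k * (x ^ i * a ^ (k - i) * ((k.choose i : ℕ) : ℝ))
        = (hc k i0 / 2 ^ k * ((k.choose i : ℕ) : ℝ)) * (x ^ i * a ^ (k - i)) := by ring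
      _ ≤ hc k i * (x ^ i * a ^ (k - i)) := mul_le_mul_of_nonneg_right h2 h3
      _ = hc k i * x ^ i * a ^ (k - i) := by ring
  · refine Finset.sum_le_sum fun i hi => ?_
    have hik : i ≤ k := by
      have := Finset.mem_range.1 hi
      omega
    have h1 : (1 : ℝ) ≤ ((k.choose i : ℕ) : ℝ) := by
      exact_mod_cast Nat.choose_pos hik
    have h2 : hc k i ≤ ∑ i ∈ Finset.range (k + 1), hc k i :=
      Finset.single_le_sum (f := fun i => hc k i) (fun j hj => (hkA_pos k j (by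
        have := Finset.mem_range.1 hj
        omega)).le) hi
    have h3 : 0 ≤ x ^ i * a ^ (k - i) := by positivity
    calc hc k i * x ^ i * a ^ (k - i) = hc k i * (x ^ i * a ^ (k - i)) * 1 := by ring
      _ ≤ (∑ i ∈ Finset.range (k + 1), hc k i) * (x ^ i * a ^ (k - i)) * ((k.choose i : ℕ) : ℝ) := by
        apply mul_le_mul (mul_le_mul_of_nonneg_right h2 h3) h1 zero_le_one
        positivity
      _ = (∑ i ∈ Finset.range (k + 1), hc k i) * (x ^ i * a ^ (k - i) * ((k.choose i : ℕ) : ℝ)) := by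
        ring

theorem hc_pos (k i : ℕ) (h : i ≤ k) : 0 < hc k i := by
  exact hkA_pos k i h

theorem hc_zero (k i : ℕ) (h : k < i) : hc k i = 0 := by
  exact hkA_zero k i h

theorem Hk_bounds (k : ℕ) : ∃ c > 0, ∃ C > 0, ∀ x a : ℝ, 0 ≤ x → 0 ≤ a → 0 < x + a →
    c / √(x + a) ≤ Hk k x a ∧ Hk k x a ≤ C / √(x + a) := by
  obtain ⟨c, hc0, C, hC0, h⟩ := hkA_num k
  refine ⟨c, hc0, C, hC0, fun x a hx ha hxa => ?_⟩
  obtain ⟨h1, h2⟩ := h x a hx ha
  have hp : 0 < (x + a) ^ k := by positivity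
  have hs : 0 < √(x + a) := Real.sqrt_pos.2 hxa
  unfold Hk
  constructor
  · rw [div_le_div_iff₀ hs (by positivity)]
    calc c * ((x + a) ^ k * √(x + a)) = c * (x + a) ^ k * √(x + a) := by ring
      _ ≤ _ := mul_le_mul_of_nonneg_right h1 hs.le
  · rw [div_le_div_iff₀ (by positivity) hs]
    calc (∑ i ∈ Finset.range (k + 1), hc k i * x ^ i * a ^ (k - i)) * √(x + a)
        ≤ C * (x + a) ^ k * √(x + a) := mul_le_mul_of_nonneg_right h2 hs.le
      _ = C * ((x + a) ^ k * √(x + a)) := by ring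

theorem Hk_nonneg (k : ℕ) {x a : ℝ} (hx : 0 ≤ x) (ha : 0 ≤ a) : 0 ≤ Hk k x a := by
  unfold Hk
  apply div_nonneg
  · refine Finset.sum_nonneg fun i hi => ?_
    have h := (hkA_pos k i (by
      have := Finset.mem_range.1 hi
      omega)).le
    positivity
  · positivity

theorem analyticAt_sqrt' {x : ℝ} (hx : 0 < x) : AnalyticAt ℝ (fun y : ℝ => √y) x := by
  exact ContDiffAt.analyticAt (Real.contDiffAt_sqrt hx.ne')

theorem Hk_analytic (k : ℕ) {x a : ℝ} (h : 0 < x + a) :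
    AnalyticAt ℝ (fun p : ℝ × ℝ => Hk k p.1 p.2) (x, a) := by
  have hs : AnalyticAt ℝ (fun p : ℝ × ℝ => p.1 + p.2) (x, a) := analyticAt_fst.add analyticAt_snd
  have hq : AnalyticAt ℝ (fun p : ℝ × ℝ => √(p.1 + p.2)) (x, a) :=
    AnalyticAt.fun_comp (g := fun y : ℝ => √y) (f := fun p : ℝ × ℝ => p.1 + p.2) (analyticAt_sqrt' h) hs
  have hden : AnalyticAt ℝ (fun p : ℝ × ℝ => (p.1 + p.2) ^ k * √(p.1 + p.2)) (x, a) := (hs.pow k).mul hq
  have hnum : AnalyticAt ℝ (fun p : ℝ × ℝ =>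
      ∑ i ∈ Finset.range (k + 1), hc k i * p.1 ^ i * p.2 ^ (k - i)) (x, a) := by
    refine Finset.analyticAt_fun_sum _ fun i _ => ?_
    exact (analyticAt_const.mul (analyticAt_fst.pow i)).mul (analyticAt_snd.pow (k - i))
  refine hnum.div hden ?_
  have h1 : 0 < √(x + a) := Real.sqrt_pos.2 h
  show (x + a) ^ k * √(x + a) ≠ 0
  positivity

theorem Hk_measurable (k : ℕ) : Measurable (fun p : ℝ × ℝ => Hk k p.1 p.2) := by
  unfold Hk
  fun_prop

end Pool.Agent.MP_c8a077_gt
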