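import Pool.Agent.Lib.MP_c8a077_gt.PI
import Pool.Agent.Lib.MP_c8a077_gt.HkA

/-!
# JOB E1: the one-sided function `PhiD` is real-analytic

The domain `D` is `[z₀, β)` or `[z₀, ∞)`; `p` is analytic on `D` and strictly decreasing.
PROOF.  `superlevel`: for `z₁ ∈ D`, `z₁ ≠ z₀`: `{z ∈ D : p z₁ < p z} = Ico z₀ z₁` (strict antitonicity of
`p` on `D`: `strictAntiOn` from the negative derivative on the interior, `D.OrdConnected`).  Hence
`PhiD k p D (p z₁) = ∫ z in z₀..z₁, Hk k (p z - p z₁) ((deriv p z)²/4)`.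
Analyticity at `w₁ = p z₁`: `p` is analytic at `z₁` with `deriv p z₁ ≠ 0`, so it has an analytic local
inverse `ζ` at `w₁` (`AnalyticAt.analyticAt_localInverse`), `p (ζ w) = w` for `w` near `w₁`, `ζ w₁ = z₁`,
`ζ w ∈ D ∖ {z₀}` for `w` near `w₁`.  So near `w₁`
`PhiD k p D w = ∫ z in z₀..ζ w, Hk k (p z - w) ((deriv p z)²/4)
 = ∫ s in 0..1, (ζ w - z₀) * Hk k (p (z₀ + s (ζ w - z₀)) - w) ((deriv p (z₀ + s (ζ w - z₀)))²/4)`.
Apply `analyticAt_integral` with `W = ℝ`: for `s ∈ [0,1]` the point `z = z₀ + s(z₁ - z₀)` is in `[z₀,z₁] ⊂ D`,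
`p` and `deriv p` are analytic there, and `p z - w₁ + (deriv p z)²/4 > 0` (for `z < z₁` since `p z > w₁`, for
`z = z₁` since `deriv p z₁ ≠ 0`), so `Hk_analytic` applies.
`PhiD_lintegral`: on `Ico z₀ z₁` the integrand is nonnegative, continuous on `Icc z₀ z₁`, so
integrable (`ofReal_integral_eq_lintegral_ofReal`).  `PhiD_pos`: it is `≥ c/√(…) > 0` by `Hk_bounds` on an
interval of positive length.
-/

open MeasureTheory Set Metric Topology Filter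

namespace Pool.Agent.MP_c8a077_gt

/-- One side of the profile: `D = [z₀, β)` or `[z₀, ∞)`, `p` analytic on `D`, decreasing. -/
structure Side (p : ℝ → ℝ) (D : Set ℝ) (z₀ : ℝ) : Prop where
  mem : z₀ ∈ D
  min : ∀ z ∈ D, z₀ ≤ z
  conn : D.OrdConnected
  nhds : ∀ z ∈ D, z ≠ z₀ → D ∈ 𝓝 z
  an : ∀ z ∈ D, AnalyticAt ℝ p z
  neg : ∀ z ∈ D, z ≠ z₀ → deriv p z < 0

theorem Side.strictAnti {p : ℝ → ℝ} {D : Set ℝ} {z₀ : ℝ} (h : Side p D z₀) :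
    StrictAntiOn p D := by
  refine strictAntiOn_of_deriv_neg h.conn.convex
    (fun z hz => (h.an z hz).continuousAt.continuousWithinAt) (fun z hz => ?_)
  refine h.neg z (interior_subset hz) (fun h1 => ?_)
  subst h1
  obtain ⟨ε, hε, hb⟩ := Metric.mem_nhds_iff.1 (mem_interior_iff_mem_nhds.1 hz)
  have h2 : z - ε / 2 ∈ D := hb (by
    rw [Metric.mem_ball, Real.dist_eq, show z - ε / 2 - z = -(ε / 2) by ring, abs_neg,
      abs_of_pos (by positivity)]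
    linarith)
  have h3 := h.min _ h2
  linarith

theorem Side.superlevel {p : ℝ → ℝ} {D : Set ℝ} {z₀ : ℝ} (h : Side p D z₀) {z₁ : ℝ}
    (hz : z₁ ∈ D) : {z | z ∈ D ∧ p z₁ < p z} = Ico z₀ z₁ := by
  ext z
  rw [mem_ofPred_eq, mem_Ico]
  constructor
  · rintro ⟨h1, h2⟩
    exact ⟨h.min z h1, (h.strictAnti.lt_iff_gt hz h1).1 h2⟩
  · rintro ⟨h1, h2⟩
    have h3 : z ∈ D := h.conn.out h.mem hz ⟨h1, h2.le⟩
    exact ⟨h3, h.strictAnti h3 hz h2⟩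

theorem e1_mem {p : ℝ → ℝ} {D : Set ℝ} {z₀ : ℝ} (h : Side p D z₀) {z₁ : ℝ}
    (hz : z₁ ∈ D) {z : ℝ} (hz2 : z ∈ Icc z₀ z₁) : z ∈ D :=
  h.conn.out h.mem hz hz2

theorem PhiD_eq (k : ℕ) {p : ℝ → ℝ} {D : Set ℝ} {z₀ : ℝ} (h : Side p D z₀) {z₁ : ℝ}
    (hz : z₁ ∈ D) :
    PhiD k p D (p z₁) = ∫ z in z₀..z₁, Hk k (p z - p z₁) ((deriv p z) ^ 2 / 4) := by
  unfold PhiD
  rw [h.superlevel hz, intervalIntegral.integral_of_le (h.min z₁ hz), integral_Ico_eq_integral_Ioo,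
    integral_Ioc_eq_integral_Ioo]

theorem e1_pos {p : ℝ → ℝ} {D : Set ℝ} {z₀ : ℝ} (h : Side p D z₀) {z₁ : ℝ}
    (hz : z₁ ∈ D) (hz' : z₁ ≠ z₀) {z : ℝ} (hz2 : z ∈ Icc z₀ z₁) :
    0 < (p z - p z₁) + (deriv p z) ^ 2 / 4 := by
  rcases eq_or_lt_of_le hz2.2 with h1 | h1
  · subst h1
    have h2 := h.neg z hz hz'
    have h3 : 0 < (deriv p z) ^ 2 := sq_pos_of_neg h2
    linarith [h3]
  · have h2 := h.strictAnti (e1_mem h hz hz2) hz h1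
    have h3 : 0 ≤ (deriv p z) ^ 2 := sq_nonneg _
    linarith [h3]

theorem e1_an (k : ℕ) {p : ℝ → ℝ} {w z : ℝ} (hp : AnalyticAt ℝ p z)
    (hpos : 0 < (p z - w) + (deriv p z) ^ 2 / 4) :
    AnalyticAt ℝ (fun q : ℝ × ℝ => Hk k (p q.2 - q.1) ((deriv p q.2) ^ 2 / 4)) (w, z) := by
  have h1 : AnalyticAt ℝ (fun q : ℝ × ℝ => p q.2) (w, z) := by
    have h2 : AnalyticAt ℝ (fun q : ℝ × ℝ => q.2) (w, z) := analyticAt_snd
    exact AnalyticAt.comp (g := p) (f := fun q : ℝ × ℝ => q.2) hp h2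
  have h1' : AnalyticAt ℝ (fun q : ℝ × ℝ => deriv p q.2) (w, z) := by
    have h2 : AnalyticAt ℝ (fun q : ℝ × ℝ => q.2) (w, z) := analyticAt_snd
    exact AnalyticAt.comp (g := deriv p) (f := fun q : ℝ × ℝ => q.2) hp.deriv h2
  have h3 : AnalyticAt ℝ (fun q : ℝ × ℝ => (p q.2 - q.1, (deriv p q.2) ^ 2 / 4)) (w, z) :=
    (h1.sub analyticAt_fst).prod ((h1'.pow 2).div analyticAt_const (by norm_num))
  exact AnalyticAt.comp (g := fun q : ℝ × ℝ => Hk k q.1 q.2)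
    (f := fun q : ℝ × ℝ => (p q.2 - q.1, (deriv p q.2) ^ 2 / 4)) (Hk_analytic k hpos) h3

theorem e1_cont (k : ℕ) {p : ℝ → ℝ} {D : Set ℝ} {z₀ : ℝ} (h : Side p D z₀) {z₁ : ℝ}
    (hz : z₁ ∈ D) (hz' : z₁ ≠ z₀) :
    ContinuousOn (fun z => Hk k (p z - p z₁) ((deriv p z) ^ 2 / 4)) (Icc z₀ z₁) := by
  intro z hz2
  apply ContinuousAt.continuousWithinAt
  have h1 := (e1_an k (w := p z₁) (h.an z (e1_mem h hz hz2)) (e1_pos h hz hz' hz2)).continuousAt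
  exact ContinuousAt.comp (g := fun q : ℝ × ℝ => Hk k (p q.2 - q.1) ((deriv p q.2) ^ 2 / 4))
    (f := fun z : ℝ => (p z₁, z)) h1 (by fun_prop)

theorem PhiD_analytic (k : ℕ) {p : ℝ → ℝ} {D : Set ℝ} {z₀ : ℝ} (h : Side p D z₀) {z₁ : ℝ}
    (hz : z₁ ∈ D) (hz' : z₁ ≠ z₀) : AnalyticAt ℝ (PhiD k p D) (p z₁) := by
  have hd : deriv p z₁ ≠ 0 := (h.neg z₁ hz hz').ne
  have hpa := h.an z₁ hz
  set ζ : ℝ → ℝ := hpa.hasStrictDerivAt.localInverse _ _ _ hd with hζ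
  have hζa : AnalyticAt ℝ ζ (p z₁) := hpa.analyticAt_localInverse hd
  have hζ1 : ζ (p z₁) = z₁ := HasStrictFDerivAt.localInverse_apply_image ..
  have hζr : ∀ᶠ w in 𝓝 (p z₁), p (ζ w) = w := HasStrictDerivAt.eventually_right_inverse ..
  have hcont : ContinuousAt ζ (p z₁) := hζa.continuousAt
  have hζD : ∀ᶠ w in 𝓝 (p z₁), ζ w ∈ D := by
    have h1 : D ∈ 𝓝 (ζ (p z₁)) := by
      rw [hζ1]
      exact h.nhds z₁ hz hz'
    exact hcont h1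
  set F : ℝ × ℝ → ℝ := fun q => (ζ q.1 - z₀) *
    Hk k (p (z₀ + (ζ q.1 - z₀) * q.2) - q.1) ((deriv p (z₀ + (ζ q.1 - z₀) * q.2)) ^ 2 / 4) with hF
  have hFa : ∀ s ∈ Icc (0 : ℝ) 1, AnalyticAt ℝ F (p z₁, s) := by
    intro s hs
    have hzI : z₀ + (z₁ - z₀) * s ∈ Icc z₀ z₁ := by
      have h2 := h.min z₁ hz
      have h3 : 0 ≤ (z₁ - z₀) * s := mul_nonneg (by linarith) hs.1
      have h4 : (z₁ - z₀) * s ≤ (z₁ - z₀) * 1 := mul_le_mul_of_nonneg_left hs.2 (by linarith)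
      exact ⟨by linarith, by linarith⟩
    have h1 : AnalyticAt ℝ (fun q : ℝ × ℝ => ζ q.1) (p z₁, s) := by
      have h2 : AnalyticAt ℝ (fun q : ℝ × ℝ => q.1) (p z₁, s) := analyticAt_fst
      exact AnalyticAt.comp (g := ζ) (f := fun q : ℝ × ℝ => q.1) hζa h2
    have h2 : AnalyticAt ℝ (fun q : ℝ × ℝ => z₀ + (ζ q.1 - z₀) * q.2) (p z₁, s) :=
      analyticAt_const.add ((h1.sub analyticAt_const).mul analyticAt_snd)
    have h3 : AnalyticAt ℝ (fun q : ℝ × ℝ => (q.1, z₀ + (ζ q.1 - z₀) * q.2)) (p z₁, s) :=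
      analyticAt_fst.prod h2
    have h4 : AnalyticAt ℝ (fun q : ℝ × ℝ => Hk k (p q.2 - q.1) ((deriv p q.2) ^ 2 / 4))
        ((fun q : ℝ × ℝ => (q.1, z₀ + (ζ q.1 - z₀) * q.2)) (p z₁, s)) := by
      show AnalyticAt ℝ (fun q : ℝ × ℝ => Hk k (p q.2 - q.1) ((deriv p q.2) ^ 2 / 4))
        (p z₁, z₀ + (ζ (p z₁) - z₀) * s)
      rw [hζ1]
      exact e1_an k (h.an _ (e1_mem h hz hzI)) (e1_pos h hz hz' hzI)
    have h5 := AnalyticAt.comp (g := fun q : ℝ × ℝ => Hk k (p q.2 - q.1) ((deriv p q.2) ^ 2 / 4))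
      (f := fun q : ℝ × ℝ => (q.1, z₀ + (ζ q.1 - z₀) * q.2)) h4 h3
    exact (h1.sub analyticAt_const).mul h5
  refine (analyticAt_integral F (p z₁) hFa).congr ?_
  filter_upwards [hζr, hζD] with w h1 h2
  have h3 := PhiD_eq k h h2
  rw [h1] at h3
  rw [h3, hF]
  simp only
  rw [intervalIntegral.integral_const_mul]
  have h4 := intervalIntegral.smul_integral_comp_add_mul (a := (0 : ℝ)) (b := 1)
    (fun z => Hk k (p z - w) ((deriv p z) ^ 2 / 4)) (ζ w - z₀) z₀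
  rw [smul_eq_mul, mul_zero, mul_one, add_zero, add_sub_cancel] at h4
  exact h4

theorem PhiD_lintegral (k : ℕ) {p : ℝ → ℝ} {D : Set ℝ} {z₀ : ℝ} (h : Side p D z₀) {z₁ : ℝ}
    (hz : z₁ ∈ D) (hz' : z₁ ≠ z₀) :
    ∫⁻ z in {z | z ∈ D ∧ p z₁ < p z},
      ENNReal.ofReal (Hk k (p z - p z₁) ((deriv p z) ^ 2 / 4)) =
    ENNReal.ofReal (PhiD k p D (p z₁)) := by
  have h0 := h.min z₁ hz
  rw [h.superlevel hz, PhiD_eq k h hz, intervalIntegral.integral_of_le h0,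
    integral_Ioc_eq_integral_Ioo, ← integral_Ico_eq_integral_Ioo]
  refine (ofReal_integral_eq_lintegral_ofReal ?_ ?_).symm
  · exact ((e1_cont k h hz hz').integrableOn_Icc).mono_set Ico_subset_Icc_self
  · refine (ae_restrict_iff' measurableSet_Ico).2 (Eventually.of_forall fun z hz2 => ?_)
    have h1 : z ∈ D := e1_mem h hz ⟨hz2.1, hz2.2.le⟩
    have h2 := h.strictAnti h1 hz hz2.2
    exact Hk_nonneg k (by linarith) (by positivity)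

theorem PhiD_pos (k : ℕ) {p : ℝ → ℝ} {D : Set ℝ} {z₀ : ℝ} (h : Side p D z₀) {z₁ : ℝ}
    (hz : z₁ ∈ D) (hz' : z₁ ≠ z₀) : 0 < PhiD k p D (p z₁) := by
  have h0 : z₀ < z₁ := lt_of_le_of_ne (h.min z₁ hz) hz'.symm
  rw [PhiD_eq k h hz]
  refine intervalIntegral.intervalIntegral_pos_of_pos_on ?_ ?_ h0
  · exact (e1_cont k h hz hz').intervalIntegrable_of_Icc h0.le
  · intro z hz2
    have h1 : z ∈ D := e1_mem h hz ⟨hz2.1.le, hz2.2.le⟩
    have h2 := h.strictAnti h1 hz hz2.2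
    obtain ⟨c, hc, C, hC, hb⟩ := Hk_bounds k
    have h3 := e1_pos h hz hz' ⟨hz2.1.le, hz2.2.le⟩
    have h4 := (hb (p z - p z₁) ((deriv p z) ^ 2 / 4) (by linarith) (by positivity) h3).1
    have h5 : 0 < c / √(p z - p z₁ + (deriv p z) ^ 2 / 4) := div_pos hc (Real.sqrt_pos.2 h3)
    linarith

end Pool.Agent.MP_c8a077_gt
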