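import Pool.Agent.Lib.MP_c8a077_gt.E1

/-!
# JOB E2: `PhiD` blows up at a critical value

PROOF.  `D = Ico z₀ β`, `p` analytic at `β`, `p'(β) = 0`.  By Taylor (`p` is `C²` near `β`) there are
`ρ > 0`, `C > 0` with `0 ≤ p z - p β ≤ C (β-z)²` and `|p'(z)| ≤ C (β - z)` for `z ∈ (β-ρ, β)`, `β - ρ > z₀`.
For `z₁ ∈ (β - ρ, β)` and `z ∈ (β-ρ, z₁)`:
`0 < p z - p z₁ + p'(z)²/4 ≤ C(β-z)² + C²(β-z)²/4 =: K² (β-z)²`, so by `Hk_bounds`
`Hk k (p z - p z₁) (p'(z)²/4) ≥ (c/K) / (β - z)`, and `PhiD_eq` gives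
`PhiD k p D (p z₁) ≥ (c/K) ∫_{β-ρ}^{z₁} dz/(β-z) = (c/K) log(ρ/(β - z₁))`, which tends to `∞` as
`z₁ → β⁻`.  Finally every `w > p β` close to `p β` is `p z₁` with `z₁ ∈ D` (intermediate value
theorem), and `z₁ → β⁻` as `w → (p β)⁺` (for `z₁ ≤ β - ρ'`, `p z₁ ≥ p (β-ρ') > p β`).
-/

open MeasureTheory Set Metric Topology Filter

namespace Pool.Agent.MP_c8a077_gt

theorem e2_cont {p : ℝ → ℝ} {z₀ β : ℝ} (h : Side p (Ico z₀ β) z₀)
    (hpβ : AnalyticAt ℝ p β) : ContinuousOn p (Icc z₀ β) := by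
  intro z hz
  apply ContinuousAt.continuousWithinAt
  rcases eq_or_lt_of_le hz.2 with h1 | h1
  · subst h1
    exact hpβ.continuousAt
  · exact (h.an z ⟨hz.1, h1⟩).continuousAt

theorem e2_anti {p : ℝ → ℝ} {z₀ β : ℝ} (h : Side p (Ico z₀ β) z₀)
    (hpβ : AnalyticAt ℝ p β) : StrictAntiOn p (Icc z₀ β) := by
  refine strictAntiOn_of_deriv_neg (convex_Icc z₀ β) (e2_cont h hpβ) (fun z hz => ?_)
  rw [interior_Icc] at hz
  exact h.neg z ⟨hz.1.le, hz.2⟩ hz.1.ne'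

theorem e2_loc {p : ℝ → ℝ} {β : ℝ} (hpβ : AnalyticAt ℝ p β) (hp' : deriv p β = 0) :
    ∃ C > 0, ∃ ρ > 0, ∀ z, β - ρ < z → z ≤ β → |deriv p z| ≤ C * (β - z) := by
  have h1 := hpβ.deriv.differentiableAt.hasDerivAt.isBigO_sub
  rw [hp'] at h1
  obtain ⟨C, hC, h2⟩ := h1.exists_pos
  rw [Asymptotics.isBigOWith_iff, Metric.eventually_nhds_iff] at h2
  obtain ⟨ρ, hρ, h3⟩ := h2
  refine ⟨C, hC, ρ, hρ, fun z hz1 hz2 => ?_⟩
  have h4 := h3 (y := z) (by rw [Real.dist_eq, abs_lt]; constructor <;> linarith)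
  rw [sub_zero, Real.norm_eq_abs, Real.norm_eq_abs, abs_of_nonpos (by linarith : z - β ≤ 0)] at h4
  linarith

theorem e2_point (k : ℕ) : ∃ c0 > 0, ∀ (p : ℝ → ℝ) (z₀ β C ρ z₁ z : ℝ), Side p (Ico z₀ β) z₀ →
    0 < C → (∀ z, β - ρ < z → z ≤ β → |deriv p z| ≤ C * (β - z)) → z₁ < β → z₀ < z → β - ρ < z →
    z ≤ z₁ → c0 / (C + 1) * (β - z)⁻¹ ≤ Hk k (p z - p z₁) ((deriv p z) ^ 2 / 4) := by
  obtain ⟨c0, hc0, C0, hC0, hb⟩ := Hk_bounds k
  refine ⟨c0, hc0, fun p z₀ β C ρ z₁ z h hC hd hz1 hz0 hzρ hzz => ?_⟩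
  have hz1D : z₁ ∈ Ico z₀ β := ⟨by linarith, hz1⟩
  have hz1' : z₁ ≠ z₀ := by
    intro h1
    linarith
  have hzD : z ∈ Icc z₀ z₁ := ⟨hz0.le, hzz⟩
  have hpos := e1_pos h hz1D hz1' hzD
  have hβz : 0 < β - z := by linarith
  have h1 : ‖p z₁ - p z‖ ≤ C * (β - z) * ‖z₁ - z‖ := by
    refine Convex.norm_image_sub_le_of_norm_deriv_le (s := Icc z z₁) (fun x hx => ?_) (fun x hx => ?_)
      (convex_Icc z z₁) ⟨le_refl _, hzz⟩ ⟨hzz, le_refl _⟩
    · exact (h.an x ⟨by linarith [hx.1], by linarith [hx.2]⟩).differentiableAt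
    · rw [Real.norm_eq_abs]
      refine (hd x (by linarith [hx.1]) (by linarith [hx.2])).trans ?_
      exact mul_le_mul_of_nonneg_left (by linarith [hx.1]) hC.le
  rw [Real.norm_eq_abs, Real.norm_eq_abs, abs_of_nonneg (by linarith : 0 ≤ z₁ - z)] at h1
  have h2 : p z - p z₁ ≤ C * (β - z) ^ 2 := by
    have h3 : -(p z₁ - p z) ≤ |p z₁ - p z| := neg_le_abs _
    have h4 : C * (β - z) * (z₁ - z) ≤ C * (β - z) * (β - z) :=
      mul_le_mul_of_nonneg_left (by linarith) (by positivity)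
    nlinarith [h1, h3, h4]
  have h3 : (deriv p z) ^ 2 ≤ (C * (β - z)) ^ 2 := by
    rw [← sq_abs]
    exact pow_le_pow_left₀ (abs_nonneg _) (hd z hzρ (by linarith)) 2
  have h4 : p z - p z₁ + (deriv p z) ^ 2 / 4 ≤ ((C + 1) * (β - z)) ^ 2 := by
    nlinarith [h2, h3, mul_nonneg hC.le (sq_nonneg (β - z)), sq_nonneg (C * (β - z)), sq_nonneg (β - z)]
  have h5 : √(p z - p z₁ + (deriv p z) ^ 2 / 4) ≤ (C + 1) * (β - z) :=
    Real.sqrt_le_iff.2 ⟨by positivity, h4⟩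
  have h6 : 0 ≤ p z - p z₁ := by
    rcases eq_or_lt_of_le hzz with h7 | h7
    · rw [h7]
      simp
    · have h8 := h.strictAnti (e1_mem h hz1D hzD) hz1D h7
      linarith
  have h7 := (hb (p z - p z₁) ((deriv p z) ^ 2 / 4) h6 (by positivity) hpos).1
  refine le_trans ?_ h7
  have h8 : c0 / (C + 1) * (β - z)⁻¹ = c0 / ((C + 1) * (β - z)) := by
    field_simp
  rw [h8]
  exact div_le_div_of_nonneg_left hc0.le (Real.sqrt_pos.2 hpos) h5

theorem e2_lower (k : ℕ) {p : ℝ → ℝ} {z₀ β : ℝ} (hβ : z₀ < β) (h : Side p (Ico z₀ β) z₀)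
    (hpβ : AnalyticAt ℝ p β) (hp'β : deriv p β = 0) :
    ∃ a, z₀ < a ∧ a < β ∧ ∃ c > 0, ∀ z₁, a < z₁ → z₁ < β →
      c * Real.log ((β - a) / (β - z₁)) ≤ PhiD k p (Ico z₀ β) (p z₁) := by
  obtain ⟨C, hC, ρ, hρ, hd⟩ := e2_loc hpβ hp'β
  obtain ⟨c0, hc0, hpt⟩ := e2_point k
  refine ⟨max ((z₀ + β) / 2) (β - ρ / 2), lt_max_of_lt_left (by linarith),
    max_lt (by linarith) (by linarith), c0 / (C + 1), by positivity, fun z₁ ha hz1 => ?_⟩
  have ha1 : z₀ < max ((z₀ + β) / 2) (β - ρ / 2) := lt_max_of_lt_left (by linarith)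
  have ha2 : β - ρ < max ((z₀ + β) / 2) (β - ρ / 2) := lt_max_of_lt_right (by linarith)
  generalize max ((z₀ + β) / 2) (β - ρ / 2) = a at ha ha1 ha2
  have hz1D : z₁ ∈ Ico z₀ β := ⟨by linarith, hz1⟩
  have hz1' : z₁ ≠ z₀ := by
    intro h1
    linarith
  rw [PhiD_eq k h hz1D]
  have hcont := e1_cont k h hz1D hz1'
  have hi1 : IntervalIntegrable (fun z => Hk k (p z - p z₁) ((deriv p z) ^ 2 / 4)) volume z₀ a :=
    (hcont.mono (Icc_subset_Icc_right ha.le)).intervalIntegrable_of_Icc ha1.le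
  have hi2 : IntervalIntegrable (fun z => Hk k (p z - p z₁) ((deriv p z) ^ 2 / 4)) volume a z₁ :=
    (hcont.mono (Icc_subset_Icc_left ha1.le)).intervalIntegrable_of_Icc ha.le
  rw [← intervalIntegral.integral_add_adjacent_intervals hi1 hi2]
  have h1 : 0 ≤ ∫ z in z₀..a, Hk k (p z - p z₁) ((deriv p z) ^ 2 / 4) := by
    refine intervalIntegral.integral_nonneg ha1.le (fun z hz => ?_)
    have h2 : z ∈ Ico z₀ β := ⟨hz.1, by linarith [hz.2]⟩
    have h3 := h.strictAnti h2 hz1D (by linarith [hz.2])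
    exact Hk_nonneg k (by linarith) (by positivity)
  have h2 : ∫ z in a..z₁, c0 / (C + 1) * (β - z)⁻¹ ≤
      ∫ z in a..z₁, Hk k (p z - p z₁) ((deriv p z) ^ 2 / 4) := by
    refine intervalIntegral.integral_mono_on ha.le ?_ hi2 (fun z hz => ?_)
    · refine ContinuousOn.intervalIntegrable_of_Icc ha.le ?_
      refine continuousOn_const.mul (ContinuousOn.inv₀ (by fun_prop) (fun z hz => ?_))
      have h3 : 0 < β - z := by linarith [hz.2]
      exact h3.ne'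
    · exact hpt p z₀ β C ρ z₁ z h hC hd hz1 (by linarith [hz.1]) (by linarith [hz.1]) hz.2
  have h3 : ∫ z in a..z₁, c0 / (C + 1) * (β - z)⁻¹ =
      c0 / (C + 1) * Real.log ((β - a) / (β - z₁)) := by
    rw [intervalIntegral.integral_const_mul,
      intervalIntegral.integral_comp_sub_left (fun x => x⁻¹) β,
      integral_inv_of_pos (by linarith) (by linarith)]
  linarith

theorem PhiD_blowup (k : ℕ) {p : ℝ → ℝ} {z₀ β : ℝ} (hβ : z₀ < β) (h : Side p (Ico z₀ β) z₀)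
    (hpβ : AnalyticAt ℝ p β) (hp'β : deriv p β = 0) :
    Tendsto (PhiD k p (Ico z₀ β)) (𝓝[>] (p β)) atTop := by
  obtain ⟨a, ha1, ha2, c, hc, hlow⟩ := e2_lower k hβ h hpβ hp'β
  have hanti := e2_anti h hpβ
  refine tendsto_atTop.2 (fun M => ?_)
  have hex : 0 < Real.exp (-(|M| / c)) := Real.exp_pos _
  have hex1 : Real.exp (-(|M| / c)) ≤ 1 := by
    rw [Real.exp_le_one_iff]
    have h1 : 0 ≤ |M| / c := by positivity
    linarith
  have hs1 : a ≤ β - (β - a) * Real.exp (-(|M| / c)) := by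
    have h1 : (β - a) * Real.exp (-(|M| / c)) ≤ (β - a) * 1 :=
      mul_le_mul_of_nonneg_left hex1 (by linarith)
    linarith
  have hs2 : β - (β - a) * Real.exp (-(|M| / c)) < β := by
    have h1 : 0 < (β - a) * Real.exp (-(|M| / c)) := mul_pos (by linarith) hex
    linarith
  have hs3 : ∀ z₁, β - (β - a) * Real.exp (-(|M| / c)) < z₁ → z₁ < β →
      M ≤ PhiD k p (Ico z₀ β) (p z₁) := by
    intro z₁ h1 h2
    refine le_trans ?_ (hlow z₁ (by linarith) h2)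
    have h3 : |M| / c ≤ Real.log ((β - a) / (β - z₁)) := by
      rw [Real.le_log_iff_exp_le (div_pos (by linarith) (by linarith)), le_div_iff₀ (by linarith)]
      have h4 : Real.exp (|M| / c) * (β - z₁) ≤
          Real.exp (|M| / c) * ((β - a) * Real.exp (-(|M| / c))) :=
        mul_le_mul_of_nonneg_left (by linarith) (Real.exp_pos _).le
      have h5 : Real.exp (|M| / c) * ((β - a) * Real.exp (-(|M| / c))) = β - a := by
        rw [Real.exp_neg]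
        have h6 := (Real.exp_pos (|M| / c)).ne'
        field_simp
      linarith
    have h4 : c * (|M| / c) ≤ c * Real.log ((β - a) / (β - z₁)) := mul_le_mul_of_nonneg_left h3 hc.le
    have h5 : c * (|M| / c) = |M| := by
      field_simp
    linarith [le_abs_self M]
  generalize β - (β - a) * Real.exp (-(|M| / c)) = s at hs1 hs2 hs3
  have hsI : s ∈ Icc z₀ β := ⟨by linarith, hs2.le⟩
  have hβI : β ∈ Icc z₀ β := ⟨hβ.le, le_refl _⟩
  have hlt : p β < p s := hanti hsI hβI hs2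
  filter_upwards [Ioo_mem_nhdsGT hlt] with w hw
  have hc2 : ContinuousOn p (Icc s β) := (e2_cont h hpβ).mono (Icc_subset_Icc_left hsI.1)
  obtain ⟨z₁, hz1, rfl⟩ := intermediate_value_Icc' hs2.le hc2 ⟨hw.1.le, hw.2.le⟩
  refine hs3 z₁ ?_ ?_
  · refine lt_of_le_of_ne hz1.1 (fun h1 => ?_)
    rw [← h1] at hw
    exact lt_irrefl _ hw.2
  · refine lt_of_le_of_ne hz1.2 (fun h1 => ?_)
    rw [h1] at hw
    exact lt_irrefl _ hw.1

end Pool.Agent.MP_c8a077_gt
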