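import Pool.Agent.Lib.MP_c8a077_gt.E1

/-!
# JOB E3: `PhiD` tends to `0` at `-∞` for a profile of superquadratic growth

PROOF.  `D = Ici z₀`, `p'(z)/z → -∞`.  So `p z → -∞` and every `w ≤ p z₀` is `p z₁` with a unique
`z₁ = z₁(w) ≥ z₀`, `z₁ → ∞` as `w → -∞`.  Given `Ω > 0`, for `z ≥ Z(Ω) > 0` we have `-p'(z) ≥ Ω z`.  Let
`z₁ ≥ 2 Z(Ω)`, `z₁ ≥ |z₀|`.
On `[z₀, z₁/2]`: `p z - p z₁ ≥ p(z₁/2) - p z₁ = ∫_{z₁/2}^{z₁} -p' ≥ Ω (z₁² - z₁²/4)/2 = 3Ωz₁²/8`, so the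
integrand is `≤ C/√(3Ω/8) / z₁` (`Hk_bounds`) and the integral over this part is
`≤ (z₁/2 - z₀) C/(√(3Ω/8) z₁) ≤ (3/2) C/√(3Ω/8)`.
On `[z₁/2, z₁]`: `p'(z)²/4 ≥ Ω² z²/4 ≥ Ω² z₁²/16`, the integrand is `≤ 4C/(Ω z₁)`, the integral over this
part `≤ 2C/Ω`.
So `0 ≤ PhiD (p z₁) ≤ (3/2) C/√(3Ω/8) + 2C/Ω`, which is small for `Ω` large.
-/

open MeasureTheory Set Metric Topology Filter

namespace Pool.Agent.MP_c8a077_gt

private theorem e3_mvt {p : ℝ → ℝ} {z₀ : ℝ} (h : Side p (Ici z₀) z₀) {a b K : ℝ} (ha : z₀ ≤ a)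
    (hab : a ≤ b) (hK : ∀ z, a ≤ z → deriv p z ≤ -K) : p b ≤ p a - K * (b - a) := by
  have h1 := (convex_Icc a b).image_sub_le_mul_sub_of_deriv_le (f := p) (C := -K)
    (fun z hz => (h.an z (mem_Ici.2 (ha.trans hz.1))).continuousAt.continuousWithinAt)
    (fun z hz => (h.an z (mem_Ici.2 (ha.trans (interior_subset hz).1))).differentiableAt.differentiableWithinAt)
    (fun z hz => hK z (interior_subset hz).1) a (left_mem_Icc.2 hab) b (right_mem_Icc.2 hab) hab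
  linarith

private theorem e3_bound (k : ℕ) {p : ℝ → ℝ} {z₀ : ℝ} (h : Side p (Ici z₀) z₀) (C : ℝ) (hC : 0 < C)
    (hb : ∀ x a : ℝ, 0 ≤ x → 0 ≤ a → 0 < x + a → Hk k x a ≤ C / √(x + a)) (M : ℝ) (hM : 1 ≤ M) (Z : ℝ)
    (hZ0 : z₀ ≤ Z) (hZ1 : 1 ≤ Z) (hd : ∀ z, Z ≤ z → deriv p z ≤ -(M ^ 2 * z)) (z₁ : ℝ) (h1 : 2 * Z ≤ z₁)
    (h2 : |z₀| ≤ z₁) : ‖PhiD k p (Ici z₀) (p z₁)‖ ≤ 8 * C / M := by
  have hM0 : 0 < M := by linarith
  have hz1 : 0 < z₁ := by linarith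
  have hz01 : z₀ ≤ z₁ := by linarith
  have hz : z₁ ∈ Ici z₀ := hz01
  have hhalf : Z ≤ z₁ / 2 := by linarith
  rw [PhiD_eq k h hz]
  have hanti := h.strictAnti.antitoneOn
  have key : ∀ z ∈ uIoc z₀ z₁, ‖Hk k (p z - p z₁) ((deriv p z) ^ 2 / 4)‖ ≤ 4 * C / (M * z₁) := by
    intro z hz'
    rw [uIoc_of_le hz01] at hz'
    have hzI : z ∈ Ici z₀ := hz'.1.le
    have hx : 0 ≤ p z - p z₁ := sub_nonneg.2 (hanti hzI hz hz'.2)
    have ha : 0 ≤ (deriv p z) ^ 2 / 4 := by positivity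
    have hlow : (M * z₁ / 4) ^ 2 ≤ (p z - p z₁) + (deriv p z) ^ 2 / 4 := by
      rcases le_or_gt z (z₁ / 2) with h3 | h3
      · have h4 : p (z₁ / 2) ≤ p z := hanti hzI (mem_Ici.2 (by linarith)) h3
        have h5 := e3_mvt h (a := z₁ / 2) (b := z₁) (K := M ^ 2 * (z₁ / 2)) (by linarith) (by linarith)
          (fun y hy => by
            have h6 := hd y (hhalf.trans hy)
            have h7 : M ^ 2 * (z₁ / 2) ≤ M ^ 2 * y := mul_le_mul_of_nonneg_left hy (by positivity)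
            linarith)
        have h8 : M ^ 2 * (z₁ / 2) * (z₁ - z₁ / 2) = 4 * (M * z₁ / 4) ^ 2 := by ring
        have h9 : 0 ≤ (M * z₁ / 4) ^ 2 := by positivity
        linarith
      · have h4 := hd z (hhalf.trans h3.le)
        have h5 : M ^ 2 * (z₁ / 2) ≤ -deriv p z := by
          have h7 : M ^ 2 * (z₁ / 2) ≤ M ^ 2 * z := mul_le_mul_of_nonneg_left h3.le (by positivity)
          linarith
        have h6 : M * z₁ / 2 ≤ -deriv p z := by
          refine le_trans ?_ h5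
          have h7 : M * 1 ≤ M * M := mul_le_mul_of_nonneg_left hM hM0.le
          have h8 := mul_le_mul_of_nonneg_right h7 (show 0 ≤ z₁ / 2 by positivity)
          linarith
        have h7 : (M * z₁ / 2) ^ 2 ≤ (-deriv p z) ^ 2 := pow_le_pow_left₀ (by positivity) h6 2
        rw [neg_sq] at h7
        have h8 : (M * z₁ / 2) ^ 2 = 4 * (M * z₁ / 4) ^ 2 := by ring
        linarith
    have hpos : 0 < M * z₁ / 4 := by positivity
    have hsum : 0 < (p z - p z₁) + (deriv p z) ^ 2 / 4 := lt_of_lt_of_le (by positivity) hlow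
    rw [Real.norm_eq_abs, abs_of_nonneg (Hk_nonneg k hx ha)]
    refine (hb _ _ hx ha hsum).trans ?_
    have h3 : M * z₁ / 4 ≤ √((p z - p z₁) + (deriv p z) ^ 2 / 4) := Real.le_sqrt_of_sq_le hlow
    refine (div_le_div_of_nonneg_left hC.le hpos h3).trans (le_of_eq ?_)
    field_simp
  have h3 := intervalIntegral.norm_integral_le_of_norm_le_const key
  refine h3.trans ?_
  have h4 : |z₁ - z₀| ≤ 2 * z₁ := by
    have h5 := abs_sub z₁ z₀
    rw [abs_of_pos hz1] at h5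
    linarith
  refine (mul_le_mul_of_nonneg_left h4 (by positivity)).trans (le_of_eq ?_)
  field_simp
  ring

private theorem e3_tendsto {p : ℝ → ℝ} {z₀ : ℝ} (h : Side p (Ici z₀) z₀)
    (hgr : Tendsto (fun z => deriv p z / z) atTop atBot) : Tendsto p atTop atBot := by
  have e := (hgr.eventually (eventually_le_atBot (-1 : ℝ))).and
    ((eventually_ge_atTop (1 : ℝ)).and (eventually_ge_atTop z₀))
  obtain ⟨Z, hZ⟩ := eventually_atTop.1 e
  have hd : ∀ z, Z ≤ z → deriv p z ≤ -1 := by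
    intro z hz
    obtain ⟨h1, h2, _⟩ := hZ z hz
    have h3 : deriv p z ≤ -1 * z := (div_le_iff₀ (by linarith)).1 h1
    linarith
  have hZ0 := (hZ Z le_rfl).2.2
  refine tendsto_atBot_mono' atTop (f₁ := fun z => (p Z + Z) + (-z)) ?_ ?_
  · filter_upwards [eventually_ge_atTop Z] with z hz
    have := e3_mvt h hZ0 hz hd
    linarith
  · exact tendsto_atBot_add_const_left atTop (p Z + Z) tendsto_neg_atTop_atBot

theorem PhiD_tendsto_zero (k : ℕ) {p : ℝ → ℝ} {z₀ : ℝ} (h : Side p (Ici z₀) z₀)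
    (hgr : Tendsto (fun z => deriv p z / z) atTop atBot) :
    Tendsto (PhiD k p (Ici z₀)) atBot (𝓝 0) := by
  obtain ⟨_, _, C, hC, hb⟩ := Hk_bounds k
  rw [Metric.tendsto_nhds]
  intro ε hε
  set M : ℝ := 1 + 8 * C / ε with hM
  have hM1 : 1 ≤ M := by
    have : 0 ≤ 8 * C / ε := by positivity
    linarith
  have e := (hgr.eventually (eventually_le_atBot (-M ^ 2 : ℝ))).and
    ((eventually_ge_atTop (1 : ℝ)).and (eventually_ge_atTop z₀))
  obtain ⟨Z, hZ⟩ := eventually_atTop.1 e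
  have hd : ∀ z, Z ≤ z → deriv p z ≤ -(M ^ 2 * z) := by
    intro z hz
    obtain ⟨h1, h2, _⟩ := hZ z hz
    have h3 : deriv p z ≤ -M ^ 2 * z := (div_le_iff₀ (by linarith)).1 h1
    linarith
  obtain ⟨_, hZ1, hZ0⟩ := hZ Z le_rfl
  set Y : ℝ := max (2 * Z) |z₀| with hY
  have hY1 : 2 * Z ≤ Y := le_max_left _ _
  have hY2 : |z₀| ≤ Y := le_max_right _ _
  have hYz : z₀ ≤ Y := by linarith
  filter_upwards [Iic_mem_atBot (p Y)] with w hw
  obtain ⟨b, hb1, hb2⟩ := (((e3_tendsto h hgr).eventually (eventually_le_atBot w)).and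
    (eventually_ge_atTop Y)).exists
  obtain ⟨z₁, hz1, rfl⟩ := intermediate_value_Icc' hb2
    (fun z hz => (h.an z (mem_Ici.2 (hYz.trans hz.1))).continuousAt.continuousWithinAt) ⟨hb1, hw⟩
  rw [dist_zero_right]
  refine (e3_bound k h C hC (fun x a hx ha hxa => (hb x a hx ha hxa).2) M hM1 Z hZ0 hZ1 hd z₁
    (hY1.trans hz1.1) (hY2.trans hz1.1)).trans_lt ?_
  rw [div_lt_iff₀ (by linarith), hM, mul_add, mul_one, mul_div_cancel₀ _ hε.ne']
  linarith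

theorem Side.tendsto_atBot {p : ℝ → ℝ} {z₀ : ℝ} (h : Side p (Ici z₀) z₀)
    (hgr : Tendsto (fun z => deriv p z / z) atTop atBot) : Tendsto p atTop atBot := by
  exact e3_tendsto h hgr

end Pool.Agent.MP_c8a077_gt
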