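import Pool.Agent.Lib.MP_c8a077_gt.F1a

/-!
# JOB F1c: superquadratic growth of `pR` for nonconstant `R`

PROOF.  `R` nonconstant, `R > 0` on `[z₀,∞)`, so `R z → ∞` (`Polynomial.tendsto_atTop_of_leadingCoeff_nonneg`
or `Polynomial.tendsto_atTop_iff_leadingCoeff_nonneg`).  By `pR_deriv`, for large `z`,
`p'/z = (z R'(z)/((k+1) R z) + z/(z-A) + z/(z-B)) · (p z/z²)`; the first factor tends to
`deg R/(k+1) + 2 > 0` (`z R'/R → natDegree R`: `Polynomial.div_tendsto_leadingCoeff_div_of_degree_eq` for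
`X * R'` and `R`) and `p z/z² = -(1-A/z)(1-B/z) R(z)^(1/(k+1)) → -∞`.
-/

open MeasureTheory Set Metric Topology Filter

namespace Pool.Agent.MP_c8a077_gt

private theorem F1c_inv (c : ℝ) : Tendsto (fun z : ℝ => c / z) atTop (𝓝 0) :=
  tendsto_const_nhds.div_atTop tendsto_id

private theorem F1c_deg (R : Polynomial ℝ) (hdeg : R.natDegree ≠ 0) :
    Tendsto (fun z => z * R.derivative.eval z / R.eval z) atTop (𝓝 (R.natDegree : ℝ)) := by
  have hR0 : R ≠ 0 := by
    rintro rfl
    simp at hdeg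
  have hnd : (Polynomial.X * R.derivative).natDegree = R.natDegree := by
    have h1 : R.derivative ≠ 0 := by
      intro h
      exact hdeg (Polynomial.derivative_eq_zero.1 h)
    rw [Polynomial.natDegree_X_mul h1, Polynomial.natDegree_derivative]
    omega
  have h1 : R.derivative ≠ 0 := by
    intro h
    exact hdeg (Polynomial.derivative_eq_zero.1 h)
  have hX : Polynomial.X * R.derivative ≠ 0 := mul_ne_zero Polynomial.X_ne_zero h1
  have hd : (Polynomial.X * R.derivative).degree = R.degree := by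
    rw [Polynomial.degree_eq_natDegree hX, Polynomial.degree_eq_natDegree hR0, hnd]
  have hlc : (Polynomial.X * R.derivative).leadingCoeff = R.natDegree * R.leadingCoeff := by
    rw [Polynomial.leadingCoeff, hnd]
    obtain ⟨m, hm⟩ := Nat.exists_eq_succ_of_ne_zero hdeg
    rw [Polynomial.leadingCoeff, hm, Nat.succ_eq_add_one, Polynomial.coeff_X_mul,
      Polynomial.coeff_derivative]
    push_cast
    ring
  have h2 := Polynomial.div_tendsto_atTop_leadingCoeff_div_of_degree_eq
    (Polynomial.X * R.derivative) R hd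
  rw [hlc, mul_div_assoc, div_self (Polynomial.leadingCoeff_ne_zero.2 hR0), mul_one] at h2
  simpa using h2

private theorem F1c_ratio (k : ℕ) (A B : ℝ) (R : Polynomial ℝ) (hdeg : R.natDegree ≠ 0) :
    Tendsto (fun z => ((k : ℝ) + 1) * ((A + B) / z - 2) +
      (1 - A / z) * (B / z - 1) * (z * R.derivative.eval z / R.eval z)) atTop
      (𝓝 (((k : ℝ) + 1) * (0 - 2) + (1 - 0) * (0 - 1) * (R.natDegree : ℝ))) := by
  refine Tendsto.add (Tendsto.const_mul _ ((F1c_inv _).sub tendsto_const_nhds)) ?_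
  exact ((tendsto_const_nhds.sub (F1c_inv A)).mul ((F1c_inv B).sub tendsto_const_nhds)).mul
    (F1c_deg R hdeg)

theorem pR_growth (k : ℕ) (A B z₀ : ℝ) (R : Polynomial ℝ) (hR : ∀ z ∈ Ici z₀, 0 < R.eval z)
    (hdeg : R.natDegree ≠ 0) :
    Tendsto (fun z => deriv (pR k A B R) z / z) atTop atBot := by
  have hk : (0 : ℝ) < (k : ℝ) + 1 := by positivity
  have hR0 : R ≠ 0 := by
    rintro rfl
    simp at hdeg
  have hdeg' : 0 < R.degree := Polynomial.natDegree_pos_iff_degree_pos.1 (Nat.pos_of_ne_zero hdeg)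
  have hlc : 0 ≤ R.leadingCoeff := by
    by_contra hneg
    push Not at hneg
    have h1 := Polynomial.tendsto_atBot_of_leadingCoeff_nonpos R hdeg' hneg.le
    obtain ⟨z, hz1, hz2⟩ := ((h1.eventually (eventually_le_atBot 0)).and
      (eventually_ge_atTop z₀)).exists
    exact absurd (hR z hz2) (not_lt.2 hz1)
  have hRtop := Polynomial.tendsto_atTop_of_leadingCoeff_nonneg R hdeg' hlc
  have hpow : Tendsto (fun z => (R.eval z) ^ ((1 : ℝ) / (k + 1))) atTop atTop :=
    (tendsto_rpow_atTop (by positivity)).comp hRtop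
  have hneg : (((k : ℝ) + 1) * (0 - 2) + (1 - 0) * (0 - 1) * (R.natDegree : ℝ)) / (k + 1) < 0 := by
    apply div_neg_of_neg_of_pos _ hk
    have : (0 : ℝ) ≤ R.natDegree := Nat.cast_nonneg _
    nlinarith
  have hmain := hpow.atTop_mul_neg hneg ((F1c_ratio k A B R hdeg).div_const ((k : ℝ) + 1))
  refine hmain.congr' ?_
  filter_upwards [eventually_ge_atTop z₀, eventually_gt_atTop 0] with z hz hz0
  have hRz : 0 < R.eval z := hR z hz
  rw [pR_deriv k A B R hRz, Real.rpow_sub_one hRz.ne']
  simp only [dpoly, Polynomial.eval_add, Polynomial.eval_mul, Polynomial.eval_sub,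
    Polynomial.eval_C, Polynomial.eval_X, Polynomial.eval_ofNat]
  field_simp
  try ring

end Pool.Agent.MP_c8a077_gt
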