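import Pool.Agent.Lib.MP_c8a077_gt.Defs

/-!
# JOB F1a: the extension `pR` of the squared profile: analyticity, derivative, reflection

Notation `p = pR k A B R`, `D = dpoly k A B R`.
PROOF.  `pR_analytic`: product of a polynomial and `R^(1/(k+1))` (`AnalyticAt.rpow` or exp/log), `R > 0`.
`pR_deriv`: for `R z > 0`:
`p' = (A+B-2z) R^(1/(k+1)) + (z-A)(B-z) (1/(k+1)) R^(1/(k+1)-1) R' = R^(1/(k+1)-1)/(k+1) · D(z)`.
`pR_reflect`, `dpoly_reflect`: direct computation.
-/

open MeasureTheory Set Metric Topology Filter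

namespace Pool.Agent.MP_c8a077_gt

theorem pR_analytic (k : ℕ) (A B : ℝ) (R : Polynomial ℝ) {z : ℝ} (hR : 0 < R.eval z) :
    AnalyticAt ℝ (pR k A B R) z := by
  have h0 : AnalyticAt ℝ (fun y : ℝ => R.eval y) z := by
    have h := AnalyticAt.aeval_polynomial (analyticAt_id (𝕜 := ℝ) (z := z)) R
    simpa [Polynomial.coe_aeval_eq_eval] using h
  have h1 : ContDiffAt ℝ ⊤ (fun y : ℝ => R.eval y) z := h0.contDiffAt
  have h2 : ContDiffAt ℝ ⊤ (fun y : ℝ => (R.eval y) ^ ((1 : ℝ) / (k + 1))) z :=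
    h1.rpow_const_of_ne hR.ne'
  have h3 : ContDiffAt ℝ ⊤ (fun y : ℝ => (y - A) * (B - y)) z :=
    (contDiffAt_id.sub contDiffAt_const).mul (contDiffAt_const.sub contDiffAt_id)
  exact ContDiffAt.analyticAt (h3.mul h2)

theorem pR_deriv (k : ℕ) (A B : ℝ) (R : Polynomial ℝ) {z : ℝ} (hR : 0 < R.eval z) :
    deriv (pR k A B R) z =
      (R.eval z) ^ ((1 : ℝ) / (k + 1) - 1) / (k + 1) * (dpoly k A B R).eval z := by
  have h1 : HasDerivAt (fun y : ℝ => R.eval y) (R.derivative.eval z) z := R.hasDerivAt z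
  have h2 := h1.rpow_const (p := (1 : ℝ) / (k + 1)) (Or.inl hR.ne')
  have h3 : HasDerivAt (fun y : ℝ => (y - A) * (B - y)) (1 * (B - z) + (z - A) * (-1)) z :=
    ((hasDerivAt_id z).sub_const A).mul ((hasDerivAt_id z).const_sub B)
  have h4 : HasDerivAt (pR k A B R) _ z := h3.mul h2
  rw [h4.deriv]
  have hk : ((k : ℝ) + 1) ≠ 0 := by positivity
  have h5 : (R.eval z) ^ ((1 : ℝ) / (k + 1)) = R.eval z * (R.eval z) ^ ((1 : ℝ) / (k + 1) - 1) := by
    rw [Real.rpow_sub_one hR.ne']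
    field_simp
  rw [h5]
  unfold dpoly
  simp only [Polynomial.eval_add, Polynomial.eval_mul, Polynomial.eval_C, Polynomial.eval_sub,
    Polynomial.eval_X, Polynomial.eval_ofNat]
  generalize (R.eval z) ^ ((1 : ℝ) / (k + 1) - 1) = T
  field_simp
  ring

theorem pR_reflect (k : ℕ) (A B : ℝ) (R : Polynomial ℝ) (z : ℝ) :
    pR k (-B) (-A) (R.comp (-Polynomial.X)) (-z) = pR k A B R z := by
  unfold pR
  rw [Polynomial.eval_comp, Polynomial.eval_neg, Polynomial.eval_X, neg_neg]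
  ring

theorem dpoly_reflect (k : ℕ) (A B : ℝ) (R : Polynomial ℝ) (z : ℝ) :
    (dpoly k (-B) (-A) (R.comp (-Polynomial.X))).eval (-z) = -(dpoly k A B R).eval z := by
  unfold dpoly
  simp only [Polynomial.eval_add, Polynomial.eval_mul, Polynomial.eval_C, Polynomial.eval_sub,
    Polynomial.eval_X, Polynomial.eval_ofNat, Polynomial.derivative_comp, Polynomial.eval_comp,
    Polynomial.eval_neg, Polynomial.derivative_neg, Polynomial.derivative_X, Polynomial.eval_one,
    neg_neg]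
  ring

end Pool.Agent.MP_c8a077_gt
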