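import Pool.Agent.Lib.MP_c8a077_gt.F1a

/-!
# JOB F1b: the first critical point beyond `B`

Notation `p = pR k A B R`, `D = dpoly k A B R`.
PROOF.  `R > 0` on `[z₀,B]`, `D < 0` on `(z₀,B]`.  If `D` has a zero in `(B,∞)` let `β` be the
smallest one (finitely many roots as `D(B) < 0`), otherwise `β = ∞`.  Then `D < 0` on `(z₀,β)`.
Claim `R > 0` on `[z₀,β)` and, if `β < ∞`, at `β`.  Suppose not; let `ρ > B` be the first zero of `R`,
`ρ ≤ β`.  `R > 0` on `[B,ρ)`, `R ρ = 0`, so `R'(ρ) ≤ 0` and `D(ρ) = (ρ-A)(B-ρ) R'(ρ) ≥ 0`; so `ρ < β` is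
impossible and `ρ = β < ∞`.  On `(B,β)` `p < 0` (as `z > B`, `R > 0`) and `p' < 0` by `pR_deriv`, so
`p z ≤ p((B+β)/2) < 0` for `z ∈ ((B+β)/2, β)`, while `p z → 0` as `z → β⁻` because `R z → 0`.  Contradiction.
-/

open MeasureTheory Set Metric Topology Filter

namespace Pool.Agent.MP_c8a077_gt

private theorem F1b_cont (k : ℕ) (A B : ℝ) (R : Polynomial ℝ) : Continuous (pR k A B R) := by
  unfold pR
  have h1 : Continuous fun z => R.eval z := R.continuous
  have h2 : Continuous fun z => (R.eval z) ^ ((1 : ℝ) / (k + 1)) :=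
    h1.rpow_const (fun x => Or.inr (by positivity))
  exact ((continuous_id.sub continuous_const).mul (continuous_const.sub continuous_id)).mul h2

private theorem F1b_pos (k : ℕ) (A B z₀ c : ℝ) (R : Polynomial ℝ) (hA : A < z₀) (hB : z₀ < B) (_hc : B < c)
    (hR : ∀ z ∈ Icc z₀ B, 0 < R.eval z) (hD : ∀ z ∈ Ioo z₀ c, (dpoly k A B R).eval z < 0) :
    ∀ z ∈ Icc z₀ c, 0 < R.eval z := by
  by_contra hcon
  push Not at hcon
  obtain ⟨x, hx, hxR⟩ := hcon
  have hxB : B < x := by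
    by_contra h
    exact absurd (hR x ⟨hx.1, not_lt.1 h⟩) (not_lt.2 hxR)
  let S : Set ℝ := Icc B c ∩ {z | R.eval z ≤ 0}
  have hSc : IsClosed S := isClosed_Icc.inter (isClosed_le R.continuous continuous_const)
  have hSne : S.Nonempty := ⟨x, ⟨hxB.le, hx.2⟩, hxR⟩
  have hSb : BddBelow S := ⟨B, fun z hz => hz.1.1⟩
  have hρS : sInf S ∈ S := hSc.csInf_mem hSne hSb
  set ρ := sInf S with hρ
  have hRρ : R.eval ρ ≤ 0 := hρS.2
  have hRB : 0 < R.eval B := hR B ⟨hB.le, le_rfl⟩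
  have hBρ : B < ρ := by
    rcases eq_or_lt_of_le hρS.1.1 with h | h
    · rw [← h] at hRρ
      exact absurd hRB (not_lt.2 hRρ)
    · exact h
  have hpos : ∀ z ∈ Ico B ρ, 0 < R.eval z := by
    intro z hz
    by_contra h
    have : z ∈ S := ⟨⟨hz.1, hz.2.le.trans hρS.1.2⟩, not_lt.1 h⟩
    exact absurd (csInf_le hSb this) (not_le.2 hz.2)
  have hR0 : R.eval ρ = 0 := by
    refine le_antisymm hRρ ?_
    have hcl : ρ ∈ closure (Ico B ρ) := by
      rw [closure_Ico hBρ.ne]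
      exact ⟨hBρ.le, le_rfl⟩
    have hsub : Ico B ρ ⊆ {z | 0 ≤ R.eval z} := fun z hz => (hpos z hz).le
    have hcl2 : IsClosed {z : ℝ | 0 ≤ R.eval z} := isClosed_le continuous_const R.continuous
    exact closure_minimal hsub hcl2 hcl
  have hpρ : pR k A B R ρ = 0 := by
    unfold pR
    rw [hR0, Real.zero_rpow (by positivity), mul_zero]
  set m := (B + ρ) / 2 with hm
  have hmB : B < m := by rw [hm]; linarith
  have hmρ : m < ρ := by rw [hm]; linarith
  have hpm : pR k A B R m < 0 := by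
    unfold pR
    have h1 : 0 < (R.eval m) ^ ((1 : ℝ) / (k + 1)) := Real.rpow_pos_of_pos (hpos m ⟨hmB.le, hmρ⟩) _
    have h2 : 0 < m - A := by linarith
    have h3 : B - m < 0 := by linarith
    exact mul_neg_of_neg_of_pos (mul_neg_of_pos_of_neg h2 h3) h1
  have hanti : StrictAntiOn (pR k A B R) (Icc m ρ) := by
    apply strictAntiOn_of_deriv_neg (convex_Icc m ρ) (F1b_cont k A B R).continuousOn
    intro z hz
    rw [interior_Icc] at hz
    have hRz : 0 < R.eval z := hpos z ⟨(hmB.trans hz.1).le, hz.2⟩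
    rw [pR_deriv k A B R hRz]
    have h1 : 0 < (R.eval z) ^ ((1 : ℝ) / (k + 1) - 1) / (k + 1) :=
      div_pos (Real.rpow_pos_of_pos hRz _) (by positivity)
    exact mul_neg_of_pos_of_neg h1 (hD z ⟨hB.trans (hmB.trans hz.1), hz.2.trans_le hρS.1.2⟩)
  have := hanti (left_mem_Icc.2 hmρ.le) (right_mem_Icc.2 hmρ.le) hmρ
  rw [hpρ] at this
  exact absurd hpm (not_lt.2 this.le)

theorem first_critical (k : ℕ) (A B z₀ : ℝ) (R : Polynomial ℝ) (hA : A < z₀) (hB : z₀ < B)
    (hR : ∀ z ∈ Icc z₀ B, 0 < R.eval z) (hD : ∀ z ∈ Ioc z₀ B, (dpoly k A B R).eval z < 0) :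
    (∃ β, B < β ∧ (dpoly k A B R).eval β = 0 ∧ (∀ z ∈ Ioo z₀ β, (dpoly k A B R).eval z < 0) ∧
      ∀ z ∈ Icc z₀ β, 0 < R.eval z) ∨
    ((∀ z ∈ Ioi z₀, (dpoly k A B R).eval z < 0) ∧ ∀ z ∈ Ici z₀, 0 < R.eval z) := by
  have hDB : (dpoly k A B R).eval B < 0 := hD B ⟨hB, le_rfl⟩
  have hsign : ∀ c : ℝ, B < c → (∀ z ∈ Ioo B c, (dpoly k A B R).eval z ≠ 0) →
      ∀ z ∈ Ioo z₀ c, (dpoly k A B R).eval z < 0 := by
    intro c hc hne z hz
    rcases le_or_gt z B with h | h
    · exact hD z ⟨hz.1, h⟩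
    · by_contra hcon
      have hpos : 0 < (dpoly k A B R).eval z :=
        lt_of_le_of_ne (not_lt.1 hcon) (Ne.symm (hne z ⟨h, hz.2⟩))
      have hivt := intermediate_value_Icc h.le ((dpoly k A B R).continuous.continuousOn (s := Icc B z))
      obtain ⟨y, hy, hy0⟩ := hivt ⟨hDB.le, hpos.le⟩
      have hyB : B < y := by
        rcases eq_or_lt_of_le hy.1 with h1 | h1
        · rw [← h1] at hy0
          exact absurd hy0 hDB.ne
        · exact h1
      exact hne y ⟨hyB, lt_of_le_of_lt hy.2 hz.2⟩ hy0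
  let S : Set ℝ := Ici B ∩ {z | (dpoly k A B R).eval z = 0}
  by_cases hSne : S.Nonempty
  · left
    have hSc : IsClosed S :=
      isClosed_Ici.inter (isClosed_eq (dpoly k A B R).continuous continuous_const)
    have hSb : BddBelow S := ⟨B, fun z hz => hz.1⟩
    have hβ : sInf S ∈ S := hSc.csInf_mem hSne hSb
    have hBβ : B < sInf S := by
      rcases eq_or_lt_of_le (show B ≤ sInf S from hβ.1) with h | h
      · have h1 : (dpoly k A B R).eval (sInf S) = 0 := hβ.2
        rw [← h] at h1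
        exact absurd h1 hDB.ne
      · exact h
    have h1 := hsign (sInf S) hBβ (fun z hz h0 =>
      absurd (csInf_le hSb (show z ∈ S from ⟨hz.1.le, h0⟩)) (not_le.2 hz.2))
    exact ⟨sInf S, hBβ, hβ.2, h1, F1b_pos k A B z₀ (sInf S) R hA hB hBβ hR h1⟩
  · right
    have hne : ∀ z, B < z → (dpoly k A B R).eval z ≠ 0 := by
      intro z hz h0
      exact hSne ⟨z, hz.le, h0⟩
    constructor
    · intro z hz
      have hz' : z₀ < z := hz
      exact hsign (max z B + 1) (lt_of_le_of_lt (le_max_right _ _) (lt_add_one _))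
        (fun y hy => hne y hy.1) z ⟨hz', lt_of_le_of_lt (le_max_left _ _) (lt_add_one _)⟩
    · intro z hz
      have hc : B < max z B + 1 := lt_of_le_of_lt (le_max_right _ _) (lt_add_one _)
      exact F1b_pos k A B z₀ (max z B + 1) R hA hB hc hR (hsign _ hc (fun y hy => hne y hy.1)) z
        ⟨hz, (le_max_left _ _).trans (le_add_of_nonneg_right zero_le_one)⟩

end Pool.Agent.MP_c8a077_gt
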