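import Pool.Agent.Lib.MP_c8a077_gt.F1
import Pool.Agent.Lib.MP_c8a077_gt.E2
import Pool.Agent.Lib.MP_c8a077_gt.E3

/-!
# JOB F2: the right side of the profile, in the form needed for the final argument

PROOF.  `p = pR k A B R`.  Use `first_critical`.  In its first case take `D = Ico z₀ β`, `w₊ = p β`
(critical value): `Side` from `pR_analytic`, `pR_deriv`; `p β < 0` because `β > B`, `R β > 0`; every
`w ∈ (p β, p z₀)` is `p z₁` with `z₁ ∈ (z₀,β)` (intermediate values), so `PhiD` is analytic there and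
positive; `PhiD → ∞` at `(p β)⁺` by `PhiD_blowup` (`deriv p β = 0` by `pR_deriv`).
In the second case `D = Ici z₀`, all `w < p z₀` are attained (`Side.tendsto_atBot`), `PhiD → 0` at `-∞` by
`PhiD_tendsto_zero` with `pR_growth` (here `R` nonconstant is used).
`Bsub`: for `0 < w < p z₀`: `{z ∈ D : w < p z} = {z ∈ Ico z₀ B : w < p z}` (`p < 0` beyond `B`), so the
lintegral over the part of `(A,B)` to the right of `z₀` is `ofReal (PhiD …)` by `PhiD_lintegral`.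
-/

open MeasureTheory Set Metric Topology Filter

namespace Pool.Agent.MP_c8a077_gt

private theorem f2_side (k : ℕ) (A B z₀ : ℝ) (R : Polynomial ℝ) (Dm : Set ℝ) (hmem : z₀ ∈ Dm)
    (hmin : ∀ z ∈ Dm, z₀ ≤ z) (hconn : Dm.OrdConnected) (hn : ∀ z ∈ Dm, z ≠ z₀ → Dm ∈ 𝓝 z)
    (hR : ∀ z ∈ Dm, 0 < R.eval z) (hD : ∀ z ∈ Dm, z ≠ z₀ → (dpoly k A B R).eval z < 0) :
    Side (pR k A B R) Dm z₀ := by
  refine ⟨hmem, hmin, hconn, hn, fun z hz => pR_analytic k A B R (hR z hz), fun z hz hz0 => ?_⟩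
  rw [pR_deriv k A B R (hR z hz)]
  have h1 : 0 < (R.eval z) ^ ((1 : ℝ) / (k + 1) - 1) / ((k : ℝ) + 1) := by
    have h2 := Real.rpow_pos_of_pos (hR z hz) ((1 : ℝ) / (k + 1) - 1)
    positivity
  exact mul_neg_of_pos_of_neg h1 (hD z hz hz0)

private theorem f2_neg (k : ℕ) {A B : ℝ} (R : Polynomial ℝ) (hAB : A < B) {z : ℝ} (hz : B ≤ z)
    (hR : 0 < R.eval z) : pR k A B R z ≤ 0 := by
  unfold pR
  have h1 := Real.rpow_pos_of_pos hR ((1 : ℝ) / (k + 1))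
  have h2 : (z - A) * (B - z) ≤ 0 := mul_nonpos_of_nonneg_of_nonpos (by linarith) (by linarith)
  exact mul_nonpos_of_nonpos_of_nonneg h2 h1.le

private theorem f2_first (k : ℕ) (A B z₀ : ℝ) (R : Polynomial ℝ) (hAB : A < B) (Dm : Set ℝ)
    (hs : Side (pR k A B R) Dm z₀) (hR : ∀ z ∈ Dm, 0 < R.eval z) (hsub : Ico z₀ B ⊆ Dm) {w z₁ : ℝ}
    (hw : 0 < w) (hz₁ : z₁ ∈ Dm) (hz₀ : z₁ ≠ z₀) (hzw : pR k A B R z₁ = w) :
    ∫⁻ z in {z | z ∈ Ico z₀ B ∧ w < pR k A B R z},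
      ENNReal.ofReal (Hk k (pR k A B R z - w) ((deriv (pR k A B R) z) ^ 2 / 4)) =
    ENNReal.ofReal (PhiD k (pR k A B R) Dm w) := by
  have h1 := PhiD_lintegral k hs hz₁ hz₀
  rw [hzw] at h1
  rw [← h1]
  congr 2
  ext z
  constructor
  · rintro ⟨h2, h3⟩
    exact ⟨hsub h2, h3⟩
  · rintro ⟨h2, h3⟩
    refine ⟨⟨hs.min z h2, ?_⟩, h3⟩
    by_contra hcon
    have h4 := f2_neg k R hAB (not_lt.1 hcon) (hR z h2)
    linarith

/-- What is needed of one side: a function `Φ`, analytic and positive on `(w₊, M)` (on `(-∞,M)` in the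
second case), with the blow-up or the decay at the left end. -/
theorem side_right (k : ℕ) (A B z₀ : ℝ) (R : Polynomial ℝ) (hA : A < z₀) (hB : z₀ < B)
    (hR : ∀ z ∈ Icc z₀ B, 0 < R.eval z) (hD : ∀ z ∈ Ioc z₀ B, (dpoly k A B R).eval z < 0)
    (hdeg : R.natDegree ≠ 0) :
    ∃ Φ : ℝ → ℝ,
      (∀ w ∈ Ioo 0 (pR k A B R z₀),
        ∫⁻ z in {z | z ∈ Ico z₀ B ∧ w < pR k A B R z},
          ENNReal.ofReal (Hk k (pR k A B R z - w) ((deriv (pR k A B R) z) ^ 2 / 4)) =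
        ENNReal.ofReal (Φ w)) ∧
      ((∃ wc < 0, (∀ w ∈ Ioo wc (pR k A B R z₀), AnalyticAt ℝ Φ w ∧ 0 < Φ w) ∧
          Tendsto Φ (𝓝[>] wc) atTop) ∨
        ((∀ w ∈ Iio (pR k A B R z₀), AnalyticAt ℝ Φ w ∧ 0 < Φ w) ∧ Tendsto Φ atBot (𝓝 0))) := by
  have hAB : A < B := hA.trans hB
  rcases first_critical k A B z₀ R hA hB hR hD with ⟨β, hβ, hβ0, hDn, hRp⟩ | ⟨hDn, hRp⟩
  · have hz₀β : z₀ < β := hB.trans hβ
    have hs : Side (pR k A B R) (Ico z₀ β) z₀ := by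
      refine f2_side k A B z₀ R _ ⟨le_rfl, hz₀β⟩ (fun z hz => hz.1) ordConnected_Ico ?_
        (fun z hz => hRp z ⟨hz.1, hz.2.le⟩) ?_
      · intro z hz hz0
        exact Ico_mem_nhds (lt_of_le_of_ne hz.1 (Ne.symm hz0)) hz.2
      · intro z hz hz0
        exact hDn z ⟨lt_of_le_of_ne hz.1 (Ne.symm hz0), hz.2⟩
    have hRβ : 0 < R.eval β := hRp β ⟨hz₀β.le, le_rfl⟩
    have hcont : ContinuousOn (pR k A B R) (Icc z₀ β) := fun z hz =>
      (pR_analytic k A B R (hRp z hz)).continuousAt.continuousWithinAt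
    have hatt : ∀ w ∈ Ioo (pR k A B R β) (pR k A B R z₀), ∃ z₁ ∈ Ioo z₀ β, pR k A B R z₁ = w := by
      intro w hw
      exact intermediate_value_Ioo' hz₀β.le hcont hw
    have hwc : pR k A B R β < 0 := by
      unfold pR
      have h1 := Real.rpow_pos_of_pos hRβ ((1 : ℝ) / (k + 1))
      have h2 : (β - A) * (B - β) < 0 := mul_neg_of_pos_of_neg (by linarith) (by linarith)
      exact mul_neg_of_neg_of_pos h2 h1
    refine ⟨PhiD k (pR k A B R) (Ico z₀ β), ?_, Or.inl ⟨pR k A B R β, hwc, ?_, ?_⟩⟩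
    · intro w hw
      obtain ⟨z₁, hz₁, hzw⟩ := hatt w ⟨hwc.trans hw.1, hw.2⟩
      exact f2_first k A B z₀ R hAB (Ico z₀ β) hs (fun z hz => hRp z ⟨hz.1, hz.2.le⟩)
        (fun z hz => ⟨hz.1, hz.2.trans hβ⟩) hw.1 ⟨hz₁.1.le, hz₁.2⟩ hz₁.1.ne' hzw
    · intro w hw
      obtain ⟨z₁, hz₁, hzw⟩ := hatt w hw
      rw [← hzw]
      exact ⟨PhiD_analytic k hs ⟨hz₁.1.le, hz₁.2⟩ hz₁.1.ne', PhiD_pos k hs ⟨hz₁.1.le, hz₁.2⟩ hz₁.1.ne'⟩
    · refine PhiD_blowup k hz₀β hs (pR_analytic k A B R hRβ) ?_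
      rw [pR_deriv k A B R hRβ, hβ0, mul_zero]
  · have hs : Side (pR k A B R) (Ici z₀) z₀ := by
      refine f2_side k A B z₀ R _ (mem_Ici.2 le_rfl) (fun z hz => hz) ordConnected_Ici ?_
        (fun z hz => hRp z hz) ?_
      · intro z hz hz0
        exact Ici_mem_nhds (lt_of_le_of_ne hz (Ne.symm hz0))
      · intro z hz hz0
        exact hDn z (lt_of_le_of_ne hz (Ne.symm hz0))
    have hgr := pR_growth k A B z₀ R hRp hdeg
    have hbot := hs.tendsto_atBot hgr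
    have hatt : ∀ w ∈ Iio (pR k A B R z₀), ∃ z₁ ∈ Ioi z₀, pR k A B R z₁ = w := by
      intro w hw
      obtain ⟨Z, hZ⟩ := ((hbot.eventually (eventually_lt_atBot w)).and (eventually_gt_atTop z₀)).exists
      have hcont : ContinuousOn (pR k A B R) (Icc z₀ Z) := fun z hz =>
        (pR_analytic k A B R (hRp z hz.1)).continuousAt.continuousWithinAt
      obtain ⟨z₁, hz₁, hzw⟩ := intermediate_value_Ioo' hZ.2.le hcont ⟨hZ.1, hw⟩
      exact ⟨z₁, hz₁.1, hzw⟩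
    refine ⟨PhiD k (pR k A B R) (Ici z₀), ?_, Or.inr ⟨?_, PhiD_tendsto_zero k hs hgr⟩⟩
    · intro w hw
      obtain ⟨z₁, hz₁, hzw⟩ := hatt w hw.2
      exact f2_first k A B z₀ R hAB (Ici z₀) hs (fun z hz => hRp z hz) (fun z hz => hz.1) hw.1
        (mem_Ici.2 (mem_Ioi.1 hz₁).le) (mem_Ioi.1 hz₁).ne' hzw
    · intro w hw
      obtain ⟨z₁, hz₁, hzw⟩ := hatt w hw
      rw [← hzw]
      exact ⟨PhiD_analytic k hs (mem_Ici.2 (mem_Ioi.1 hz₁).le) (mem_Ioi.1 hz₁).ne',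
        PhiD_pos k hs (mem_Ici.2 (mem_Ioi.1 hz₁).le) (mem_Ioi.1 hz₁).ne'⟩

end Pool.Agent.MP_c8a077_gt
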