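import Pool.Agent.Lib.MP_c8a077_gt.B0

/-!
# JOB G0: elementary properties of the profile

PROOF.  `analytic`: near `z ∈ (A,B)`, `r = (P.eval ·)^(1/(2k+2))` with `P.eval z > 0`.
`strictAnti`: `deriv r` is antitone on `(A,B)` (concave and differentiable).  If `deriv r z₁ = deriv r z₂` with
`z₁ < z₂` then it is constant on `[z₁,z₂]`, so `r` minus an affine function `a z + b` vanishes on `(z₁,z₂)`,
hence on `(A,B)` by the identity theorem (`AnalyticOnNhd.eqOn_of_preconnected_of_eventuallyEq`), hence on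
`[A,B]` by continuity; `r A = r B = 0` gives `a = b = 0`, `r = 0`, contradicting `r > 0` inside.
`max`: Rolle gives `z₀` with `deriv r z₀ = 0`, then `strictAnti`.
`second`: if `deriv (deriv r) z ≥ 0` for all `z ∈ (B-ε,B) ∩ (A,B)` then `deriv r` is monotone there, which
contradicts `strictAnti`.
`chord_lt`, `slope_lt`: strict concavity on `(A,B)` (`StrictAntiOn.strictConcaveOn_of_deriv` and the slope
inequalities for strictly concave functions, or the mean value theorem and `strictAnti`).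
`line_gt`: outside `[z₁,z₂]` the graph lies strictly below the line through the two points.
`neg`: reflection.
-/

open MeasureTheory Set Metric Topology Filter

namespace Pool.Agent.MP_c8a077_gt

/-- The profile of a smooth body of revolution for which `S_{K,e}` is a polynomial. -/
structure Prof (k : ℕ) (A B : ℝ) (r : ℝ → ℝ) (P : Polynomial ℝ) : Prop extends
    ProfHyp A B r where
  rA : r A = 0
  rB : r B = 0
  hP : ∀ z ∈ Icc A B, P.eval z = r z ^ (2 * k + 2)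

theorem Prof.analytic {k : ℕ} {A B : ℝ} {r : ℝ → ℝ} {P : Polynomial ℝ} (h : Prof k A B r P)
    {z : ℝ} (hz : z ∈ Ioo A B) : AnalyticAt ℝ r z := by
  have h1 : AnalyticAt ℝ (fun w => P.eval w) z := by
    have := AnalyticAt.aeval_polynomial (A := ℝ) (𝕜 := ℝ) (f := fun w : ℝ => w)
      (z := z) analyticAt_id P
    simpa using this
  have hz' : z ∈ Icc A B := Ioo_subset_Icc_self hz
  have h2 : 0 < P.eval z := by
    rw [h.hP z hz']
    exact pow_pos (h.pos z hz) _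
  have h3 : AnalyticAt ℝ (fun w => Real.exp (Real.log (P.eval w) / (2 * k + 2 : ℕ))) z := by
    have h4 := h1.log h2
    exact (h4.div analyticAt_const (by positivity)).rexp'
  refine h3.congr ?_
  filter_upwards [isOpen_Ioo.mem_nhds hz] with w hw
  have hw0 := h.pos w hw
  rw [h.hP w (Ioo_subset_Icc_self hw), Real.log_pow, mul_div_cancel_left₀ _ (by positivity),
    Real.exp_log hw0]

theorem Prof.strictAnti {k : ℕ} {A B : ℝ} {r : ℝ → ℝ} {P : Polynomial ℝ} (h : Prof k A B r P) :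
    StrictAntiOn (deriv r) (Ioo A B) := by
  have hdiff : ∀ x ∈ Ioo A B, DifferentiableAt ℝ r x := fun x hx =>
    (h.analytic hx).differentiableAt
  have hanti : AntitoneOn (deriv r) (Ioo A B) :=
    (h.conc.subset Ioo_subset_Icc_self (convex_Ioo A B)).antitoneOn_deriv hdiff
  intro x hx y hy hxy
  refine lt_of_le_of_ne (hanti hx hy hxy.le) ?_
  intro heq
  have hconst : ∀ w ∈ Ioo x y, deriv r w = deriv r x := by
    intro w hw
    have hw' : w ∈ Ioo A B := ⟨hx.1.trans hw.1, hw.2.trans hy.2⟩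
    exact le_antisymm (hanti hx hw' hw.1.le) (heq ▸ hanti hw' hy hw.2.le)
  have han : AnalyticOnNhd ℝ (deriv r) (Ioo A B) := fun w hw => (h.analytic hw).deriv
  have hmid : (x + y) / 2 ∈ Ioo x y := ⟨by linarith, by linarith⟩
  have hmid' : (x + y) / 2 ∈ Ioo A B := ⟨hx.1.trans hmid.1, hmid.2.trans hy.2⟩
  have hall : EqOn (deriv r) (fun _ => deriv r x) (Ioo A B) := by
    refine han.eqOn_of_preconnected_of_eventuallyEq (fun w _ => analyticAt_const)
      isPreconnected_Ioo hmid' ?_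
    filter_upwards [isOpen_Ioo.mem_nhds hmid] with w hw
    exact hconst w hw
  obtain ⟨z₀, hz₀, hd0⟩ := exists_deriv_eq_zero h.hAB h.cont (h.rA.trans h.rB.symm)
  have hx0 : deriv r x = 0 := by
    rw [← hd0]
    exact (hall hz₀).symm
  obtain ⟨c, hc, hcs⟩ := exists_deriv_eq_slope r hx.1
    (h.cont.mono (Icc_subset_Icc le_rfl hx.2.le))
    (fun w hw => (hdiff w ⟨hw.1, hw.2.trans hx.2⟩).differentiableWithinAt)
  have hc' : deriv r c = 0 := (hall ⟨hc.1, hc.2.trans hx.2⟩).trans hx0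
  rw [hc', h.rA, sub_zero] at hcs
  have hp := div_pos (h.pos x hx) (sub_pos.2 hx.1)
  rw [← hcs] at hp
  exact lt_irrefl _ hp

theorem Prof.max {k : ℕ} {A B : ℝ} {r : ℝ → ℝ} {P : Polynomial ℝ} (h : Prof k A B r P) :
    ∃ z₀ ∈ Ioo A B, deriv r z₀ = 0 ∧ (∀ z ∈ Ioo A z₀, 0 < deriv r z) ∧
      ∀ z ∈ Ioo z₀ B, deriv r z < 0 := by
  obtain ⟨z₀, hz₀, hd0⟩ := exists_deriv_eq_zero h.hAB h.cont (h.rA.trans h.rB.symm)
  refine ⟨z₀, hz₀, hd0, fun z hz => ?_, fun z hz => ?_⟩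
  · have := h.strictAnti ⟨hz.1, hz.2.trans hz₀.2⟩ hz₀ hz.2
    rwa [hd0] at this
  · have := h.strictAnti hz₀ ⟨hz₀.1.trans hz.1, hz.2⟩ hz.1
    rwa [hd0] at this

theorem Prof.second {k : ℕ} {A B : ℝ} {r : ℝ → ℝ} {P : Polynomial ℝ} (h : Prof k A B r P)
    (ε : ℝ) (hε : 0 < ε) : ∃ z ∈ Ioo A B, B - ε < z ∧ deriv (deriv r) z < 0 := by
  by_contra hcon
  push Not at hcon
  have hAB := h.hAB
  have hlt : Max.max A (B - ε) < B := _root_.max_lt hAB (by linarith)
  have hsub : ∀ z ∈ Ioo (Max.max A (B - ε)) B, z ∈ Ioo A B := fun z hz =>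
    ⟨(le_max_left _ _).trans_lt hz.1, hz.2⟩
  have hmono : MonotoneOn (deriv r) (Ioo (Max.max A (B - ε)) B) := by
    refine monotoneOn_of_deriv_nonneg (convex_Ioo _ _) ?_ ?_ ?_
    · exact fun z hz => (h.analytic (hsub z hz)).deriv.continuousAt.continuousWithinAt
    · rw [interior_Ioo]
      exact fun z hz => (h.analytic (hsub z hz)).deriv.differentiableAt.differentiableWithinAt
    · rw [interior_Ioo]
      exact fun z hz => hcon z (hsub z hz) ((le_max_right _ _).trans_lt hz.1)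
  obtain ⟨x, hx1, hx2⟩ := exists_between hlt
  obtain ⟨y, hy1, hy2⟩ := exists_between hx2
  have hx : x ∈ Ioo (Max.max A (B - ε)) B := ⟨hx1, hx2⟩
  have hy : y ∈ Ioo (Max.max A (B - ε)) B := ⟨hx1.trans hy1, hy2⟩
  exact absurd (hmono hx hy hy1.le) (not_le.2 (h.strictAnti (hsub x hx) (hsub y hy) hy1))

private theorem G0_strict {k : ℕ} {A B : ℝ} {r : ℝ → ℝ} {P : Polynomial ℝ} (h : Prof k A B r P) :
    StrictConcaveOn ℝ (Icc A B) r := by
  refine StrictAntiOn.strictConcaveOn_of_deriv (convex_Icc A B) h.cont ?_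
  rw [interior_Icc]
  exact h.strictAnti

theorem Prof.chord_lt {k : ℕ} {A B : ℝ} {r : ℝ → ℝ} {P : Polynomial ℝ} (h : Prof k A B r P)
    {z₁ z₂ x : ℝ} (hA : A < z₁) (h12 : z₁ < z₂) (hB : z₂ < B) (hx : x ∈ Ioo (0 : ℝ) 1) :
    r z₁ + x * (r z₂ - r z₁) < r (z₁ + x * (z₂ - z₁)) := by
  have hs0 := (G0_strict h).2
  have hz1 : z₁ ∈ Icc A B := ⟨hA.le, (h12.trans hB).le⟩
  have hz2 : z₂ ∈ Icc A B := ⟨(hA.trans h12).le, hB.le⟩
  have hs := hs0 hz1 hz2 h12.ne (show (0 : ℝ) < 1 - x by linarith [hx.2]) hx.1 (by ring)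
  simp only [smul_eq_mul] at hs
  have e1 : (1 - x) * z₁ + x * z₂ = z₁ + x * (z₂ - z₁) := by ring
  rw [e1] at hs
  linarith

theorem Prof.line_gt {k : ℕ} {A B : ℝ} {r : ℝ → ℝ} {P : Polynomial ℝ} (h : Prof k A B r P)
    {z₁ z₂ z : ℝ} (hA : A < z₁) (h12 : z₁ < z₂) (hB : z₂ < B) (hz : z ∈ Ioo A B)
    (hout : z < z₁ ∨ z₂ < z) :
    r z < r z₁ + (z - z₁) / (z₂ - z₁) * (r z₂ - r z₁) := by
  have hs := G0_strict h
  have hm : (z - z₁) / (z₂ - z₁) * (r z₂ - r z₁) = (r z₂ - r z₁) / (z₂ - z₁) * (z - z₁) := by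
    ring
  rw [hm]
  have h21 : 0 < z₂ - z₁ := sub_pos.2 h12
  rcases hout with hz1 | hz2
  · have h1 := hs.slope_anti_adjacent (x := z) (y := z₁) (z := z₂) (Ioo_subset_Icc_self hz)
      ⟨(hA.trans h12).le, hB.le⟩ hz1 h12
    rw [lt_div_iff₀ (sub_pos.2 hz1)] at h1
    nlinarith
  · have h1 := hs.slope_anti_adjacent (x := z₁) (y := z₂) (z := z) ⟨hA.le, (h12.trans hB).le⟩
      (Ioo_subset_Icc_self hz) h12 hz2
    rw [div_lt_iff₀ (sub_pos.2 hz2)] at h1
    have h2 : (r z₂ - r z₁) / (z₂ - z₁) * (z₂ - z₁) = r z₂ - r z₁ :=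
      div_mul_cancel₀ _ h21.ne'
    nlinarith

theorem Prof.slope_lt {k : ℕ} {A B : ℝ} {r : ℝ → ℝ} {P : Polynomial ℝ} (h : Prof k A B r P)
    {z₁ z₂ : ℝ} (hA : A < z₁) (h12 : z₁ < z₂) (hB : z₂ < B) :
    deriv r z₂ < (r z₂ - r z₁) / (z₂ - z₁) ∧ (r z₂ - r z₁) / (z₂ - z₁) < deriv r z₁ := by
  obtain ⟨c, hc, hcs⟩ := exists_deriv_eq_slope r h12
    (h.cont.mono (Icc_subset_Icc hA.le hB.le))
    (fun w hw => (h.analytic ⟨hA.trans hw.1, hw.2.trans hB⟩).differentiableAt.differentiableWithinAt)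
  have hc' : c ∈ Ioo A B := ⟨hA.trans hc.1, hc.2.trans hB⟩
  rw [← hcs]
  exact ⟨h.strictAnti hc' ⟨hA.trans h12, hB⟩ hc.2, h.strictAnti ⟨hA, h12.trans hB⟩ hc' hc.1⟩

theorem Prof.neg {k : ℕ} {A B : ℝ} {r : ℝ → ℝ} {P : Polynomial ℝ} (h : Prof k A B r P) :
    Prof k (-B) (-A) (fun z => r (-z)) (P.comp (-Polynomial.X)) := by
  refine ⟨h.toProfHyp.neg, ?_, ?_, ?_⟩
  · show r (- -B) = 0
    rw [neg_neg]
    exact h.rB
  · show r (- -A) = 0
    rw [neg_neg]
    exact h.rA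
  · intro z hz
    have hz' : -z ∈ Icc A B := ⟨by linarith [hz.2], by linarith [hz.1]⟩
    rw [Polynomial.eval_comp, Polynomial.eval_neg, Polynomial.eval_X]
    exact h.hP _ hz'

end Pool.Agent.MP_c8a077_gt
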