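import Pool.Agent.Lib.MP_c8a077_gt.Defs

/-!
# JOB PI: parametric integrals of real-analytic functions are real-analytic

PROOF.  Let `w₁` be the point.  For `s₁ ∈ [0,1]` the function `F` has a power series `p` at
`(w₁,s₁)` on a ball of radius `ρ > 0`.  Let `J` be a compact interval around `s₁` inside
`(s₁-ρ/2, s₁+ρ/2)` (intersected with `[0,1]`).  Work in the Banach space `C(J, ℝ)`.
(1) Superposition operator: for a compact space `J` and a normed space `X`, if
`HasFPowerSeriesOnBall F p x₀ ρ` (`F : X → ℝ`) then `g ↦ F ∘ g` is analytic on the ball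
`{g ∈ C(J,X) : ‖g - x₀‖ < ρ}`: its power series at the constant `x₀` has the terms
`(h₁,…,h_n) ↦ (s ↦ p_n (h₁ s, …, h_n s))`, of norm `≤ ‖p_n‖` (`MultilinearMap.mkContinuous`);
convergence in the sup norm by the geometric bound on `‖p_n‖ r^n` (`p.norm_mul_pow_le_of_lt_radius`).
(To avoid extending `F` off the ball you may only use: there is an analytic map `Φ` near `g` such
that `Φ g s = F (g s)` for `‖g - x₀‖ < ρ`.)
(2) `w ↦ (s ↦ (w,s)) ∈ C(J, W × ℝ)` is affine continuous, for `w` near `w₁` it lies in that ball.
So `w ↦ F(w,·)|_J ∈ C(J,ℝ)` is analytic at `w₁`, compose with the continuous linear map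
`h ↦ ∫_J h`.
(3) By compactness of `[0,1]` (e.g. `exists_monotone_Icc_subset_open_cover_unitInterval` or the
Lebesgue number lemma) `[0,1]` is a finite union of consecutive such intervals; add up
(`intervalIntegral.sum_integral_adjacent_intervals`).
Any other proof is welcome (e.g. induction over intervals: the set of `T ∈ [0,1]` such that
`w ↦ ∫₀^T F(w,s) ds` is analytic at `w₁`; or `HasFPowerSeriesOnBall.changeOrigin`).
-/

open MeasureTheory Set Metric Topology Filter

namespace Pool.Agent.MP_c8a077_gt

section superposition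

variable {X : Type*} [NormedAddCommGroup X] [NormedSpace ℝ X]
variable {J : Type*} [TopologicalSpace J] [CompactSpace J]

/-- the superposition multilinear map -/
private noncomputable def supTerm {n : ℕ} (q : ContinuousMultilinearMap ℝ (fun _ : Fin n => X) ℝ) :
    ContinuousMultilinearMap ℝ (fun _ : Fin n => C(J, X)) C(J, ℝ) :=
  MultilinearMap.mkContinuous
    { toFun := fun h => ⟨fun s => q (fun i => h i s), by
        refine q.cont.comp (continuous_pi fun i => (h i).continuous)⟩
      map_update_add' := by
        intro _ m i x y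
        ext s
        have e : ∀ z : C(J, X), (fun j => (Function.update m i z j) s) =
            Function.update (fun j => m j s) i (z s) := by
          intro z
          ext j
          by_cases hj : j = i
          · subst hj; simp
          · simp [Function.update_of_ne hj]
        simp only [ContinuousMap.coe_mk, ContinuousMap.add_apply, e]
        rw [← q.map_update_add]
      map_update_smul' := by
        intro _ m i c x
        ext s
        have e : ∀ z : C(J, X), (fun j => (Function.update m i z j) s) =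
            Function.update (fun j => m j s) i (z s) := by
          intro z
          ext j
          by_cases hj : j = i
          · subst hj; simp
          · simp [Function.update_of_ne hj]
        simp only [ContinuousMap.coe_mk, ContinuousMap.smul_apply, e]
        rw [← q.map_update_smul] }
    ‖q‖ (by
      intro h
      rw [ContinuousMap.norm_le _ (mul_nonneg (norm_nonneg _) (Finset.prod_nonneg fun i _ => norm_nonneg _))]
      intro s
      refine (q.le_opNorm _).trans ?_
      refine mul_le_mul_of_nonneg_left ?_ (norm_nonneg _)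
      exact Finset.prod_le_prod (fun i _ => norm_nonneg _) (fun i _ => (h i).norm_coe_le_norm s))

private theorem supTerm_apply {n : ℕ} (q : ContinuousMultilinearMap ℝ (fun _ : Fin n => X) ℝ)
    (h : Fin n → C(J, X)) (s : J) : supTerm q h s = q (fun i => h i s) := rfl

private theorem supTerm_norm {n : ℕ} (q : ContinuousMultilinearMap ℝ (fun _ : Fin n => X) ℝ) :
    ‖(supTerm q : ContinuousMultilinearMap ℝ (fun _ : Fin n => C(J, X)) C(J, ℝ))‖ ≤ ‖q‖ :=
  MultilinearMap.mkContinuous_norm_le _ (norm_nonneg _) _

/-- the superposition operator is analytic -/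
private theorem exists_superposition {F : X → ℝ} {p : FormalMultilinearSeries ℝ X ℝ} {x₀ : X} {ρ : ENNReal}
    (hF : HasFPowerSeriesOnBall F p x₀ ρ) :
    ∃ Φ : C(J, X) → C(J, ℝ), (∀ g ∈ Metric.eball (0 : C(J, X)) ρ, AnalyticAt ℝ Φ g) ∧
      ∀ g ∈ Metric.eball (0 : C(J, X)) ρ, ∀ s, Φ g s = F (x₀ + g s) := by
  let P : FormalMultilinearSeries ℝ C(J, X) C(J, ℝ) := fun n => supTerm (p n)
  have hP : p.radius ≤ P.radius :=
    FormalMultilinearSeries.radius_le_of_le (fun n => supTerm_norm (p n))
  have hρ : ρ ≤ P.radius := hF.r_le.trans hP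
  have hpos : 0 < P.radius := hF.r_pos.trans_le hρ
  have hon : HasFPowerSeriesOnBall P.sum P 0 P.radius := P.hasFPowerSeriesOnBall hpos
  refine ⟨P.sum, fun g hg => ?_, fun g hg s => ?_⟩
  · exact hon.analyticAt_of_mem (Metric.eball_subset_eball hρ hg)
  · have h1 : HasSum (fun n : ℕ => P n fun _ => g) (P.sum g) :=
      P.hasSum (Metric.eball_subset_eball hρ hg)
    have h2 := (ContinuousMap.evalCLM ℝ s : C(J, ℝ) →L[ℝ] ℝ).hasSum h1
    have h3 : g s ∈ Metric.eball (0 : X) ρ := by
      rw [Metric.mem_eball, edist_zero_right] at hg ⊢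
      refine lt_of_le_of_lt ?_ hg
      rw [← ofReal_norm, ← ofReal_norm]
      exact ENNReal.ofReal_le_ofReal (g.norm_coe_le_norm s)
    have h4 := hF.hasSum h3
    exact h2.unique h4

end superposition

section localpart

variable {W : Type*} [NormedAddCommGroup W] [NormedSpace ℝ W]

/-- integration over `[a,b]` as a continuous linear functional on `C([a,b])` -/
private noncomputable def intCLM (a b : ℝ) (hab : a ≤ b) : C(Icc a b, ℝ) →L[ℝ] ℝ :=
  LinearMap.mkContinuous
    { toFun := fun h => ∫ s in a..b, h (projIcc a b hab s)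
      map_add' := by
        intro f g
        simp only [ContinuousMap.add_apply]
        exact intervalIntegral.integral_add
          ((f.continuous.comp continuous_projIcc).intervalIntegrable _ _)
          ((g.continuous.comp continuous_projIcc).intervalIntegrable _ _)
      map_smul' := by
        intro c f
        simp only [ContinuousMap.smul_apply, RingHom.id_apply]
        exact intervalIntegral.integral_smul c _ }
    |b - a| (by
      intro h
      have := intervalIntegral.norm_integral_le_of_norm_le_const (a := a) (b := b)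
        (f := fun s => h (projIcc a b hab s)) (C := ‖h‖) (fun s _ => h.norm_coe_le_norm _)
      rw [mul_comm]
      exact this)

private theorem intCLM_apply (a b : ℝ) (hab : a ≤ b) (h : C(Icc a b, ℝ)) :
    intCLM a b hab h = ∫ s in a..b, h (projIcc a b hab s) := rfl

/-- the constant embedding -/
private noncomputable def constCLM (J : Type*) [TopologicalSpace J] [CompactSpace J] :
    W →L[ℝ] C(J, W × ℝ) :=
  LinearMap.mkContinuous
    { toFun := fun w => ContinuousMap.const J (w, (0 : ℝ))
      map_add' := by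
        intro x y
        ext s <;> simp
      map_smul' := by
        intro c x
        ext s <;> simp }
    1 (by
      intro w
      rw [ContinuousMap.norm_le _ (by positivity)]
      intro s
      simp [Prod.norm_def])

private theorem constCLM_apply (J : Type*) [TopologicalSpace J] [CompactSpace J] (w : W) (s : J) :
    (constCLM J w : C(J, W × ℝ)) s = (w, 0) := rfl

/-- the statement for small intervals -/
private theorem local_part (F : W × ℝ → ℝ) (w₁ : W) (s₁ : ℝ) (hF : AnalyticAt ℝ F (w₁, s₁)) :
    ∃ δ > 0, ∀ a b : ℝ, a ≤ b → a ∈ ball s₁ δ → b ∈ ball s₁ δ →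
      AnalyticAt ℝ (fun w => ∫ s in a..b, F (w, s)) w₁ ∧
        ∀ᶠ w in 𝓝 w₁, IntervalIntegrable (fun s => F (w, s)) volume a b := by
  obtain ⟨p, ρ, hp⟩ := hF
  obtain ⟨r, hr0, hrρ⟩ : ∃ r : ℝ, 0 < r ∧ ENNReal.ofReal r ≤ ρ := by
    by_cases htop : ρ = ⊤
    · exact ⟨1, one_pos, by rw [htop]; exact le_top⟩
    · exact ⟨ρ.toReal, ENNReal.toReal_pos hp.r_pos.ne' htop, by rw [ENNReal.ofReal_toReal htop]⟩
  refine ⟨r / 2, by positivity, fun a b hab ha hb => ?_⟩
  have hmem : ∀ s ∈ Icc a b, |s - s₁| < r / 2 := by
    intro s hs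
    rw [mem_ball, Real.dist_eq, abs_lt] at ha hb
    rw [abs_lt]
    constructor
    · linarith [hs.1, ha.1]
    · linarith [hs.2, hb.2]
  obtain ⟨Φ, hΦ1, hΦ2⟩ := exists_superposition (J := Icc a b) hp
  let g0 : C(Icc a b, W × ℝ) := ⟨fun s => (0, (s : ℝ) - s₁), by fun_prop⟩
  let G : W → C(Icc a b, W × ℝ) := fun w => g0 + constCLM (Icc a b) (w - w₁)
  have hGs : ∀ w s, G w s = (w - w₁, (s : ℝ) - s₁) := by
    intro w s
    simp only [G, g0, ContinuousMap.add_apply, constCLM_apply, ContinuousMap.coe_mk, Prod.mk_add_mk, zero_add,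
      add_zero]
  have hGan : AnalyticAt ℝ G w₁ := by
    have h1 : AnalyticAt ℝ (fun w : W => w - w₁) w₁ := analyticAt_id.sub analyticAt_const
    have h2 : AnalyticAt ℝ (fun w : W => constCLM (Icc a b) (w - w₁)) w₁ :=
      AnalyticAt.fun_comp (g := fun z : W => constCLM (Icc a b) z) (f := fun w : W => w - w₁)
        ((constCLM (W := W) (Icc a b)).analyticAt _) h1
    exact analyticAt_const.add h2
  have hGball : ∀ w ∈ ball w₁ r, G w ∈ Metric.eball (0 : C(Icc a b, W × ℝ)) ρ := by
    intro w hw
    rw [Metric.mem_eball, edist_zero_right, ← ofReal_norm]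
    refine lt_of_lt_of_le ?_ hrρ
    rw [ENNReal.ofReal_lt_ofReal_iff hr0, ContinuousMap.norm_lt_iff _ hr0]
    intro s
    rw [hGs, Prod.norm_def, max_lt_iff]
    constructor
    · simpa [dist_eq_norm] using hw
    · have := hmem s s.2
      simp only [Real.norm_eq_abs]
      linarith
  have hval : ∀ w ∈ ball w₁ r, ∀ s (hs : s ∈ Icc a b), F (w, s) = Φ (G w) ⟨s, hs⟩ := by
    intro w hw s hs
    rw [hΦ2 (G w) (hGball w hw), hGs]
    congr 1
    simp
  have hnb : ∀ᶠ w in 𝓝 w₁, w ∈ ball w₁ r := ball_mem_nhds _ hr0
  have hww : w₁ ∈ ball w₁ r := mem_ball_self hr0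
  constructor
  · have h1 : AnalyticAt ℝ (fun w => intCLM a b hab (Φ (G w))) w₁ := by
      have h2 : AnalyticAt ℝ (fun w => Φ (G w)) w₁ := AnalyticAt.fun_comp (g := Φ) (f := G) (hΦ1 (G w₁) (hGball w₁ hww)) hGan
      exact AnalyticAt.fun_comp (g := fun z => intCLM a b hab z) (f := fun w => Φ (G w))
        ((intCLM a b hab).analyticAt _) h2
    refine h1.congr ?_
    filter_upwards [hnb] with w hw
    rw [intCLM_apply]
    refine intervalIntegral.integral_congr ?_
    intro s hs
    rw [uIcc_of_le hab] at hs
    simp only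
    rw [hval w hw s hs, projIcc_of_mem hab hs]
  · filter_upwards [hnb] with w hw
    have hc : ContinuousOn (fun s => F (w, s)) (uIcc a b) := by
      rw [uIcc_of_le hab, continuousOn_iff_continuous_domRestrict]
      refine (Φ (G w)).continuous.congr ?_
      intro s
      exact (hval w hw s s.2).symm
    exact hc.intervalIntegrable

end localpart

theorem analyticAt_integral {W : Type*} [NormedAddCommGroup W] [NormedSpace ℝ W]
    (F : W × ℝ → ℝ) (w : W) (hF : ∀ s ∈ Icc (0 : ℝ) 1, AnalyticAt ℝ F (w, s)) :
    AnalyticAt ℝ (fun w => ∫ s in (0 : ℝ)..1, F (w, s)) w := by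
  choose! δ hδ0 hδ using fun s hs => local_part F w s (hF s hs)
  obtain ⟨ε, hε0, hε⟩ := lebesgue_number_lemma_of_metric (s := Icc (0 : ℝ) 1)
    (c := fun i : Icc (0 : ℝ) 1 => ball (i : ℝ) (δ i)) isCompact_Icc (fun i => isOpen_ball) (by
      intro x hx
      exact mem_iUnion.2 ⟨⟨x, hx⟩, mem_ball_self (hδ0 x hx)⟩)
  obtain ⟨n, hn⟩ := exists_nat_one_div_lt hε0
  set N : ℝ := (n : ℝ) + 1 with hN
  have hNpos : 0 < N := by positivity
  have step : ∀ k : ℕ, k < n + 1 →
      AnalyticAt ℝ (fun w => ∫ s in ((k : ℝ) / N)..(((k + 1 : ℕ) : ℝ) / N), F (w, s)) w ∧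
        ∀ᶠ w in 𝓝 w, IntervalIntegrable (fun s => F (w, s)) volume ((k : ℝ) / N) (((k + 1 : ℕ) : ℝ) / N) := by
    intro k hk
    have hk1 : (k : ℝ) / N ∈ Icc (0 : ℝ) 1 := by
      constructor
      · positivity
      · rw [div_le_one hNpos, hN]
        have : (k : ℝ) ≤ n := by exact_mod_cast Nat.lt_succ_iff.1 hk
        linarith
    obtain ⟨i, hi⟩ := hε _ hk1
    have hle : (k : ℝ) / N ≤ ((k + 1 : ℕ) : ℝ) / N := by
      gcongr
      exact_mod_cast Nat.le_succ k
    refine hδ i i.2 _ _ hle (hi (mem_ball_self hε0)) (hi ?_)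
    rw [mem_ball, Real.dist_eq]
    have : ((k + 1 : ℕ) : ℝ) / N - (k : ℝ) / N = 1 / N := by
      push_cast
      ring
    rw [this, abs_of_pos (by positivity)]
    exact hn
  have main : ∀ k : ℕ, k ≤ n + 1 →
      AnalyticAt ℝ (fun w => ∫ s in (0 : ℝ)..((k : ℝ) / N), F (w, s)) w ∧
        ∀ᶠ w in 𝓝 w, IntervalIntegrable (fun s => F (w, s)) volume 0 ((k : ℝ) / N) := by
    intro k
    induction k with
    | zero =>
      intro _
      simp only [Nat.cast_zero, zero_div, intervalIntegral.integral_same]
      exact ⟨analyticAt_const, Eventually.of_forall fun w => IntervalIntegrable.refl⟩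
    | succ k ih =>
      intro hk
      obtain ⟨h1, h2⟩ := ih (by omega)
      obtain ⟨h3, h4⟩ := step k (by omega)
      constructor
      · refine (h1.add h3).congr ?_
        filter_upwards [h2, h4] with w' hw1 hw2
        exact intervalIntegral.integral_add_adjacent_intervals hw1 hw2
      · filter_upwards [h2, h4] with w' hw1 hw2
        exact hw1.trans hw2
  have := (main (n + 1) le_rfl).1
  have e : ((n + 1 : ℕ) : ℝ) / N = 1 := by
    rw [hN]
    push_cast
    exact div_self (by positivity)
  rw [e] at this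
  exact this

end Pool.Agent.MP_c8a077_gt
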