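import Pool.Agent.Lib.MP_c8a077_gt.G0
import Pool.Agent.Lib.MP_c8a077_gt.PI
import Pool.Agent.Lib.MP_c8a077_gt.HkA

/-!
# JOB G1: the chord area `Sch` is a positive real-analytic function of the two end points

PROOF.  For `A < z₁ < z₂ < B` and `x ∈ [0,1]` the point `z = z₁ + x(z₂-z₁)` is in `(A,B)`, and
`deriv (qch r z₁ z₂) x = 2 r(z) r'(z) (z₂-z₁) - 2 (r z₁ + x(r z₂ - r z₁)) (r z₂ - r z₁)`, valid also in a
neighbourhood of `((z₁,z₂),x)`.  The radicand `ρ = ((z₂-z₁)² + (r z₂-r z₁)²) q + (deriv q)²/4` is positive: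
for `x ∈ (0,1)` `q > 0` by `Prof.chord_lt`; at `x = 0` `q = 0` and
`deriv q = 2 r(z₁)(z₂-z₁)(r'(z₁) - slope) ≠ 0` by `Prof.slope_lt`, similarly at `x = 1`.  So
`((z₁,z₂),x) ↦ q^k √ρ` is analytic at all points with `x ∈ [0,1]` (`r`, `deriv r` analytic on `(A,B)`,
`analyticAt_sqrt'`), and `analyticAt_integral` with `W = ℝ × ℝ` applies.  Positivity: the integrand is
continuous on `[0,1]`, nonnegative, and positive on `(0,1)`.
-/

open MeasureTheory Set Metric Topology Filter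

namespace Pool.Agent.MP_c8a077_gt

/-- The domain of the pairs of end points of chords. -/
def Dch (A B : ℝ) : Set (ℝ × ℝ) := {z | A < z.1 ∧ z.1 < z.2 ∧ z.2 < B}

theorem qch_deriv {k : ℕ} {A B : ℝ} {r : ℝ → ℝ} {P : Polynomial ℝ} (h : Prof k A B r P)
    {z₁ z₂ x : ℝ} (hz : z₁ + x * (z₂ - z₁) ∈ Ioo A B) :
    HasDerivAt (qch r z₁ z₂) (2 * r (z₁ + x * (z₂ - z₁)) * deriv r (z₁ + x * (z₂ - z₁)) * (z₂ - z₁)
      - 2 * (r z₁ + x * (r z₂ - r z₁)) * (r z₂ - r z₁)) x := by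
  have hr := (h.analytic hz).differentiableAt.hasDerivAt
  have h1 : HasDerivAt (fun x : ℝ => z₁ + x * (z₂ - z₁)) (z₂ - z₁) x := by
    simpa using ((hasDerivAt_id x).mul_const (z₂ - z₁)).const_add z₁
  have h2 : HasDerivAt (fun x : ℝ => r (z₁ + x * (z₂ - z₁)))
      (deriv r (z₁ + x * (z₂ - z₁)) * (z₂ - z₁)) x := HasDerivAt.comp x hr h1
  have h3 : HasDerivAt (fun x : ℝ => r z₁ + x * (r z₂ - r z₁)) (r z₂ - r z₁) x := by
    simpa using ((hasDerivAt_id x).mul_const (r z₂ - r z₁)).const_add (r z₁)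
  have h4 := (h2.pow 2).sub (h3.pow 2)
  refine HasDerivAt.congr_deriv h4 ?_
  push_cast
  ring

private theorem seg_mem {A B z₁ z₂ x : ℝ} (hA : A < z₁) (h12 : z₁ < z₂) (hB : z₂ < B)
    (hx : x ∈ Icc (0 : ℝ) 1) : z₁ + x * (z₂ - z₁) ∈ Ioo A B := by
  have h1 : 0 ≤ x * (z₂ - z₁) := mul_nonneg hx.1 (by linarith)
  have h2 : x * (z₂ - z₁) ≤ 1 * (z₂ - z₁) := mul_le_mul_of_nonneg_right hx.2 (by linarith)
  exact ⟨by linarith, by linarith⟩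

private theorem qch_pos {k : ℕ} {A B : ℝ} {r : ℝ → ℝ} {P : Polynomial ℝ} (h : Prof k A B r P)
    {z₁ z₂ x : ℝ} (hA : A < z₁) (h12 : z₁ < z₂) (hB : z₂ < B) (hx : x ∈ Ioo (0 : ℝ) 1) :
    0 < qch r z₁ z₂ x := by
  have h1 := h.chord_lt hA h12 hB hx
  have p1 : 0 < r z₁ := h.pos _ ⟨hA, h12.trans hB⟩
  have p2 : 0 < r z₂ := h.pos _ ⟨hA.trans h12, hB⟩
  have h2 : 0 < r z₁ + x * (r z₂ - r z₁) := by
    have a1 : 0 < (1 - x) * r z₁ := mul_pos (by linarith [hx.2]) p1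
    have a2 : 0 < x * r z₂ := mul_pos hx.1 p2
    have e : r z₁ + x * (r z₂ - r z₁) = (1 - x) * r z₁ + x * r z₂ := by ring
    rw [e]; linarith
  unfold qch
  have := pow_lt_pow_left₀ h1 h2.le (two_ne_zero)
  linarith

theorem radicand_pos {k : ℕ} {A B : ℝ} {r : ℝ → ℝ} {P : Polynomial ℝ} (h : Prof k A B r P)
    {z₁ z₂ x : ℝ} (hA : A < z₁) (h12 : z₁ < z₂) (hB : z₂ < B) (hx : x ∈ Icc (0 : ℝ) 1) :
    0 < ((z₂ - z₁) ^ 2 + (r z₂ - r z₁) ^ 2) * qch r z₁ z₂ x + (deriv (qch r z₁ z₂) x) ^ 2 / 4 := by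
  have hd := (qch_deriv h (seg_mem hA h12 hB hx)).deriv
  have p1 : 0 < r z₁ := h.pos _ ⟨hA, h12.trans hB⟩
  have p2 : 0 < r z₂ := h.pos _ ⟨hA.trans h12, hB⟩
  have h21 : 0 < z₂ - z₁ := by linarith
  obtain ⟨s2, s1⟩ := h.slope_lt hA h12 hB
  rw [lt_div_iff₀ h21] at s2
  rw [div_lt_iff₀ h21] at s1
  rcases eq_or_lt_of_le hx.1 with h0 | h0
  · subst h0
    rw [hd]
    have hq : qch r z₁ z₂ 0 = 0 := by simp [qch]
    rw [hq]
    have e : 2 * r (z₁ + 0 * (z₂ - z₁)) * deriv r (z₁ + 0 * (z₂ - z₁)) * (z₂ - z₁)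
      - 2 * (r z₁ + 0 * (r z₂ - r z₁)) * (r z₂ - r z₁)
      = 2 * (r z₁ * (deriv r z₁ * (z₂ - z₁) - (r z₂ - r z₁))) := by
      simp only [zero_mul, add_zero]; ring
    rw [e]
    have : 0 < r z₁ * (deriv r z₁ * (z₂ - z₁) - (r z₂ - r z₁)) := mul_pos p1 (by linarith)
    positivity
  · rcases eq_or_lt_of_le hx.2 with h1 | h1
    · subst h1
      rw [hd]
      have hq : qch r z₁ z₂ 1 = 0 := by simp [qch]
      rw [hq]
      have e : 2 * r (z₁ + 1 * (z₂ - z₁)) * deriv r (z₁ + 1 * (z₂ - z₁)) * (z₂ - z₁)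
        - 2 * (r z₁ + 1 * (r z₂ - r z₁)) * (r z₂ - r z₁)
        = -(2 * (r z₂ * ((r z₂ - r z₁) - deriv r z₂ * (z₂ - z₁)))) := by
        have e1 : z₁ + 1 * (z₂ - z₁) = z₂ := by ring
        rw [e1]; ring
      rw [e]
      have : 0 < r z₂ * ((r z₂ - r z₁) - deriv r z₂ * (z₂ - z₁)) := mul_pos p2 (by linarith)
      rw [neg_sq]
      positivity
    · have hq := qch_pos h hA h12 hB ⟨h0, h1⟩
      have a1 : 0 < ((z₂ - z₁) ^ 2 + (r z₂ - r z₁) ^ 2) * qch r z₁ z₂ x :=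
        mul_pos (by positivity) hq
      have a2 : 0 ≤ (deriv (qch r z₁ z₂) x) ^ 2 / 4 := by positivity
      linarith

/-- The integrand of `Sch` with the derivative computed. -/
private noncomputable def Fint (k : ℕ) (r : ℝ → ℝ) (p : (ℝ × ℝ) × ℝ) : ℝ :=
  (r (p.1.1 + p.2 * (p.1.2 - p.1.1)) ^ 2 - (r p.1.1 + p.2 * (r p.1.2 - r p.1.1)) ^ 2) ^ k *
    √(((p.1.2 - p.1.1) ^ 2 + (r p.1.2 - r p.1.1) ^ 2) *
      (r (p.1.1 + p.2 * (p.1.2 - p.1.1)) ^ 2 - (r p.1.1 + p.2 * (r p.1.2 - r p.1.1)) ^ 2) +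
      (2 * r (p.1.1 + p.2 * (p.1.2 - p.1.1)) * deriv r (p.1.1 + p.2 * (p.1.2 - p.1.1)) *
        (p.1.2 - p.1.1) - 2 * (r p.1.1 + p.2 * (r p.1.2 - r p.1.1)) * (r p.1.2 - r p.1.1)) ^ 2 / 4)

private theorem Fint_eq {k : ℕ} {A B : ℝ} {r : ℝ → ℝ} {P : Polynomial ℝ} (h : Prof k A B r P)
    {z₁ z₂ x : ℝ} (hA : A < z₁) (h12 : z₁ < z₂) (hB : z₂ < B) (hx : x ∈ Icc (0 : ℝ) 1) :
    qch r z₁ z₂ x ^ k *
      √(((z₂ - z₁) ^ 2 + (r z₂ - r z₁) ^ 2) * qch r z₁ z₂ x + (deriv (qch r z₁ z₂) x) ^ 2 / 4)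
      = Fint k r ((z₁, z₂), x) := by
  rw [(qch_deriv h (seg_mem hA h12 hB hx)).deriv]
  rfl

private theorem Fint_analytic {k : ℕ} {A B : ℝ} {r : ℝ → ℝ} {P : Polynomial ℝ} (h : Prof k A B r P)
    {z₁ z₂ x : ℝ} (hA : A < z₁) (h12 : z₁ < z₂) (hB : z₂ < B) (hx : x ∈ Icc (0 : ℝ) 1) :
    AnalyticAt ℝ (Fint k r) ((z₁, z₂), x) := by
  have c1 : AnalyticAt ℝ (fun p : (ℝ × ℝ) × ℝ => p.1.1) ((z₁, z₂), x) :=
    ((ContinuousLinearMap.fst ℝ ℝ ℝ).comp (ContinuousLinearMap.fst ℝ (ℝ × ℝ) ℝ)).analyticAt _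
  have c2 : AnalyticAt ℝ (fun p : (ℝ × ℝ) × ℝ => p.1.2) ((z₁, z₂), x) :=
    ((ContinuousLinearMap.snd ℝ ℝ ℝ).comp (ContinuousLinearMap.fst ℝ (ℝ × ℝ) ℝ)).analyticAt _
  have c3 : AnalyticAt ℝ (fun p : (ℝ × ℝ) × ℝ => p.2) ((z₁, z₂), x) :=
    (ContinuousLinearMap.snd ℝ (ℝ × ℝ) ℝ).analyticAt _
  have c4 : AnalyticAt ℝ (fun p : (ℝ × ℝ) × ℝ => p.1.1 + p.2 * (p.1.2 - p.1.1)) ((z₁, z₂), x) :=
    c1.add (c3.mul (c2.sub c1))
  have r1 : AnalyticAt ℝ (fun p : (ℝ × ℝ) × ℝ => r p.1.1) ((z₁, z₂), x) :=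
    AnalyticAt.fun_comp (f := fun p : (ℝ × ℝ) × ℝ => p.1.1) (h.analytic ⟨hA, h12.trans hB⟩) c1
  have r2 : AnalyticAt ℝ (fun p : (ℝ × ℝ) × ℝ => r p.1.2) ((z₁, z₂), x) :=
    AnalyticAt.fun_comp (f := fun p : (ℝ × ℝ) × ℝ => p.1.2) (h.analytic ⟨hA.trans h12, hB⟩) c2
  have hz := seg_mem hA h12 hB hx
  have r3 : AnalyticAt ℝ (fun p : (ℝ × ℝ) × ℝ => r (p.1.1 + p.2 * (p.1.2 - p.1.1)))
      ((z₁, z₂), x) :=
    AnalyticAt.fun_comp (f := fun p : (ℝ × ℝ) × ℝ => p.1.1 + p.2 * (p.1.2 - p.1.1))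
      (h.analytic hz) c4
  have r4 : AnalyticAt ℝ (fun p : (ℝ × ℝ) × ℝ => deriv r (p.1.1 + p.2 * (p.1.2 - p.1.1)))
      ((z₁, z₂), x) :=
    AnalyticAt.fun_comp (f := fun p : (ℝ × ℝ) × ℝ => p.1.1 + p.2 * (p.1.2 - p.1.1))
      (h.analytic hz).deriv c4
  have l1 := r1.add (c3.mul (r2.sub r1))
  have q1 := (r3.pow 2).sub (l1.pow 2)
  have d1 := (((analyticAt_const (v := (2 : ℝ)) (𝕜 := ℝ)).mul r3).mul r4).mul (c2.sub c1)
  have d2 := ((analyticAt_const (v := (2 : ℝ)) (𝕜 := ℝ)).mul l1).mul (r2.sub r1)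
  have d3 := (d1.sub d2).pow 2
  have rad := ((((c2.sub c1).pow 2).add ((r2.sub r1).pow 2)).mul q1).add
    (d3.div_const (c := (4 : ℝ)))
  have hpos := radicand_pos h hA h12 hB hx
  rw [(qch_deriv h hz).deriv] at hpos
  have sq := AnalyticAt.fun_comp (g := fun y : ℝ => √y) (by exact analyticAt_sqrt' hpos) rad
  exact (q1.pow k).mul sq

theorem Sch_analytic {k : ℕ} {A B : ℝ} {r : ℝ → ℝ} {P : Polynomial ℝ} (h : Prof k A B r P) :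
    AnalyticOnNhd ℝ (fun z : ℝ × ℝ => Sch k r z.1 z.2) (Dch A B) := by
  intro z hz
  have h1 := analyticAt_integral (Fint k r) z
    (fun s hs => Fint_analytic h hz.1 hz.2.1 hz.2.2 hs)
  refine h1.congr ?_
  have hopen : IsOpen (Dch A B) :=
    (isOpen_lt continuous_const continuous_fst).inter
      ((isOpen_lt continuous_fst continuous_snd).inter (isOpen_lt continuous_snd continuous_const))
  filter_upwards [hopen.mem_nhds hz] with w hw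
  unfold Sch
  refine intervalIntegral.integral_congr (fun x hx => ?_)
  rw [uIcc_of_le zero_le_one] at hx
  exact (Fint_eq h hw.1 hw.2.1 hw.2.2 hx).symm

theorem Sch_pos {k : ℕ} {A B : ℝ} {r : ℝ → ℝ} {P : Polynomial ℝ} (h : Prof k A B r P)
    {z₁ z₂ : ℝ} (hA : A < z₁) (h12 : z₁ < z₂) (hB : z₂ < B) : 0 < Sch k r z₁ z₂ := by
  have hcont : ContinuousOn (fun x : ℝ => Fint k r ((z₁, z₂), x)) (uIcc 0 1) := by
    intro x hx
    rw [uIcc_of_le zero_le_one] at hx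
    have := (Fint_analytic h hA h12 hB hx).continuousAt
    exact (ContinuousAt.comp (f := fun x : ℝ => (((z₁, z₂) : ℝ × ℝ), x)) this
      (by fun_prop)).continuousWithinAt
  have hI : Sch k r z₁ z₂ = ∫ x in (0 : ℝ)..1, Fint k r ((z₁, z₂), x) := by
    unfold Sch
    refine intervalIntegral.integral_congr (fun x hx => ?_)
    rw [uIcc_of_le zero_le_one] at hx
    exact Fint_eq h hA h12 hB hx
  rw [hI]
  refine intervalIntegral.intervalIntegral_pos_of_pos_on hcont.intervalIntegrable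
    (fun x hx => ?_) zero_lt_one
  rw [← Fint_eq h hA h12 hB (Ioo_subset_Icc_self hx)]
  exact mul_pos (pow_pos (qch_pos h hA h12 hB hx) k)
    (Real.sqrt_pos.2 (radicand_pos h hA h12 hB (Ioo_subset_Icc_self hx)))

end Pool.Agent.MP_c8a077_gt
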