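import Pool.Agent.Lib.MP_c8a077_gt.G1

/-!
# JOB G2: the section integral of a chord

PROOF.  `L = √((z₂-z₁)² + (r z₂-r z₁)²)`.  From `hdir`, `hαβ`, `β < 0`, `z₁ < z₂`:
`(z₂ - z₁, r z₂ - r z₁) = L (-β, α)`.  With `t = α z₁ + β r z₁` and `s = s₁ + x L`,
`s₁ = -β z₁ + α r z₁`: `t α - s β = z₁ + x(z₂-z₁)` and `t β + s α = r z₁ + x (r z₂ - r z₁)`, so
`qsec r α β t s = qch r z₁ z₂ x` and `deriv (qsec r α β t) s = deriv (qch r z₁ z₂) x / L`.
The domain `{s | tα-sβ ∈ (A,B), 0 < qsec}` is `Ioo s₁ (s₁+L)`: for `x ∈ (0,1)` by `Prof.chord_lt`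
(and the chord is positive); for `x ≤ 0` or `x ≥ 1` with `z ∈ (A,B)` the line is `≥ r z > 0`
(`Prof.line_gt`), so `qsec ≤ 0`.  Change of variables `s = s₁ + xL` in the `lintegral`, and
`q^k √(q + (q_x/L)²/4) L = q^k √(L² q + q_x²/4)`.  Then `ofReal_integral_eq_lintegral_ofReal`
(the integrand is continuous on `[0,1]`, nonnegative).
-/

open MeasureTheory Set Metric Topology Filter

namespace Pool.Agent.MP_c8a077_gt

private theorem g2_an {k : ℕ} {A B : ℝ} {r : ℝ → ℝ} {P : Polynomial ℝ} (h : Prof k A B r P)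
    {z₁ z₂ x : ℝ} (hz : z₁ + x * (z₂ - z₁) ∈ Ioo A B) : AnalyticAt ℝ (qch r z₁ z₂) x := by
  have h1 : AnalyticAt ℝ (fun x : ℝ => z₁ + x * (z₂ - z₁)) x := by fun_prop
  have h2 : AnalyticAt ℝ (fun x : ℝ => r z₁ + x * (r z₂ - r z₁)) x := by fun_prop
  have h3 : AnalyticAt ℝ (fun x : ℝ => r (z₁ + x * (z₂ - z₁))) x :=
    AnalyticAt.comp_of_eq (h.analytic hz) h1 rfl
  exact (h3.pow 2).sub (h2.pow 2)

private theorem g2_dom {k : ℕ} {A B : ℝ} {r : ℝ → ℝ} {P : Polynomial ℝ} (h : Prof k A B r P)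
    {z₁ z₂ : ℝ} (hA : A < z₁) (h12 : z₁ < z₂) (hB : z₂ < B) (x : ℝ) :
    (z₁ + x * (z₂ - z₁) ∈ Ioo A B ∧ 0 < qch r z₁ z₂ x) ↔ x ∈ Ioo (0 : ℝ) 1 := by
  have hd : 0 < z₂ - z₁ := sub_pos.2 h12
  have hr1 : 0 < r z₁ := h.pos z₁ ⟨hA, h12.trans hB⟩
  have hr2 : 0 < r z₂ := h.pos z₂ ⟨hA.trans h12, hB⟩
  constructor
  · rintro ⟨hz, hq⟩
    have hrz := h.pos _ hz
    have hx : (z₁ + x * (z₂ - z₁) - z₁) / (z₂ - z₁) = x := by
      field_simp
      ring
    by_contra hcon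
    have hbad : ∀ y : ℝ, 0 < y → y < r z₁ + x * (r z₂ - r z₁) →
        y ^ 2 - (r z₁ + x * (r z₂ - r z₁)) ^ 2 < 0 := by
      intro y hy1 hy2
      nlinarith
    unfold qch at hq
    rcases lt_trichotomy x 0 with h0 | h0 | h0
    · have h1 : z₁ + x * (z₂ - z₁) < z₁ := by nlinarith
      have h2 := h.line_gt hA h12 hB hz (Or.inl h1)
      rw [hx] at h2
      have h3 := hbad _ hrz h2
      linarith
    · rw [h0] at hq
      simp at hq
    · rcases lt_trichotomy x 1 with h1 | h1 | h1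
      · exact hcon ⟨h0, h1⟩
      · rw [h1] at hq
        simp at hq
      · have h2 : z₂ < z₁ + x * (z₂ - z₁) := by nlinarith
        have h3 := h.line_gt hA h12 hB hz (Or.inr h2)
        rw [hx] at h3
        have h4 := hbad _ hrz h3
        linarith
  · rintro ⟨h0, h1⟩
    have e1 : 0 < x * (z₂ - z₁) := mul_pos h0 hd
    have e2 : x * (z₂ - z₁) < z₂ - z₁ := by nlinarith
    refine ⟨⟨by linarith, by linarith⟩, ?_⟩
    have h2 := h.chord_lt hA h12 hB ⟨h0, h1⟩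
    have h3 : 0 < r z₁ + x * (r z₂ - r z₁) := by
      have : 0 < (1 - x) * r z₁ := mul_pos (by linarith) hr1
      have : 0 < x * r z₂ := mul_pos h0 hr2
      nlinarith
    unfold qch
    nlinarith

theorem Isec_chord {k : ℕ} {A B : ℝ} {r : ℝ → ℝ} {P : Polynomial ℝ} (h : Prof k A B r P)
    {z₁ z₂ : ℝ} (hA : A < z₁) (h12 : z₁ < z₂) (hB : z₂ < B) {α β : ℝ} (hβ : β < 0)
    (hαβ : α ^ 2 + β ^ 2 = 1) (hdir : α * (z₂ - z₁) + β * (r z₂ - r z₁) = 0) :
    Isec k r A B α β (α * z₁ + β * r z₁) = ENNReal.ofReal (Sch k r z₁ z₂) := by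
  obtain ⟨L, hL0, hL1, hL2⟩ : ∃ L : ℝ, 0 < L ∧ z₂ - z₁ = L * (-β) ∧ r z₂ - r z₁ = L * α := by
    have hd : 0 < z₂ - z₁ := sub_pos.2 h12
    have hb : 0 < -β := by linarith
    refine ⟨(z₂ - z₁) / (-β), div_pos hd hb, (div_mul_cancel₀ _ hb.ne').symm, ?_⟩
    · have hb' : β ≠ 0 := hβ.ne
      field_simp
      linarith
  set s₁ : ℝ := -β * z₁ + α * r z₁ with hs₁
  set t : ℝ := α * z₁ + β * r z₁ with ht
  have hz : ∀ x : ℝ, t * α - (s₁ + x * L) * β = z₁ + x * (z₂ - z₁) := by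
    intro x
    rw [hL1, ht, hs₁]
    linear_combination z₁ * hαβ
  have hy : ∀ x : ℝ, t * β + (s₁ + x * L) * α = r z₁ + x * (r z₂ - r z₁) := by
    intro x
    rw [hL2, ht, hs₁]
    linear_combination r z₁ * hαβ
  have hq : ∀ x : ℝ, qsec r α β t (s₁ + x * L) = qch r z₁ z₂ x := by
    intro x
    unfold qsec qch
    rw [hz, hy]
  have hLsq : (z₂ - z₁) ^ 2 + (r z₂ - r z₁) ^ 2 = L ^ 2 := by
    rw [hL1, hL2]
    linear_combination L ^ 2 * hαβ
  have hin : ∀ x ∈ Icc (0 : ℝ) 1, z₁ + x * (z₂ - z₁) ∈ Ioo A B := by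
    intro x hx
    have hd : 0 < z₂ - z₁ := sub_pos.2 h12
    constructor
    · have : 0 ≤ x * (z₂ - z₁) := mul_nonneg hx.1 hd.le
      linarith
    · have : x * (z₂ - z₁) ≤ 1 * (z₂ - z₁) := mul_le_mul_of_nonneg_right hx.2 hd.le
      linarith
  have hderiv : ∀ x ∈ Icc (0 : ℝ) 1,
      deriv (qsec r α β t) (s₁ + x * L) = deriv (qch r z₁ z₂) x / L := by
    intro x hx
    have h1 : qsec r α β t = fun s => qch r z₁ z₂ ((s - s₁) / L) := by
      funext s
      rw [← hq, div_mul_cancel₀ _ hL0.ne', add_sub_cancel]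
    have h2 : HasDerivAt (fun s : ℝ => (s - s₁) / L) (1 / L) (s₁ + x * L) :=
      ((hasDerivAt_id (s₁ + x * L)).sub_const s₁).div_const L
    have h3 : (s₁ + x * L - s₁) / L = x := by
      rw [add_sub_cancel_left, mul_div_cancel_right₀ _ hL0.ne']
    have h4 : HasDerivAt (qch r z₁ z₂) (deriv (qch r z₁ z₂) x) ((s₁ + x * L - s₁) / L) := by
      rw [h3]
      exact (g2_an h (hin x hx)).differentiableAt.hasDerivAt
    rw [h1]
    have h5 := h4.comp (s₁ + x * L) h2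
    have h6 := h5.deriv
    rw [mul_one_div] at h6
    exact h6
  have hset : {s : ℝ | t * α - s * β ∈ Ioo A B ∧ 0 < qsec r α β t s} =
      (fun x : ℝ => s₁ + x * L) '' Ioo 0 1 := by
    ext s
    rw [mem_ofPred_eq, mem_image]
    have h1 : s = s₁ + (s - s₁) / L * L := by
      rw [div_mul_cancel₀ _ hL0.ne', add_sub_cancel]
    constructor
    · intro h2
      refine ⟨(s - s₁) / L, ?_, h1.symm⟩
      rw [h1, hz, hq] at h2
      exact (g2_dom h hA h12 hB _).1 h2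
    · rintro ⟨x, hx, rfl⟩
      rw [hz, hq]
      exact (g2_dom h hA h12 hB _).2 hx
  unfold Isec
  rw [hset, lintegral_image_eq_lintegral_abs_deriv_mul (f' := fun _ => L) measurableSet_Ioo]
  · have h1 : ∀ x ∈ Ioo (0 : ℝ) 1, ENNReal.ofReal |L| * ENNReal.ofReal
        (qsec r α β t (s₁ + x * L) ^ k *
          √(qsec r α β t (s₁ + x * L) + deriv (qsec r α β t) (s₁ + x * L) ^ 2 / 4)) =
        ENNReal.ofReal (qch r z₁ z₂ x ^ k *
    √(((z₂ - z₁) ^ 2 + (r z₂ - r z₁) ^ 2) * qch r z₁ z₂ x + (deriv (qch r z₁ z₂) x) ^ 2 / 4)) := by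
      intro x hx
      rw [← ENNReal.ofReal_mul (abs_nonneg _), abs_of_pos hL0, hderiv x (Ioo_subset_Icc_self hx), hq,
        hLsq]
      congr 1
      have h2 : L ^ 2 * qch r z₁ z₂ x + deriv (qch r z₁ z₂) x ^ 2 / 4 =
          L ^ 2 * (qch r z₁ z₂ x + (deriv (qch r z₁ z₂) x / L) ^ 2 / 4) := by
        field_simp
      rw [h2, Real.sqrt_mul (by positivity), Real.sqrt_sq hL0.le]
      ring
    rw [setLIntegral_congr_fun measurableSet_Ioo h1]
    have hcont : ContinuousOn (fun x => qch r z₁ z₂ x ^ k *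
        √(((z₂ - z₁) ^ 2 + (r z₂ - r z₁) ^ 2) * qch r z₁ z₂ x + (deriv (qch r z₁ z₂) x) ^ 2 / 4))
        (Icc 0 1) := by
      have c1 : ContinuousOn (qch r z₁ z₂) (Icc 0 1) := fun x hx =>
        (g2_an h (hin x hx)).continuousAt.continuousWithinAt
      have c2 : ContinuousOn (deriv (qch r z₁ z₂)) (Icc 0 1) := fun x hx =>
        (g2_an h (hin x hx)).deriv.continuousAt.continuousWithinAt
      exact (c1.pow k).mul ((continuousOn_const.mul c1).add ((c2.pow 2).div_const 4)).sqrt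
    have hi0 := hcont.integrableOn_compact (μ := volume) isCompact_Icc
    have hi := hi0.mono_set (Ioo_subset_Icc_self)
    rw [← ofReal_integral_eq_lintegral_ofReal hi, ← integral_Ioc_eq_integral_Ioo,
      ← intervalIntegral.integral_of_le zero_le_one]
    · rfl
    · refine (ae_restrict_iff' measurableSet_Ioo).2 (ae_of_all _ fun x hx => ?_)
      exact mul_nonneg (pow_nonneg ((g2_dom h hA h12 hB x).2 hx).2.le k) (Real.sqrt_nonneg _)
  · intro x _
    have h1 : HasDerivAt (fun x : ℝ => s₁ + x * L) (0 + 1 * L) x :=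
      (hasDerivAt_const x s₁).add ((hasDerivAt_id x).mul_const L)
    rw [zero_add, one_mul] at h1
    exact h1.hasDerivWithinAt
  · intro x _ y _ hxy
    simp only at hxy
    exact mul_right_cancel₀ hL0.ne' (add_left_cancel hxy)

end Pool.Agent.MP_c8a077_gt
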