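import Pool.Agent.Lib.MP_c8a077_gt.G1

/-!
# JOB G3a: differentiation along parallel chords

`sl r z` = slope of the chord, `ic r z` = intercept of the chord.
PROOF.  `XF` is analytic on `Dch A B`: `fderiv` of an analytic function, and the two components of the
vector are analytic because `deriv r z.1 - sl r z ≠ 0`, `deriv r z.2 - sl r z ≠ 0` (`Prof.slope_lt`).
Formula: fix `z = (z₁,z₂) ∈ Dch`, `σ = sl r z`, `c₀ = ic r z`; also `c₀ = r z₂ - σ z₂`.  The functions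
`x ↦ r x - σ x` have derivatives `deriv r z_i - σ ≠ 0` at `z_i`, so there are local inverses `ζ_i(c)`
(`HasStrictDerivAt.localInverse`), `ζ_i(c₀) = z_i`, `r(ζ_i c) - σ ζ_i c = c` for `c` near `c₀`, with
`ζ_i'(c₀) = 1/(deriv r z_i - σ)`.  For `c` near `c₀` `(ζ₁ c, ζ₂ c) ∈ Dch`, with slope
`(r ζ₂ - r ζ₁)/(ζ₂-ζ₁) = σ` and intercept `c`, so `F (ζ₁ c, ζ₂ c) = (g σ).eval c`.  Differentiate at `c₀`.
-/

open MeasureTheory Set Metric Topology Filter

namespace Pool.Agent.MP_c8a077_gt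

noncomputable section

/-- Slope of the chord. -/
def sl (r : ℝ → ℝ) (z : ℝ × ℝ) : ℝ := (r z.2 - r z.1) / (z.2 - z.1)

/-- Intercept of the chord. -/
def ic (r : ℝ → ℝ) (z : ℝ × ℝ) : ℝ := r z.1 - sl r z * z.1

/-- Derivative of `F` along parallel chords, with respect to the intercept. -/
def XF (r : ℝ → ℝ) (F : ℝ × ℝ → ℝ) (z : ℝ × ℝ) : ℝ :=
  fderiv ℝ F z (1 / (deriv r z.1 - sl r z), 1 / (deriv r z.2 - sl r z))

end

theorem G3a_open (A B : ℝ) : IsOpen (Dch A B) := by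
  have h1 : IsOpen {z : ℝ × ℝ | A < z.1} := isOpen_lt continuous_const continuous_fst
  have h2 : IsOpen {z : ℝ × ℝ | z.1 < z.2} := isOpen_lt continuous_fst continuous_snd
  have h3 : IsOpen {z : ℝ × ℝ | z.2 < B} := isOpen_lt continuous_snd continuous_const
  have h4 : Dch A B = {z : ℝ × ℝ | A < z.1} ∩ ({z : ℝ × ℝ | z.1 < z.2} ∩ {z : ℝ × ℝ | z.2 < B}) := by
    ext z
    simp only [Dch, mem_setOf_eq, mem_inter_iff]
  rw [h4]
  exact h1.inter (h2.inter h3)

theorem G3a_ne {k : ℕ} {A B : ℝ} {r : ℝ → ℝ} {P : Polynomial ℝ} (h : Prof k A B r P)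
    {z : ℝ × ℝ} (hz : z ∈ Dch A B) :
    z.1 ∈ Ioo A B ∧ z.2 ∈ Ioo A B ∧ z.2 - z.1 ≠ 0 ∧ deriv r z.1 - sl r z ≠ 0 ∧
      deriv r z.2 - sl r z ≠ 0 := by
  obtain ⟨hA, h12, hB⟩ := hz
  obtain ⟨hs1, hs2⟩ := h.slope_lt hA h12 hB
  refine ⟨⟨hA, h12.trans hB⟩, ⟨hA.trans h12, hB⟩, (sub_pos.2 h12).ne', ?_, ?_⟩
  · exact (sub_pos.2 hs2).ne'
  · exact (sub_neg.2 hs1).ne

theorem G3a_sl {k : ℕ} {A B : ℝ} {r : ℝ → ℝ} {P : Polynomial ℝ} (h : Prof k A B r P)
    {z : ℝ × ℝ} (hz : z ∈ Dch A B) : AnalyticAt ℝ (sl r) z := by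
  obtain ⟨h1, h2, h3, h4, h5⟩ := G3a_ne h hz
  have a1 : AnalyticAt ℝ (fun z : ℝ × ℝ => r z.1) z := (h.analytic h1).comp analyticAt_fst
  have a2 : AnalyticAt ℝ (fun z : ℝ × ℝ => r z.2) z := (h.analytic h2).comp analyticAt_snd
  exact (a2.sub a1).div (analyticAt_snd.sub analyticAt_fst) h3

theorem chord_step {k : ℕ} {A B : ℝ} {r : ℝ → ℝ} {P : Polynomial ℝ} (h : Prof k A B r P)
    (F : ℝ × ℝ → ℝ) (hF : AnalyticOnNhd ℝ F (Dch A B)) (g : ℝ → Polynomial ℝ)
    (hg : ∀ z ∈ Dch A B, F z = (g (sl r z)).eval (ic r z)) :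
    AnalyticOnNhd ℝ (XF r F) (Dch A B) ∧
      ∀ z ∈ Dch A B, XF r F z = (Polynomial.derivative (g (sl r z))).eval (ic r z) := by
  constructor
  · intro z hz
    obtain ⟨h1, h2, h3, h4, h5⟩ := G3a_ne h hz
    have asl := G3a_sl h hz
    have d1 : AnalyticAt ℝ (fun z : ℝ × ℝ => deriv r z.1) z :=
      (h.analytic h1).deriv.comp analyticAt_fst
    have d2 : AnalyticAt ℝ (fun z : ℝ × ℝ => deriv r z.2) z :=
      (h.analytic h2).deriv.comp analyticAt_snd
    have v1 : AnalyticAt ℝ (fun z : ℝ × ℝ => 1 / (deriv r z.1 - sl r z)) z :=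
      analyticAt_const.div (d1.sub asl) h4
    have v2 : AnalyticAt ℝ (fun z : ℝ × ℝ => 1 / (deriv r z.2 - sl r z)) z :=
      analyticAt_const.div (d2.sub asl) h5
    have af := (hF z hz).fderiv
    have e1 : AnalyticAt ℝ (fun w : ℝ × ℝ => fderiv ℝ F w ((1 : ℝ), (0 : ℝ))) z :=
      ((ContinuousLinearMap.apply ℝ ℝ ((1 : ℝ), (0 : ℝ))).analyticAt _).comp af
    have e2 : AnalyticAt ℝ (fun w : ℝ × ℝ => fderiv ℝ F w ((0 : ℝ), (1 : ℝ))) z :=
      ((ContinuousLinearMap.apply ℝ ℝ ((0 : ℝ), (1 : ℝ))).analyticAt _).comp af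
    have e3 : XF r F = fun w : ℝ × ℝ => 1 / (deriv r w.1 - sl r w) * fderiv ℝ F w ((1 : ℝ), (0 : ℝ)) +
        1 / (deriv r w.2 - sl r w) * fderiv ℝ F w ((0 : ℝ), (1 : ℝ)) := by
      funext w
      unfold XF
      have h6 : ((1 / (deriv r w.1 - sl r w), 1 / (deriv r w.2 - sl r w)) : ℝ × ℝ) =
          (1 / (deriv r w.1 - sl r w)) • ((1 : ℝ), (0 : ℝ)) +
            (1 / (deriv r w.2 - sl r w)) • ((0 : ℝ), (1 : ℝ)) := by
        ext <;> simp
      rw [h6, map_add, map_smul, map_smul, smul_eq_mul, smul_eq_mul]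
    rw [e3]
    exact (v1.mul e1).add (v2.mul e2)
  · intro z hz
    obtain ⟨h1, h2, h3, h4, h5⟩ := G3a_ne h hz
    set σ : ℝ := sl r z with hσ
    set c0 : ℝ := ic r z with hc0
    have hs : σ * (z.2 - z.1) = r z.2 - r z.1 := by
      rw [hσ]
      unfold sl
      field_simp
    set φ : ℝ → ℝ := fun x => r x - σ * x with hφ
    have hd : ∀ x ∈ Ioo A B, HasStrictDerivAt φ (deriv r x - σ) x := by
      intro x hx
      have e1 := (h.analytic hx).hasStrictDerivAt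
      have e2 : HasStrictDerivAt (fun x : ℝ => σ * x) (σ * 1) x :=
        (hasStrictDerivAt_id x).const_mul σ
      rw [mul_one] at e2
      exact e1.sub e2
    have f1 : φ z.1 = c0 := by
      rw [hφ, hc0]
      unfold ic
      simp only [hσ]
    have f2 : φ z.2 = c0 := by
      rw [← f1]
      simp only [hφ]
      linarith
    have hd1 := hd z.1 h1
    have hd2 := hd z.2 h2
    set ζ1 := hd1.localInverse φ _ _ h4 with hζ1
    set ζ2 := hd2.localInverse φ _ _ h5 with hζ2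
    have g1 : HasStrictDerivAt ζ1 (deriv r z.1 - σ)⁻¹ c0 := by
      have := hd1.to_localInverse h4
      rwa [f1] at this
    have g2 : HasStrictDerivAt ζ2 (deriv r z.2 - σ)⁻¹ c0 := by
      have := hd2.to_localInverse h5
      rwa [f2] at this
    have i1 : ζ1 c0 = z.1 := by
      rw [← f1]
      exact (hd1.hasStrictFDerivAt_equiv h4).localInverse_apply_image
    have i2 : ζ2 c0 = z.2 := by
      rw [← f2]
      exact (hd2.hasStrictFDerivAt_equiv h5).localInverse_apply_image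
    have r1 : ∀ᶠ c in 𝓝 c0, φ (ζ1 c) = c := by
      have := hd1.eventually_right_inverse h4
      rwa [f1] at this
    have r2 : ∀ᶠ c in 𝓝 c0, φ (ζ2 c) = c := by
      have := hd2.eventually_right_inverse h5
      rwa [f2] at this
    have hcont : ContinuousAt (fun c => (ζ1 c, ζ2 c)) c0 :=
      g1.hasDerivAt.continuousAt.prodMk g2.hasDerivAt.continuousAt
    have hmem : ∀ᶠ c in 𝓝 c0, (ζ1 c, ζ2 c) ∈ Dch A B := by
      apply hcont.eventually_mem
      rw [i1, i2]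
      exact (G3a_open A B).mem_nhds hz
    have heq : ∀ᶠ c in 𝓝 c0, F (ζ1 c, ζ2 c) = (g σ).eval c := by
      filter_upwards [r1, r2, hmem] with c e1 e2 e3
      rw [hg _ e3]
      have hlt : ζ1 c < ζ2 c := e3.2.1
      have hne : ζ2 c - ζ1 c ≠ 0 := (sub_pos.2 hlt).ne'
      simp only [hφ] at e1 e2
      have hsl : sl r (ζ1 c, ζ2 c) = σ := by
        unfold sl
        rw [div_eq_iff hne]
        simp only
        linarith
      have hic : ic r (ζ1 c, ζ2 c) = c := by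
        unfold ic
        rw [hsl]
        exact e1
      rw [hsl, hic]
    have hL : HasDerivAt (fun c => F (ζ1 c, ζ2 c))
        (fderiv ℝ F z ((deriv r z.1 - σ)⁻¹, (deriv r z.2 - σ)⁻¹)) c0 := by
      have hp : HasDerivAt (fun c => (ζ1 c, ζ2 c)) ((deriv r z.1 - σ)⁻¹, (deriv r z.2 - σ)⁻¹) c0 :=
        g1.hasDerivAt.prodMk g2.hasDerivAt
      have hFz : HasFDerivAt F (fderiv ℝ F z) (ζ1 c0, ζ2 c0) := by
        rw [i1, i2]
        exact (hF z hz).differentiableAt.hasFDerivAt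
      exact hFz.comp_hasDerivAt c0 hp
    have hR : HasDerivAt (fun c => F (ζ1 c, ζ2 c)) ((Polynomial.derivative (g σ)).eval c0) c0 :=
      ((g σ).hasDerivAt c0).congr_of_eventuallyEq heq
    have := hL.unique hR
    unfold XF
    rw [one_div, one_div]
    exact this

end Pool.Agent.MP_c8a077_gt
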