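import Pool.Agent.Lib.MP_c8a077_gt.Core
import Pool.Agent.Lib.MP_c8a077_gt.B1
import Pool.Agent.Lib.MP_c8a077_gt.B2b
import Pool.Agent.Lib.MP_c8a077_gt.B3b
import Pool.Agent.Lib.MP_c8a077_gt.B4

/-!
# JOB Main: assembly

PROOF.  `n = 2k+4`.  `IsRevolution` gives `c, e`; `shape` gives `A, B, r`.  Choose a unit `f ⊥ e`.
(1) `surfSec_eq` with `α = 1, β = 0` (`hC1` vacuous) and `Isec_axis`: for `t ∈ (A,B)`
`surfSec K e (t + ⟨c,e⟩) = ofReal (C * Bk k * r t^(2k+2))`; `SurfPolyInt` for `u = e` gives a polynomial `Q` with the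
left side `= ofReal (Q.eval (t + ⟨c,e⟩))` (the point `c + t e` is in the section); so
`r t^(2k+2) = P.eval t` on `(A,B)` with `P = C (1/(C Bk)) * Q.comp (X + C ⟨c,e⟩)`, and on `[A,B]` by continuity.
(2) `pole_zero` gives `r B = 0`; `pole_zero` for `-e` (`RevDesc.neg`, `ProfHyp.neg`, `P.comp (-X)`) gives `r A = 0`.
So `Prof k A B r P`.  `quad_both` gives `κ`.
(3) For `α² + β² = 1`, `β ≠ 0`: `u = α e + β f` is a unit vector; `surfSec_eq` (`hC1` from `Prof.analytic`; the end
condition from `r A = r B = 0`) and `SurfPolyInt K u`, `Q'`: for `t` with some `s`, `tα - sβ ∈ (A,B)`, `0 < qsec`, the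
point `c + t u + s v` (`v = -β e + α f`) lies in `K ∩ hyper u (t + ⟨c,u⟩)`, so
`Isec k r A B α β t = ofReal ((C (1/C') * Q'.comp (X + C ⟨c,u⟩)).eval t)`.
(4) `core` gives `κ'`; `ellipsoid_of_quad`.
-/

open MeasureTheory Set Metric Topology Filter

namespace Pool.Agent.MP_c8a077_gt

/-- A unit vector orthogonal to `e`. -/
private theorem exists_unit_orth {n : ℕ} (hn : 2 ≤ n) (e : E n) (he : ‖e‖ = 1) :
    ∃ f : E n, ‖f‖ = 1 ∧ (inner ℝ e f : ℝ) = 0 := by
  have he0 : e ≠ 0 := by
    intro h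
    rw [h, norm_zero] at he
    exact zero_ne_one he
  have h1 : Module.finrank ℝ (Submodule.span ℝ {e} : Submodule ℝ (E n)) = 1 :=
    finrank_span_singleton he0
  have h2 := (Submodule.span ℝ {e} : Submodule ℝ (E n)).finrank_add_finrank_orthogonal
  have h3 : Module.finrank ℝ (E n) = n := by simp
  have h4 : 0 < Module.finrank ℝ ((Submodule.span ℝ {e} : Submodule ℝ (E n))ᗮ) := by omega
  have : Nontrivial ((Submodule.span ℝ {e} : Submodule ℝ (E n))ᗮ) :=
    Module.nontrivial_of_finrank_pos h4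
  obtain ⟨y, hy⟩ := exists_ne (0 : (Submodule.span ℝ {e} : Submodule ℝ (E n))ᗮ)
  have hy' : (y : E n) ≠ 0 := by
    intro h; apply hy; exact Subtype.ext h
  refine ⟨(‖(y : E n)‖)⁻¹ • (y : E n), ?_, ?_⟩
  · rw [norm_smul, norm_inv, norm_norm, inv_mul_cancel₀ (norm_ne_zero_iff.2 hy')]
  · rw [inner_smul_right]
    have := (Submodule.mem_orthogonal _ _).1 y.2 e (Submodule.mem_span_singleton_self e)
    rw [this, mul_zero]

/-- Points of the section. -/
private theorem mem_section {n : ℕ} {K : Set (E n)} {c e f : E n} (he : ‖e‖ = 1) (hf : ‖f‖ = 1)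
    (hef : (inner ℝ e f : ℝ) = 0) {A B : ℝ} {r : ℝ → ℝ} (hr : ProfHyp A B r)
    (hK : RevDesc K c e A B r) {α β : ℝ} (hαβ : α ^ 2 + β ^ 2 = 1) {t s : ℝ}
    (hz : t * α - s * β ∈ Icc A B) (hq : 0 ≤ qsec r α β t s) :
    (K ∩ hyper (α • e + β • f) (t + inner ℝ c (α • e + β • f))).Nonempty := by
  have hee : (inner ℝ e e : ℝ) = 1 := by rw [real_inner_self_eq_norm_sq, he]; norm_num
  have hff : (inner ℝ f f : ℝ) = 1 := by rw [real_inner_self_eq_norm_sq, hf]; norm_num
  have hfe : (inner ℝ f e : ℝ) = 0 := by rw [real_inner_comm]; exact hef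
  set x : E n := c + (t • (α • e + β • f) + s • ((-β) • e + α • f)) with hx
  have hxc : x - c = (t * α - s * β) • e + (t * β + s * α) • f := by
    rw [hx, add_sub_cancel_left]
    module
  have hin : (inner ℝ (x - c) e : ℝ) = t * α - s * β := by
    rw [hxc, inner_add_left, inner_smul_left, inner_smul_left, hee, hfe]
    simp
  refine ⟨x, ?_, ?_⟩
  · rw [hK x, hin]
    refine ⟨hz, ?_⟩
    rw [hxc, add_sub_cancel_left, norm_smul, hf, mul_one]
    rw [Real.norm_eq_abs]
    apply abs_le_of_sq_le_sq _ (hr.nonneg _ hz)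
    unfold qsec at hq
    linarith
  · show (inner ℝ x (α • e + β • f) : ℝ) = t + inner ℝ c (α • e + β • f)
    have : x = c + (x - c) := by abel
    rw [this, inner_add_left, hxc]
    have : (inner ℝ ((t * α - s * β) • e + (t * β + s * α) • f) (α • e + β • f) : ℝ) = t := by
      simp only [inner_add_left, inner_add_right, inner_smul_left, inner_smul_right, hee, hff,
        hef, hfe]
      simp
      linear_combination t * hαβ
    rw [this]; ring

private theorem unit_comb {n : ℕ} {e f : E n} (he : ‖e‖ = 1) (hf : ‖f‖ = 1)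
    (hef : (inner ℝ e f : ℝ) = 0) {α β : ℝ} (hαβ : α ^ 2 + β ^ 2 = 1) :
    ‖α • e + β • f‖ = 1 := by
  have hee : (inner ℝ e e : ℝ) = 1 := by rw [real_inner_self_eq_norm_sq, he]; norm_num
  have hff : (inner ℝ f f : ℝ) = 1 := by rw [real_inner_self_eq_norm_sq, hf]; norm_num
  have hfe : (inner ℝ f e : ℝ) = 0 := by rw [real_inner_comm]; exact hef
  have h2 : ‖α • e + β • f‖ ^ 2 = 1 := by
    rw [← real_inner_self_eq_norm_sq]
    simp only [inner_add_left, inner_add_right, inner_smul_left, inner_smul_right, hee, hff,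
        hef, hfe]
    simp
    linear_combination hαβ
  have h3 : 0 ≤ ‖α • e + β • f‖ := norm_nonneg _
  nlinarith

theorem main {n k : ℕ} (hn : n = 2 * k + 4) (K : Set (E n)) (hconv : Convex ℝ K)
    (hcomp : IsCompact K) (hint : (interior K).Nonempty) (hC2 : C2Boundary K)
    (hrev : IsRevolution K) (hpoly : SurfPolyInt K) : IsEllipsoid K := by
  obtain ⟨c, e, he, hg⟩ := hrev
  obtain ⟨A, B, r, hr, hK⟩ := shape (by omega) K hconv hcomp hint c e he hg
  obtain ⟨f, hf, hef⟩ := exists_unit_orth (by omega : 2 ≤ n) e he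
  have hcl : IsClosed K := hcomp.isClosed
  -- step 1: `P`
  obtain ⟨P, hP⟩ : ∃ P : Polynomial ℝ, ∀ z ∈ Icc A B, P.eval z = r z ^ (2 * k + 2) := by
    obtain ⟨C₁, hC₁, hS⟩ := surfSec_eq hn K c e f he hf hef A B r hr hK 1 0 (by norm_num)
      (fun h => absurd rfl h)
    obtain ⟨Q, hQ⟩ := hpoly ((1 : ℝ) • e + (0 : ℝ) • f)
      (unit_comb he hf hef (by norm_num))
    set u : E n := (1 : ℝ) • e + (0 : ℝ) • f with hu
    have hB := Bk_pos k
    refine ⟨Polynomial.C (1 / (C₁ * Bk k)) *
      Q.comp (Polynomial.X + Polynomial.C (inner ℝ c u)), ?_⟩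
    have hopen : ∀ t ∈ Ioo A B, (Polynomial.C (1 / (C₁ * Bk k)) *
      Q.comp (Polynomial.X + Polynomial.C (inner ℝ c u))).eval t = r t ^ (2 * k + 2) := by
      intro t ht
      have hrt := hr.pos t ht
      have h1 := hS t (fun s _ => Or.inl (by simpa using ht))
      rw [Isec_axis k r A B t ht hrt] at h1
      have h2 := hQ (t + inner ℝ c u)
        (mem_section (t := t) (s := 0) he hf hef hr hK (by norm_num)
          (by simpa using Ioo_subset_Icc_self ht)
          (by unfold qsec; simp; positivity))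
      rw [h1, ← ENNReal.ofReal_mul hC₁.le] at h2
      have hpos : 0 < C₁ * (Bk k * r t ^ (2 * k + 2)) := by positivity
      have h3 : C₁ * (Bk k * r t ^ (2 * k + 2)) = Q.eval (t + inner ℝ c u) := by
        have hQpos : 0 < Q.eval (t + inner ℝ c u) := by
          have := ENNReal.ofReal_pos.2 hpos
          rw [h2] at this
          exact ENNReal.ofReal_pos.1 this
        exact (ENNReal.ofReal_eq_ofReal_iff hpos.le hQpos.le).1 h2
      simp only [Polynomial.eval_mul, Polynomial.eval_C, Polynomial.eval_comp,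
        Polynomial.eval_add, Polynomial.eval_X]
      rw [← h3]
      field_simp
    intro z hz
    have hcl : closure (Ioo A B) = Icc A B := closure_Ioo hr.hAB.ne
    have hcp : ContinuousOn (fun t => (Polynomial.C (1 / (C₁ * Bk k)) *
      Q.comp (Polynomial.X + Polynomial.C (inner ℝ c u))).eval t) (Icc A B) :=
      (Polynomial.continuous _).continuousOn
    have hcr : ContinuousOn (fun t => r t ^ (2 * k + 2)) (Icc A B) := hr.cont.pow _
    have := Set.EqOn.of_subset_closure (f := fun t => (Polynomial.C (1 / (C₁ * Bk k)) *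
      Q.comp (Polynomial.X + Polynomial.C (inner ℝ c u))).eval t)
      (g := fun t => r t ^ (2 * k + 2)) (s := Ioo A B) (t := Icc A B)
      (fun t ht => hopen t ht) hcp hcr Ioo_subset_Icc_self (by rw [hcl])
    exact this hz
  -- step 2: the poles
  have hrB : r B = 0 := pole_zero (k := k) (by omega) K hcl hC2 c e he A B r hr hK P hP
  have hrA : r A = 0 := by
    have := pole_zero (k := k) (by omega) K hcl hC2 c (-e) (by rw [norm_neg, he]) (-B) (-A)
      (fun z => r (-z)) hr.neg hK.neg (P.comp (-Polynomial.X))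
      (by
        intro z hz
        have h1 := hP (-z) ⟨by linarith [hz.2], by linarith [hz.1]⟩
        simpa [Polynomial.eval_comp] using h1)
    simpa using this
  have hprof : Prof k A B r P := { hr with rA := hrA, rB := hrB, hP := hP }
  obtain ⟨κ, hκ, hquad⟩ := quad_both (by omega) K hcl hC2 c e he A B r hr hK hrA hrB
  -- step 3: all directions
  have hall : ∀ α β : ℝ, α ^ 2 + β ^ 2 = 1 → β ≠ 0 → ∃ Q : Polynomial ℝ, ∀ t : ℝ,
      (∃ s, t * α - s * β ∈ Ioo A B ∧ 0 < qsec r α β t s) →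
      Isec k r A B α β t = ENNReal.ofReal (Q.eval t) := by
    intro α β hαβ hβ
    obtain ⟨C₁, hC₁, hS⟩ := surfSec_eq hn K c e f he hf hef A B r hr hK α β hαβ
      (fun _ z hz => (hprof.analytic hz).contDiffAt)
    obtain ⟨Q, hQ⟩ := hpoly (α • e + β • f) (unit_comb he hf hef hαβ)
    refine ⟨Polynomial.C (1 / C₁) *
      Q.comp (Polynomial.X + Polynomial.C (inner ℝ c (α • e + β • f))), ?_⟩
    rintro t ⟨s, hs, hq⟩
    have h1 := hS t (by
      intro s' hs'
      by_cases h : t * α - s' * β ∈ Ioo A B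
      · exact Or.inl h
      · right
        have h' : t * α - s' * β = A ∨ t * α - s' * β = B := by
          by_contra hcon
          push Not at hcon
          exact h ⟨lt_of_le_of_ne hs'.1 (Ne.symm hcon.1), lt_of_le_of_ne hs'.2 hcon.2⟩
        rcases h' with h' | h' <;> rw [h'] <;> assumption)
    have h2 := hQ (t + inner ℝ c (α • e + β • f))
      (mem_section (t := t) (s := s) he hf hef hr hK hαβ (Ioo_subset_Icc_self hs) hq.le)
    rw [h1] at h2
    simp only [Polynomial.eval_mul, Polynomial.eval_C, Polynomial.eval_comp,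
        Polynomial.eval_add, Polynomial.eval_X]
    rw [ENNReal.ofReal_mul (by positivity), ← h2, ← mul_assoc, ← ENNReal.ofReal_mul (by positivity)]
    rw [one_div, inv_mul_cancel₀ hC₁.ne', ENNReal.ofReal_one, one_mul]
  -- step 4: conclusion
  obtain ⟨κ', hκ'⟩ := core hprof κ hκ hquad hall
  exact ellipsoid_of_quad K c e he A B r hr hK κ' hκ'

end Pool.Agent.MP_c8a077_gt
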