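import Pool.Agent.Lib.MP_c8a077_gt.B2b
import Pool.Agent.Lib.MP_c8a077_gt.B4

/-!
# Sanity check: the unit ball in even dimension satisfies all the hypotheses
-/

open MeasureTheory Set Metric Topology Filter

namespace Pool.Agent.MP_c8a077_gt

theorem ball_C2 {n : ℕ} (hn : 0 < n) : C2Boundary (closedBall (0 : E n) 1) := by
  have : Nonempty (Fin n) := ⟨⟨0, hn⟩⟩
  intro x hx
  rw [frontier_closedBall (0 : E n) one_ne_zero] at hx
  have hx1 : ‖x‖ = 1 := by simpa using hx
  refine ⟨fun y => ‖y‖ ^ 2 - 1, (contDiff_norm_sq ℝ).sub contDiff_const, ?_, ?_⟩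
  · intro h
    have h1 : HasFDerivAt (fun y : E n => ‖y‖ ^ 2 - 1) (2 • innerSL ℝ x) x :=
      (hasStrictFDerivAt_norm_sq x).hasFDerivAt.sub_const 1
    rw [h1.fderiv] at h
    have h2 := congrArg (fun l : E n →L[ℝ] ℝ => l x) h
    simp [hx1] at h2
  · refine Eventually.of_forall (fun y => ?_)
    rw [frontier_closedBall (0 : E n) one_ne_zero]
    simp only [mem_sphere_zero_iff_norm]
    constructor
    · intro h; rw [h]; norm_num
    · intro h
      have h0 := norm_nonneg y
      nlinarith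

theorem ball_rev {n : ℕ} (hn : 0 < n) : IsRevolution (closedBall (0 : E n) 1) := by
  refine ⟨0, EuclideanSpace.single ⟨0, hn⟩ 1, by simp, ?_⟩
  intro g _ x hx
  simpa using hx

theorem ball_desc {n : ℕ} (e : E n) (he : ‖e‖ = 1) :
    RevDesc (closedBall (0 : E n) 1) 0 e (-1) 1 (fun z => √(1 - z ^ 2)) := by
  intro x
  rw [sub_zero, mem_closedBall_zero_iff]
  have hee : (inner ℝ e e : ℝ) = 1 := by rw [real_inner_self_eq_norm_sq, he]; norm_num
  set s : ℝ := inner ℝ x e with hs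
  have h1 : ‖x‖ ^ 2 = s ^ 2 + ‖x - s • e‖ ^ 2 := by
    rw [← real_inner_self_eq_norm_sq, ← real_inner_self_eq_norm_sq]
    simp only [inner_sub_left, inner_sub_right, inner_smul_left, inner_smul_right, hee,
      real_inner_comm x e]
    rw [← hs]
    simp
    ring
  have h2 := norm_nonneg x
  have h3 := norm_nonneg (x - s • e)
  constructor
  · intro h
    have h4 : ‖x‖ ^ 2 ≤ 1 := by nlinarith
    refine ⟨⟨by nlinarith, by nlinarith⟩, ?_⟩
    apply Real.le_sqrt_of_sq_le
    linarith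
  · rintro ⟨⟨h4, h5⟩, h6⟩
    have h7 : 0 ≤ 1 - s ^ 2 := by nlinarith
    have h8 : ‖x - s • e‖ ^ 2 ≤ 1 - s ^ 2 := by
      have := pow_le_pow_left₀ h3 h6 2
      rwa [Real.sq_sqrt h7] at this
    nlinarith

theorem ball_prof : ProfHyp (-1) 1 (fun z : ℝ => √(1 - z ^ 2)) := by
  refine ⟨by norm_num, ?_, ?_, fun z _ => Real.sqrt_nonneg _, ?_⟩
  · refine ⟨convex_Icc _ _, fun x hx y hy a b ha hb hab => ?_⟩
    simp only [smul_eq_mul]
    have hx1 : 0 ≤ 1 - x ^ 2 := by nlinarith [hx.1, hx.2]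
    have hy1 : 0 ≤ 1 - y ^ 2 := by nlinarith [hy.1, hy.2]
    apply Real.le_sqrt_of_sq_le
    have h1 := Real.sq_sqrt hx1
    have h2 := Real.sq_sqrt hy1
    set u := √(1 - x ^ 2)
    set v := √(1 - y ^ 2)
    have h3 : u * v + x * y ≤ 1 := by nlinarith [sq_nonneg (u - v), sq_nonneg (x - y)]
    have hb' : b = 1 - a := by linarith
    subst hb'
    nlinarith [mul_nonneg ha hb]
  · fun_prop
  · intro z hz
    apply Real.sqrt_pos.2
    nlinarith [hz.1, hz.2]

theorem ball_poly {n k : ℕ} (hn : n = 2 * k + 4) : SurfPolyInt (closedBall (0 : E n) 1) := by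
  intro u hu
  -- a unit vector orthogonal to `u`
  obtain ⟨f, hf, huf⟩ : ∃ f : E n, ‖f‖ = 1 ∧ (inner ℝ u f : ℝ) = 0 := by
    have hu0 : u ≠ 0 := by
      intro h
      rw [h, norm_zero] at hu
      exact zero_ne_one hu
    have h1 : Module.finrank ℝ (Submodule.span ℝ {u} : Submodule ℝ (E n)) = 1 :=
      finrank_span_singleton hu0
    have h2 := (Submodule.span ℝ {u} : Submodule ℝ (E n)).finrank_add_finrank_orthogonal
    have h3 : Module.finrank ℝ (E n) = n := by simp
    have h4 : 0 < Module.finrank ℝ ((Submodule.span ℝ {u} : Submodule ℝ (E n))ᗮ) := by omega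
    have : Nontrivial ((Submodule.span ℝ {u} : Submodule ℝ (E n))ᗮ) :=
      Module.nontrivial_of_finrank_pos h4
    obtain ⟨y, hy⟩ := exists_ne (0 : (Submodule.span ℝ {u} : Submodule ℝ (E n))ᗮ)
    have hy' : (y : E n) ≠ 0 := by
      intro h; apply hy; exact Subtype.ext h
    refine ⟨(‖(y : E n)‖)⁻¹ • (y : E n), ?_, ?_⟩
    · rw [norm_smul, norm_inv, norm_norm, inv_mul_cancel₀ (norm_ne_zero_iff.2 hy')]
    · rw [inner_smul_right]
      have := (Submodule.mem_orthogonal _ _).1 y.2 u (Submodule.mem_span_singleton_self u)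
      rw [this, mul_zero]
  obtain ⟨C₁, hC₁, hS⟩ := surfSec_eq hn (closedBall (0 : E n) 1) 0 u f hu hf huf (-1) 1 _
    ball_prof (ball_desc u hu) 1 0 (by norm_num) (fun h => absurd rfl h)
  refine ⟨Polynomial.C (C₁ * Bk k) * (1 - Polynomial.X ^ 2) ^ (k + 1), ?_⟩
  rintro t ⟨x, hx, hxt⟩
  have hxt' : (inner ℝ x u : ℝ) = t := hxt
  have ht : t ∈ Icc (-1 : ℝ) 1 := by
    have h1 : |t| ≤ 1 := by
      rw [← hxt']
      calc |(inner ℝ x u : ℝ)| ≤ ‖x‖ * ‖u‖ := abs_real_inner_le_norm x u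
        _ ≤ 1 * 1 := by
          rw [hu]
          have : ‖x‖ ≤ 1 := by simpa using hx
          linarith
        _ = 1 := by norm_num
    exact abs_le.1 h1
  have h1 := hS t (by
    intro s hs
    simp only [mul_one, mul_zero, sub_zero] at hs ⊢
    by_cases h : t ∈ Ioo (-1 : ℝ) 1
    · exact Or.inl h
    · right
      have h' : t = -1 ∨ t = 1 := by
        by_contra hcon
        push Not at hcon
        exact h ⟨lt_of_le_of_ne ht.1 (Ne.symm hcon.1), lt_of_le_of_ne ht.2 hcon.2⟩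
      rcases h' with h' | h' <;> rw [h'] <;> simp)
  simp only [one_smul, zero_smul, add_zero, inner_zero_left] at h1
  rw [h1]
  simp only [Polynomial.eval_mul, Polynomial.eval_C, Polynomial.eval_pow, Polynomial.eval_sub,
    Polynomial.eval_one, Polynomial.eval_X]
  by_cases h : t ∈ Ioo (-1 : ℝ) 1
  · have hpos : 0 < 1 - t ^ 2 := by nlinarith [h.1, h.2]
    rw [Isec_axis k (fun z : ℝ => √(1 - z ^ 2)) (-1) 1 t h (Real.sqrt_pos.2 hpos), ← ENNReal.ofReal_mul hC₁.le]
    congr 1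
    have : √(1 - t ^ 2) ^ (2 * k + 2) = (1 - t ^ 2) ^ (k + 1) := by
      rw [show 2 * k + 2 = 2 * (k + 1) by ring, pow_mul, Real.sq_sqrt hpos.le]
    rw [this]; ring
  · have h' : t ^ 2 = 1 := by
      have h' : t = -1 ∨ t = 1 := by
        by_contra hcon
        push Not at hcon
        exact h ⟨lt_of_le_of_ne ht.1 (Ne.symm hcon.1), lt_of_le_of_ne ht.2 hcon.2⟩
      rcases h' with h' | h' <;> rw [h'] <;> norm_num
    have hempty : {s : ℝ | t * 1 - s * 0 ∈ Ioo (-1 : ℝ) 1 ∧
        0 < qsec (fun z : ℝ => √(1 - z ^ 2)) 1 0 t s} = ∅ := by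
      ext s
      simp only [mul_one, mul_zero, sub_zero, mem_empty_iff_false, iff_false]
      exact fun hs => h hs.1
    unfold Isec
    rw [hempty, h']
    simp

/-- The ball is covered by the theorem: the hypotheses are satisfiable in every even dimension. -/
theorem ball_all {n : ℕ} (hn : Even n) (h4 : 4 ≤ n) :
    Convex ℝ (closedBall (0 : E n) 1) ∧ IsCompact (closedBall (0 : E n) 1) ∧
    (interior (closedBall (0 : E n) 1)).Nonempty ∧ C2Boundary (closedBall (0 : E n) 1) ∧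
    IsRevolution (closedBall (0 : E n) 1) ∧ SurfPolyInt (closedBall (0 : E n) 1) := by
  obtain ⟨m, hm⟩ := hn
  refine ⟨convex_closedBall _ _, isCompact_closedBall _ _, ?_, ball_C2 (by omega),
    ball_rev (by omega), ball_poly (k := m - 2) (by omega)⟩
  exact ⟨0, interior_mono (ball_subset_closedBall) (by
    rw [isOpen_ball.interior_eq]; simp)⟩

end Pool.Agent.MP_c8a077_gt
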